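import Pool.Agent.Work.MP_d76268_co.Defs
import Pool.Agent.Work.MP_d76268_co.Stmts
import Pool.Agent.Work.MP_d76268_co.Pats

/-! Bundle of small proof modules (one section per former module). -/

section

/-!
# MP_d76268_co: lemmas on directed walks
-/

namespace BiP4

universe u

variable {V : Type u} {E E' : V → V → Prop}

@[simp] theorem seg_nil {a b : V} : Seg E a [] b ↔ E a b := by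
  simp [Seg]

@[simp] theorem seg_cons {a x b : V} {l : List V} :
    Seg E a (x :: l) b ↔ E a x ∧ Seg E x l b := by
  simp [Seg]

theorem seg_append {a b c : V} {l l' : List V} :
    Seg E a (l ++ b :: l') c ↔ Seg E a l b ∧ Seg E b l' c := by
  induction l generalizing a with
  | nil => simp
  | cons x l ih => simp [ih, and_assoc]

theorem Seg.append {a b c : V} {l l' : List V} (h : Seg E a l b) (h' : Seg E b l' c) :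
    Seg E a (l ++ b :: l') c := seg_append.2 ⟨h, h'⟩

theorem seg_concat {a b c : V} {l : List V} :
    Seg E a (l ++ [b]) c ↔ Seg E a l b ∧ E b c := by
  rw [seg_append, seg_nil]

/-- change the relation -/
theorem Seg.imp {a b : V} {l : List V} (h : Seg E a l b)
    (hE : ∀ x ∈ a :: l, ∀ y ∈ l ++ [b], E x y → E' x y) : Seg E' a l b := by
  induction l generalizing a with
  | nil => simpa using hE a (by simp) b (by simp) (by simpa using h)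
  | cons x l ih =>
    rw [seg_cons] at h ⊢
    refine ⟨hE a (by simp) x (by simp) h.1, ih h.2 ?_⟩
    intro z hz w hw
    exact hE z (List.mem_cons_of_mem _ hz) w (by
      simp only [List.cons_append, List.mem_cons]; exact Or.inr hw)

theorem Seg.mono {a b : V} {l : List V} (h : Seg E a l b) (hE : ∀ x y, E x y → E' x y) :
    Seg E' a l b := h.imp (fun x _ y _ hxy => hE x y hxy)

/-- cut at the first vertex in `P` (the starting vertex is not considered) -/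
theorem Seg.first {a b : V} {l : List V} (h : Seg E a l b) (P : V → Prop) (hb : P b) :
    ∃ (l' : List V) (c : V), Seg E a l' c ∧ P c ∧ (∀ x ∈ l', ¬ P x) ∧ (∀ x ∈ l', x ∈ l) ∧
      c ∈ l ++ [b] ∧ (l' ++ [c]) <+: (l ++ [b]) := by
  classical
  induction l generalizing a with
  | nil => exact ⟨[], b, h, hb, by simp, by simp, by simp, by simp⟩
  | cons x l ih =>
    rw [seg_cons] at h
    by_cases hx : P x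
    · exact ⟨[], x, by simpa using h.1, hx, by simp, by simp, by simp, by simp⟩
    · obtain ⟨l', c, h1, h2, h3, h4, h5, h6⟩ := ih h.2
      refine ⟨x :: l', c, by simp [h.1, h1], h2, ?_, ?_, ?_, ?_⟩
      · intro y hy
        rcases List.mem_cons.1 hy with rfl | hy
        · exact hx
        · exact h3 y hy
      · intro y hy
        rcases List.mem_cons.1 hy with rfl | hy
        · simp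
        · simp [h4 y hy]
      · simp only [List.cons_append, List.mem_cons]; exact Or.inr h5
      · simpa using h6

/-- cut at the last vertex in `P` (the final vertex is not considered) -/
theorem Seg.last {a b : V} {l : List V} (h : Seg E a l b) (P : V → Prop) (ha : P a) :
    ∃ (c : V) (l' : List V), Seg E c l' b ∧ P c ∧ (∀ x ∈ l', ¬ P x) ∧ (∀ x ∈ l', x ∈ l) ∧
      c ∈ a :: l ∧ (c :: l') <:+ (a :: l) := by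
  classical
  induction l generalizing a with
  | nil => exact ⟨a, [], h, ha, by simp, by simp, by simp, by simp⟩
  | cons x l ih =>
    rw [seg_cons] at h
    by_cases hx : ∃ y ∈ x :: l, P y
    · by_cases hPx : P x
      · obtain ⟨c, l', h1, h2, h3, h4, h5, h6⟩ := ih h.2 hPx
        exact ⟨c, l', h1, h2, h3, fun y hy => List.mem_cons_of_mem _ (h4 y hy),
          List.mem_cons_of_mem _ h5, h6.trans (List.suffix_cons _ _)⟩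
      · -- restart from a later vertex
        obtain ⟨y, hy, hPy⟩ := hx
        have hyl : y ∈ l := by
          rcases List.mem_cons.1 hy with rfl | hy
          · exact absurd hPy hPx
          · exact hy
        -- use a strong form: apply the induction hypothesis with the predicate enlarged at x
        have key : ∀ (l : List V) (x : V), Seg E x l b → (∃ y ∈ l, P y) →
            ∃ (c : V) (l' : List V), Seg E c l' b ∧ P c ∧ (∀ z ∈ l', ¬ P z) ∧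
              (∀ z ∈ l', z ∈ l) ∧ c ∈ l ∧ (c :: l') <:+ l := by
          intro l
          induction l with
          | nil => intro x _ ⟨y, hy, _⟩; simp at hy
          | cons w l ih2 =>
            intro x hs ⟨y, hy, hPy⟩
            rw [seg_cons] at hs
            by_cases hl : ∃ y ∈ l, P y
            · obtain ⟨c, l', h1, h2, h3, h4, h5, h6⟩ := ih2 w hs.2 hl
              exact ⟨c, l', h1, h2, h3, fun z hz => List.mem_cons_of_mem _ (h4 z hz),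
                List.mem_cons_of_mem _ h5, h6.trans (List.suffix_cons _ _)⟩
            · have hw : P w := by
                rcases List.mem_cons.1 hy with rfl | hy
                · exact hPy
                · exact absurd ⟨y, hy, hPy⟩ hl
              refine ⟨w, l, hs.2, hw, ?_, fun z hz => List.mem_cons_of_mem _ hz, by simp,
                List.suffix_rfl⟩
              intro z hz hPz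
              exact hl ⟨z, hz, hPz⟩
        obtain ⟨c, l', h1, h2, h3, h4, h5, h6⟩ := key l x h.2 ⟨y, hyl, hPy⟩
        exact ⟨c, l', h1, h2, h3, fun z hz => List.mem_cons_of_mem _ (h4 z hz),
          List.mem_cons_of_mem _ (List.mem_cons_of_mem _ h5),
          (h6.trans (List.suffix_cons _ _)).trans (List.suffix_cons _ _)⟩
    · refine ⟨a, x :: l, by simp [h.1, h.2], ha, ?_, fun y hy => hy, by simp,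
        List.suffix_rfl⟩
      intro y hy hPy
      exact hx ⟨y, hy, hPy⟩

/-- a walk contains a simple path (a simple closed walk through `a` if `a = b`) -/
theorem Seg.simple {a b : V} {l : List V} (h : Seg E a l b) :
    ∃ l' : List V, Seg E a l' b ∧ (∀ x ∈ l', x ∈ l) ∧ l'.Nodup ∧ a ∉ l' ∧ b ∉ l' := by
  classical
  -- take a shortest list
  have hex : ∃ n, ∃ l' : List V, l'.length = n ∧ Seg E a l' b ∧ (∀ x ∈ l', x ∈ l) :=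
    ⟨l.length, l, rfl, h, fun x hx => hx⟩
  obtain ⟨l', hn, hs, hsub⟩ := Nat.find_spec hex
  have hmin : ∀ l'' : List V, Seg E a l'' b → (∀ x ∈ l'', x ∈ l) → l'.length ≤ l''.length := by
    intro l'' h1 h2
    rw [hn]
    exact Nat.find_min' hex ⟨l'', rfl, h1, h2⟩
  have hna : a ∉ l' := by
    intro ha
    obtain ⟨p, q, rfl⟩ := List.append_of_mem ha
    rw [seg_append] at hs
    have := hmin q hs.2 (fun x hx => hsub x (by simp [hx]))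
    simp at this
    omega
  have hnb : b ∉ l' := by
    intro hb
    obtain ⟨p, q, rfl⟩ := List.append_of_mem hb
    rw [seg_append] at hs
    have := hmin p hs.1 (fun x hx => hsub x (by simp [hx]))
    simp at this
  refine ⟨l', hs, hsub, ?_, hna, hnb⟩
  by_contra hnd
  rw [List.nodup_iff_sublist] at hnd
  push Not at hnd
  obtain ⟨x, hx⟩ := hnd
  -- l' = p ++ x :: q ++ x :: r
  have hsplit : ∃ p q r, l' = p ++ x :: (q ++ x :: r) := by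
    have : ∀ (L : List V), List.Sublist [x, x] L → ∃ p q r, L = p ++ x :: (q ++ x :: r) := by
      intro L
      induction L with
      | nil => intro h; simp at h
      | cons y L ih =>
        intro h
        cases h with
        | cons _ h =>
          obtain ⟨p, q, r, rfl⟩ := ih h
          exact ⟨y :: p, q, r, rfl⟩
        | cons_cons _ h =>
          have hmem : x ∈ L := by simpa using h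
          obtain ⟨q, r, rfl⟩ := List.append_of_mem hmem
          exact ⟨[], q, r, rfl⟩
    exact this l' hx
  obtain ⟨p, q, r, rfl⟩ := hsplit
  rw [seg_append, seg_append] at hs
  have := hmin (p ++ x :: r) (seg_append.2 ⟨hs.1, hs.2.2⟩) (fun z hz => hsub z (by
    simp at hz ⊢
    tauto))
  simp at this
  omega

/-- walks give reachability inside a set -/
theorem Seg.reachIn {S : Set V} {a b : V} {l : List V} (h : Seg E a l b) (ha : a ∈ S)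
    (hb : b ∈ S) (hl : ∀ x ∈ l, x ∈ S) : ReachIn E S a b := by
  induction l generalizing a with
  | nil => exact Relation.ReflTransGen.single ⟨ha, hb, by simpa using h⟩
  | cons x l ih =>
    rw [seg_cons] at h
    have hx : x ∈ S := hl x (by simp)
    exact Relation.ReflTransGen.head ⟨ha, hx, h.1⟩
      (ih h.2 hx (fun y hy => hl y (by simp [hy])))

/-- reachability inside a set gives a walk -/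
theorem ReachIn.seg {S : Set V} {a b : V} (h : ReachIn E S a b) :
    a = b ∨ (a ∈ S ∧ b ∈ S ∧ ∃ l : List V, Seg E a l b ∧ ∀ x ∈ l, x ∈ S) := by
  induction h with
  | refl => exact Or.inl rfl
  | @tail b c _ hbc ih =>
    obtain ⟨hb, hc, hbc⟩ := hbc
    rcases ih with rfl | ⟨ha, _, l, hl, hS⟩
    · exact Or.inr ⟨hb, hc, [], by simpa using hbc, by simp⟩
    · refine Or.inr ⟨ha, hc, l ++ [b], seg_concat.2 ⟨hl, hbc⟩, ?_⟩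
      intro x hx
      rcases List.mem_append.1 hx with hx | hx
      · exact hS x hx
      · rw [List.mem_singleton.1 hx]; exact hb

/-- reachability inside a set, as a simple path -/
theorem ReachIn.simple {S : Set V} {a b : V} (h : ReachIn E S a b) (hab : a ≠ b) :
    ∃ l : List V, Seg E a l b ∧ (∀ x ∈ l, x ∈ S) ∧ l.Nodup ∧ a ∉ l ∧ b ∉ l := by
  rcases h.seg with h | ⟨_, _, l, hl, hS⟩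
  · exact absurd h hab
  · obtain ⟨l', h1, h2, h3, h4, h5⟩ := hl.simple
    exact ⟨l', h1, fun x hx => hS x (h2 x hx), h3, h4, h5⟩

theorem ReachIn.trans {S : Set V} {a b c : V} (h : ReachIn E S a b) (h' : ReachIn E S b c) :
    ReachIn E S a c := Relation.ReflTransGen.trans h h'

theorem ReachIn.mono {S S' : Set V} {a b : V} (h : ReachIn E S a b) (hS : S ⊆ S')
    (hE : ∀ x ∈ S, ∀ y ∈ S, E x y → E' x y) : ReachIn E' S' a b := by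
  induction h with
  | refl => exact Relation.ReflTransGen.refl
  | tail _ hbc ih => exact ih.tail ⟨hS hbc.1, hS hbc.2.1, hE _ hbc.1 _ hbc.2.1 hbc.2.2⟩

/-- the end of a walk that starts in a set closed under out-arcs is in the set -/
theorem Seg.closed {P : V → Prop} {a b : V} {l : List V} (h : Seg E a l b) (ha : P a)
    (hP : ∀ x, P x → ∀ y, E x y → P y) : P b ∧ ∀ x ∈ l, P x := by
  induction l generalizing a with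
  | nil => exact ⟨hP a ha b (by simpa using h), by simp⟩
  | cons x l ih =>
    rw [seg_cons] at h
    have hx := hP a ha x h.1
    obtain ⟨h1, h2⟩ := ih h.2 hx
    refine ⟨h1, ?_⟩
    intro y hy
    rcases List.mem_cons.1 hy with rfl | hy
    · exact hx
    · exact h2 y hy

/-- a closed walk without loops is a cycle after simplification -/
theorem Seg.cyc {a : V} {l : List V} (h : Seg E a l a) :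
    ∃ l', Cyc E a l' ∧ ∀ x ∈ l', x ∈ l := by
  obtain ⟨l', h1, h2, h3, h4, _⟩ := h.simple
  exact ⟨l', ⟨h1, List.nodup_cons.2 ⟨h4, h3⟩⟩, h2⟩

/-- rotation of a cycle -/
theorem Cyc.rotate {a x : V} {l : List V} (h : Cyc E a l) (hx : x ∈ a :: l) :
    ∃ l', Cyc E x l' ∧ (x :: l').Perm (a :: l) := by
  rcases List.mem_cons.1 hx with rfl | hx
  · exact ⟨l, h, List.Perm.refl _⟩
  · obtain ⟨p, q, rfl⟩ := List.append_of_mem hx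
    obtain ⟨h1, h2⟩ := h
    rw [seg_append] at h1
    have hp : (x :: (q ++ a :: p)).Perm (a :: (p ++ x :: q)) := by
      have h3 : (x :: q ++ a :: p).Perm (a :: p ++ x :: q) := List.perm_append_comm
      simpa using h3
    exact ⟨q ++ a :: p, ⟨seg_append.2 ⟨h1.2, h1.1⟩, hp.nodup_iff.2 h2⟩, hp⟩

/-- A finite nonempty set in which every vertex has an out-neighbour contains a cycle. -/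
theorem exists_cyc [Finite V] (S : Set V) (hne : S.Nonempty)
    (hout : ∀ x ∈ S, ∃ y ∈ S, E x y) : ∃ a l, Cyc E a l ∧ ∀ x ∈ a :: l, x ∈ S := by
  classical
  choose! f hf using hout
  obtain ⟨s, hs⟩ := hne
  have hiter : ∀ n, f^[n] s ∈ S := by
    intro n
    induction n with
    | zero => exact hs
    | succ n ih => rw [Function.iterate_succ_apply']; exact (hf _ ih).1
  have hseg : ∀ n m, ∃ l, Seg E (f^[n] s) l (f^[n + m + 1] s) ∧ ∀ x ∈ l, x ∈ S := by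
    intro n m
    induction m with
    | zero =>
      refine ⟨[], ?_, by simp⟩
      rw [seg_nil, add_zero, Function.iterate_succ_apply']
      exact (hf _ (hiter n)).2
    | succ m ih =>
      obtain ⟨l, h1, h2⟩ := ih
      refine ⟨l ++ [f^[n + m + 1] s], ?_, ?_⟩
      · rw [seg_concat]
        refine ⟨h1, ?_⟩
        have : n + (m + 1) + 1 = (n + m + 1) + 1 := by ring
        rw [this, Function.iterate_succ_apply' f (n + m + 1)]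
        exact (hf _ (hiter _)).2
      · intro x hx
        rcases List.mem_append.1 hx with hx | hx
        · exact h2 x hx
        · rw [List.mem_singleton.1 hx]; exact hiter _
  obtain ⟨n, m, hnm, heq⟩ := Finite.exists_ne_map_eq_of_infinite (fun n : ℕ => f^[n] s)
  wlog hlt : n < m generalizing n m
  · exact this m n (Ne.symm hnm) heq.symm (lt_of_le_of_ne (not_lt.1 hlt) (Ne.symm hnm))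
  obtain ⟨l, h1, h2⟩ := hseg n (m - n - 1)
  have hm : n + (m - n - 1) + 1 = m := by omega
  rw [hm] at h1
  have heq' : f^[n] s = f^[m] s := heq
  rw [← heq'] at h1
  obtain ⟨l', h3, h4⟩ := h1.cyc
  refine ⟨f^[n] s, l', h3, ?_⟩
  intro x hx
  rcases List.mem_cons.1 hx with rfl | hx
  · exact hiter n
  · exact h2 x (h4 x hx)

/-- reversed walks -/
theorem Seg.reverse {a b : V} {l : List V} (h : Seg E a l b) :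
    Seg (fun x y => E y x) b l.reverse a := by
  induction l generalizing a with
  | nil => simpa using h
  | cons x l ih =>
    rw [seg_cons] at h
    rw [List.reverse_cons, seg_concat]
    exact ⟨ih h.2, h.1⟩

/-- A finite nonempty set in which every vertex has an in-neighbour contains a cycle. -/
theorem exists_cyc' [Finite V] (S : Set V) (hne : S.Nonempty)
    (hin : ∀ x ∈ S, ∃ y ∈ S, E y x) : ∃ a l, Cyc E a l ∧ ∀ x ∈ a :: l, x ∈ S := by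
  obtain ⟨a, l, ⟨h1, h2⟩, h3⟩ := exists_cyc (E := fun x y => E y x) S hne hin
  refine ⟨a, l.reverse, ⟨h1.reverse, ?_⟩, ?_⟩
  · simpa using h2
  · intro x hx
    apply h3
    simpa using hx

theorem nodupB_iff {l : List ℕ} : nodupB l = true ↔ l.Nodup := by
  induction l with
  | nil => simp [nodupB]
  | cons a l ih => simp [nodupB, ih]

end BiP4

end

section

/-!
# MP_d76268_co: bound on the number of vertices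
-/

namespace BiP4

namespace BoundX

theorem chain_range {V : Type} (E : V → V → Prop) (g : ℕ → V) (hg : ∀ i, E (g (i + 1)) (g i)) :
    ∀ n : ℕ, List.IsChain E ((List.range (n + 1)).reverse.map g) := by
  intro n
  induction n with
  | zero => simp
  | succ n ih =>
    rw [List.range_succ, List.reverse_append, List.reverse_singleton, List.singleton_append,
      List.map_cons]
    rw [List.range_succ, List.reverse_append, List.reverse_singleton, List.singleton_append,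
      List.map_cons] at ih ⊢
    exact List.IsChain.cons_cons (hg n) ih

/-- A finite nonempty set in which every element has an in-neighbour contains a cycle. -/
theorem cyc_in {V : Type} [Fintype V] (E : V → V → Prop) (S : Set V) (hne : S.Nonempty)
    (hS : ∀ u ∈ S, ∃ w ∈ S, E w u) :
    ∃ (a : V) (l : List V), Cyc E a l ∧ ∀ x ∈ a :: l, x ∈ S := by
  classical
  obtain ⟨u0, hu0⟩ := hne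
  choose! f hfS hfE using hS
  have hit : ∀ (n : ℕ) (x : V), x ∈ S → f^[n] x ∈ S := by
    intro n
    induction n with
    | zero => intro x hx; exact hx
    | succ n ih => intro x hx; exact ih _ (hfS x hx)
  -- a repetition
  obtain ⟨i, j, hij, hfij⟩ := Finite.exists_ne_map_eq_of_infinite (fun n : ℕ => f^[n] u0)
  obtain ⟨x, hx, hper⟩ : ∃ x ∈ S, x ∈ Function.periodicPts f := by
    rcases lt_or_gt_of_ne hij with h | h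
    · refine ⟨f^[i] u0, hit i u0 hu0, j - i, by omega, ?_⟩
      show f^[j - i] (f^[i] u0) = f^[i] u0
      rw [← Function.iterate_add_apply, show j - i + i = j by omega]
      exact hfij.symm
    · refine ⟨f^[j] u0, hit j u0 hu0, i - j, by omega, ?_⟩
      show f^[i - j] (f^[j] u0) = f^[j] u0
      rw [← Function.iterate_add_apply, show i - j + j = i by omega]
      exact hfij
  set p := Function.minimalPeriod f x with hp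
  have hp0 : 0 < p := Function.minimalPeriod_pos_of_mem_periodicPts hper
  set g : ℕ → V := fun i => f^[i] x with hg
  have hgE : ∀ i, E (g (i + 1)) (g i) := by
    intro i
    simp only [hg, Function.iterate_succ_apply']
    exact hfE _ (hit i x hx)
  have hgp : g p = x := Function.iterate_minimalPeriod
  have hg0 : g 0 = x := rfl
  obtain ⟨q, hq⟩ : ∃ q, p = q + 1 := ⟨p - 1, by omega⟩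
  refine ⟨x, ((List.range q).map Nat.succ).reverse.map g, ⟨?_, ?_⟩, ?_⟩
  · have h1 := chain_range E g hgE p
    have h2 : (List.range (p + 1)).reverse.map g =
        x :: (((List.range q).map Nat.succ).reverse.map g ++ [x]) := by
      rw [List.range_succ, List.reverse_append, List.reverse_singleton, List.singleton_append,
        List.map_cons, hgp, hq, List.range_succ_eq_map, List.reverse_cons, List.map_append,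
        List.map_singleton, hg0]
    rw [h2] at h1
    exact h1
  · have hinj : ∀ a < p, ∀ b < p, g a = g b → a = b := by
      intro a ha b hb hab
      exact Function.iterate_injOn_Iio_minimalPeriod ha hb hab
    have h3 : (0 :: ((List.range q).map Nat.succ).reverse).Nodup := by
      rw [List.nodup_cons]
      refine ⟨by simp, ?_⟩
      rw [List.nodup_reverse]
      exact (List.nodup_range).map Nat.succ_injective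
    have h4 : (x :: ((List.range q).map Nat.succ).reverse.map g) =
        (0 :: ((List.range q).map Nat.succ).reverse).map g := rfl
    rw [h4]
    refine List.Nodup.map_on ?_ h3
    intro a ha b hb hab
    refine hinj a ?_ b ?_ hab
    · simp only [List.mem_cons, List.mem_reverse, List.mem_map, List.mem_range] at ha
      rcases ha with rfl | ⟨c, hc, rfl⟩
      · exact hp0
      · omega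
    · simp only [List.mem_cons, List.mem_reverse, List.mem_map, List.mem_range] at hb
      rcases hb with rfl | ⟨c, hc, rfl⟩
      · exact hp0
      · omega
  · intro y hy
    rw [List.mem_cons] at hy
    rcases hy with rfl | hy
    · exact hx
    · rw [List.mem_map] at hy
      obtain ⟨i, _, rfl⟩ := hy
      exact hit i x hx

end BoundX

open BoundX in
theorem bound : StmtBound := by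
  classical
  intro V _ _ E _ r k hr hirr hout hin hcom hcyc
  set Nm : V → Finset V := fun v => Finset.univ.filter (fun w => E w v) with hNm
  have hmem : ∀ v w, w ∈ Nm v ↔ E w v := by
    intro v w
    simp [hNm]
  have hne : ∀ v, (Nm v).Nonempty := by
    intro v
    obtain ⟨w, hw⟩ := hin v
    exact ⟨w, (hmem v w).2 hw⟩
  -- a cycle in every in-neighbourhood
  have hcy : ∀ v, ∃ (a : V) (l : List V), Cyc E a l ∧ ∀ x ∈ a :: l, x ∈ Nm v := by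
    intro v
    refine cyc_in E (Nm v : Set V) (hne v) ?_
    intro u hu
    obtain ⟨w, hw1, hw2⟩ := hcom u v ((hmem v u).1 hu)
    exact ⟨w, (hmem v w).2 hw2, hw1⟩
  set A : Finset V := Finset.univ.filter (fun v => (Nm v).card ≤ 2 * r) with hA
  -- double counting
  have hdc : ∑ v, (Nm v).card = Fintype.card V * r := by
    have h1 : ∑ v, (Nm v).card = ∑ w, (Finset.univ.filter (fun y => E w y)).card := by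
      simp only [hNm]
      have := Finset.sum_card_bipartiteAbove_eq_sum_card_bipartiteBelow (s := Finset.univ)
        (t := Finset.univ) (r := fun w v : V => E w v)
      simp only [Finset.bipartiteAbove, Finset.bipartiteBelow] at this
      exact this.symm
    rw [h1, Finset.sum_congr rfl (fun x _ => hout x)]
    simp
  have hAn : Fintype.card V ≤ 2 * A.card := by
    have h1 : (Finset.univ.filter (fun v => ¬ (Nm v).card ≤ 2 * r)).card * (2 * r + 1) ≤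
        Fintype.card V * r := by
      rw [← hdc, ← smul_eq_mul, ← Finset.sum_const]
      refine (Finset.sum_le_sum (f := fun _ => 2 * r + 1) (g := fun v => (Nm v).card) ?_).trans ?_
      · intro v hv
        rw [Finset.mem_filter] at hv
        omega
      · exact Finset.sum_le_sum_of_subset (Finset.filter_subset _ _)
    have h2 : A.card + (Finset.univ.filter (fun v => ¬ (Nm v).card ≤ 2 * r)).card =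
        Fintype.card V := by
      rw [hA, Finset.card_filter_add_card_filter_not, Finset.card_univ]
    set c := (Finset.univ.filter (fun v => ¬ (Nm v).card ≤ 2 * r)).card
    rw [← h2] at h1 ⊢
    nlinarith
  -- a maximal family
  obtain ⟨M, hM, hMmax⟩ := Finset.exists_max_image
    (A.powerset.filter (fun M => ∀ u ∈ M, ∀ v ∈ M, u ≠ v → Disjoint (Nm u) (Nm v)))
    (fun M => M.card) ⟨∅, by simp⟩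
  rw [Finset.mem_filter, Finset.mem_powerset] at hM
  obtain ⟨hMA, hMd⟩ := hM
  have hMk : M.card ≤ k := by
    by_contra hcon
    apply hcyc
    obtain ⟨M', hM'M, hM'c⟩ := Finset.exists_subset_card_eq (show k + 1 ≤ M.card by omega)
    choose a l hcl hal using hcy
    let e := (Finset.equivFinOfCardEq hM'c).symm
    refine ⟨fun i => a (e i).1, fun i => l (e i).1, fun i => hcl _, ?_⟩
    intro i j hij x hx hx'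
    have hne' : (e i).1 ≠ (e j).1 := by
      intro h
      exact hij (e.injective (Subtype.ext h))
    have hd := hMd (e i).1 (hM'M (e i).2) (e j).1 (hM'M (e j).2) hne'
    exact (Finset.disjoint_left.1 hd) (hal _ x hx) (hal _ x hx')
  -- every element of A is close to the family
  have hcover : A ⊆ M.biUnion (fun v => (Nm v).biUnion
      (fun x => Finset.univ.filter (fun y => E x y))) := by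
    intro v hv
    have h1 : ∃ u ∈ M, ¬ Disjoint (Nm u) (Nm v) := by
      by_contra hcon
      push Not at hcon
      have hvM : v ∉ M := by
        intro hvM
        have := hcon v hvM
        rw [disjoint_self] at this
        exact (hne v).ne_empty this
      have h2 := hMmax (insert v M) (by
        rw [Finset.mem_filter, Finset.mem_powerset]
        refine ⟨Finset.insert_subset hv hMA, ?_⟩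
        intro u hu w hw huw
        rw [Finset.mem_insert] at hu hw
        rcases hu with rfl | hu <;> rcases hw with rfl | hw
        · exact absurd rfl huw
        · exact (hcon w hw).symm
        · exact hcon u hu
        · exact hMd u hu w hw huw)
      simp only [Finset.card_insert_of_notMem hvM] at h2
      omega
    obtain ⟨u, hu, hnd⟩ := h1
    rw [Finset.not_disjoint_iff] at hnd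
    obtain ⟨x, hx1, hx2⟩ := hnd
    rw [Finset.mem_biUnion]
    refine ⟨u, hu, ?_⟩
    rw [Finset.mem_biUnion]
    exact ⟨x, hx1, by rw [Finset.mem_filter]; exact ⟨Finset.mem_univ _, (hmem v x).1 hx2⟩⟩
  have hAcard : A.card ≤ k * (2 * r * r) := by
    refine (Finset.card_le_card hcover).trans (Finset.card_biUnion_le.trans ?_)
    have h1 : ∀ v ∈ M, ((Nm v).biUnion (fun x => Finset.univ.filter (fun y => E x y))).card ≤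
        2 * r * r := by
      intro v hv
      refine Finset.card_biUnion_le.trans ?_
      rw [Finset.sum_congr rfl (fun x _ => hout x), Finset.sum_const, smul_eq_mul]
      have h2 : (Nm v).card ≤ 2 * r := by
        have := hMA hv
        rw [hA, Finset.mem_filter] at this
        exact this.2
      exact Nat.mul_le_mul_right _ h2
    refine (Finset.sum_le_sum h1).trans ?_
    rw [Finset.sum_const, smul_eq_mul]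
    exact Nat.mul_le_mul_right _ hMk
  calc Fintype.card V ≤ 2 * A.card := hAn
    _ ≤ 2 * (k * (2 * r * r)) := Nat.mul_le_mul_left _ hAcard
    _ = 4 * k * r ^ 2 := by ring

end BiP4

end

section

/-! # MP_d76268_co: certificate for the run A (generated) -/

namespace BiP4

def nodesA : List Node := [
  ⟨⟨3, [(0, 0, 0), (1, 1, 0), (0, 1, 1), (2, 2, 0)]⟩, 1, [0], [
    .spec 0 ⟨[0, 1], [[0], [2], [4], [1]]⟩,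
    .spec 5 ⟨[0, 1, 2], [[0], [1], [2], [4], [3]]⟩,
    .spec 2 ⟨[1, 3, 0, 2], [[1], [4], [0], [5], [2], [3]]⟩,
    .spec 4 ⟨[0, 3, 2], [[0], [4, 5], [2], [3]]⟩,
    .spec 5 ⟨[0, 1, 3], [[0], [1], [2], [5], [4, 3]]⟩]⟩]

theorem okA : okAll specsA nodesA = true := by decide +kernel

end BiP4

end

section

/-! # MP_d76268_co: certificate for the run B (generated) -/

namespace BiP4

def nodesB : List Node := [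
  ⟨⟨3, [(0, 0, 0), (1, 1, 0), (0, 1, 1), (1, 2, 4), (2, 2, 0)]⟩, 2, [0], [
    .spec 0 ⟨[0, 1], [[0], [2], [3, 5], [1]]⟩,
    .spec 0 ⟨[1, 2], [[1], [3], [5], [4]]⟩,
    .spec 0 ⟨[1, 2], [[1], [3], [6, 5, 2], [4]]⟩,
    .spec 2 ⟨[2, 3, 1, 0], [[4], [5], [1], [6], [3], [0]]⟩,
    .spec 0 ⟨[1, 2], [[1], [3], [6, 5], [4]]⟩,
    .spec 5 ⟨[0, 1, 3], [[0], [1], [2], [3], [5, 6]]⟩]⟩]

theorem okB : okAll specsB nodesB = true := by decide +kernel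

end BiP4

end

section

/-! # MP_d76268_co: certificate for the run C1 (generated) -/

namespace BiP4

def nodesC1 : List Node := [
  ⟨⟨5, [(0, 1, 0), (1, 0, 0), (2, 3, 0), (3, 2, 0), (0, 2, 1), (3, 1, 0), (4, 4, 0)]⟩, 2, [6], [
    .spec 0 ⟨[0, 2], [[0, 1], [4], [7], [2, 3]]⟩,
    .spec 4 ⟨[0, 1, 2, 4], [[0], [1], [2, 3], [4], [7], [6]]⟩,
    .spec 5 ⟨[0, 1, 2, 3, 4], [[0], [1], [2], [3], [4], [5], [7], [6]]⟩,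
    .spec 4 ⟨[0, 5, 2, 4], [[0], [7, 1], [2, 3], [4], [8], [6]]⟩,
    .spec 4 ⟨[0, 5, 2, 4], [[0, 1], [7], [2, 3], [4], [8], [6]]⟩,
    .spec 4 ⟨[0, 1, 2, 4], [[0], [1], [8, 7], [4], [2, 5], [6]]⟩,
    .spec 1 ⟨[0, 1, 5, 2, 4], [[0], [1], [7], [8], [4], [2, 5], [6]]⟩,
    .spec 4 ⟨[0, 1, 2, 4], [[0], [1], [2, 3], [4], [8, 7], [6]]⟩,
    .spec 5 ⟨[0, 1, 2, 3, 5], [[0], [1], [2], [3], [4], [5], [8], [7, 6]]⟩]⟩]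

theorem okC1 : okAll specsC nodesC1 = true := by decide +kernel

end BiP4

end

section

/-! # MP_d76268_co: certificate for the run C2 (generated) -/

namespace BiP4

def nodesC2 : List Node := [
  ⟨⟨4, [(0, 0, 0), (1, 2, 0), (2, 1, 0), (0, 1, 1), (2, 0, 0), (3, 3, 0)]⟩, 1, [0], [
    .spec 0 ⟨[0, 1], [[0], [3], [6], [1, 2]]⟩,
    .spec 6 ⟨[0, 1, 2, 3], [[0], [1], [2], [3], [4], [6], [5]]⟩,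
    .spec 4 ⟨[0, 4, 1, 3], [[0], [6], [1, 2], [3], [7], [5]]⟩,
    .spec 0 ⟨[0, 1], [[0], [3], [1, 4], [7, 6]]⟩,
    .spec 2 ⟨[0, 4, 1, 3], [[0], [6], [7], [3], [1, 4], [5]]⟩,
    .spec 0 ⟨[0, 1], [[0], [3], [7, 6], [1, 2]]⟩,
    .spec 6 ⟨[0, 1, 2, 4], [[0], [1], [2], [3], [4], [7], [6, 5]]⟩]⟩]

theorem okC2 : okAll specsC nodesC2 = true := by decide +kernel

end BiP4

end

section

/-! # MP_d76268_co: certificate for the run D (generated) -/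

namespace BiP4

def nodesD : List Node := [
  ⟨⟨4, [(0, 0, 0), (1, 2, 2), (2, 1, 0), (0, 1, 1), (2, 0, 0), (1, 3, 4), (3, 3, 0)]⟩, 3, [0], [
    .spec 0 ⟨[0, 1], [[0], [3], [5, 7], [1, 2]]⟩,
    .spec 0 ⟨[0, 1], [[0], [3], [1, 4], [5, 7]]⟩,
    .spec 0 ⟨[0, 3], [[0], [3, 5], [7, 4], [6]]⟩,
    .spec 0 ⟨[1, 3], [[1, 2], [5], [8, 7, 3], [6]]⟩,
    .spec 0 ⟨[0, 3], [[0], [3, 5], [8, 7, 4], [6]]⟩,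
    .spec 0 ⟨[0, 1], [[0], [3], [1, 4], [5, 8, 7]]⟩,
    .spec 0 ⟨[1, 3], [[1, 2], [5], [8, 7], [6]]⟩,
    .spec 0 ⟨[0, 1], [[0], [3], [5, 8, 7], [1, 2]]⟩,
    .spec 7 ⟨[0, 1, 2, 4], [[0], [1], [2], [3], [4], [5], [7, 8]]⟩]⟩]

theorem okD : okAll specsD nodesD = true := by decide +kernel

end BiP4

end

section

/-! # MP_d76268_co: certificate for the run E2 (generated) -/

namespace BiP4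

def nodesE2 : List Node := [
  ⟨⟨6, [(0, 2, 0), (1, 0, 0), (1, 4, 0), (2, 0, 0), (2, 3, 0), (3, 2, 3), (3, 4, 1), (4, 1, 2), (4, 5, 4), (5, 1, 0), (5, 5, 0)]⟩, 0, [10], [
    .spec 0 ⟨[0, 1], [[0, 3], [11], [1], [2, 7]]⟩,
    .spec 0 ⟨[0, 5], [[0, 3], [11, 6, 8], [9, 1], [10]]⟩,
    .spec 0 ⟨[0, 5], [[0, 3], [11, 8], [9, 1], [10]]⟩,
    .spec 0 ⟨[0, 5], [[0, 3], [11], [9, 1], [10]]⟩,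
    .spec 0 ⟨[0, 2], [[12, 11], [0], [3], [4, 5]]⟩,
    .spec 0 ⟨[0, 5], [[0, 3], [12, 11, 8], [9, 1], [10]]⟩,
    .spec 0 ⟨[0, 5], [[12, 11], [0, 4, 6, 8], [9, 1], [10]]⟩,
    .spec 0 ⟨[0, 5], [[0, 3], [12, 11, 6, 8], [9, 1], [10]]⟩,
    .spec 8 ⟨[3, 6, 4, 1, 5], [[5], [11, 4], [7], [2], [6], [1, 12], [8], [10]]⟩,
    .spec 0 ⟨[0, 5], [[0, 3], [12, 11, 8], [9, 1], [10]]⟩,
    .spec 0 ⟨[0, 1], [[0, 3], [12, 11], [1], [2, 8, 9]]⟩,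
    .spec 0 ⟨[0, 5], [[0, 3], [12, 11], [9, 1], [10]]⟩,
    .spec 0 ⟨[0, 1], [[0, 3], [12, 11], [1], [2, 7]]⟩,
    .spec 0 ⟨[0, 1], [[0, 3], [12, 11, 9], [1], [2, 7]]⟩]⟩,
  ⟨⟨5, [(0, 2, 0), (1, 0, 0), (1, 3, 0), (2, 0, 3), (2, 3, 1), (3, 1, 2), (3, 4, 4), (4, 1, 0), (4, 4, 0)]⟩, 0, [8], [
    .spec 0 ⟨[0, 1], [[0, 3], [9], [1], [2, 5]]⟩,
    .spec 0 ⟨[0, 4], [[0, 3], [9, 6], [7, 1], [8]]⟩,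
    .spec 0 ⟨[0, 4], [[0, 3], [9], [7, 1], [8]]⟩,
    .node 0 ⟨[5, 1, 0, 2, 3, 4], [[9], [1], [2], [10], [0], [3], [4], [5], [6], [7], [8]]⟩,
    .spec 0 ⟨[0, 4], [[0, 3], [10, 9, 6], [7, 1], [8]]⟩,
    .spec 0 ⟨[0, 4], [[10, 9], [0, 4, 6], [7, 1], [8]]⟩,
    .spec 0 ⟨[0, 4], [[0, 3], [10, 9, 6], [7, 1], [8]]⟩,
    .spec 0 ⟨[0, 1], [[0, 3], [10, 9], [1], [2, 6, 7]]⟩,
    .spec 0 ⟨[0, 4], [[0, 3], [10, 9], [7, 1], [8]]⟩,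
    .spec 0 ⟨[0, 1], [[0, 3], [10, 9], [1], [2, 5]]⟩,
    .spec 0 ⟨[0, 1], [[0, 3], [10, 9, 7], [1], [2, 5]]⟩]⟩,
  ⟨⟨7, [(0, 2, 0), (1, 0, 0), (1, 5, 0), (2, 0, 0), (2, 3, 0), (3, 2, 3), (3, 5, 1), (4, 1, 2), (5, 4, 2), (5, 6, 4), (6, 1, 0), (6, 4, 0), (6, 6, 0)]⟩, 0, [12], [
    .spec 0 ⟨[0, 1], [[0, 3], [13], [1], [2, 8, 7]]⟩,
    .spec 0 ⟨[0, 6], [[0, 3], [13, 6, 9], [10, 1], [12]]⟩,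
    .spec 0 ⟨[0, 1], [[0, 3], [13, 7], [1], [2, 9, 10]]⟩,
    .spec 0 ⟨[0, 6], [[0, 3], [13, 9], [10, 1], [12]]⟩,
    .spec 0 ⟨[0, 6], [[0, 3], [13], [10, 1], [12]]⟩,
    .spec 0 ⟨[0, 2], [[14, 13], [0], [3], [4, 5]]⟩,
    .spec 0 ⟨[0, 6], [[0, 3], [14, 13, 9], [10, 1], [12]]⟩,
    .spec 0 ⟨[0, 6], [[14, 13], [0, 4, 6, 9], [10, 1], [12]]⟩,
    .spec 0 ⟨[0, 6], [[0, 3], [14, 13, 6, 9], [10, 1], [12]]⟩,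
    .spec 8 ⟨[3, 7, 5, 1, 6], [[5], [13, 4], [8, 7], [2], [6], [1, 14], [9], [12]]⟩,
    .spec 0 ⟨[0, 6], [[0, 3], [14, 13, 9], [10, 1], [12]]⟩,
    .spec 0 ⟨[0, 1], [[0, 3], [14, 13], [1], [2, 9, 10]]⟩,
    .spec 0 ⟨[0, 1], [[0, 3], [14, 13, 7], [1], [2, 9, 10]]⟩,
    .spec 0 ⟨[0, 6], [[0, 3], [14, 13], [10, 1], [12]]⟩,
    .spec 0 ⟨[0, 1], [[0, 3], [14, 13], [1], [2, 8, 7]]⟩,
    .spec 0 ⟨[0, 1], [[0, 3], [14, 13, 7], [1], [2, 9, 10]]⟩,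
    .spec 0 ⟨[0, 1], [[0, 3], [14, 13, 10], [1], [2, 8, 7]]⟩]⟩,
  ⟨⟨6, [(0, 2, 0), (1, 0, 0), (1, 4, 0), (2, 0, 3), (2, 4, 1), (3, 1, 2), (4, 3, 2), (4, 5, 4), (5, 1, 0), (5, 3, 0), (5, 5, 0)]⟩, 0, [10], [
    .spec 0 ⟨[0, 1], [[0, 3], [11], [1], [2, 6, 5]]⟩,
    .spec 0 ⟨[0, 1], [[0, 3], [11, 5], [1], [2, 7, 8]]⟩,
    .spec 0 ⟨[0, 5], [[0, 3], [11, 7], [8, 1], [10]]⟩,
    .spec 0 ⟨[0, 5], [[0, 3], [11], [8, 1], [10]]⟩,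
    .node 2 ⟨[6, 1, 0, 2, 3, 4, 5], [[11], [1], [2], [12], [0], [3], [4], [5], [6], [7], [8], [9], [10]]⟩,
    .spec 0 ⟨[0, 5], [[0, 3], [12, 11, 7], [8, 1], [10]]⟩,
    .spec 0 ⟨[0, 5], [[12, 11], [0, 4, 7], [8, 1], [10]]⟩,
    .spec 0 ⟨[0, 5], [[0, 3], [12, 11, 7], [8, 1], [10]]⟩,
    .spec 0 ⟨[0, 1], [[0, 3], [12, 11], [1], [2, 7, 8]]⟩,
    .spec 0 ⟨[0, 1], [[0, 3], [12, 11, 5], [1], [2, 7, 8]]⟩,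
    .spec 0 ⟨[0, 5], [[0, 3], [12, 11], [8, 1], [10]]⟩,
    .spec 0 ⟨[0, 1], [[0, 3], [12, 11], [1], [2, 6, 5]]⟩,
    .spec 0 ⟨[0, 1], [[0, 3], [12, 11, 5], [1], [2, 7, 8]]⟩,
    .spec 0 ⟨[0, 1], [[0, 3], [12, 11, 8], [1], [2, 6, 5]]⟩]⟩,
  ⟨⟨7, [(0, 1, 0), (1, 2, 0), (2, 3, 0), (2, 5, 0), (3, 1, 0), (3, 4, 0), (4, 3, 3), (4, 5, 0), (5, 0, 0), (5, 6, 4), (6, 0, 0), (6, 1, 0), (6, 6, 0)]⟩, 1, [12], [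
    .spec 0 ⟨[1, 3], [[13, 0], [1, 2], [4], [5, 6]]⟩,
    .spec 0 ⟨[1, 3], [[1, 3, 8, 0], [13], [4], [5, 6]]⟩,
    .spec 0 ⟨[1, 6], [[1, 2, 4], [13, 7, 9], [10, 0], [12]]⟩,
    .spec 0 ⟨[1, 6], [[1, 2, 4], [13, 9], [10, 0], [12]]⟩,
    .spec 0 ⟨[1, 6], [[1, 2, 4], [13], [10, 0], [12]]⟩,
    .spec 0 ⟨[1, 3], [[14, 13], [1, 2], [4], [5, 6]]⟩,
    .spec 0 ⟨[1, 3], [[1, 3, 8, 0], [14, 13], [4], [5, 6]]⟩,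
    .spec 0 ⟨[1, 6], [[1, 2, 4], [14, 13, 9], [10, 0], [12]]⟩,
    .spec 0 ⟨[1, 6], [[14, 13], [1, 2, 5, 7, 9], [10, 0], [12]]⟩,
    .spec 0 ⟨[1, 6], [[1, 2, 4], [14, 13, 7, 9], [10, 0], [12]]⟩,
    .spec 0 ⟨[1, 6], [[14, 13, 4], [1, 3, 9], [10, 0], [12]]⟩,
    .spec 0 ⟨[1, 6], [[1, 2, 4], [14, 13, 9], [10, 0], [12]]⟩,
    .spec 0 ⟨[1, 3], [[14, 13, 0], [1, 2], [4], [5, 6]]⟩,
    .spec 0 ⟨[1, 6], [[1, 2, 4], [14, 13], [10, 0], [12]]⟩,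
    .spec 0 ⟨[1, 3], [[14, 13, 0], [1, 2], [4], [5, 6]]⟩,
    .spec 0 ⟨[1, 3], [[14, 13], [1, 2], [4], [5, 6]]⟩,
    .spec 0 ⟨[1, 3], [[14, 13, 10, 0], [1, 2], [4], [5, 6]]⟩]⟩,
  ⟨⟨7, [(0, 2, 0), (1, 0, 0), (2, 3, 0), (2, 5, 0), (3, 1, 0), (3, 4, 0), (4, 3, 3), (4, 5, 0), (5, 1, 0), (5, 6, 4), (6, 0, 0), (6, 1, 0), (6, 6, 0)]⟩, 0, [12], [
    .spec 0 ⟨[0, 6], [[13, 1], [0, 2, 5, 7, 9], [10], [12]]⟩,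
    .spec 0 ⟨[0, 3], [[0, 3, 9, 10], [13], [4, 1], [5, 6]]⟩,
    .spec 0 ⟨[0, 6], [[0, 2, 4, 1], [13, 7, 9], [10], [12]]⟩,
    .spec 0 ⟨[0, 6], [[0, 2, 4, 1], [13, 9], [10], [12]]⟩,
    .spec 0 ⟨[0, 6], [[0, 2, 4, 1], [13], [10], [12]]⟩,
    .spec 0 ⟨[0, 6], [[14, 13], [0, 2, 5, 7, 9], [10], [12]]⟩,
    .spec 0 ⟨[0, 3], [[0, 3, 9, 10], [14, 13], [4, 1], [5, 6]]⟩,
    .spec 0 ⟨[0, 6], [[0, 2, 4, 1], [14, 13, 9], [10], [12]]⟩,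
    .spec 0 ⟨[0, 6], [[14, 13, 1], [0, 2, 5, 7, 9], [10], [12]]⟩,
    .spec 0 ⟨[0, 6], [[0, 2, 4, 1], [14, 13, 7, 9], [10], [12]]⟩,
    .spec 0 ⟨[0, 6], [[14, 13, 4, 1], [0, 3, 9], [10], [12]]⟩,
    .spec 0 ⟨[0, 6], [[0, 2, 4, 1], [14, 13, 9], [10], [12]]⟩,
    .spec 0 ⟨[0, 6], [[14, 13, 1], [0, 2, 5, 7, 9], [10], [12]]⟩,
    .spec 0 ⟨[0, 6], [[0, 2, 4, 1], [14, 13], [10], [12]]⟩,
    .spec 0 ⟨[0, 3], [[14, 13], [0, 2], [4, 1], [5, 6]]⟩,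
    .spec 0 ⟨[0, 6], [[14, 13, 1], [0, 2, 5, 7, 9], [10], [12]]⟩,
    .spec 0 ⟨[0, 3], [[14, 13, 10], [0, 2], [4, 1], [5, 6]]⟩]⟩,
  ⟨⟨8, [(0, 1, 0), (1, 0, 0), (1, 3, 0), (2, 0, 0), (2, 6, 0), (3, 1, 3), (3, 6, 1), (4, 2, 2), (5, 4, 2), (6, 5, 2), (6, 7, 4), (7, 4, 0), (7, 5, 0), (7, 7, 0)]⟩, 0, [13], [
    .spec 0 ⟨[0, 2], [[0, 1], [14], [3], [4, 9, 8, 7]]⟩,
    .spec 0 ⟨[0, 7], [[0, 1], [14, 6, 10], [11, 7, 3], [13]]⟩,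
    .spec 0 ⟨[0, 1], [[14, 7, 3], [0], [1], [2, 5]]⟩,
    .spec 0 ⟨[0, 1], [[14, 8, 7, 3], [0], [1], [2, 5]]⟩,
    .spec 0 ⟨[0, 7], [[0, 1], [14, 10], [11, 7, 3], [13]]⟩,
    .spec 0 ⟨[0, 7], [[0, 1], [14], [11, 7, 3], [13]]⟩,
    .spec 0 ⟨[0, 7], [[15, 14], [0, 2, 6, 10], [11, 7, 3], [13]]⟩,
    .spec 0 ⟨[0, 7], [[0, 1], [15, 14, 6, 10], [11, 7, 3], [13]]⟩,
    .spec 0 ⟨[0, 1], [[15, 14], [0], [1], [2, 5]]⟩,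
    .spec 0 ⟨[0, 7], [[0, 1], [15, 14, 10], [11, 7, 3], [13]]⟩,
    .spec 8 ⟨[3, 8, 6, 2, 7], [[5], [14, 2], [9, 8, 7], [4], [6], [3, 15], [10], [13]]⟩,
    .spec 0 ⟨[0, 7], [[0, 1], [15, 14, 10], [11, 7, 3], [13]]⟩,
    .spec 0 ⟨[0, 1], [[15, 14, 3], [0], [1], [2, 5]]⟩,
    .spec 0 ⟨[0, 1], [[15, 14, 7, 3], [0], [1], [2, 5]]⟩,
    .spec 0 ⟨[0, 1], [[15, 14, 8, 7, 3], [0], [1], [2, 5]]⟩,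
    .spec 0 ⟨[0, 7], [[0, 1], [15, 14], [11, 7, 3], [13]]⟩,
    .spec 0 ⟨[0, 1], [[15, 14, 7, 3], [0], [1], [2, 5]]⟩,
    .spec 0 ⟨[0, 1], [[15, 14, 8, 7, 3], [0], [1], [2, 5]]⟩,
    .spec 0 ⟨[0, 1], [[15, 14, 11, 7, 3], [0], [1], [2, 5]]⟩]⟩,
  ⟨⟨8, [(0, 2, 0), (1, 0, 0), (2, 3, 0), (3, 4, 0), (3, 6, 0), (4, 2, 0), (4, 5, 0), (5, 4, 3), (5, 6, 0), (6, 1, 0), (6, 7, 4), (7, 0, 0), (7, 1, 0), (7, 7, 0)]⟩, 2, [13], [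
    .spec 0 ⟨[2, 4], [[14, 0], [2, 3], [5], [6, 7]]⟩,
    .spec 0 ⟨[2, 4], [[14, 1, 0], [2, 3], [5], [6, 7]]⟩,
    .spec 0 ⟨[2, 4], [[2, 4, 9, 1, 0], [14], [5], [6, 7]]⟩,
    .spec 0 ⟨[2, 7], [[2, 3, 5], [14, 8, 10], [11, 0], [13]]⟩,
    .spec 0 ⟨[2, 7], [[2, 3, 5], [14, 10], [11, 0], [13]]⟩,
    .spec 0 ⟨[2, 7], [[2, 3, 5], [14], [11, 0], [13]]⟩,
    .spec 0 ⟨[2, 4], [[15, 14], [2, 3], [5], [6, 7]]⟩,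
    .spec 0 ⟨[2, 4], [[15, 14, 0], [2, 3], [5], [6, 7]]⟩,
    .spec 0 ⟨[2, 4], [[2, 4, 9, 1, 0], [15, 14], [5], [6, 7]]⟩,
    .spec 0 ⟨[2, 7], [[2, 3, 5], [15, 14, 10], [11, 0], [13]]⟩,
    .spec 0 ⟨[2, 7], [[15, 14], [2, 3, 6, 8, 10], [11, 0], [13]]⟩,
    .spec 0 ⟨[2, 7], [[2, 3, 5], [15, 14, 8, 10], [11, 0], [13]]⟩,
    .spec 0 ⟨[2, 7], [[15, 14, 5], [2, 4, 10], [11, 0], [13]]⟩,
    .spec 0 ⟨[2, 7], [[2, 3, 5], [15, 14, 10], [11, 0], [13]]⟩,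
    .spec 0 ⟨[2, 4], [[15, 14, 1, 0], [2, 3], [5], [6, 7]]⟩,
    .spec 0 ⟨[2, 7], [[2, 3, 5], [15, 14], [11, 0], [13]]⟩,
    .spec 0 ⟨[2, 4], [[15, 14, 0], [2, 3], [5], [6, 7]]⟩,
    .spec 0 ⟨[2, 4], [[15, 14, 1, 0], [2, 3], [5], [6, 7]]⟩,
    .spec 0 ⟨[2, 4], [[15, 14, 11, 0], [2, 3], [5], [6, 7]]⟩]⟩,
  ⟨⟨8, [(0, 2, 0), (1, 0, 0), (2, 3, 0), (3, 4, 0), (3, 6, 0), (4, 0, 0), (4, 5, 0), (5, 4, 3), (5, 6, 0), (6, 1, 0), (6, 7, 4), (7, 1, 0), (7, 2, 0), (7, 7, 0)]⟩, 2, [13], [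
    .spec 0 ⟨[2, 7], [[14, 0], [2, 3, 6, 8, 10], [12], [13]]⟩,
    .spec 0 ⟨[2, 7], [[14, 1, 0], [2, 3, 6, 8, 10], [12], [13]]⟩,
    .spec 0 ⟨[2, 4], [[2, 4, 10, 12], [14], [5, 0], [6, 7]]⟩,
    .spec 0 ⟨[2, 7], [[2, 3, 5, 0], [14, 8, 10], [12], [13]]⟩,
    .spec 0 ⟨[2, 7], [[2, 3, 5, 0], [14, 10], [12], [13]]⟩,
    .spec 0 ⟨[2, 7], [[2, 3, 5, 0], [14], [12], [13]]⟩,
    .spec 0 ⟨[2, 7], [[15, 14], [2, 3, 6, 8, 10], [12], [13]]⟩,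
    .spec 0 ⟨[2, 7], [[15, 14, 0], [2, 3, 6, 8, 10], [12], [13]]⟩,
    .spec 0 ⟨[2, 4], [[2, 4, 10, 12], [15, 14], [5, 0], [6, 7]]⟩,
    .spec 0 ⟨[2, 7], [[2, 3, 5, 0], [15, 14, 10], [12], [13]]⟩,
    .spec 0 ⟨[2, 7], [[15, 14, 0], [2, 3, 6, 8, 10], [12], [13]]⟩,
    .spec 0 ⟨[2, 7], [[2, 3, 5, 0], [15, 14, 8, 10], [12], [13]]⟩,
    .spec 0 ⟨[2, 7], [[15, 14, 5, 0], [2, 4, 10], [12], [13]]⟩,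
    .spec 0 ⟨[2, 7], [[2, 3, 5, 0], [15, 14, 10], [12], [13]]⟩,
    .spec 0 ⟨[2, 7], [[15, 14, 1, 0], [2, 3, 6, 8, 10], [12], [13]]⟩,
    .spec 0 ⟨[2, 7], [[2, 3, 5, 0], [15, 14], [12], [13]]⟩,
    .spec 0 ⟨[2, 7], [[15, 14, 1, 0], [2, 3, 6, 8, 10], [12], [13]]⟩,
    .spec 0 ⟨[2, 4], [[15, 14], [2, 3], [5, 0], [6, 7]]⟩,
    .spec 0 ⟨[2, 4], [[15, 14, 12], [2, 3], [5, 0], [6, 7]]⟩]⟩,
  ⟨⟨8, [(0, 2, 0), (1, 0, 0), (2, 3, 0), (3, 4, 0), (3, 6, 0), (4, 1, 0), (4, 5, 0), (5, 4, 3), (5, 6, 0), (6, 1, 0), (6, 7, 4), (7, 0, 0), (7, 2, 0), (7, 7, 0)]⟩, 2, [13], [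
    .spec 0 ⟨[2, 7], [[14, 0], [2, 3, 6, 8, 10], [12], [13]]⟩,
    .spec 0 ⟨[2, 7], [[14, 1, 0], [2, 3, 6, 8, 10], [12], [13]]⟩,
    .spec 0 ⟨[2, 4], [[2, 4, 10, 12], [14], [5, 1, 0], [6, 7]]⟩,
    .spec 0 ⟨[2, 7], [[2, 3, 5, 1, 0], [14, 8, 10], [12], [13]]⟩,
    .spec 0 ⟨[2, 7], [[2, 3, 5, 1, 0], [14, 10], [12], [13]]⟩,
    .spec 0 ⟨[2, 7], [[2, 3, 5, 1, 0], [14], [12], [13]]⟩,
    .spec 0 ⟨[2, 7], [[15, 14], [2, 3, 6, 8, 10], [12], [13]]⟩,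
    .spec 0 ⟨[2, 7], [[15, 14, 0], [2, 3, 6, 8, 10], [12], [13]]⟩,
    .spec 0 ⟨[2, 4], [[2, 4, 10, 12], [15, 14], [5, 1, 0], [6, 7]]⟩,
    .spec 0 ⟨[2, 7], [[2, 3, 5, 1, 0], [15, 14, 10], [12], [13]]⟩,
    .spec 0 ⟨[2, 7], [[15, 14, 1, 0], [2, 3, 6, 8, 10], [12], [13]]⟩,
    .spec 0 ⟨[2, 7], [[2, 3, 5, 1, 0], [15, 14, 8, 10], [12], [13]]⟩,
    .spec 0 ⟨[2, 7], [[15, 14, 5, 1, 0], [2, 4, 10], [12], [13]]⟩,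
    .spec 0 ⟨[2, 7], [[2, 3, 5, 1, 0], [15, 14, 10], [12], [13]]⟩,
    .spec 0 ⟨[2, 7], [[15, 14, 1, 0], [2, 3, 6, 8, 10], [12], [13]]⟩,
    .spec 0 ⟨[2, 7], [[2, 3, 5, 1, 0], [15, 14], [12], [13]]⟩,
    .spec 0 ⟨[2, 7], [[15, 14, 0], [2, 3, 6, 8, 10], [12], [13]]⟩,
    .spec 0 ⟨[2, 4], [[15, 14], [2, 3], [5, 1, 0], [6, 7]]⟩,
    .spec 0 ⟨[2, 4], [[15, 14, 12], [2, 3], [5, 1, 0], [6, 7]]⟩]⟩,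
  ⟨⟨8, [(0, 2, 0), (1, 2, 0), (2, 3, 0), (3, 4, 0), (3, 6, 0), (4, 0, 0), (4, 5, 0), (5, 4, 3), (5, 6, 0), (6, 1, 0), (6, 7, 4), (7, 0, 0), (7, 1, 0), (7, 7, 0)]⟩, 2, [13], [
    .spec 0 ⟨[2, 7], [[14, 0], [2, 3, 6, 8, 10], [12, 1], [13]]⟩,
    .spec 0 ⟨[2, 4], [[14, 1], [2, 3], [5, 0], [6, 7]]⟩,
    .spec 0 ⟨[2, 4], [[2, 4, 9, 1], [14], [5, 0], [6, 7]]⟩,
    .spec 0 ⟨[2, 7], [[2, 3, 5, 0], [14, 8, 10], [12, 1], [13]]⟩,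
    .spec 0 ⟨[2, 7], [[2, 3, 5, 0], [14, 10], [12, 1], [13]]⟩,
    .spec 0 ⟨[2, 7], [[2, 3, 5, 0], [14], [12, 1], [13]]⟩,
    .spec 0 ⟨[2, 7], [[15, 14], [2, 3, 6, 8, 10], [12, 1], [13]]⟩,
    .spec 0 ⟨[2, 4], [[15, 14], [2, 3], [5, 0], [6, 7]]⟩,
    .spec 0 ⟨[2, 4], [[2, 4, 9, 1], [15, 14], [5, 0], [6, 7]]⟩,
    .spec 0 ⟨[2, 7], [[2, 3, 5, 0], [15, 14, 10], [12, 1], [13]]⟩,
    .spec 0 ⟨[2, 7], [[15, 14, 0], [2, 3, 6, 8, 10], [12, 1], [13]]⟩,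
    .spec 0 ⟨[2, 7], [[2, 3, 5, 0], [15, 14, 8, 10], [12, 1], [13]]⟩,
    .spec 0 ⟨[2, 7], [[15, 14, 5, 0], [2, 4, 10], [12, 1], [13]]⟩,
    .spec 0 ⟨[2, 7], [[2, 3, 5, 0], [15, 14, 10], [12, 1], [13]]⟩,
    .spec 0 ⟨[2, 4], [[15, 14, 1], [2, 3], [5, 0], [6, 7]]⟩,
    .spec 0 ⟨[2, 7], [[2, 3, 5, 0], [15, 14], [12, 1], [13]]⟩,
    .spec 0 ⟨[2, 7], [[15, 14, 0], [2, 3, 6, 8, 10], [12, 1], [13]]⟩,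
    .spec 0 ⟨[2, 4], [[15, 14, 1], [2, 3], [5, 0], [6, 7]]⟩,
    .spec 0 ⟨[2, 4], [[15, 14, 12, 1], [2, 3], [5, 0], [6, 7]]⟩]⟩,
  ⟨⟨8, [(0, 2, 0), (1, 0, 0), (2, 3, 0), (3, 4, 0), (3, 6, 0), (4, 1, 0), (4, 5, 0), (5, 4, 3), (5, 6, 0), (6, 0, 0), (6, 7, 4), (7, 1, 0), (7, 2, 0), (7, 7, 0)]⟩, 2, [13], [
    .spec 0 ⟨[2, 7], [[14, 0], [2, 3, 6, 8, 10], [12], [13]]⟩,
    .spec 0 ⟨[2, 7], [[14, 1, 0], [2, 3, 6, 8, 10], [12], [13]]⟩,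
    .spec 0 ⟨[2, 4], [[2, 4, 10, 12], [14], [5, 1, 0], [6, 7]]⟩,
    .spec 0 ⟨[2, 7], [[2, 3, 5, 1, 0], [14, 8, 10], [12], [13]]⟩,
    .spec 0 ⟨[2, 7], [[2, 3, 5, 1, 0], [14, 10], [12], [13]]⟩,
    .spec 0 ⟨[2, 7], [[2, 3, 5, 1, 0], [14], [12], [13]]⟩,
    .spec 0 ⟨[2, 7], [[15, 14], [2, 3, 6, 8, 10], [12], [13]]⟩,
    .spec 0 ⟨[2, 7], [[15, 14, 0], [2, 3, 6, 8, 10], [12], [13]]⟩,
    .spec 0 ⟨[2, 4], [[2, 4, 10, 12], [15, 14], [5, 1, 0], [6, 7]]⟩,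
    .spec 0 ⟨[2, 7], [[2, 3, 5, 1, 0], [15, 14, 10], [12], [13]]⟩,
    .spec 0 ⟨[2, 7], [[15, 14, 1, 0], [2, 3, 6, 8, 10], [12], [13]]⟩,
    .spec 0 ⟨[2, 7], [[2, 3, 5, 1, 0], [15, 14, 8, 10], [12], [13]]⟩,
    .spec 0 ⟨[2, 7], [[15, 14, 5, 1, 0], [2, 4, 10], [12], [13]]⟩,
    .spec 0 ⟨[2, 7], [[2, 3, 5, 1, 0], [15, 14, 10], [12], [13]]⟩,
    .spec 0 ⟨[2, 7], [[15, 14, 0], [2, 3, 6, 8, 10], [12], [13]]⟩,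
    .spec 0 ⟨[2, 7], [[2, 3, 5, 1, 0], [15, 14], [12], [13]]⟩,
    .spec 0 ⟨[2, 7], [[15, 14, 1, 0], [2, 3, 6, 8, 10], [12], [13]]⟩,
    .spec 0 ⟨[2, 4], [[15, 14], [2, 3], [5, 1, 0], [6, 7]]⟩,
    .spec 0 ⟨[2, 4], [[15, 14, 12], [2, 3], [5, 1, 0], [6, 7]]⟩]⟩,
  ⟨⟨8, [(0, 3, 0), (1, 0, 0), (1, 4, 0), (2, 1, 0), (2, 7, 0), (3, 0, 0), (3, 5, 0), (3, 6, 0), (4, 1, 3), (4, 7, 1), (5, 2, 2), (6, 5, 2), (7, 3, 4), (7, 6, 2)]⟩, 0, [2, 8], [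
    .spec 0 ⟨[0, 1], [[0, 5], [14], [1], [2, 8]]⟩,
    .spec 0 ⟨[0, 2], [[0, 5], [14], [3, 1], [4, 13, 11, 10]]⟩,
    .spec 0 ⟨[0, 3], [[14, 8, 1], [0], [5], [6, 10, 4, 12]]⟩,
    .spec 0 ⟨[0, 1], [[0, 5], [14, 10, 3], [1], [2, 8]]⟩,
    .spec 0 ⟨[0, 1], [[0, 5], [14, 11, 10, 3], [1], [2, 8]]⟩,
    .spec 0 ⟨[0, 1], [[0, 5], [14, 13, 11, 10, 3], [1], [2, 8]]⟩,
    .spec 0 ⟨[0, 3], [[15, 14], [0], [5], [6, 10, 3, 2, 9, 12]]⟩,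
    .spec 0 ⟨[0, 3], [[15, 14, 8, 1], [0], [5], [6, 10, 4, 12]]⟩,
    .spec 0 ⟨[0, 1], [[0, 5], [15, 14], [1], [2, 8]]⟩,
    .spec 0 ⟨[0, 1], [[0, 5], [15, 14, 13, 11, 10, 3], [1], [2, 8]]⟩,
    .spec 0 ⟨[0, 1], [[15, 14], [0, 6, 10, 3], [1], [2, 8]]⟩,
    .spec 0 ⟨[0, 1], [[0, 5], [15, 14, 10, 3], [1], [2, 8]]⟩,
    .spec 0 ⟨[0, 1], [[0, 5], [15, 14, 11, 10, 3], [1], [2, 8]]⟩,
    .spec 0 ⟨[0, 1], [[0, 5], [15, 14], [1], [2, 9, 13, 11, 10, 3]]⟩,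
    .spec 0 ⟨[0, 1], [[0, 5], [15, 14, 13, 11, 10, 3], [1], [2, 8]]⟩,
    .spec 0 ⟨[0, 1], [[0, 5], [15, 14, 3], [1], [2, 8]]⟩,
    .spec 0 ⟨[0, 1], [[0, 5], [15, 14, 10, 3], [1], [2, 8]]⟩,
    .spec 9 ⟨[4, 1, 7, 2, 8], [[8], [2], [13, 11, 10], [4], [9], [3], [12], [14, 5, 15]]⟩,
    .spec 0 ⟨[0, 1], [[0, 5], [15, 14, 11, 10, 3], [1], [2, 8]]⟩]⟩,
  ⟨⟨7, [(0, 2, 0), (1, 0, 0), (1, 5, 0), (2, 0, 3), (2, 5, 1), (3, 1, 2), (4, 3, 2), (5, 4, 2), (5, 6, 4), (6, 3, 0), (6, 4, 0), (6, 6, 0)]⟩, 0, [11], [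
    .spec 0 ⟨[0, 1], [[0, 3], [12], [1], [2, 7, 6, 5]]⟩,
    .node 4 ⟨[4, 3, 1, 0, 2, 5, 6], [[6], [5], [1], [2], [12], [0], [3], [4], [7], [8], [10], [9], [11]]⟩,
    .node 5 ⟨[3, 4, 1, 0, 2, 5, 6], [[5], [6], [1], [2], [12], [0], [3], [4], [7], [8], [9], [10], [11]]⟩,
    .spec 0 ⟨[0, 6], [[0, 3], [12, 8], [9, 5, 1], [11]]⟩,
    .spec 0 ⟨[0, 6], [[0, 3], [12], [9, 5, 1], [11]]⟩,
    .node 6 ⟨[7, 0, 1, 2, 3, 4, 5, 6], [[12], [13], [0], [1], [2], [3], [4], [5], [6], [7], [8], [9], [10], [11]]⟩,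
    .spec 0 ⟨[0, 6], [[0, 3], [13, 12, 8], [9, 5, 1], [11]]⟩,
    .spec 0 ⟨[0, 6], [[13, 12], [0, 4, 8], [9, 5, 1], [11]]⟩,
    .spec 0 ⟨[0, 6], [[0, 3], [13, 12, 8], [9, 5, 1], [11]]⟩,
    .node 7 ⟨[3, 4, 7, 1, 0, 2, 5, 6], [[5], [6], [12], [1], [2], [13], [0], [3], [4], [7], [8], [9], [10], [11]]⟩,
    .node 8 ⟨[7, 4, 3, 1, 0, 2, 5, 6], [[12], [6], [5], [1], [2], [13], [0], [3], [4], [7], [8], [10], [9], [11]]⟩,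
    .node 9 ⟨[4, 7, 3, 1, 0, 2, 5, 6], [[6], [12], [5], [1], [2], [13], [0], [3], [4], [7], [8], [10], [9], [11]]⟩,
    .spec 0 ⟨[0, 6], [[0, 3], [13, 12], [9, 5, 1], [11]]⟩,
    .node 10 ⟨[7, 4, 3, 1, 0, 2, 5, 6], [[12], [6], [5], [1], [2], [13], [0], [3], [4], [7], [8], [9], [10], [11]]⟩,
    .node 11 ⟨[4, 7, 3, 1, 0, 2, 5, 6], [[6], [12], [5], [1], [2], [13], [0], [3], [4], [7], [8], [10], [9], [11]]⟩,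
    .node 12 ⟨[7, 0, 1, 6, 2, 3, 4, 5], [[12], [13], [0], [1], [2], [11], [9], [10], [3], [4], [5], [6], [8], [7]]⟩]⟩,
  ⟨⟨6, [(0, 2, 0), (1, 0, 0), (1, 4, 0), (2, 0, 3), (2, 4, 1), (3, 1, 2), (4, 3, 2), (4, 5, 4), (5, 3, 0), (5, 5, 0)]⟩, 5, [0, 3], [
    .spec 0 ⟨[4, 5], [[6, 5, 2], [7], [10, 0, 4], [9]]⟩,
    .node 3 ⟨[0, 1, 2, 3, 4, 5], [[0], [1], [2], [3], [4], [5], [6], [7], [10], [8], [9]]⟩,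
    .spec 0 ⟨[2, 4], [[3, 0], [4], [7, 10], [6, 5, 2]]⟩,
    .spec 0 ⟨[4, 5], [[6, 5, 1, 0, 4], [7], [10], [9]]⟩,
    .spec 0 ⟨[4, 5], [[6, 5, 2], [7], [11, 10, 4], [9]]⟩,
    .spec 0 ⟨[4, 5], [[6, 5, 2], [7], [11, 10, 0, 4], [9]]⟩,
    .spec 0 ⟨[4, 5], [[6, 5, 1, 0, 4], [7], [11, 10], [9]]⟩,
    .spec 0 ⟨[4, 5], [[6, 5, 2], [7], [11, 10, 0, 4], [9]]⟩,
    .spec 0 ⟨[4, 5], [[6, 5, 2], [7], [11, 10], [9]]⟩,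
    .node 13 ⟨[0, 1, 2, 6, 3, 4, 5], [[0], [1], [2], [3], [4], [10], [5], [6], [7], [11], [8], [9]]⟩,
    .node 13 ⟨[0, 1, 2, 3, 6, 4, 5], [[0], [1], [2], [3], [4], [5], [10], [6], [7], [8], [11], [9]]⟩,
    .spec 9 ⟨[2, 0, 4, 1, 6], [[3], [0], [6, 5], [2], [4], [1], [7], [10, 11]]⟩]⟩,
  ⟨⟨5, [(0, 2, 0), (1, 0, 0), (1, 3, 0), (2, 0, 3), (2, 3, 1), (3, 1, 2), (3, 4, 4), (4, 4, 0)]⟩, 4, [0, 3], [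
    .spec 0 ⟨[3, 4], [[5, 2], [6], [8, 0, 4], [7]]⟩,
    .node 1 ⟨[0, 1, 2, 3, 4], [[0], [1], [2], [3], [4], [5], [6], [8], [7]]⟩,
    .spec 0 ⟨[2, 3], [[3, 0], [4], [6, 8], [5, 2]]⟩,
    .spec 0 ⟨[3, 4], [[5, 1, 0, 4], [6], [8], [7]]⟩,
    .spec 0 ⟨[3, 4], [[5, 2], [6], [9, 8, 4], [7]]⟩,
    .spec 0 ⟨[3, 4], [[5, 2], [6], [9, 8, 0, 4], [7]]⟩,
    .spec 0 ⟨[3, 4], [[5, 1, 0, 4], [6], [9, 8], [7]]⟩,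
    .spec 0 ⟨[3, 4], [[5, 2], [6], [9, 8, 0, 4], [7]]⟩,
    .spec 0 ⟨[3, 4], [[5, 2], [6], [9, 8], [7]]⟩,
    .node 14 ⟨[0, 1, 2, 5, 3, 4], [[0], [1], [2], [3], [4], [8], [5], [6], [9], [7]]⟩,
    .spec 9 ⟨[2, 0, 3, 1, 5], [[3], [0], [5], [2], [4], [1], [6], [8, 9]]⟩]⟩]

theorem okE2 : okAll specsE2 nodesE2 = true := by decide +kernel

end BiP4

end

section

/-! # MP_d76268_co: certificate for the run S3I (generated) -/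

namespace BiP4

def nodesS3I : List Node := [
  ⟨⟨5, [(0, 1, 0), (1, 2, 2), (1, 3, 1), (2, 0, 2), (2, 4, 3), (3, 0, 0), (3, 3, 0), (4, 0, 0), (4, 4, 0)]⟩, 0, [6], [
    .spec 0 ⟨[0, 4], [[0, 2, 5], [9, 4], [7], [8]]⟩,
    .spec 0 ⟨[0, 3], [[0, 1, 3], [9], [5], [6]]⟩,
    .spec 0 ⟨[0, 4], [[0, 1, 3], [9], [7], [8]]⟩,
    .spec 0 ⟨[0, 4], [[0, 2, 5], [10, 9, 4], [7], [8]]⟩,
    .spec 0 ⟨[0, 3], [[0, 1, 3], [10, 9], [5], [6]]⟩,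
    .spec 0 ⟨[0, 4], [[10, 9], [0, 1, 4], [7], [8]]⟩,
    .spec 0 ⟨[0, 4], [[0, 1, 3], [10, 9], [7], [8]]⟩,
    .spec 0 ⟨[0, 4], [[10, 9], [0, 1, 4], [7], [8]]⟩,
    .spec 0 ⟨[0, 4], [[10, 9, 5], [0, 1, 4], [7], [8]]⟩,
    .spec 0 ⟨[0, 3], [[10, 9], [0, 2], [5], [6]]⟩,
    .spec 0 ⟨[0, 3], [[10, 9, 7], [0, 2], [5], [6]]⟩]⟩,
  ⟨⟨6, [(0, 2, 0), (1, 0, 0), (2, 3, 2), (2, 4, 1), (3, 1, 2), (3, 5, 3), (4, 1, 0), (4, 4, 0), (5, 0, 0), (5, 5, 0)]⟩, 0, [7], [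
    .spec 0 ⟨[0, 5], [[10, 1], [0, 2, 5], [8], [9]]⟩,
    .spec 0 ⟨[0, 5], [[0, 3, 6, 1], [10, 5], [8], [9]]⟩,
    .spec 0 ⟨[0, 4], [[0, 2, 5, 8], [10], [6, 1], [7]]⟩,
    .spec 0 ⟨[0, 5], [[0, 2, 4, 1], [10], [8], [9]]⟩,
    .spec 0 ⟨[0, 5], [[11, 10], [0, 2, 5], [8], [9]]⟩,
    .spec 0 ⟨[0, 5], [[0, 3, 6, 1], [11, 10, 5], [8], [9]]⟩,
    .spec 0 ⟨[0, 4], [[0, 2, 5, 8], [11, 10], [6, 1], [7]]⟩,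
    .spec 0 ⟨[0, 5], [[11, 10, 1], [0, 2, 5], [8], [9]]⟩,
    .spec 0 ⟨[0, 5], [[0, 2, 4, 1], [11, 10], [8], [9]]⟩,
    .spec 0 ⟨[0, 5], [[11, 10, 1], [0, 2, 5], [8], [9]]⟩,
    .spec 0 ⟨[0, 5], [[11, 10, 6, 1], [0, 2, 5], [8], [9]]⟩,
    .spec 0 ⟨[0, 4], [[11, 10], [0, 3], [6, 1], [7]]⟩,
    .spec 0 ⟨[0, 4], [[11, 10, 8], [0, 3], [6, 1], [7]]⟩]⟩,
  ⟨⟨7, [(0, 3, 0), (1, 4, 0), (2, 0, 0), (2, 6, 0), (3, 4, 0), (3, 5, 0), (4, 1, 0), (4, 2, 0), (5, 0, 0), (5, 5, 0), (6, 1, 0), (6, 6, 0)]⟩, 0, [9], [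
    .spec 0 ⟨[0, 5], [[12, 1, 7, 2], [0, 5], [8], [9]]⟩,
    .spec 0 ⟨[0, 2], [[0, 5, 8], [12], [2], [3, 10, 1, 7]]⟩,
    .spec 0 ⟨[0, 4], [[0, 5, 8], [12], [7, 2], [6, 1]]⟩,
    .spec 0 ⟨[0, 5], [[0, 4, 7, 2], [12], [8], [9]]⟩,
    .spec 0 ⟨[0, 6], [[0, 5, 8], [12], [10, 1, 7, 2], [11]]⟩,
    .spec 0 ⟨[0, 5], [[13, 12, 7, 2], [0, 5], [8], [9]]⟩,
    .spec 0 ⟨[0, 5], [[13, 12], [0, 5], [8], [9]]⟩,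
    .spec 0 ⟨[0, 6], [[0, 5, 8], [13, 12], [10, 1, 7, 2], [11]]⟩,
    .spec 0 ⟨[0, 4], [[0, 5, 8], [13, 12], [7, 2], [6, 1]]⟩,
    .spec 0 ⟨[0, 5], [[0, 4, 7, 2], [13, 12], [8], [9]]⟩,
    .spec 0 ⟨[0, 5], [[13, 12, 1, 7, 2], [0, 5], [8], [9]]⟩,
    .spec 0 ⟨[0, 5], [[13, 12, 2], [0, 5], [8], [9]]⟩,
    .spec 0 ⟨[0, 4], [[13, 12], [0, 4], [7, 2], [6, 1]]⟩,
    .spec 0 ⟨[0, 4], [[13, 12, 8], [0, 4], [7, 2], [6, 1]]⟩,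
    .spec 0 ⟨[0, 5], [[13, 12, 1, 7, 2], [0, 5], [8], [9]]⟩,
    .spec 0 ⟨[0, 5], [[13, 12, 10, 1, 7, 2], [0, 5], [8], [9]]⟩]⟩,
  ⟨⟨7, [(0, 3, 0), (1, 5, 0), (2, 0, 0), (2, 5, 0), (3, 4, 0), (3, 6, 0), (4, 1, 0), (4, 2, 0), (5, 1, 0), (5, 4, 0), (6, 0, 0), (6, 6, 0)]⟩, 0, [11], [
    .spec 0 ⟨[0, 6], [[12, 1, 9, 7, 2], [0, 5], [10], [11]]⟩,
    .spec 0 ⟨[0, 2], [[0, 5, 10], [12], [2], [3, 9, 7]]⟩,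
    .spec 0 ⟨[0, 4], [[0, 5, 10], [12], [7, 2], [6, 1, 9]]⟩,
    .spec 0 ⟨[0, 5], [[0, 5, 10], [12], [9, 7, 2], [8, 1]]⟩,
    .spec 0 ⟨[0, 6], [[0, 4, 7, 2], [12], [10], [11]]⟩,
    .spec 0 ⟨[0, 6], [[13, 12, 9, 7, 2], [0, 5], [10], [11]]⟩,
    .spec 0 ⟨[0, 6], [[13, 12], [0, 5], [10], [11]]⟩,
    .spec 0 ⟨[0, 5], [[0, 5, 10], [13, 12], [9, 7, 2], [8, 1]]⟩,
    .spec 0 ⟨[0, 4], [[0, 5, 10], [13, 12], [7, 2], [6, 1, 9]]⟩,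
    .spec 0 ⟨[0, 6], [[0, 4, 7, 2], [13, 12], [10], [11]]⟩,
    .spec 0 ⟨[0, 6], [[13, 12, 1, 9, 7, 2], [0, 5], [10], [11]]⟩,
    .spec 0 ⟨[0, 6], [[13, 12, 2], [0, 5], [10], [11]]⟩,
    .spec 0 ⟨[0, 6], [[13, 12, 1, 9, 7, 2], [0, 5], [10], [11]]⟩,
    .spec 0 ⟨[0, 6], [[13, 12, 7, 2], [0, 5], [10], [11]]⟩,
    .spec 0 ⟨[0, 4], [[13, 12], [0, 4], [7, 2], [6, 1, 9]]⟩,
    .spec 0 ⟨[0, 4], [[13, 12, 10], [0, 4], [7, 2], [6, 1, 9]]⟩]⟩,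
  ⟨⟨6, [(0, 3, 0), (1, 2, 0), (2, 0, 0), (2, 5, 0), (3, 1, 0), (3, 4, 0), (4, 0, 0), (4, 4, 0), (5, 1, 0), (5, 5, 0)]⟩, 0, [7], [
    .spec 0 ⟨[0, 4], [[10, 1, 2], [0, 5], [6], [7]]⟩,
    .spec 0 ⟨[0, 2], [[0, 5, 6], [10], [2], [3, 8, 1]]⟩,
    .spec 0 ⟨[0, 4], [[0, 4, 1, 2], [10], [6], [7]]⟩,
    .spec 0 ⟨[0, 5], [[0, 5, 6], [10], [8, 1, 2], [9]]⟩,
    .spec 0 ⟨[0, 4], [[11, 10, 2], [0, 5], [6], [7]]⟩,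
    .spec 0 ⟨[0, 4], [[11, 10], [0, 5], [6], [7]]⟩,
    .spec 0 ⟨[0, 5], [[0, 5, 6], [11, 10], [8, 1, 2], [9]]⟩,
    .spec 0 ⟨[0, 4], [[11, 10, 1, 2], [0, 5], [6], [7]]⟩,
    .spec 0 ⟨[0, 4], [[0, 4, 1, 2], [11, 10], [6], [7]]⟩,
    .node 2 ⟨[1, 6, 3, 2, 0, 5, 4], [[1], [10], [4], [5], [2], [3], [11], [0], [8], [9], [6], [7]]⟩,
    .node 3 ⟨[1, 6, 3, 2, 0, 4, 5], [[1], [10], [4], [5], [2], [3], [11], [0], [7], [6], [8], [9]]⟩,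
    .spec 0 ⟨[0, 4], [[11, 10, 1, 2], [0, 5], [6], [7]]⟩,
    .spec 0 ⟨[0, 4], [[11, 10, 8, 1, 2], [0, 5], [6], [7]]⟩]⟩,
  ⟨⟨6, [(0, 1, 0), (1, 3, 2), (1, 4, 1), (2, 0, 2), (3, 2, 2), (3, 5, 3), (4, 0, 0), (4, 4, 0), (5, 2, 0), (5, 5, 0)]⟩, 0, [7], [
    .spec 0 ⟨[0, 4], [[10, 3], [0, 2], [6], [7]]⟩,
    .spec 0 ⟨[0, 5], [[0, 2, 6], [10, 5], [8, 3], [9]]⟩,
    .spec 0 ⟨[0, 4], [[0, 1, 4, 3], [10], [6], [7]]⟩,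
    .spec 0 ⟨[0, 5], [[0, 2, 6], [10], [8, 3], [9]]⟩,
    .spec 0 ⟨[0, 5], [[0, 2, 6], [11, 10, 5], [8, 3], [9]]⟩,
    .spec 0 ⟨[0, 4], [[0, 1, 4, 3], [11, 10], [6], [7]]⟩,
    .spec 0 ⟨[0, 4], [[11, 10], [0, 2], [6], [7]]⟩,
    .spec 0 ⟨[0, 4], [[11, 10, 3], [0, 2], [6], [7]]⟩,
    .spec 0 ⟨[0, 5], [[0, 2, 6], [11, 10], [8, 3], [9]]⟩,
    .spec 0 ⟨[0, 5], [[11, 10], [0, 1, 5], [8, 3], [9]]⟩,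
    .spec 0 ⟨[0, 5], [[11, 10, 6], [0, 1, 5], [8, 3], [9]]⟩,
    .spec 0 ⟨[0, 4], [[11, 10, 3], [0, 2], [6], [7]]⟩,
    .spec 0 ⟨[0, 4], [[11, 10, 8, 3], [0, 2], [6], [7]]⟩]⟩,
  ⟨⟨6, [(0, 1, 0), (1, 0, 0), (1, 3, 0), (2, 1, 2), (2, 4, 0), (3, 2, 2), (3, 5, 1), (4, 0, 0), (4, 4, 0), (5, 0, 0), (5, 5, 0)]⟩, 0, [8], [
    .spec 0 ⟨[0, 4], [[0, 1], [11, 4], [7], [8]]⟩,
    .spec 0 ⟨[0, 4], [[0, 1], [11, 5, 4], [7], [8]]⟩,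
    .spec 0 ⟨[0, 4], [[0, 1], [11], [7], [8]]⟩,
    .spec 0 ⟨[0, 5], [[0, 1], [11], [9], [10]]⟩,
    .spec 0 ⟨[0, 4], [[12, 11], [0, 2, 5, 4], [7], [8]]⟩,
    .spec 0 ⟨[0, 4], [[0, 1], [12, 11, 5, 4], [7], [8]]⟩,
    .spec 4 ⟨[3, 6, 5, 4], [[5, 3], [11, 2], [10], [6], [9, 12], [8]]⟩,
    .spec 0 ⟨[0, 4], [[0, 1], [12, 11], [7], [8]]⟩,
    .spec 0 ⟨[0, 4], [[0, 1], [12, 11, 4], [7], [8]]⟩,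
    .spec 0 ⟨[0, 5], [[0, 1], [12, 11], [9], [10]]⟩,
    .spec 0 ⟨[0, 1], [[12, 11], [0], [1], [2, 5, 3]]⟩,
    .spec 0 ⟨[0, 1], [[12, 11, 7], [0], [1], [2, 5, 3]]⟩,
    .spec 0 ⟨[0, 1], [[12, 11], [0], [1], [2, 5, 3]]⟩,
    .spec 0 ⟨[0, 1], [[12, 11, 9], [0], [1], [2, 5, 3]]⟩]⟩,
  ⟨⟨7, [(0, 1, 0), (1, 2, 0), (2, 1, 0), (2, 4, 0), (3, 2, 2), (3, 5, 0), (4, 3, 2), (4, 6, 1), (5, 0, 0), (5, 5, 0), (6, 0, 0), (6, 6, 0)]⟩, 1, [9], [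
    .spec 0 ⟨[1, 2], [[12, 0], [1], [2], [3, 6, 4]]⟩,
    .spec 0 ⟨[1, 5], [[1, 2], [12, 5], [8, 0], [9]]⟩,
    .spec 0 ⟨[1, 5], [[1, 2], [12, 6, 5], [8, 0], [9]]⟩,
    .spec 0 ⟨[1, 5], [[1, 2], [12], [8, 0], [9]]⟩,
    .spec 0 ⟨[1, 6], [[1, 2], [12], [10, 0], [11]]⟩,
    .spec 0 ⟨[1, 2], [[13, 12], [1], [2], [3, 6, 4]]⟩,
    .spec 0 ⟨[1, 5], [[13, 12], [1, 3, 6, 5], [8, 0], [9]]⟩,
    .spec 0 ⟨[1, 5], [[1, 2], [13, 12, 6, 5], [8, 0], [9]]⟩,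
    .spec 4 ⟨[4, 7, 6, 5], [[6, 4], [12, 3], [11], [7], [10, 0, 13], [9]]⟩,
    .spec 0 ⟨[1, 5], [[1, 2], [13, 12], [8, 0], [9]]⟩,
    .spec 0 ⟨[1, 5], [[1, 2], [13, 12, 5], [8, 0], [9]]⟩,
    .spec 0 ⟨[1, 6], [[1, 2], [13, 12], [10, 0], [11]]⟩,
    .spec 0 ⟨[1, 2], [[13, 12, 0], [1], [2], [3, 6, 4]]⟩,
    .spec 0 ⟨[1, 2], [[13, 12, 8, 0], [1], [2], [3, 6, 4]]⟩,
    .spec 0 ⟨[1, 2], [[13, 12, 0], [1], [2], [3, 6, 4]]⟩,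
    .spec 0 ⟨[1, 2], [[13, 12, 10, 0], [1], [2], [3, 6, 4]]⟩]⟩,
  ⟨⟨7, [(0, 1, 0), (1, 2, 0), (2, 0, 0), (2, 4, 0), (3, 2, 2), (3, 5, 0), (4, 3, 2), (4, 6, 1), (5, 0, 0), (5, 5, 0), (6, 1, 0), (6, 6, 0)]⟩, 1, [9], [
    .spec 0 ⟨[1, 6], [[12, 0], [1, 3, 7], [10], [11]]⟩,
    .spec 0 ⟨[1, 5], [[1, 3, 7, 10], [12, 5], [8, 0], [9]]⟩,
    .spec 0 ⟨[1, 6], [[1, 2, 0], [12, 7], [10], [11]]⟩,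
    .spec 0 ⟨[1, 5], [[1, 3, 7, 10], [12], [8, 0], [9]]⟩,
    .spec 0 ⟨[1, 6], [[1, 2, 0], [12], [10], [11]]⟩,
    .spec 0 ⟨[1, 6], [[13, 12], [1, 3, 7], [10], [11]]⟩,
    .spec 0 ⟨[1, 6], [[13, 12, 0], [1, 3, 7], [10], [11]]⟩,
    .spec 0 ⟨[1, 6], [[1, 2, 0], [13, 12, 7], [10], [11]]⟩,
    .spec 4 ⟨[4, 7, 6, 5], [[6, 4], [12, 3], [11], [7], [10, 13], [9]]⟩,
    .spec 0 ⟨[1, 5], [[1, 3, 7, 10], [13, 12], [8, 0], [9]]⟩,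
    .spec 0 ⟨[1, 5], [[1, 3, 7, 10], [13, 12, 5], [8, 0], [9]]⟩,
    .spec 0 ⟨[1, 6], [[1, 2, 0], [13, 12], [10], [11]]⟩,
    .spec 0 ⟨[1, 6], [[13, 12, 0], [1, 3, 7], [10], [11]]⟩,
    .spec 0 ⟨[1, 6], [[13, 12, 8, 0], [1, 3, 7], [10], [11]]⟩,
    .spec 0 ⟨[1, 2], [[13, 12], [1], [2, 0], [3, 6, 4]]⟩,
    .spec 0 ⟨[1, 2], [[13, 12, 10], [1], [2, 0], [3, 6, 4]]⟩]⟩,
  ⟨⟨7, [(0, 2, 0), (1, 3, 0), (2, 0, 0), (2, 1, 0), (3, 0, 0), (3, 5, 0), (4, 2, 0), (4, 3, 2), (5, 4, 2), (5, 6, 1), (6, 1, 0), (6, 6, 0)]⟩, 1, [11], [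
    .spec 0 ⟨[1, 6], [[12, 0, 3], [1, 5, 9], [10], [11]]⟩,
    .spec 0 ⟨[1, 2], [[1, 5, 9, 10], [12], [3], [2, 0]]⟩,
    .spec 0 ⟨[1, 2], [[1, 5, 9, 10], [12, 6], [3], [2, 0]]⟩,
    .spec 0 ⟨[1, 6], [[1, 4, 0, 3], [12, 9], [10], [11]]⟩,
    .spec 0 ⟨[1, 6], [[1, 4, 0, 3], [12], [10], [11]]⟩,
    .spec 0 ⟨[1, 6], [[13, 12, 3], [1, 5, 9], [10], [11]]⟩,
    .spec 0 ⟨[1, 6], [[13, 12, 0, 3], [1, 5, 9], [10], [11]]⟩,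
    .spec 0 ⟨[1, 6], [[13, 12], [1, 5, 9], [10], [11]]⟩,
    .spec 0 ⟨[1, 6], [[13, 12, 0, 3], [1, 5, 9], [10], [11]]⟩,
    .spec 0 ⟨[1, 6], [[1, 4, 0, 3], [13, 12, 9], [10], [11]]⟩,
    .spec 0 ⟨[1, 2], [[1, 5, 9, 10], [13, 12], [3], [2, 0]]⟩,
    .spec 4 ⟨[5, 7, 6, 0], [[8, 7], [12, 5], [11], [9], [10, 13], [0, 2]]⟩,
    .spec 0 ⟨[1, 2], [[1, 5, 9, 10], [13, 12, 6], [3], [2, 0]]⟩,
    .spec 0 ⟨[1, 6], [[1, 4, 0, 3], [13, 12], [10], [11]]⟩,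
    .spec 0 ⟨[1, 3], [[13, 12], [1], [4, 0, 3], [5, 8, 7]]⟩,
    .spec 0 ⟨[1, 3], [[13, 12, 10], [1], [4, 0, 3], [5, 8, 7]]⟩]⟩,
  ⟨⟨7, [(0, 1, 0), (1, 2, 0), (2, 0, 0), (2, 4, 0), (3, 2, 2), (3, 5, 0), (4, 3, 2), (4, 6, 1), (5, 1, 0), (5, 5, 0), (6, 0, 0), (6, 6, 0)]⟩, 1, [9], [
    .spec 0 ⟨[1, 5], [[12, 0], [1, 3, 6, 5], [8], [9]]⟩,
    .spec 0 ⟨[1, 5], [[1, 2, 0], [12, 5], [8], [9]]⟩,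
    .spec 0 ⟨[1, 5], [[1, 2, 0], [12, 6, 5], [8], [9]]⟩,
    .spec 0 ⟨[1, 5], [[1, 2, 0], [12], [8], [9]]⟩,
    .spec 0 ⟨[1, 6], [[1, 3, 6, 5, 8], [12], [10, 0], [11]]⟩,
    .spec 0 ⟨[1, 5], [[13, 12], [1, 3, 6, 5], [8], [9]]⟩,
    .spec 0 ⟨[1, 5], [[13, 12, 0], [1, 3, 6, 5], [8], [9]]⟩,
    .spec 0 ⟨[1, 5], [[1, 2, 0], [13, 12, 6, 5], [8], [9]]⟩,
    .spec 4 ⟨[4, 7, 6, 5], [[6, 4], [12, 3], [11], [7], [10, 0, 13], [9]]⟩,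
    .spec 0 ⟨[1, 5], [[1, 2, 0], [13, 12], [8], [9]]⟩,
    .spec 0 ⟨[1, 5], [[1, 2, 0], [13, 12, 5], [8], [9]]⟩,
    .spec 0 ⟨[1, 6], [[1, 3, 6, 5, 8], [13, 12], [10, 0], [11]]⟩,
    .spec 0 ⟨[1, 2], [[13, 12], [1], [2, 0], [3, 6, 4]]⟩,
    .spec 0 ⟨[1, 2], [[13, 12, 8], [1], [2, 0], [3, 6, 4]]⟩,
    .spec 0 ⟨[1, 5], [[13, 12, 0], [1, 3, 6, 5], [8], [9]]⟩,
    .spec 0 ⟨[1, 5], [[13, 12, 10, 0], [1, 3, 6, 5], [8], [9]]⟩]⟩,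
  ⟨⟨7, [(0, 2, 0), (1, 3, 0), (2, 0, 0), (2, 1, 0), (3, 0, 0), (3, 5, 0), (4, 3, 2), (4, 6, 0), (5, 2, 1), (5, 4, 2), (6, 1, 0), (6, 6, 0)]⟩, 0, [11], [
    .spec 0 ⟨[0, 3], [[0, 2], [12, 1], [4], [5, 9, 6]]⟩,
    .spec 0 ⟨[0, 3], [[0, 2], [12], [4], [5, 9, 6]]⟩,
    .spec 0 ⟨[0, 6], [[0, 2], [12, 7], [10, 1, 4], [11]]⟩,
    .spec 0 ⟨[0, 6], [[0, 2], [12, 9, 7], [10, 1, 4], [11]]⟩,
    .spec 0 ⟨[0, 6], [[0, 2], [12], [10, 1, 4], [11]]⟩,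
    .spec 0 ⟨[0, 3], [[0, 2], [13, 12], [4], [5, 9, 6]]⟩,
    .spec 0 ⟨[0, 3], [[13, 12], [0, 3, 1], [4], [5, 9, 6]]⟩,
    .spec 0 ⟨[0, 3], [[0, 2], [13, 12, 1], [4], [5, 9, 6]]⟩,
    .spec 0 ⟨[0, 2], [[13, 12], [0], [2], [3, 1, 5, 8]]⟩,
    .spec 0 ⟨[0, 6], [[0, 2], [13, 12, 9, 7], [10, 1, 4], [11]]⟩,
    .spec 0 ⟨[0, 3], [[0, 2], [13, 12], [4], [5, 9, 7, 10, 1]]⟩,
    .spec 0 ⟨[0, 6], [[0, 2], [13, 12], [10, 1, 4], [11]]⟩,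
    .spec 1 ⟨[5, 3, 7, 2, 6], [[9, 6], [5], [12], [2, 13], [8], [3, 1], [11]]⟩,
    .spec 0 ⟨[0, 6], [[0, 2], [13, 12, 7], [10, 1, 4], [11]]⟩,
    .spec 0 ⟨[0, 3], [[0, 2], [13, 12, 1], [4], [5, 9, 6]]⟩,
    .spec 0 ⟨[0, 3], [[0, 2], [13, 12, 10, 1], [4], [5, 9, 6]]⟩]⟩,
  ⟨⟨6, [(0, 1, 0), (1, 3, 0), (2, 1, 2), (2, 4, 0), (3, 2, 2), (3, 5, 1), (4, 0, 0), (4, 4, 0), (5, 0, 0), (5, 5, 0)]⟩, 1, [7], [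
    .node 6 ⟨[0, 1, 2, 3, 4, 5], [[0], [10], [1], [2], [3], [4], [5], [6], [7], [8], [9]]⟩,
    .spec 0 ⟨[1, 5], [[10, 2], [1, 5], [8, 0], [9]]⟩,
    .spec 0 ⟨[1, 4], [[1, 4, 2], [10], [6, 0], [7]]⟩,
    .spec 0 ⟨[1, 5], [[1, 4, 2], [10], [8, 0], [9]]⟩,
    .node 7 ⟨[0, 6, 1, 2, 3, 4, 5], [[0], [10], [11], [1], [2], [3], [4], [5], [6], [7], [8], [9]]⟩,
    .spec 0 ⟨[1, 4], [[11, 10], [1, 4, 3], [6, 0], [7]]⟩,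
    .spec 0 ⟨[1, 4], [[1, 4, 2], [11, 10], [6, 0], [7]]⟩,
    .spec 0 ⟨[1, 5], [[11, 10, 2], [1, 5], [8, 0], [9]]⟩,
    .spec 0 ⟨[1, 5], [[1, 4, 2], [11, 10], [8, 0], [9]]⟩,
    .node 8 ⟨[6, 0, 1, 2, 3, 4, 5], [[10], [0], [11], [1], [2], [3], [4], [5], [6], [7], [8], [9]]⟩,
    .node 9 ⟨[6, 0, 4, 1, 2, 3, 5], [[10], [0], [7], [6], [11], [1], [3], [2], [4], [5], [8], [9]]⟩,
    .node 10 ⟨[6, 0, 1, 2, 3, 4, 5], [[10], [0], [11], [1], [2], [3], [4], [5], [6], [7], [8], [9]]⟩,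
    .node 11 ⟨[6, 0, 5, 1, 2, 3, 4], [[10], [0], [9], [8], [11], [1], [2], [3], [5], [4], [6], [7]]⟩]⟩,
  ⟨⟨6, [(0, 2, 0), (1, 3, 0), (2, 0, 0), (2, 1, 0), (3, 2, 1), (3, 4, 2), (4, 1, 2), (4, 5, 3), (5, 0, 0), (5, 5, 0)]⟩, 0, [9], [
    .spec 0 ⟨[0, 5], [[0, 2], [10, 1, 5, 7], [8], [9]]⟩,
    .spec 0 ⟨[0, 5], [[0, 2], [10, 5, 7], [8], [9]]⟩,
    .spec 0 ⟨[0, 4], [[0, 2], [10], [7, 8], [6, 1, 5]]⟩,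
    .spec 0 ⟨[0, 5], [[0, 2], [10], [8], [9]]⟩,
    .spec 0 ⟨[0, 5], [[0, 2], [11, 10, 5, 7], [8], [9]]⟩,
    .spec 0 ⟨[0, 5], [[11, 10], [0, 3, 1, 5, 7], [8], [9]]⟩,
    .spec 0 ⟨[0, 5], [[0, 2], [11, 10, 1, 5, 7], [8], [9]]⟩,
    .spec 1 ⟨[3, 1, 6, 2, 5], [[5, 6], [1], [10], [2, 11], [4], [3], [9]]⟩,
    .spec 0 ⟨[0, 5], [[0, 2], [11, 10, 7], [8], [9]]⟩,
    .spec 0 ⟨[0, 5], [[0, 2], [11, 10, 1, 5, 7], [8], [9]]⟩,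
    .spec 0 ⟨[0, 5], [[0, 2], [11, 10], [8], [9]]⟩,
    .spec 0 ⟨[0, 2], [[11, 10], [0], [2], [3, 1, 4]]⟩,
    .spec 0 ⟨[0, 2], [[11, 10, 8], [0], [2], [3, 1, 4]]⟩]⟩,
  ⟨⟨5, [(0, 1, 0), (1, 2, 2), (1, 4, 1), (2, 0, 2), (2, 3, 3), (3, 3, 0), (4, 0, 0), (4, 4, 0)]⟩, 3, [7], [
    .node 0 ⟨[0, 1, 2, 4, 3], [[0], [1], [2], [3], [4], [6], [7], [8], [5]]⟩,
    .spec 0 ⟨[1, 4], [[1, 4, 8], [2], [6, 0], [7]]⟩,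
    .spec 0 ⟨[2, 3], [[3, 0, 1], [4], [8], [5]]⟩,
    .spec 0 ⟨[3, 4], [[5], [8], [6, 0, 1, 4], [7]]⟩,
    .node 1 ⟨[5, 0, 1, 2, 4, 3], [[8], [0], [1], [2], [3], [4], [6], [7], [9], [5]]⟩,
    .node 4 ⟨[5, 0, 1, 2, 3, 4], [[8], [0], [1], [2], [3], [4], [9], [5], [6], [7]]⟩,
    .spec 0 ⟨[3, 4], [[5], [9, 8], [6, 0, 1, 4], [7]]⟩,
    .node 5 ⟨[0, 1, 5, 2, 4, 3], [[0], [1], [2], [8], [3], [4], [6], [7], [9], [5]]⟩,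
    .spec 8 ⟨[1, 2, 0, 4, 5], [[1], [3], [0], [2], [6], [7], [4], [8, 9]]⟩,
    .node 12 ⟨[5, 0, 2, 1, 3, 4], [[8], [0], [3], [4], [1], [2], [9], [5], [6], [7]]⟩,
    .node 13 ⟨[5, 0, 4, 1, 2, 3], [[8], [0], [7], [6], [2], [1], [3], [4], [9], [5]]⟩]⟩]

theorem okS3I : okAll specsE1 nodesS3I = true := by decide +kernel

end BiP4

end

section

/-! # MP_d76268_co: certificate for the run S3J (generated) -/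

namespace BiP4

def nodesS3J : List Node := [
  ⟨⟨5, [(0, 1, 0), (1, 2, 0), (1, 4, 3), (2, 0, 2), (2, 3, 1), (3, 0, 0), (3, 3, 0), (4, 0, 0), (4, 4, 0)]⟩, 0, [6], [
    .spec 0 ⟨[0, 3], [[0, 2, 7], [9, 4], [5], [6]]⟩,
    .spec 0 ⟨[0, 3], [[0, 1, 3], [9], [5], [6]]⟩,
    .spec 0 ⟨[0, 4], [[0, 1, 3], [9], [7], [8]]⟩,
    .spec 0 ⟨[0, 3], [[0, 2, 7], [10, 9, 4], [5], [6]]⟩,
    .spec 0 ⟨[0, 4], [[0, 1, 3], [10, 9], [7], [8]]⟩,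
    .spec 0 ⟨[0, 3], [[10, 9], [0, 1, 4], [5], [6]]⟩,
    .spec 0 ⟨[0, 3], [[0, 1, 3], [10, 9], [5], [6]]⟩,
    .spec 0 ⟨[0, 4], [[10, 9], [0, 2], [7], [8]]⟩,
    .spec 0 ⟨[0, 4], [[10, 9, 5], [0, 2], [7], [8]]⟩,
    .spec 0 ⟨[0, 3], [[10, 9], [0, 1, 4], [5], [6]]⟩,
    .spec 0 ⟨[0, 3], [[10, 9, 7], [0, 1, 4], [5], [6]]⟩]⟩,
  ⟨⟨6, [(0, 2, 0), (1, 0, 0), (2, 3, 0), (2, 5, 3), (3, 1, 2), (3, 4, 1), (4, 1, 0), (4, 4, 0), (5, 0, 0), (5, 5, 0)]⟩, 0, [7], [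
    .spec 0 ⟨[0, 5], [[10, 1], [0, 3], [8], [9]]⟩,
    .spec 0 ⟨[0, 4], [[0, 3, 8], [10, 5], [6, 1], [7]]⟩,
    .spec 0 ⟨[0, 4], [[0, 3, 8], [10], [6, 1], [7]]⟩,
    .spec 0 ⟨[0, 5], [[0, 2, 4, 1], [10], [8], [9]]⟩,
    .spec 0 ⟨[0, 5], [[11, 10], [0, 3], [8], [9]]⟩,
    .spec 0 ⟨[0, 4], [[0, 3, 8], [11, 10, 5], [6, 1], [7]]⟩,
    .spec 0 ⟨[0, 5], [[0, 2, 4, 1], [11, 10], [8], [9]]⟩,
    .spec 0 ⟨[0, 5], [[11, 10, 1], [0, 3], [8], [9]]⟩,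
    .spec 0 ⟨[0, 4], [[0, 3, 8], [11, 10], [6, 1], [7]]⟩,
    .spec 0 ⟨[0, 5], [[11, 10, 1], [0, 3], [8], [9]]⟩,
    .spec 0 ⟨[0, 5], [[11, 10, 6, 1], [0, 3], [8], [9]]⟩,
    .spec 0 ⟨[0, 4], [[11, 10], [0, 2, 5], [6, 1], [7]]⟩,
    .spec 0 ⟨[0, 4], [[11, 10, 8], [0, 2, 5], [6, 1], [7]]⟩]⟩,
  ⟨⟨6, [(0, 1, 0), (1, 2, 0), (1, 5, 3), (2, 3, 2), (2, 4, 1), (3, 0, 2), (4, 0, 0), (4, 4, 0), (5, 3, 0), (5, 5, 0)]⟩, 0, [7], [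
    .spec 0 ⟨[0, 4], [[0, 2, 8, 5], [10, 4], [6], [7]]⟩,
    .spec 0 ⟨[0, 4], [[10, 5], [0, 1, 4], [6], [7]]⟩,
    .spec 0 ⟨[0, 4], [[0, 1, 3, 5], [10], [6], [7]]⟩,
    .spec 0 ⟨[0, 5], [[0, 1, 4, 6], [10], [8, 5], [9]]⟩,
    .spec 0 ⟨[0, 4], [[0, 2, 8, 5], [11, 10, 4], [6], [7]]⟩,
    .spec 0 ⟨[0, 5], [[0, 1, 4, 6], [11, 10], [8, 5], [9]]⟩,
    .spec 0 ⟨[0, 4], [[11, 10, 5], [0, 1, 4], [6], [7]]⟩,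
    .spec 0 ⟨[0, 4], [[0, 1, 3, 5], [11, 10], [6], [7]]⟩,
    .spec 0 ⟨[0, 4], [[11, 10], [0, 1, 4], [6], [7]]⟩,
    .spec 0 ⟨[0, 5], [[11, 10], [0, 2], [8, 5], [9]]⟩,
    .spec 0 ⟨[0, 5], [[11, 10, 6], [0, 2], [8, 5], [9]]⟩,
    .spec 0 ⟨[0, 4], [[11, 10, 5], [0, 1, 4], [6], [7]]⟩,
    .spec 0 ⟨[0, 4], [[11, 10, 8, 5], [0, 1, 4], [6], [7]]⟩]⟩,
  ⟨⟨6, [(0, 2, 0), (1, 3, 0), (1, 4, 0), (2, 0, 0), (2, 1, 0), (3, 2, 2), (3, 5, 1), (4, 0, 0), (4, 4, 0), (5, 0, 0), (5, 5, 0)]⟩, 0, [8], [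
    .spec 0 ⟨[0, 5], [[0, 3], [11, 1, 6], [9], [10]]⟩,
    .spec 0 ⟨[0, 5], [[0, 3], [11, 6], [9], [10]]⟩,
    .spec 0 ⟨[0, 4], [[0, 3], [11], [7], [8]]⟩,
    .spec 0 ⟨[0, 5], [[0, 3], [11], [9], [10]]⟩,
    .spec 0 ⟨[0, 5], [[0, 3], [12, 11, 6], [9], [10]]⟩,
    .spec 0 ⟨[0, 4], [[0, 3], [12, 11], [7], [8]]⟩,
    .spec 0 ⟨[0, 5], [[12, 11], [0, 4, 1, 6], [9], [10]]⟩,
    .spec 0 ⟨[0, 5], [[0, 3], [12, 11, 1, 6], [9], [10]]⟩,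
    .spec 4 ⟨[3, 6, 5, 4], [[5], [11, 4, 1], [10], [6], [9, 12], [8]]⟩,
    .spec 0 ⟨[0, 5], [[0, 3], [12, 11], [9], [10]]⟩,
    .spec 0 ⟨[0, 2], [[12, 11], [0], [3], [4, 1, 5]]⟩,
    .spec 0 ⟨[0, 2], [[12, 11, 7], [0], [3], [4, 1, 5]]⟩,
    .spec 0 ⟨[0, 2], [[12, 11], [0], [3], [4, 1, 5]]⟩,
    .spec 0 ⟨[0, 2], [[12, 11, 9], [0], [3], [4, 1, 5]]⟩]⟩,
  ⟨⟨7, [(0, 1, 0), (1, 3, 0), (2, 4, 0), (2, 5, 0), (3, 1, 0), (3, 2, 0), (4, 3, 2), (4, 6, 1), (5, 0, 0), (5, 5, 0), (6, 0, 0), (6, 6, 0)]⟩, 1, [9], [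
    .spec 0 ⟨[1, 3], [[12, 0], [1], [4], [5, 2, 6]]⟩,
    .spec 0 ⟨[1, 6], [[1, 4], [12, 2, 7], [10, 0], [11]]⟩,
    .spec 0 ⟨[1, 6], [[1, 4], [12, 7], [10, 0], [11]]⟩,
    .spec 0 ⟨[1, 5], [[1, 4], [12], [8, 0], [9]]⟩,
    .spec 0 ⟨[1, 6], [[1, 4], [12], [10, 0], [11]]⟩,
    .spec 0 ⟨[1, 3], [[13, 12], [1], [4], [5, 2, 6]]⟩,
    .spec 0 ⟨[1, 6], [[1, 4], [13, 12, 7], [10, 0], [11]]⟩,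
    .spec 0 ⟨[1, 5], [[1, 4], [13, 12], [8, 0], [9]]⟩,
    .spec 0 ⟨[1, 6], [[13, 12], [1, 5, 2, 7], [10, 0], [11]]⟩,
    .spec 0 ⟨[1, 6], [[1, 4], [13, 12, 2, 7], [10, 0], [11]]⟩,
    .spec 4 ⟨[4, 7, 6, 5], [[6], [12, 5, 2], [11], [7], [10, 0, 13], [9]]⟩,
    .spec 0 ⟨[1, 6], [[1, 4], [13, 12], [10, 0], [11]]⟩,
    .spec 0 ⟨[1, 3], [[13, 12, 0], [1], [4], [5, 2, 6]]⟩,
    .spec 0 ⟨[1, 3], [[13, 12, 8, 0], [1], [4], [5, 2, 6]]⟩,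
    .spec 0 ⟨[1, 3], [[13, 12, 0], [1], [4], [5, 2, 6]]⟩,
    .spec 0 ⟨[1, 3], [[13, 12, 10, 0], [1], [4], [5, 2, 6]]⟩]⟩,
  ⟨⟨7, [(0, 1, 0), (1, 3, 0), (2, 4, 0), (2, 5, 0), (3, 0, 0), (3, 2, 0), (4, 3, 2), (4, 6, 1), (5, 0, 0), (5, 5, 0), (6, 1, 0), (6, 6, 0)]⟩, 1, [9], [
    .spec 0 ⟨[1, 6], [[12, 0], [1, 5, 2, 7], [10], [11]]⟩,
    .spec 0 ⟨[1, 6], [[1, 4, 0], [12, 2, 7], [10], [11]]⟩,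
    .spec 0 ⟨[1, 6], [[1, 4, 0], [12, 7], [10], [11]]⟩,
    .spec 0 ⟨[1, 5], [[1, 5, 2, 7, 10], [12], [8, 0], [9]]⟩,
    .spec 0 ⟨[1, 6], [[1, 4, 0], [12], [10], [11]]⟩,
    .spec 0 ⟨[1, 6], [[13, 12], [1, 5, 2, 7], [10], [11]]⟩,
    .spec 0 ⟨[1, 6], [[1, 4, 0], [13, 12, 7], [10], [11]]⟩,
    .spec 0 ⟨[1, 5], [[1, 5, 2, 7, 10], [13, 12], [8, 0], [9]]⟩,
    .spec 0 ⟨[1, 6], [[13, 12, 0], [1, 5, 2, 7], [10], [11]]⟩,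
    .spec 0 ⟨[1, 6], [[1, 4, 0], [13, 12, 2, 7], [10], [11]]⟩,
    .spec 4 ⟨[4, 7, 6, 5], [[6], [12, 5, 2], [11], [7], [10, 13], [9]]⟩,
    .spec 0 ⟨[1, 6], [[1, 4, 0], [13, 12], [10], [11]]⟩,
    .spec 0 ⟨[1, 6], [[13, 12, 0], [1, 5, 2, 7], [10], [11]]⟩,
    .spec 0 ⟨[1, 6], [[13, 12, 8, 0], [1, 5, 2, 7], [10], [11]]⟩,
    .spec 0 ⟨[1, 3], [[13, 12], [1], [4, 0], [5, 2, 6]]⟩,
    .spec 0 ⟨[1, 3], [[13, 12, 10], [1], [4, 0], [5, 2, 6]]⟩]⟩,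
  ⟨⟨7, [(0, 3, 0), (1, 4, 0), (2, 3, 0), (2, 5, 0), (3, 0, 0), (3, 1, 0), (4, 0, 0), (4, 2, 0), (5, 4, 2), (5, 6, 1), (6, 1, 0), (6, 6, 0)]⟩, 1, [11], [
    .spec 0 ⟨[1, 6], [[12, 0, 5], [1, 7, 3, 9], [10], [11]]⟩,
    .spec 0 ⟨[1, 6], [[1, 6, 0, 5], [12, 3, 9], [10], [11]]⟩,
    .spec 0 ⟨[1, 3], [[1, 7, 3, 9, 10], [12], [5], [4, 0]]⟩,
    .spec 0 ⟨[1, 6], [[1, 6, 0, 5], [12, 9], [10], [11]]⟩,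
    .spec 0 ⟨[1, 6], [[1, 6, 0, 5], [12], [10], [11]]⟩,
    .spec 0 ⟨[1, 6], [[13, 12, 5], [1, 7, 3, 9], [10], [11]]⟩,
    .spec 0 ⟨[1, 3], [[1, 7, 3, 9, 10], [13, 12], [5], [4, 0]]⟩,
    .spec 0 ⟨[1, 6], [[1, 6, 0, 5], [13, 12, 9], [10], [11]]⟩,
    .spec 0 ⟨[1, 6], [[13, 12, 0, 5], [1, 7, 3, 9], [10], [11]]⟩,
    .spec 0 ⟨[1, 6], [[13, 12], [1, 7, 3, 9], [10], [11]]⟩,
    .spec 0 ⟨[1, 6], [[13, 12, 0, 5], [1, 7, 3, 9], [10], [11]]⟩,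
    .spec 0 ⟨[1, 6], [[1, 6, 0, 5], [13, 12, 3, 9], [10], [11]]⟩,
    .spec 4 ⟨[5, 7, 6, 0], [[8], [12, 7, 3], [11], [9], [10, 13], [0, 4]]⟩,
    .spec 0 ⟨[1, 6], [[1, 6, 0, 5], [13, 12], [10], [11]]⟩,
    .spec 0 ⟨[1, 4], [[13, 12], [1], [6, 0, 5], [7, 3, 8]]⟩,
    .spec 0 ⟨[1, 4], [[13, 12, 10], [1], [6, 0, 5], [7, 3, 8]]⟩]⟩,
  ⟨⟨7, [(0, 1, 0), (1, 3, 0), (2, 4, 0), (2, 5, 0), (3, 0, 0), (3, 2, 0), (4, 3, 2), (4, 6, 1), (5, 1, 0), (5, 5, 0), (6, 0, 0), (6, 6, 0)]⟩, 1, [9], [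
    .spec 0 ⟨[1, 5], [[12, 0], [1, 5, 3], [8], [9]]⟩,
    .spec 0 ⟨[1, 5], [[1, 4, 0], [12, 3], [8], [9]]⟩,
    .spec 0 ⟨[1, 6], [[1, 5, 3, 8], [12, 7], [10, 0], [11]]⟩,
    .spec 0 ⟨[1, 5], [[1, 4, 0], [12], [8], [9]]⟩,
    .spec 0 ⟨[1, 6], [[1, 5, 3, 8], [12], [10, 0], [11]]⟩,
    .spec 0 ⟨[1, 5], [[13, 12], [1, 5, 3], [8], [9]]⟩,
    .spec 0 ⟨[1, 6], [[1, 5, 3, 8], [13, 12, 7], [10, 0], [11]]⟩,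
    .spec 0 ⟨[1, 5], [[1, 4, 0], [13, 12], [8], [9]]⟩,
    .spec 0 ⟨[1, 5], [[13, 12, 0], [1, 5, 3], [8], [9]]⟩,
    .spec 0 ⟨[1, 5], [[1, 4, 0], [13, 12, 3], [8], [9]]⟩,
    .spec 4 ⟨[4, 7, 6, 5], [[6], [12, 5, 2], [11], [7], [10, 0, 13], [9]]⟩,
    .spec 0 ⟨[1, 6], [[1, 5, 3, 8], [13, 12], [10, 0], [11]]⟩,
    .spec 0 ⟨[1, 3], [[13, 12], [1], [4, 0], [5, 2, 6]]⟩,
    .spec 0 ⟨[1, 3], [[13, 12, 8], [1], [4, 0], [5, 2, 6]]⟩,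
    .spec 0 ⟨[1, 5], [[13, 12, 0], [1, 5, 3], [8], [9]]⟩,
    .spec 0 ⟨[1, 5], [[13, 12, 10, 0], [1, 5, 3], [8], [9]]⟩]⟩,
  ⟨⟨7, [(0, 3, 0), (1, 4, 0), (2, 5, 0), (2, 6, 0), (3, 0, 0), (3, 1, 0), (4, 0, 0), (4, 2, 0), (5, 3, 1), (5, 4, 2), (6, 1, 0), (6, 6, 0)]⟩, 0, [11], [
    .spec 0 ⟨[0, 4], [[0, 4], [12, 1], [6], [7, 2, 9]]⟩,
    .spec 0 ⟨[0, 6], [[0, 4], [12, 3], [10, 1, 6], [11]]⟩,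
    .spec 0 ⟨[0, 4], [[0, 4], [12], [6], [7, 2, 9]]⟩,
    .spec 0 ⟨[0, 4], [[0, 4], [12, 9], [6], [7, 3, 10, 1]]⟩,
    .spec 0 ⟨[0, 6], [[0, 4], [12], [10, 1, 6], [11]]⟩,
    .spec 0 ⟨[0, 4], [[0, 4], [13, 12], [6], [7, 2, 9]]⟩,
    .spec 0 ⟨[0, 4], [[0, 4], [13, 12, 9], [6], [7, 3, 10, 1]]⟩,
    .spec 0 ⟨[0, 6], [[0, 4], [13, 12], [10, 1, 6], [11]]⟩,
    .spec 0 ⟨[0, 4], [[13, 12], [0, 5, 1], [6], [7, 2, 9]]⟩,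
    .spec 0 ⟨[0, 4], [[0, 4], [13, 12, 1], [6], [7, 2, 9]]⟩,
    .spec 0 ⟨[0, 3], [[13, 12], [0], [4], [5, 1, 7, 2, 8]]⟩,
    .spec 0 ⟨[0, 6], [[0, 4], [13, 12, 3], [10, 1, 6], [11]]⟩,
    .spec 1 ⟨[5, 4, 7, 3, 6], [[9], [7, 2], [12], [4, 13], [8], [5, 1], [11]]⟩,
    .spec 0 ⟨[0, 4], [[0, 4], [13, 12], [6], [7, 3, 10, 1]]⟩,
    .spec 0 ⟨[0, 4], [[0, 4], [13, 12, 1], [6], [7, 2, 9]]⟩,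
    .spec 0 ⟨[0, 4], [[0, 4], [13, 12, 10, 1], [6], [7, 2, 9]]⟩]⟩,
  ⟨⟨6, [(0, 1, 0), (1, 2, 0), (2, 3, 0), (2, 4, 0), (3, 1, 2), (3, 5, 1), (4, 0, 0), (4, 4, 0), (5, 0, 0), (5, 5, 0)]⟩, 1, [7], [
    .node 3 ⟨[0, 2, 1, 3, 4, 5], [[0], [2], [3], [10], [1], [4], [5], [6], [7], [8], [9]]⟩,
    .spec 0 ⟨[1, 4], [[10, 4], [1, 3], [6, 0], [7]]⟩,
    .spec 0 ⟨[1, 4], [[1, 2, 4], [10], [6, 0], [7]]⟩,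
    .spec 0 ⟨[1, 5], [[1, 2, 4], [10], [8, 0], [9]]⟩,
    .node 4 ⟨[0, 6, 2, 1, 3, 4, 5], [[0], [10], [2], [3], [11], [1], [4], [5], [6], [7], [8], [9]]⟩,
    .spec 0 ⟨[1, 4], [[11, 10, 4], [1, 3], [6, 0], [7]]⟩,
    .spec 0 ⟨[1, 4], [[1, 2, 4], [11, 10], [6, 0], [7]]⟩,
    .spec 0 ⟨[1, 5], [[11, 10], [1, 2, 5], [8, 0], [9]]⟩,
    .spec 0 ⟨[1, 5], [[1, 2, 4], [11, 10], [8, 0], [9]]⟩,
    .node 5 ⟨[6, 0, 2, 1, 3, 4, 5], [[10], [0], [2], [3], [11], [1], [4], [5], [6], [7], [8], [9]]⟩,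
    .node 6 ⟨[6, 0, 2, 4, 1, 3, 5], [[10], [0], [3], [2], [7], [6], [11], [1], [4], [5], [8], [9]]⟩,
    .node 7 ⟨[6, 0, 2, 1, 3, 4, 5], [[10], [0], [2], [3], [11], [1], [4], [5], [6], [7], [8], [9]]⟩,
    .node 8 ⟨[6, 0, 2, 5, 1, 3, 4], [[10], [0], [2], [3], [9], [8], [11], [1], [5], [4], [6], [7]]⟩]⟩,
  ⟨⟨6, [(0, 2, 0), (1, 3, 0), (2, 0, 0), (2, 1, 0), (3, 4, 0), (3, 5, 3), (4, 1, 2), (4, 2, 1), (5, 0, 0), (5, 5, 0)]⟩, 0, [9], [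
    .spec 0 ⟨[0, 5], [[0, 2], [10, 1, 5], [8], [9]]⟩,
    .spec 0 ⟨[0, 3], [[0, 2], [10], [5, 8], [4, 6, 1]]⟩,
    .spec 0 ⟨[0, 5], [[0, 2], [10, 6, 1, 5], [8], [9]]⟩,
    .spec 0 ⟨[0, 5], [[0, 2], [10], [8], [9]]⟩,
    .spec 0 ⟨[0, 5], [[0, 2], [11, 10, 5], [8], [9]]⟩,
    .spec 0 ⟨[0, 5], [[11, 10], [0, 3, 1, 5], [8], [9]]⟩,
    .spec 0 ⟨[0, 5], [[0, 2], [11, 10, 1, 5], [8], [9]]⟩,
    .spec 0 ⟨[0, 5], [[0, 2], [11, 10, 6, 1, 5], [8], [9]]⟩,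
    .spec 0 ⟨[0, 5], [[0, 2], [11, 10], [8], [9]]⟩,
    .spec 0 ⟨[0, 5], [[0, 2], [11, 10, 1, 5], [8], [9]]⟩,
    .spec 1 ⟨[4, 1, 6, 2, 5], [[6], [1, 4], [10], [2, 11], [7], [3], [9]]⟩,
    .spec 0 ⟨[0, 2], [[11, 10], [0], [2], [3, 1, 4, 7]]⟩,
    .spec 0 ⟨[0, 2], [[11, 10, 8], [0], [2], [3, 1, 4, 7]]⟩]⟩,
  ⟨⟨5, [(0, 1, 0), (1, 2, 0), (1, 3, 3), (2, 0, 2), (2, 4, 1), (3, 3, 0), (4, 0, 0), (4, 4, 0)]⟩, 3, [7], [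
    .node 0 ⟨[0, 1, 2, 4, 3], [[0], [1], [2], [3], [4], [6], [7], [8], [5]]⟩,
    .spec 0 ⟨[1, 3], [[1, 3, 0], [2], [8], [5]]⟩,
    .spec 0 ⟨[3, 4], [[5], [8, 4], [6, 0, 2], [7]]⟩,
    .spec 0 ⟨[3, 4], [[5], [8], [6, 0, 2], [7]]⟩,
    .node 1 ⟨[5, 0, 1, 2, 4, 3], [[8], [0], [1], [2], [3], [4], [6], [7], [9], [5]]⟩,
    .spec 0 ⟨[3, 4], [[5], [9, 8, 4], [6, 0, 2], [7]]⟩,
    .spec 9 ⟨[2, 0, 1, 4, 5], [[3], [0], [1], [4], [6], [7], [2], [8, 9]]⟩,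
    .node 2 ⟨[0, 1, 2, 5, 4, 3], [[0], [1], [2], [3], [4], [8], [6], [7], [9], [5]]⟩,
    .spec 0 ⟨[3, 4], [[5], [9, 8], [6, 0, 2], [7]]⟩,
    .node 9 ⟨[5, 0, 1, 2, 3, 4], [[8], [0], [1], [2], [3], [4], [9], [5], [6], [7]]⟩,
    .node 10 ⟨[5, 0, 4, 1, 2, 3], [[8], [0], [7], [6], [1], [2], [3], [4], [9], [5]]⟩]⟩]

theorem okS3J : okAll specsE1 nodesS3J = true := by decide +kernel

end BiP4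

end

section

/-! # MP_d76268_co: certificate for the run S3L (generated) -/

namespace BiP4

def nodesS3L : List Node := [
  ⟨⟨5, [(0, 3, 0), (1, 0, 0), (1, 2, 0), (2, 1, 0), (2, 4, 3), (3, 0, 2), (3, 1, 1), (4, 0, 0), (4, 4, 0)]⟩, 0, [8], [
    .spec 0 ⟨[0, 1], [[0, 5], [9], [1], [2, 3]]⟩,
    .spec 0 ⟨[0, 2], [[0, 5], [9], [4, 7], [3, 2]]⟩,
    .spec 0 ⟨[0, 4], [[0, 5], [9], [7], [8]]⟩,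
    .spec 0 ⟨[0, 4], [[10, 9], [0, 6, 2, 4], [7], [8]]⟩,
    .spec 0 ⟨[0, 4], [[0, 5], [10, 9, 4], [7], [8]]⟩,
    .spec 0 ⟨[0, 4], [[0, 5], [10, 9, 2, 4], [7], [8]]⟩,
    .spec 0 ⟨[0, 4], [[0, 5], [10, 9], [7], [8]]⟩,
    .spec 0 ⟨[0, 1], [[10, 9], [0, 6], [1], [2, 3]]⟩,
    .spec 0 ⟨[0, 1], [[0, 5], [10, 9], [1], [2, 3]]⟩,
    .spec 0 ⟨[0, 1], [[10, 9], [0, 6], [1], [2, 3]]⟩,
    .spec 0 ⟨[0, 1], [[10, 9, 7], [0, 6], [1], [2, 3]]⟩]⟩,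
  ⟨⟨6, [(0, 4, 0), (1, 0, 0), (2, 1, 0), (2, 3, 0), (3, 2, 0), (3, 5, 3), (4, 1, 2), (4, 2, 1), (5, 0, 0), (5, 5, 0)]⟩, 0, [9], [
    .spec 0 ⟨[0, 5], [[10, 1], [0, 7, 3, 5], [8], [9]]⟩,
    .spec 0 ⟨[0, 5], [[0, 6, 1], [10, 3, 5], [8], [9]]⟩,
    .spec 0 ⟨[0, 3], [[0, 6, 1], [10], [5, 8], [4, 3]]⟩,
    .spec 0 ⟨[0, 5], [[0, 6, 1], [10], [8], [9]]⟩,
    .spec 0 ⟨[0, 5], [[11, 10], [0, 7, 3, 5], [8], [9]]⟩,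
    .spec 0 ⟨[0, 5], [[11, 10, 1], [0, 7, 3, 5], [8], [9]]⟩,
    .spec 0 ⟨[0, 5], [[0, 6, 1], [11, 10, 5], [8], [9]]⟩,
    .spec 0 ⟨[0, 5], [[0, 6, 1], [11, 10, 3, 5], [8], [9]]⟩,
    .spec 0 ⟨[0, 5], [[0, 6, 1], [11, 10], [8], [9]]⟩,
    .spec 0 ⟨[0, 5], [[11, 10, 1], [0, 7, 3, 5], [8], [9]]⟩,
    .spec 0 ⟨[0, 5], [[0, 6, 1], [11, 10, 3, 5], [8], [9]]⟩,
    .spec 0 ⟨[0, 2], [[11, 10], [0, 7], [2, 1], [3, 4]]⟩,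
    .spec 0 ⟨[0, 2], [[11, 10, 8], [0, 7], [2, 1], [3, 4]]⟩]⟩,
  ⟨⟨6, [(0, 3, 0), (1, 2, 0), (1, 5, 0), (2, 0, 0), (2, 1, 0), (3, 0, 0), (3, 4, 0), (4, 2, 1), (4, 3, 2), (5, 0, 0), (5, 5, 0)]⟩, 0, [10], [
    .spec 0 ⟨[0, 1], [[0, 5], [11], [2, 9], [1, 4]]⟩,
    .spec 0 ⟨[0, 2], [[0, 5], [11], [3], [4, 1]]⟩,
    .spec 0 ⟨[0, 2], [[0, 5], [11, 7], [3], [4, 1]]⟩,
    .spec 0 ⟨[0, 5], [[0, 5], [11], [9], [10]]⟩,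
    .spec 0 ⟨[0, 5], [[0, 5], [12, 11, 4, 2], [9], [10]]⟩,
    .spec 0 ⟨[0, 5], [[0, 5], [12, 11], [9], [10]]⟩,
    .spec 0 ⟨[0, 3], [[12, 11], [0], [5], [6, 8]]⟩,
    .spec 0 ⟨[0, 5], [[0, 5], [12, 11, 2], [9], [10]]⟩,
    .spec 0 ⟨[0, 2], [[12, 11], [0, 6, 7], [3], [4, 1]]⟩,
    .spec 0 ⟨[0, 2], [[0, 5], [12, 11, 7], [3], [4, 1]]⟩,
    .spec 0 ⟨[0, 2], [[0, 5], [12, 11], [3], [4, 1]]⟩,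
    .spec 4 ⟨[4, 6, 2, 5], [[8], [11, 6], [4, 1], [7], [3, 12], [10]]⟩,
    .spec 0 ⟨[0, 3], [[12, 11], [0], [5], [6, 8]]⟩,
    .spec 0 ⟨[0, 3], [[12, 11, 9], [0], [5], [6, 8]]⟩]⟩,
  ⟨⟨7, [(0, 1, 0), (1, 4, 0), (2, 3, 0), (2, 6, 0), (3, 0, 0), (3, 2, 0), (4, 1, 0), (4, 5, 0), (5, 3, 1), (5, 4, 2), (6, 0, 0), (6, 6, 0)]⟩, 1, [11], [
    .spec 0 ⟨[1, 4], [[12, 0], [1], [6], [7, 9]]⟩,
    .spec 0 ⟨[1, 2], [[1, 6], [12], [3, 10, 0], [2, 5]]⟩,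
    .spec 0 ⟨[1, 3], [[1, 6], [12], [4, 0], [5, 2]]⟩,
    .spec 0 ⟨[1, 3], [[1, 6], [12, 8], [4, 0], [5, 2]]⟩,
    .spec 0 ⟨[1, 6], [[1, 6], [12], [10, 0], [11]]⟩,
    .spec 0 ⟨[1, 4], [[13, 12], [1], [6], [7, 9]]⟩,
    .spec 0 ⟨[1, 6], [[1, 6], [13, 12, 5, 3], [10, 0], [11]]⟩,
    .spec 0 ⟨[1, 6], [[1, 6], [13, 12], [10, 0], [11]]⟩,
    .spec 0 ⟨[1, 4], [[13, 12, 0], [1], [6], [7, 9]]⟩,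
    .spec 0 ⟨[1, 6], [[1, 6], [13, 12, 3], [10, 0], [11]]⟩,
    .spec 0 ⟨[1, 3], [[13, 12], [1, 7, 8], [4, 0], [5, 2]]⟩,
    .spec 0 ⟨[1, 3], [[1, 6], [13, 12, 8], [4, 0], [5, 2]]⟩,
    .spec 0 ⟨[1, 3], [[1, 6], [13, 12], [4, 0], [5, 2]]⟩,
    .spec 4 ⟨[5, 7, 3, 6], [[9], [12, 7], [5, 2], [8], [4, 0, 13], [11]]⟩,
    .spec 0 ⟨[1, 4], [[13, 12, 0], [1], [6], [7, 9]]⟩,
    .spec 0 ⟨[1, 4], [[13, 12, 10, 0], [1], [6], [7, 9]]⟩]⟩,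
  ⟨⟨7, [(0, 1, 0), (1, 4, 0), (2, 3, 0), (2, 6, 0), (3, 0, 0), (3, 2, 0), (4, 0, 0), (4, 5, 0), (5, 3, 1), (5, 4, 2), (6, 1, 0), (6, 6, 0)]⟩, 1, [11], [
    .spec 0 ⟨[1, 6], [[12, 0], [1, 7, 8, 5, 3], [10], [11]]⟩,
    .spec 0 ⟨[1, 2], [[1, 6, 0], [12], [3, 10], [2, 5]]⟩,
    .spec 0 ⟨[1, 6], [[1, 6, 0], [12, 5, 3], [10], [11]]⟩,
    .spec 0 ⟨[1, 6], [[1, 6, 0], [12, 8, 5, 3], [10], [11]]⟩,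
    .spec 0 ⟨[1, 6], [[1, 6, 0], [12], [10], [11]]⟩,
    .spec 0 ⟨[1, 6], [[13, 12], [1, 7, 8, 5, 3], [10], [11]]⟩,
    .spec 0 ⟨[1, 6], [[1, 6, 0], [13, 12, 5, 3], [10], [11]]⟩,
    .spec 0 ⟨[1, 6], [[1, 6, 0], [13, 12], [10], [11]]⟩,
    .spec 0 ⟨[1, 6], [[13, 12, 0], [1, 7, 8, 5, 3], [10], [11]]⟩,
    .spec 0 ⟨[1, 6], [[1, 6, 0], [13, 12, 3], [10], [11]]⟩,
    .spec 0 ⟨[1, 6], [[13, 12, 0], [1, 7, 8, 5, 3], [10], [11]]⟩,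
    .spec 0 ⟨[1, 6], [[1, 6, 0], [13, 12, 8, 5, 3], [10], [11]]⟩,
    .spec 0 ⟨[1, 6], [[1, 6, 0], [13, 12, 5, 3], [10], [11]]⟩,
    .spec 4 ⟨[5, 7, 3, 6], [[9], [12, 7], [5, 2], [8], [4, 0, 13], [11]]⟩,
    .spec 0 ⟨[1, 4], [[13, 12], [1], [6, 0], [7, 9]]⟩,
    .spec 0 ⟨[1, 4], [[13, 12, 10], [1], [6, 0], [7, 9]]⟩]⟩,
  ⟨⟨7, [(0, 1, 0), (1, 4, 0), (2, 3, 0), (2, 6, 0), (3, 1, 0), (3, 2, 0), (4, 0, 0), (4, 5, 0), (5, 3, 1), (5, 4, 2), (6, 0, 0), (6, 6, 0)]⟩, 1, [11], [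
    .spec 0 ⟨[1, 3], [[12, 0], [1, 7, 8], [4], [5, 2]]⟩,
    .spec 0 ⟨[1, 6], [[1, 7, 8, 4], [12, 3], [10, 0], [11]]⟩,
    .spec 0 ⟨[1, 3], [[1, 6, 0], [12], [4], [5, 2]]⟩,
    .spec 0 ⟨[1, 3], [[1, 6, 0], [12, 8], [4], [5, 2]]⟩,
    .spec 0 ⟨[1, 6], [[1, 7, 8, 4], [12], [10, 0], [11]]⟩,
    .spec 0 ⟨[1, 3], [[13, 12], [1, 7, 8], [4], [5, 2]]⟩,
    .spec 0 ⟨[1, 4], [[13, 12, 4], [1], [6, 0], [7, 9]]⟩,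
    .spec 0 ⟨[1, 6], [[1, 7, 8, 4], [13, 12], [10, 0], [11]]⟩,
    .spec 0 ⟨[1, 4], [[13, 12], [1], [6, 0], [7, 9]]⟩,
    .spec 0 ⟨[1, 6], [[1, 7, 8, 4], [13, 12, 3], [10, 0], [11]]⟩,
    .spec 0 ⟨[1, 3], [[13, 12, 0], [1, 7, 8], [4], [5, 2]]⟩,
    .spec 0 ⟨[1, 3], [[1, 6, 0], [13, 12, 8], [4], [5, 2]]⟩,
    .spec 0 ⟨[1, 3], [[1, 6, 0], [13, 12], [4], [5, 2]]⟩,
    .spec 4 ⟨[5, 7, 3, 6], [[9], [12, 7], [5, 2], [8], [4, 13], [11]]⟩,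
    .spec 0 ⟨[1, 3], [[13, 12, 0], [1, 7, 8], [4], [5, 2]]⟩,
    .spec 0 ⟨[1, 3], [[13, 12, 10, 0], [1, 7, 8], [4], [5, 2]]⟩]⟩,
  ⟨⟨7, [(0, 3, 0), (1, 5, 0), (2, 3, 0), (2, 4, 0), (3, 0, 0), (3, 1, 0), (4, 1, 0), (4, 2, 0), (5, 0, 0), (5, 6, 0), (6, 4, 1), (6, 5, 2)]⟩, 1, [0, 4], [
    .spec 0 ⟨[1, 4], [[12, 0, 5], [1, 9, 10], [6], [7, 3]]⟩,
    .spec 0 ⟨[1, 3], [[1, 9, 10, 6], [12, 2], [5], [4, 0]]⟩,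
    .spec 0 ⟨[1, 3], [[1, 9, 10, 6], [12], [5], [4, 0]]⟩,
    .spec 0 ⟨[1, 4], [[1, 8, 0, 5], [12], [6], [7, 3]]⟩,
    .spec 0 ⟨[1, 4], [[1, 8, 0, 5], [12, 10], [6], [7, 3]]⟩,
    .spec 0 ⟨[1, 4], [[13, 12, 5], [1, 9, 10], [6], [7, 3]]⟩,
    .spec 0 ⟨[1, 3], [[1, 9, 10, 6], [13, 12], [5], [4, 0]]⟩,
    .spec 0 ⟨[1, 5], [[13, 12, 6], [1], [8, 0, 5], [9, 11]]⟩,
    .spec 0 ⟨[1, 4], [[13, 12, 0, 5], [1, 9, 10], [6], [7, 3]]⟩,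
    .spec 0 ⟨[1, 4], [[13, 12], [1, 9, 10], [6], [7, 3]]⟩,
    .spec 0 ⟨[1, 5], [[13, 12], [1], [8, 0, 5], [9, 11]]⟩,
    .spec 0 ⟨[1, 3], [[1, 9, 10, 6], [13, 12, 2], [5], [4, 0]]⟩,
    .spec 0 ⟨[1, 4], [[13, 12, 0, 5], [1, 9, 10], [6], [7, 3]]⟩,
    .spec 0 ⟨[1, 4], [[1, 8, 0, 5], [13, 12, 10], [6], [7, 3]]⟩,
    .spec 0 ⟨[1, 4], [[1, 8, 0, 5], [13, 12], [6], [7, 3]]⟩,
    .spec 4 ⟨[6, 7, 4, 0], [[11], [12, 9], [7, 3], [10], [6, 13], [0, 4]]⟩]⟩,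
  ⟨⟨6, [(0, 1, 0), (1, 4, 0), (2, 3, 0), (2, 5, 0), (3, 0, 0), (3, 2, 0), (4, 1, 2), (4, 3, 1), (5, 0, 0), (5, 5, 0)]⟩, 1, [9], [
    .node 2 ⟨[0, 2, 3, 1, 4, 5], [[0], [2], [3], [4], [5], [10], [1], [7], [6], [8], [9]]⟩,
    .spec 0 ⟨[1, 2], [[1, 6], [10], [3, 8, 0], [2, 5]]⟩,
    .spec 0 ⟨[1, 3], [[1, 6], [10], [4, 0], [5, 2]]⟩,
    .spec 0 ⟨[1, 5], [[1, 6], [10], [8, 0], [9]]⟩,
    .node 3 ⟨[0, 6, 2, 3, 1, 4, 5], [[0], [10], [2], [3], [4], [5], [11], [1], [7], [6], [8], [9]]⟩,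
    .spec 0 ⟨[1, 5], [[1, 6], [11, 10, 5, 3], [8, 0], [9]]⟩,
    .spec 0 ⟨[1, 5], [[1, 6], [11, 10], [8, 0], [9]]⟩,
    .node 4 ⟨[6, 0, 2, 3, 1, 4, 5], [[10], [0], [2], [3], [4], [5], [11], [1], [7], [6], [8], [9]]⟩,
    .spec 0 ⟨[1, 5], [[1, 6], [11, 10, 3], [8, 0], [9]]⟩,
    .spec 0 ⟨[1, 3], [[11, 10], [1, 7], [4, 0], [5, 2]]⟩,
    .spec 0 ⟨[1, 3], [[1, 6], [11, 10], [4, 0], [5, 2]]⟩,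
    .node 5 ⟨[6, 0, 2, 3, 1, 4, 5], [[10], [0], [2], [3], [4], [5], [11], [1], [7], [6], [8], [9]]⟩,
    .node 6 ⟨[6, 0, 2, 5, 3, 1, 4], [[10], [0], [3], [2], [9], [8], [4], [5], [11], [1], [7], [6]]⟩]⟩,
  ⟨⟨6, [(0, 3, 0), (1, 4, 0), (2, 0, 0), (2, 1, 0), (3, 2, 0), (3, 5, 3), (4, 1, 2), (4, 2, 1), (5, 0, 0), (5, 5, 0)]⟩, 0, [9], [
    .spec 0 ⟨[0, 5], [[10, 1, 7, 2], [0, 5], [8], [9]]⟩,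
    .spec 0 ⟨[0, 2], [[0, 5, 8], [10], [2], [3, 1, 7]]⟩,
    .spec 0 ⟨[0, 4], [[0, 5, 8], [10], [7, 2], [6, 1]]⟩,
    .spec 0 ⟨[0, 5], [[0, 4, 2], [10], [8], [9]]⟩,
    .spec 0 ⟨[0, 5], [[11, 10, 7, 2], [0, 5], [8], [9]]⟩,
    .spec 0 ⟨[0, 5], [[11, 10], [0, 5], [8], [9]]⟩,
    .spec 0 ⟨[0, 5], [[11, 10, 1, 7, 2], [0, 5], [8], [9]]⟩,
    .spec 0 ⟨[0, 2], [[0, 5, 8], [11, 10], [2], [3, 1, 7]]⟩,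
    .spec 0 ⟨[0, 5], [[0, 4, 2], [11, 10], [8], [9]]⟩,
    .spec 0 ⟨[0, 5], [[11, 10, 1, 7, 2], [0, 5], [8], [9]]⟩,
    .spec 0 ⟨[0, 5], [[11, 10, 2], [0, 5], [8], [9]]⟩,
    .spec 0 ⟨[0, 2], [[11, 10], [0, 4], [2], [3, 1, 7]]⟩,
    .spec 0 ⟨[0, 2], [[11, 10, 8], [0, 4], [2], [3, 1, 7]]⟩]⟩,
  ⟨⟨8, [(0, 3, 0), (1, 4, 0), (2, 1, 0), (2, 6, 0), (3, 0, 0), (3, 7, 0), (4, 0, 0), (4, 2, 0), (4, 5, 0), (5, 1, 0), (5, 3, 3), (6, 4, 1), (6, 7, 2), (7, 2, 2)]⟩, 0, [1, 7, 2], [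
    .spec 0 ⟨[0, 4], [[0, 4], [14, 1], [6], [7, 3, 11]]⟩,
    .spec 0 ⟨[0, 2], [[0, 4], [14], [2, 1, 6], [3, 12, 13]]⟩,
    .spec 0 ⟨[0, 4], [[0, 4], [14], [6], [7, 2, 1]]⟩,
    .spec 0 ⟨[0, 4], [[0, 4], [14, 9, 1], [6], [7, 3, 11]]⟩,
    .spec 0 ⟨[0, 6], [[0, 4], [14], [11, 6], [12, 13, 3]]⟩,
    .spec 0 ⟨[0, 4], [[0, 4], [14, 13, 3, 11], [6], [8, 9, 1]]⟩,
    .spec 0 ⟨[0, 4], [[0, 4], [15, 14], [6], [7, 3, 11]]⟩,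
    .spec 0 ⟨[0, 4], [[0, 4], [15, 14, 1], [6], [7, 3, 11]]⟩,
    .spec 0 ⟨[0, 4], [[0, 4], [15, 14, 11], [6], [7, 2, 1]]⟩,
    .spec 0 ⟨[0, 4], [[15, 14], [0, 5, 13, 3, 11], [6], [8, 9, 1]]⟩,
    .spec 0 ⟨[0, 4], [[0, 4], [15, 14, 13, 3, 11], [6], [8, 9, 1]]⟩,
    .spec 0 ⟨[0, 3], [[15, 14], [0], [4], [5, 13, 2, 1, 8, 10]]⟩,
    .spec 0 ⟨[0, 2], [[0, 4], [15, 14], [2, 1, 6], [3, 12, 13]]⟩,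
    .spec 0 ⟨[0, 4], [[0, 4], [15, 14, 9, 1], [6], [7, 3, 11]]⟩,
    .spec 0 ⟨[0, 4], [[0, 4], [15, 14, 1], [6], [7, 3, 11]]⟩,
    .spec 12 ⟨[6, 2, 4, 5, 8], [[12, 13], [3], [11], [7], [8], [9, 1], [10], [14, 4, 15]]⟩,
    .spec 0 ⟨[0, 4], [[0, 4], [15, 14], [6], [7, 2, 1]]⟩,
    .spec 0 ⟨[0, 4], [[0, 4], [15, 14, 13, 3, 11], [6], [8, 9, 1]]⟩,
    .spec 0 ⟨[0, 4], [[0, 4], [15, 14, 3, 11], [6], [8, 9, 1]]⟩]⟩,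
  ⟨⟨7, [(0, 1, 0), (1, 2, 0), (1, 3, 0), (2, 0, 0), (2, 4, 0), (3, 0, 0), (3, 6, 3), (4, 1, 1), (4, 5, 2), (5, 2, 2), (6, 5, 0), (6, 6, 0)]⟩, 1, [11], [
    .spec 0 ⟨[1, 6], [[12, 0], [2, 6], [10, 9, 4, 7], [11]]⟩,
    .spec 0 ⟨[1, 4], [[2, 5, 0], [12], [7], [8, 9, 4]]⟩,
    .spec 4 ⟨[4, 5, 1, 6], [[8], [9, 4], [2, 5, 0], [7], [12], [11]]⟩,
    .spec 0 ⟨[1, 6], [[2, 5, 0], [12], [10, 9, 4, 7], [11]]⟩,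
    .spec 0 ⟨[1, 6], [[13, 12], [2, 6], [10, 9, 4, 7], [11]]⟩,
    .spec 0 ⟨[1, 6], [[13, 12, 0], [2, 6], [10, 9, 4, 7], [11]]⟩,
    .spec 0 ⟨[1, 6], [[13, 12, 7], [2, 6], [10, 9, 3, 0], [11]]⟩,
    .spec 0 ⟨[1, 6], [[13, 12, 0], [2, 6], [10, 9, 4, 7], [11]]⟩,
    .spec 0 ⟨[1, 6], [[2, 5, 0], [13, 12], [10, 9, 4, 7], [11]]⟩,
    .spec 0 ⟨[1, 2], [[13, 12], [1], [3, 0], [4, 8, 9]]⟩,
    .spec 4 ⟨[4, 7, 1, 6], [[8], [12, 9, 4], [2, 5, 0], [7], [13], [11]]⟩,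
    .spec 4 ⟨[4, 7, 1, 6], [[8, 9], [12, 4], [2, 5, 0], [7], [13], [11]]⟩,
    .spec 4 ⟨[4, 5, 1, 6], [[8], [9, 4], [2, 5, 0], [7], [13, 12], [11]]⟩,
    .node 9 ⟨[7, 0, 2, 6, 1, 3, 4, 5], [[12], [0], [3], [4], [11], [10], [13], [1], [2], [5], [6], [7], [8], [9]]⟩]⟩,
  ⟨⟨6, [(0, 3, 0), (1, 0, 0), (1, 2, 0), (2, 1, 0), (2, 5, 3), (3, 1, 1), (3, 4, 2), (4, 0, 2), (5, 4, 0), (5, 5, 0)]⟩, 0, [9], [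
    .spec 0 ⟨[0, 1], [[0, 6, 7], [10], [1], [2, 3]]⟩,
    .spec 0 ⟨[0, 5], [[0, 5, 1], [10, 4], [8, 7], [9]]⟩,
    .spec 0 ⟨[0, 1], [[10, 7], [0, 5], [1], [2, 3]]⟩,
    .spec 0 ⟨[0, 5], [[0, 5, 1], [10], [8, 7], [9]]⟩,
    .spec 0 ⟨[0, 5], [[11, 10], [0, 5, 2, 4], [8, 7], [9]]⟩,
    .spec 0 ⟨[0, 5], [[0, 5, 1], [11, 10, 4], [8, 7], [9]]⟩,
    .node 10 ⟨[6, 1, 0, 2, 3, 4, 5], [[10], [1], [2], [11], [0], [3], [4], [5], [6], [7], [8], [9]]⟩,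
    .spec 0 ⟨[0, 5], [[0, 5, 1], [11, 10], [8, 7], [9]]⟩,
    .spec 0 ⟨[0, 1], [[0, 6, 7], [11, 10], [1], [2, 3]]⟩,
    .spec 0 ⟨[0, 1], [[11, 10, 7], [0, 5], [1], [2, 3]]⟩,
    .spec 0 ⟨[0, 1], [[11, 10], [0, 5], [1], [2, 3]]⟩,
    .spec 0 ⟨[0, 1], [[11, 10, 7], [0, 5], [1], [2, 3]]⟩,
    .spec 0 ⟨[0, 1], [[11, 10, 8, 7], [0, 5], [1], [2, 3]]⟩]⟩,
  ⟨⟨7, [(0, 2, 0), (1, 0, 0), (1, 3, 0), (2, 0, 0), (2, 5, 0), (3, 1, 0), (3, 6, 3), (4, 1, 1), (5, 2, 2), (5, 4, 1), (6, 4, 0), (6, 6, 0)]⟩, 0, [11], [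
    .spec 0 ⟨[0, 1], [[0, 3], [12], [1], [2, 5]]⟩,
    .spec 0 ⟨[0, 6], [[0, 3], [12, 6], [10, 7, 1], [11]]⟩,
    .spec 0 ⟨[0, 1], [[0, 3], [12, 7], [1], [2, 5]]⟩,
    .spec 0 ⟨[0, 1], [[0, 3], [12, 9, 7], [1], [2, 5]]⟩,
    .spec 0 ⟨[0, 6], [[0, 3], [12], [10, 7, 1], [11]]⟩,
    .spec 0 ⟨[0, 2], [[13, 12], [0], [3], [4, 8]]⟩,
    .spec 0 ⟨[0, 6], [[0, 3], [13, 12, 6], [10, 7, 1], [11]]⟩,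
    .spec 0 ⟨[0, 1], [[13, 12], [0, 4, 9, 7], [1], [2, 5]]⟩,
    .spec 0 ⟨[0, 1], [[0, 3], [13, 12, 9, 7], [1], [2, 5]]⟩,
    .spec 0 ⟨[0, 1], [[0, 3], [13, 12], [1], [2, 6, 10, 7]]⟩,
    .spec 0 ⟨[0, 6], [[0, 3], [13, 12], [10, 7, 1], [11]]⟩,
    .spec 0 ⟨[0, 1], [[0, 3], [13, 12], [1], [2, 5]]⟩,
    .spec 4 ⟨[5, 7, 1, 6], [[8], [12, 4], [2, 5], [9, 7], [1, 13], [11]]⟩,
    .spec 0 ⟨[0, 1], [[0, 3], [13, 12, 7], [1], [2, 5]]⟩,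
    .spec 0 ⟨[0, 1], [[0, 3], [13, 12, 7], [1], [2, 5]]⟩,
    .spec 0 ⟨[0, 1], [[0, 3], [13, 12, 10, 7], [1], [2, 5]]⟩]⟩,
  ⟨⟨6, [(0, 4, 0), (1, 0, 0), (1, 2, 0), (2, 1, 0), (2, 5, 3), (3, 1, 1), (4, 0, 2), (4, 3, 1), (5, 3, 0), (5, 5, 0)]⟩, 0, [9], [
    .spec 0 ⟨[0, 1], [[0, 6], [10], [1], [2, 3]]⟩,
    .spec 0 ⟨[0, 5], [[0, 6], [10, 4], [8, 5, 1], [9]]⟩,
    .spec 0 ⟨[0, 1], [[0, 6], [10, 5], [1], [2, 3]]⟩,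
    .spec 0 ⟨[0, 5], [[0, 6], [10], [8, 5, 1], [9]]⟩,
    .node 12 ⟨[6, 1, 0, 2, 3, 4, 5], [[10], [1], [2], [11], [0], [3], [4], [5], [6], [7], [8], [9]]⟩,
    .spec 0 ⟨[0, 5], [[0, 6], [11, 10, 4], [8, 5, 1], [9]]⟩,
    .spec 0 ⟨[0, 1], [[0, 6], [11, 10], [1], [2, 4, 8, 5]]⟩,
    .spec 0 ⟨[0, 5], [[0, 6], [11, 10], [8, 5, 1], [9]]⟩,
    .spec 0 ⟨[0, 1], [[0, 6], [11, 10], [1], [2, 3]]⟩,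
    .spec 0 ⟨[0, 1], [[11, 10], [0, 7, 5], [1], [2, 3]]⟩,
    .spec 0 ⟨[0, 1], [[0, 6], [11, 10, 5], [1], [2, 3]]⟩,
    .spec 0 ⟨[0, 1], [[0, 6], [11, 10, 5], [1], [2, 3]]⟩,
    .spec 0 ⟨[0, 1], [[0, 6], [11, 10, 8, 5], [1], [2, 3]]⟩]⟩,
  ⟨⟨5, [(0, 3, 0), (1, 0, 0), (1, 2, 0), (2, 1, 0), (2, 4, 3), (3, 0, 2), (3, 1, 1), (4, 4, 0)]⟩, 4, [0, 5], [
    .node 0 ⟨[0, 1, 2, 3, 4], [[0], [1], [2], [3], [4], [5], [6], [8], [7]]⟩,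
    .spec 0 ⟨[1, 4], [[1, 0, 6], [2, 4], [8], [7]]⟩,
    .spec 0 ⟨[1, 2], [[1, 0, 6], [2], [3], [4, 8]]⟩,
    .spec 0 ⟨[3, 4], [[5, 0], [6, 2, 4], [8], [7]]⟩,
    .node 1 ⟨[5, 0, 1, 2, 3, 4], [[8], [0], [1], [2], [3], [4], [5], [6], [9], [7]]⟩,
    .node 7 ⟨[5, 0, 2, 1, 3, 4], [[8], [0], [3], [4], [1], [2], [5], [6], [9], [7]]⟩,
    .node 8 ⟨[5, 0, 1, 2, 3, 4], [[8], [0], [2], [1], [3], [4], [5], [6], [9], [7]]⟩,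
    .spec 0 ⟨[1, 4], [[1, 0, 6], [2, 4], [9, 8], [7]]⟩,
    .spec 12 ⟨[3, 0, 1, 2, 5], [[5], [0], [6], [1], [2], [3], [4], [8, 9]]⟩,
    .node 11 ⟨[0, 1, 2, 3, 5, 4], [[0], [1], [2], [3], [4], [6], [5], [8], [9], [7]]⟩,
    .node 13 ⟨[0, 1, 2, 5, 3, 4], [[0], [1], [2], [3], [4], [8], [5], [6], [9], [7]]⟩]⟩]

theorem okS3L : okAll specsE1 nodesS3L = true := by decide +kernel

end BiP4

end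

section

/-! # MP_d76268_co: certificate for the run S3P (generated) -/

namespace BiP4

def nodesS3P : List Node := [
  ⟨⟨6, [(0, 2, 0), (1, 3, 0), (2, 1, 0), (2, 5, 3), (3, 1, 2), (3, 4, 1), (4, 0, 0), (4, 4, 0), (5, 0, 0), (5, 5, 0)]⟩, 0, [7], [
    .spec 0 ⟨[0, 4], [[0, 3, 8], [10, 1, 5], [6], [7]]⟩,
    .spec 0 ⟨[0, 3], [[0, 3, 8], [10], [5, 6], [4, 1]]⟩,
    .spec 0 ⟨[0, 4], [[0, 3, 8], [10], [6], [7]]⟩,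
    .spec 0 ⟨[0, 5], [[0, 2, 1, 5, 6], [10], [8], [9]]⟩,
    .spec 0 ⟨[0, 4], [[0, 3, 8], [11, 10, 5], [6], [7]]⟩,
    .spec 0 ⟨[0, 4], [[0, 3, 8], [11, 10, 1, 5], [6], [7]]⟩,
    .spec 0 ⟨[0, 5], [[0, 2, 1, 5, 6], [11, 10], [8], [9]]⟩,
    .spec 0 ⟨[0, 4], [[0, 3, 8], [11, 10, 1, 5], [6], [7]]⟩,
    .spec 0 ⟨[0, 4], [[0, 3, 8], [11, 10], [6], [7]]⟩,
    .spec 0 ⟨[0, 5], [[11, 10], [0, 3], [8], [9]]⟩,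
    .spec 0 ⟨[0, 5], [[11, 10, 6], [0, 3], [8], [9]]⟩,
    .spec 0 ⟨[0, 4], [[11, 10], [0, 2, 1, 5], [6], [7]]⟩,
    .spec 0 ⟨[0, 4], [[11, 10, 8], [0, 2, 1, 5], [6], [7]]⟩]⟩,
  ⟨⟨7, [(0, 2, 0), (1, 0, 0), (2, 1, 0), (2, 4, 0), (3, 1, 0), (3, 5, 0), (4, 3, 0), (4, 6, 3), (5, 2, 1), (5, 3, 2), (6, 0, 0), (6, 1, 0), (6, 6, 0)]⟩, 0, [12], [
    .spec 0 ⟨[0, 6], [[13, 1], [0, 3, 7], [10], [12]]⟩,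
    .spec 0 ⟨[0, 3], [[0, 3, 7, 10], [13], [4, 1], [5, 9]]⟩,
    .spec 0 ⟨[0, 6], [[0, 2, 1], [13, 7], [10], [12]]⟩,
    .spec 0 ⟨[0, 6], [[13, 9, 4, 1], [0, 3, 7], [10], [12]]⟩,
    .spec 0 ⟨[0, 6], [[0, 2, 1], [13], [10], [12]]⟩,
    .spec 0 ⟨[0, 6], [[14, 13], [0, 3, 7], [10], [12]]⟩,
    .spec 0 ⟨[0, 6], [[14, 13, 1], [0, 3, 7], [10], [12]]⟩,
    .spec 0 ⟨[0, 6], [[0, 2, 1], [14, 13, 7], [10], [12]]⟩,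
    .spec 0 ⟨[0, 6], [[14, 13, 1], [0, 3, 7], [10], [12]]⟩,
    .spec 0 ⟨[0, 6], [[14, 13, 9, 4, 1], [0, 3, 7], [10], [12]]⟩,
    .spec 0 ⟨[0, 3], [[0, 3, 7, 10], [14, 13], [4, 1], [5, 9]]⟩,
    .spec 0 ⟨[0, 6], [[0, 2, 1], [14, 13], [10], [12]]⟩,
    .spec 1 ⟨[5, 3, 7, 2, 6], [[9], [5], [13], [2, 1, 14], [8], [3, 6], [12]]⟩,
    .spec 0 ⟨[0, 6], [[14, 13, 4, 1], [0, 3, 7], [10], [12]]⟩,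
    .spec 0 ⟨[0, 2], [[14, 13], [0], [2, 1], [3, 6, 5, 8]]⟩,
    .spec 0 ⟨[0, 6], [[14, 13, 1], [0, 3, 7], [10], [12]]⟩,
    .spec 0 ⟨[0, 2], [[14, 13, 10], [0], [2, 1], [3, 6, 5, 8]]⟩]⟩,
  ⟨⟨7, [(0, 1, 0), (1, 2, 0), (2, 0, 0), (2, 4, 0), (3, 1, 0), (3, 5, 0), (4, 3, 0), (4, 6, 3), (5, 2, 1), (5, 3, 2), (6, 0, 0), (6, 1, 0), (6, 6, 0)]⟩, 1, [12], [
    .spec 0 ⟨[1, 3], [[13, 0], [1, 3, 6], [4], [5, 9]]⟩,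
    .spec 0 ⟨[1, 3], [[1, 2, 0], [13], [4], [5, 9]]⟩,
    .spec 0 ⟨[1, 3], [[1, 2, 0], [13, 6], [4], [5, 9]]⟩,
    .spec 0 ⟨[1, 6], [[13, 9, 4], [1, 3, 7], [10, 0], [12]]⟩,
    .spec 0 ⟨[1, 6], [[1, 2, 0], [13], [11], [12]]⟩,
    .spec 0 ⟨[1, 3], [[14, 13], [1, 3, 6], [4], [5, 9]]⟩,
    .spec 0 ⟨[1, 3], [[14, 13, 0], [1, 3, 6], [4], [5, 9]]⟩,
    .spec 0 ⟨[1, 3], [[1, 2, 0], [14, 13, 6], [4], [5, 9]]⟩,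
    .spec 0 ⟨[1, 2], [[14, 13], [1], [2, 0], [3, 6, 5, 8]]⟩,
    .spec 0 ⟨[1, 6], [[14, 13, 9, 4], [1, 3, 7], [10, 0], [12]]⟩,
    .spec 0 ⟨[1, 3], [[1, 2, 0], [14, 13], [4], [5, 9]]⟩,
    .spec 0 ⟨[1, 6], [[1, 2, 0], [14, 13], [11], [12]]⟩,
    .spec 1 ⟨[5, 3, 7, 2, 6], [[9], [5], [13], [2, 0, 14], [8], [3, 6], [12]]⟩,
    .spec 0 ⟨[1, 6], [[14, 13, 4], [1, 3, 7], [10, 0], [12]]⟩,
    .spec 0 ⟨[1, 3], [[14, 13, 0], [1, 3, 6], [4], [5, 9]]⟩,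
    .spec 0 ⟨[1, 2], [[14, 13], [1], [2, 0], [3, 6, 5, 8]]⟩,
    .spec 0 ⟨[1, 3], [[14, 13, 10, 0], [1, 3, 6], [4], [5, 9]]⟩]⟩,
  ⟨⟨8, [(0, 2, 0), (1, 0, 0), (2, 3, 0), (3, 1, 0), (3, 5, 0), (4, 0, 0), (4, 6, 0), (5, 4, 0), (5, 7, 3), (6, 3, 1), (6, 4, 2), (7, 1, 0), (7, 2, 0), (7, 7, 0)]⟩, 2, [13], [
    .spec 0 ⟨[2, 7], [[14, 0], [2, 4, 8], [12], [13]]⟩,
    .spec 0 ⟨[2, 7], [[14, 1, 0], [2, 4, 8], [12], [13]]⟩,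
    .spec 0 ⟨[2, 4], [[2, 4, 8, 12], [14], [5, 0], [6, 10]]⟩,
    .spec 0 ⟨[2, 7], [[2, 3, 1, 0], [14, 8], [12], [13]]⟩,
    .spec 0 ⟨[2, 7], [[14, 10, 5, 0], [2, 4, 8], [12], [13]]⟩,
    .spec 0 ⟨[2, 7], [[2, 3, 1, 0], [14], [12], [13]]⟩,
    .spec 0 ⟨[2, 7], [[15, 14], [2, 4, 8], [12], [13]]⟩,
    .spec 0 ⟨[2, 7], [[15, 14, 0], [2, 4, 8], [12], [13]]⟩,
    .spec 0 ⟨[2, 7], [[15, 14, 1, 0], [2, 4, 8], [12], [13]]⟩,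
    .spec 0 ⟨[2, 7], [[2, 3, 1, 0], [15, 14, 8], [12], [13]]⟩,
    .spec 0 ⟨[2, 7], [[15, 14, 0], [2, 4, 8], [12], [13]]⟩,
    .spec 0 ⟨[2, 7], [[15, 14, 10, 5, 0], [2, 4, 8], [12], [13]]⟩,
    .spec 0 ⟨[2, 4], [[2, 4, 8, 12], [15, 14], [5, 0], [6, 10]]⟩,
    .spec 0 ⟨[2, 7], [[2, 3, 1, 0], [15, 14], [12], [13]]⟩,
    .spec 1 ⟨[6, 4, 8, 3, 7], [[10], [6], [14], [3, 1, 0, 15], [9], [4, 7], [13]]⟩,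
    .spec 0 ⟨[2, 7], [[15, 14, 5, 0], [2, 4, 8], [12], [13]]⟩,
    .spec 0 ⟨[2, 7], [[15, 14, 1, 0], [2, 4, 8], [12], [13]]⟩,
    .spec 0 ⟨[2, 3], [[15, 14], [2], [3, 1, 0], [4, 7, 6, 9]]⟩,
    .spec 0 ⟨[2, 3], [[15, 14, 12], [2], [3, 1, 0], [4, 7, 6, 9]]⟩]⟩,
  ⟨⟨8, [(0, 2, 0), (1, 0, 0), (2, 3, 0), (3, 1, 0), (3, 5, 0), (4, 2, 0), (4, 6, 0), (5, 4, 0), (5, 7, 3), (6, 3, 1), (6, 4, 2), (7, 0, 0), (7, 1, 0), (7, 7, 0)]⟩, 2, [13], [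
    .spec 0 ⟨[2, 4], [[14, 0], [2, 4, 7], [5], [6, 10]]⟩,
    .spec 0 ⟨[2, 4], [[14, 1, 0], [2, 4, 7], [5], [6, 10]]⟩,
    .spec 0 ⟨[2, 4], [[2, 3, 1, 0], [14], [5], [6, 10]]⟩,
    .spec 0 ⟨[2, 4], [[2, 3, 1, 0], [14, 7], [5], [6, 10]]⟩,
    .spec 0 ⟨[2, 7], [[14, 10, 5], [2, 4, 8], [11, 0], [13]]⟩,
    .spec 0 ⟨[2, 7], [[2, 4, 7, 5], [14], [11, 0], [13]]⟩,
    .spec 0 ⟨[2, 4], [[15, 14], [2, 4, 7], [5], [6, 10]]⟩,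
    .spec 0 ⟨[2, 4], [[15, 14, 0], [2, 4, 7], [5], [6, 10]]⟩,
    .spec 0 ⟨[2, 4], [[15, 14, 1, 0], [2, 4, 7], [5], [6, 10]]⟩,
    .spec 0 ⟨[2, 4], [[2, 3, 1, 0], [15, 14, 7], [5], [6, 10]]⟩,
    .spec 0 ⟨[2, 3], [[15, 14], [2], [3, 1, 0], [4, 7, 6, 9]]⟩,
    .spec 0 ⟨[2, 7], [[15, 14, 10, 5], [2, 4, 8], [11, 0], [13]]⟩,
    .spec 0 ⟨[2, 4], [[2, 3, 1, 0], [15, 14], [5], [6, 10]]⟩,
    .spec 0 ⟨[2, 7], [[2, 4, 7, 5], [15, 14], [11, 0], [13]]⟩,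
    .spec 1 ⟨[6, 4, 8, 3, 7], [[10], [6], [14], [3, 1, 0, 15], [9], [4, 7], [13]]⟩,
    .spec 0 ⟨[2, 7], [[15, 14, 5], [2, 4, 8], [11, 0], [13]]⟩,
    .spec 0 ⟨[2, 4], [[15, 14, 0], [2, 4, 7], [5], [6, 10]]⟩,
    .spec 0 ⟨[2, 4], [[15, 14, 1, 0], [2, 4, 7], [5], [6, 10]]⟩,
    .spec 0 ⟨[2, 4], [[15, 14, 11, 0], [2, 4, 7], [5], [6, 10]]⟩]⟩,
  ⟨⟨8, [(0, 2, 0), (1, 0, 0), (2, 3, 0), (3, 1, 0), (3, 5, 0), (4, 1, 0), (4, 6, 0), (5, 4, 0), (5, 7, 3), (6, 3, 1), (6, 4, 2), (7, 0, 0), (7, 2, 0), (7, 7, 0)]⟩, 2, [13], [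
    .spec 0 ⟨[2, 7], [[14, 0], [2, 4, 8], [12], [13]]⟩,
    .spec 0 ⟨[2, 7], [[14, 1, 0], [2, 4, 8], [12], [13]]⟩,
    .spec 0 ⟨[2, 4], [[2, 4, 8, 12], [14], [5, 1, 0], [6, 10]]⟩,
    .spec 0 ⟨[2, 7], [[2, 3, 1, 0], [14, 8], [12], [13]]⟩,
    .spec 0 ⟨[2, 7], [[14, 10, 5, 1, 0], [2, 4, 8], [12], [13]]⟩,
    .spec 0 ⟨[2, 7], [[2, 3, 1, 0], [14], [12], [13]]⟩,
    .spec 0 ⟨[2, 7], [[15, 14], [2, 4, 8], [12], [13]]⟩,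
    .spec 0 ⟨[2, 7], [[15, 14, 0], [2, 4, 8], [12], [13]]⟩,
    .spec 0 ⟨[2, 7], [[15, 14, 1, 0], [2, 4, 8], [12], [13]]⟩,
    .spec 0 ⟨[2, 7], [[2, 3, 1, 0], [15, 14, 8], [12], [13]]⟩,
    .spec 0 ⟨[2, 7], [[15, 14, 1, 0], [2, 4, 8], [12], [13]]⟩,
    .spec 0 ⟨[2, 7], [[15, 14, 10, 5, 1, 0], [2, 4, 8], [12], [13]]⟩,
    .spec 0 ⟨[2, 4], [[2, 4, 8, 12], [15, 14], [5, 1, 0], [6, 10]]⟩,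
    .spec 0 ⟨[2, 7], [[2, 3, 1, 0], [15, 14], [12], [13]]⟩,
    .spec 1 ⟨[6, 4, 8, 3, 7], [[10], [6], [14], [3, 1, 0, 15], [9], [4, 7], [13]]⟩,
    .spec 0 ⟨[2, 7], [[15, 14, 5, 1, 0], [2, 4, 8], [12], [13]]⟩,
    .spec 0 ⟨[2, 7], [[15, 14, 0], [2, 4, 8], [12], [13]]⟩,
    .spec 0 ⟨[2, 3], [[15, 14], [2], [3, 1, 0], [4, 7, 6, 9]]⟩,
    .spec 0 ⟨[2, 3], [[15, 14, 12], [2], [3, 1, 0], [4, 7, 6, 9]]⟩]⟩,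
  ⟨⟨8, [(0, 1, 0), (1, 3, 0), (2, 5, 0), (3, 0, 0), (3, 2, 0), (4, 2, 0), (4, 6, 0), (5, 4, 0), (5, 7, 3), (6, 3, 1), (6, 4, 2), (7, 0, 0), (7, 1, 0), (7, 7, 0)]⟩, 1, [13], [
    .spec 0 ⟨[1, 7], [[14, 0], [1, 4, 2, 8], [12], [13]]⟩,
    .spec 0 ⟨[1, 7], [[1, 3, 0], [14, 2, 8], [12], [13]]⟩,
    .spec 0 ⟨[1, 4], [[1, 3, 0], [14], [5, 2, 8, 12], [6, 10]]⟩,
    .spec 0 ⟨[1, 5], [[1, 3, 0], [14], [8, 12], [7, 5, 2]]⟩,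
    .spec 0 ⟨[1, 7], [[1, 3, 0], [14, 10, 5, 2, 8], [12], [13]]⟩,
    .spec 0 ⟨[1, 7], [[1, 3, 0], [14], [12], [13]]⟩,
    .spec 0 ⟨[1, 7], [[15, 14], [1, 4, 2, 8], [12], [13]]⟩,
    .spec 0 ⟨[1, 7], [[1, 3, 0], [15, 14, 8], [12], [13]]⟩,
    .spec 0 ⟨[1, 7], [[15, 14, 0], [1, 4, 2, 8], [12], [13]]⟩,
    .spec 0 ⟨[1, 7], [[1, 3, 0], [15, 14, 2, 8], [12], [13]]⟩,
    .spec 0 ⟨[1, 7], [[1, 3, 0], [15, 14, 2, 8], [12], [13]]⟩,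
    .spec 0 ⟨[1, 7], [[1, 3, 0], [15, 14, 10, 5, 2, 8], [12], [13]]⟩,
    .spec 0 ⟨[1, 4], [[1, 3, 0], [15, 14], [5, 2, 8, 12], [6, 10]]⟩,
    .spec 0 ⟨[1, 7], [[1, 3, 0], [15, 14], [12], [13]]⟩,
    .spec 1 ⟨[6, 4, 8, 3, 7], [[10], [6], [14], [3, 0, 15], [9], [4, 2, 7], [13]]⟩,
    .spec 0 ⟨[1, 7], [[1, 3, 0], [15, 14, 5, 2, 8], [12], [13]]⟩,
    .spec 0 ⟨[1, 7], [[15, 14, 0], [1, 4, 2, 8], [12], [13]]⟩,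
    .spec 0 ⟨[1, 3], [[15, 14], [1], [3, 0], [4, 2, 7, 6, 9]]⟩,
    .spec 0 ⟨[1, 3], [[15, 14, 12], [1], [3, 0], [4, 2, 7, 6, 9]]⟩]⟩,
  ⟨⟨8, [(0, 1, 0), (1, 3, 0), (2, 4, 0), (3, 0, 0), (3, 5, 0), (4, 2, 0), (4, 6, 0), (5, 2, 0), (5, 7, 3), (6, 3, 1), (6, 4, 2), (7, 0, 0), (7, 1, 0), (7, 7, 0)]⟩, 2, [13], [
    .spec 0 ⟨[2, 4], [[14, 0, 1, 4, 7], [2], [5], [6, 10]]⟩,
    .spec 0 ⟨[2, 4], [[14, 1, 4, 7], [2], [5], [6, 10]]⟩,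
    .spec 0 ⟨[2, 3], [[2, 5], [14], [4, 7], [3, 0, 1]]⟩,
    .spec 0 ⟨[2, 5], [[2, 5], [14], [7], [8, 11, 0, 1, 4]]⟩,
    .spec 0 ⟨[2, 3], [[2, 5], [14, 9], [4, 7], [3, 0, 1]]⟩,
    .spec 0 ⟨[2, 7], [[2, 5], [14], [11, 0, 1, 4, 7], [13]]⟩,
    .spec 0 ⟨[2, 4], [[15, 14, 1, 4, 7], [2], [5], [6, 10]]⟩,
    .spec 0 ⟨[2, 4], [[15, 14, 4, 7], [2], [5], [6, 10]]⟩,
    .spec 0 ⟨[2, 4], [[15, 14, 0, 1, 4, 7], [2], [5], [6, 10]]⟩,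
    .spec 0 ⟨[2, 4], [[15, 14, 7], [2], [5], [6, 10]]⟩,
    .spec 0 ⟨[2, 3], [[15, 14], [2, 6, 9], [4, 7], [3, 0, 1]]⟩,
    .spec 0 ⟨[2, 3], [[2, 5], [15, 14, 9], [4, 7], [3, 0, 1]]⟩,
    .spec 0 ⟨[2, 4], [[15, 14], [2], [5], [6, 10]]⟩,
    .spec 0 ⟨[2, 7], [[2, 5], [15, 14], [11, 0, 1, 4, 7], [13]]⟩,
    .spec 0 ⟨[2, 3], [[2, 5], [15, 14], [4, 7], [3, 0, 1]]⟩,
    .spec 4 ⟨[6, 8, 3, 7], [[10], [14, 6], [3, 0, 1], [9], [4, 7, 15], [13]]⟩,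
    .spec 0 ⟨[2, 4], [[15, 14, 0, 1, 4, 7], [2], [5], [6, 10]]⟩,
    .spec 0 ⟨[2, 4], [[15, 14, 1, 4, 7], [2], [5], [6, 10]]⟩,
    .spec 0 ⟨[2, 4], [[15, 14, 11, 0, 1, 4, 7], [2], [5], [6, 10]]⟩]⟩,
  ⟨⟨8, [(0, 2, 0), (1, 0, 0), (2, 3, 0), (3, 0, 0), (3, 5, 0), (4, 1, 0), (4, 6, 0), (5, 4, 0), (5, 7, 3), (6, 3, 1), (6, 4, 2), (7, 1, 0), (7, 2, 0), (7, 7, 0)]⟩, 2, [13], [
    .spec 0 ⟨[2, 7], [[14, 0], [2, 4, 8], [12], [13]]⟩,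
    .spec 0 ⟨[2, 7], [[14, 1, 0], [2, 4, 8], [12], [13]]⟩,
    .spec 0 ⟨[2, 4], [[2, 4, 8, 12], [14], [5, 1, 0], [6, 10]]⟩,
    .spec 0 ⟨[2, 7], [[2, 3, 0], [14, 8], [12], [13]]⟩,
    .spec 0 ⟨[2, 7], [[14, 10, 5, 1, 0], [2, 4, 8], [12], [13]]⟩,
    .spec 0 ⟨[2, 7], [[2, 3, 0], [14], [12], [13]]⟩,
    .spec 0 ⟨[2, 7], [[15, 14], [2, 4, 8], [12], [13]]⟩,
    .spec 0 ⟨[2, 7], [[15, 14, 0], [2, 4, 8], [12], [13]]⟩,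
    .spec 0 ⟨[2, 7], [[15, 14, 0], [2, 4, 8], [12], [13]]⟩,
    .spec 0 ⟨[2, 7], [[2, 3, 0], [15, 14, 8], [12], [13]]⟩,
    .spec 0 ⟨[2, 7], [[15, 14, 1, 0], [2, 4, 8], [12], [13]]⟩,
    .spec 0 ⟨[2, 7], [[15, 14, 10, 5, 1, 0], [2, 4, 8], [12], [13]]⟩,
    .spec 0 ⟨[2, 4], [[2, 4, 8, 12], [15, 14], [5, 1, 0], [6, 10]]⟩,
    .spec 0 ⟨[2, 7], [[2, 3, 0], [15, 14], [12], [13]]⟩,
    .spec 1 ⟨[6, 4, 8, 3, 7], [[10], [6], [14], [3, 0, 15], [9], [4, 7], [13]]⟩,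
    .spec 0 ⟨[2, 7], [[15, 14, 5, 1, 0], [2, 4, 8], [12], [13]]⟩,
    .spec 0 ⟨[2, 7], [[15, 14, 1, 0], [2, 4, 8], [12], [13]]⟩,
    .spec 0 ⟨[2, 3], [[15, 14], [2], [3, 0], [4, 7, 6, 9]]⟩,
    .spec 0 ⟨[2, 3], [[15, 14, 12], [2], [3, 0], [4, 7, 6, 9]]⟩]⟩,
  ⟨⟨8, [(0, 2, 0), (1, 2, 0), (2, 3, 0), (3, 0, 0), (3, 5, 0), (4, 1, 0), (4, 6, 0), (5, 4, 0), (5, 7, 3), (6, 3, 1), (6, 4, 2), (7, 0, 0), (7, 1, 0), (7, 7, 0)]⟩, 2, [13], [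
    .spec 0 ⟨[2, 4], [[14, 0], [2, 4, 7], [5, 1], [6, 10]]⟩,
    .spec 0 ⟨[2, 3], [[14, 1], [2], [3, 0], [4, 7, 6, 9]]⟩,
    .spec 0 ⟨[2, 4], [[2, 3, 0], [14], [5, 1], [6, 10]]⟩,
    .spec 0 ⟨[2, 4], [[2, 3, 0], [14, 7], [5, 1], [6, 10]]⟩,
    .spec 0 ⟨[2, 7], [[14, 10, 5, 1], [2, 4, 8], [11, 0], [13]]⟩,
    .spec 0 ⟨[2, 7], [[2, 3, 0], [14], [12, 1], [13]]⟩,
    .spec 0 ⟨[2, 4], [[15, 14], [2, 4, 7], [5, 1], [6, 10]]⟩,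
    .spec 0 ⟨[2, 3], [[15, 14], [2], [3, 0], [4, 7, 6, 9]]⟩,
    .spec 0 ⟨[2, 4], [[15, 14, 0], [2, 4, 7], [5, 1], [6, 10]]⟩,
    .spec 0 ⟨[2, 4], [[2, 3, 0], [15, 14, 7], [5, 1], [6, 10]]⟩,
    .spec 0 ⟨[2, 3], [[15, 14, 1], [2], [3, 0], [4, 7, 6, 9]]⟩,
    .spec 0 ⟨[2, 7], [[15, 14, 10, 5, 1], [2, 4, 8], [11, 0], [13]]⟩,
    .spec 0 ⟨[2, 4], [[2, 3, 0], [15, 14], [5, 1], [6, 10]]⟩,
    .spec 0 ⟨[2, 7], [[2, 3, 0], [15, 14], [12, 1], [13]]⟩,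
    .spec 1 ⟨[6, 4, 8, 3, 7], [[10], [6], [14], [3, 0, 15], [9], [4, 7], [13]]⟩,
    .spec 0 ⟨[2, 7], [[15, 14, 5, 1], [2, 4, 8], [11, 0], [13]]⟩,
    .spec 0 ⟨[2, 4], [[15, 14, 0], [2, 4, 7], [5, 1], [6, 10]]⟩,
    .spec 0 ⟨[2, 3], [[15, 14, 1], [2], [3, 0], [4, 7, 6, 9]]⟩,
    .spec 0 ⟨[2, 4], [[15, 14, 11, 0], [2, 4, 7], [5, 1], [6, 10]]⟩]⟩,
  ⟨⟨8, [(0, 1, 0), (1, 3, 0), (2, 5, 0), (3, 0, 0), (3, 6, 0), (4, 2, 0), (4, 7, 0), (5, 0, 0), (5, 1, 0), (5, 2, 0), (6, 4, 0), (6, 5, 3), (7, 3, 1), (7, 4, 2)]⟩, 2, [6, 13], [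
    .spec 0 ⟨[2, 4], [[2, 9], [14, 0, 1, 4, 10], [5], [6, 13]]⟩,
    .spec 0 ⟨[2, 4], [[2, 9], [14, 1, 4, 10], [5], [6, 13]]⟩,
    .spec 0 ⟨[2, 3], [[2, 9], [14], [4, 10, 5], [3, 0, 1]]⟩,
    .spec 0 ⟨[2, 4], [[2, 9], [14], [5], [6, 12, 4, 10]]⟩,
    .spec 0 ⟨[2, 4], [[2, 9], [14, 10], [5], [6, 13]]⟩,
    .spec 0 ⟨[2, 3], [[2, 9], [14, 12], [4, 10, 5], [3, 0, 1]]⟩,
    .spec 0 ⟨[2, 4], [[2, 9], [15, 14, 1, 4, 10], [5], [6, 13]]⟩,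
    .spec 0 ⟨[2, 4], [[2, 9], [15, 14, 4, 10], [5], [6, 13]]⟩,
    .spec 0 ⟨[2, 4], [[2, 9], [15, 14, 0, 1, 4, 10], [5], [6, 13]]⟩,
    .spec 0 ⟨[2, 4], [[2, 9], [15, 14, 10], [5], [6, 13]]⟩,
    .spec 0 ⟨[2, 5], [[15, 14], [2], [9], [7, 0, 1, 4, 11]]⟩,
    .spec 0 ⟨[2, 3], [[2, 9], [15, 14, 12], [4, 10, 5], [3, 0, 1]]⟩,
    .spec 0 ⟨[2, 4], [[2, 9], [15, 14, 0, 1, 4, 10], [5], [6, 13]]⟩,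
    .spec 0 ⟨[2, 4], [[2, 9], [15, 14, 1, 4, 10], [5], [6, 13]]⟩,
    .spec 0 ⟨[2, 4], [[15, 14], [2, 7, 0, 1, 4, 10], [5], [6, 13]]⟩,
    .spec 0 ⟨[2, 4], [[2, 9], [15, 14], [5], [6, 13]]⟩,
    .spec 11 ⟨[7, 4, 3, 6, 8], [[13], [6], [12], [4], [10], [3, 0, 1], [11], [14, 9, 15]]⟩,
    .spec 0 ⟨[2, 3], [[2, 9], [15, 14], [4, 10, 5], [3, 0, 1]]⟩,
    .spec 0 ⟨[2, 4], [[2, 9], [15, 14], [5], [6, 12, 4, 10]]⟩]⟩,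
  ⟨⟨7, [(0, 1, 0), (1, 3, 0), (2, 5, 0), (3, 0, 0), (3, 4, 0), (4, 2, 0), (4, 6, 3), (5, 2, 2), (5, 3, 1), (6, 0, 0), (6, 1, 0), (6, 6, 0)]⟩, 2, [11], [
    .node 1 ⟨[1, 0, 3, 2, 4, 5, 6], [[1], [0], [3], [4], [12], [2], [5], [6], [8], [7], [10], [9], [11]]⟩,
    .node 2 ⟨[0, 1, 3, 2, 4, 5, 6], [[0], [1], [3], [4], [12], [2], [5], [6], [8], [7], [9], [10], [11]]⟩,
    .spec 0 ⟨[2, 3], [[2, 7], [12], [4, 5], [3, 0, 1]]⟩,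
    .spec 0 ⟨[2, 4], [[2, 7], [12], [5], [6, 9, 0, 1, 4]]⟩,
    .spec 0 ⟨[2, 6], [[2, 7], [12], [9, 0, 1, 4, 5], [11]]⟩,
    .node 3 ⟨[7, 0, 1, 3, 2, 4, 5, 6], [[12], [0], [1], [3], [4], [13], [2], [5], [6], [8], [7], [9], [10], [11]]⟩,
    .node 4 ⟨[1, 0, 7, 3, 2, 4, 5, 6], [[1], [0], [12], [3], [4], [13], [2], [5], [6], [8], [7], [10], [9], [11]]⟩,
    .node 5 ⟨[0, 7, 1, 3, 2, 4, 5, 6], [[0], [12], [1], [3], [4], [13], [2], [5], [6], [8], [7], [9], [10], [11]]⟩,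
    .node 6 ⟨[0, 1, 7, 3, 2, 4, 5, 6], [[0], [1], [12], [3], [4], [13], [2], [5], [6], [8], [7], [9], [10], [11]]⟩,
    .node 7 ⟨[0, 1, 7, 3, 2, 4, 5, 6], [[0], [1], [12], [3], [4], [13], [2], [5], [6], [8], [7], [9], [10], [11]]⟩,
    .spec 0 ⟨[2, 6], [[2, 7], [13, 12], [9, 0, 1, 4, 5], [11]]⟩,
    .spec 0 ⟨[2, 3], [[13, 12], [2, 8], [4, 5], [3, 0, 1]]⟩,
    .spec 0 ⟨[2, 3], [[2, 7], [13, 12], [4, 5], [3, 0, 1]]⟩,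
    .node 8 ⟨[0, 7, 1, 3, 2, 4, 5, 6], [[0], [12], [1], [3], [4], [13], [2], [5], [6], [8], [7], [9], [10], [11]]⟩,
    .node 9 ⟨[0, 7, 1, 3, 2, 4, 5, 6], [[0], [12], [1], [3], [4], [13], [2], [5], [6], [8], [7], [9], [10], [11]]⟩,
    .node 10 ⟨[0, 1, 7, 3, 2, 6, 4, 5], [[0], [1], [12], [3], [4], [13], [2], [9], [10], [11], [5], [6], [8], [7]]⟩]⟩,
  ⟨⟨7, [(0, 3, 0), (1, 4, 0), (2, 5, 0), (3, 0, 0), (3, 1, 0), (4, 2, 0), (4, 6, 3), (5, 2, 2), (5, 3, 1), (6, 0, 0), (6, 1, 0), (6, 6, 0)]⟩, 1, [11], [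
    .spec 0 ⟨[1, 6], [[12, 0, 4], [1, 6], [10], [11]]⟩,
    .spec 0 ⟨[1, 3], [[1, 6, 10], [12, 2, 8], [4], [3, 0]]⟩,
    .spec 0 ⟨[1, 3], [[1, 6, 10], [12], [4], [3, 0]]⟩,
    .spec 0 ⟨[1, 5], [[1, 6, 10], [12], [8, 4], [7, 2]]⟩,
    .spec 0 ⟨[1, 6], [[1, 5, 2, 8, 4], [12], [10], [11]]⟩,
    .spec 0 ⟨[1, 6], [[13, 12, 4], [1, 6], [10], [11]]⟩,
    .spec 0 ⟨[1, 3], [[1, 6, 10], [13, 12, 8], [4], [3, 0]]⟩,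
    .spec 0 ⟨[1, 6], [[13, 12, 0, 4], [1, 6], [10], [11]]⟩,
    .spec 0 ⟨[1, 6], [[13, 12], [1, 6], [10], [11]]⟩,
    .spec 0 ⟨[1, 3], [[1, 6, 10], [13, 12, 2, 8], [4], [3, 0]]⟩,
    .spec 0 ⟨[1, 6], [[1, 5, 2, 8, 4], [13, 12], [10], [11]]⟩,
    .spec 0 ⟨[1, 3], [[1, 6, 10], [13, 12, 2, 8], [4], [3, 0]]⟩,
    .spec 0 ⟨[1, 3], [[1, 6, 10], [13, 12], [4], [3, 0]]⟩,
    .spec 0 ⟨[1, 6], [[13, 12, 0, 4], [1, 6], [10], [11]]⟩,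
    .spec 0 ⟨[1, 3], [[13, 12], [1, 5, 2, 8], [4], [3, 0]]⟩,
    .spec 0 ⟨[1, 3], [[13, 12, 10], [1, 5, 2, 8], [4], [3, 0]]⟩]⟩,
  ⟨⟨6, [(0, 2, 0), (1, 4, 0), (2, 0, 0), (2, 3, 0), (3, 1, 0), (3, 5, 3), (4, 1, 2), (4, 2, 1), (5, 0, 0), (5, 5, 0)]⟩, 5, [0, 2], [
    .spec 0 ⟨[2, 5], [[2, 0], [3, 5], [10, 1, 7], [9]]⟩,
    .spec 0 ⟨[2, 5], [[2, 0], [3, 5], [10], [9]]⟩,
    .spec 0 ⟨[2, 3], [[2, 0], [3], [4, 1, 7], [5, 10]]⟩,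
    .spec 0 ⟨[2, 5], [[2, 0], [3, 5], [10, 7], [9]]⟩,
    .node 11 ⟨[0, 6, 1, 2, 3, 4, 5], [[0], [10], [1], [2], [3], [4], [5], [6], [7], [8], [11], [9]]⟩,
    .spec 0 ⟨[2, 5], [[2, 0], [3, 5], [11, 10, 7], [9]]⟩,
    .node 11 ⟨[6, 0, 1, 2, 3, 4, 5], [[10], [0], [1], [2], [3], [4], [5], [6], [7], [11], [8], [9]]⟩,
    .node 12 ⟨[0, 6, 1, 2, 3, 4, 5], [[0], [10], [1], [2], [3], [4], [5], [6], [7], [8], [11], [9]]⟩,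
    .spec 0 ⟨[2, 5], [[2, 0], [3, 5], [11, 10, 1, 7], [9]]⟩,
    .spec 11 ⟨[4, 1, 2, 3, 6], [[6], [1], [7], [3], [4], [2, 0], [5], [10, 11]]⟩,
    .spec 0 ⟨[2, 5], [[2, 0], [3, 5], [11, 10, 1, 7], [9]]⟩,
    .spec 0 ⟨[2, 5], [[2, 0], [3, 5], [11, 10], [9]]⟩]⟩,
  ⟨⟨5, [(0, 2, 0), (1, 0, 0), (1, 3, 3), (2, 0, 2), (2, 4, 1), (3, 3, 0), (4, 1, 0), (4, 4, 0)]⟩, 3, [7], [
    .spec 0 ⟨[3, 4], [[5], [8, 0, 4], [6, 2], [7]]⟩,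
    .spec 0 ⟨[1, 3], [[1, 0, 4, 6], [2], [8], [5]]⟩,
    .spec 0 ⟨[2, 4], [[3, 0], [4], [6, 2, 8], [7]]⟩,
    .spec 0 ⟨[3, 4], [[5], [8], [6, 2], [7]]⟩,
    .spec 0 ⟨[3, 4], [[5], [9, 8, 4], [6, 2], [7]]⟩,
    .spec 0 ⟨[3, 4], [[5], [9, 8, 0, 4], [6, 2], [7]]⟩,
    .spec 11 ⟨[2, 0, 4, 1, 5], [[3], [0], [4], [6], [1], [7], [2], [8, 9]]⟩,
    .spec 0 ⟨[3, 4], [[5], [9, 8, 0, 4], [6, 2], [7]]⟩,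
    .spec 0 ⟨[3, 4], [[5], [9, 8], [6, 2], [7]]⟩,
    .node 0 ⟨[5, 0, 1, 2, 4, 3], [[8], [0], [1], [2], [3], [4], [6], [7], [9], [5]]⟩,
    .node 13 ⟨[5, 0, 4, 1, 2, 3], [[8], [0], [7], [6], [1], [2], [3], [4], [9], [5]]⟩]⟩]

theorem okS3P : okAll specsE1 nodesS3P = true := by decide +kernel

end BiP4

end

section

/-! # MP_d76268_co: certificate for the run S3R (generated) -/

namespace BiP4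

def nodesS3R : List Node := [
  ⟨⟨5, [(0, 1, 0), (1, 0, 2), (1, 2, 1), (2, 3, 1), (2, 4, 3), (3, 0, 0), (3, 3, 0), (4, 0, 0), (4, 4, 0)]⟩, 0, [6], [
    .spec 0 ⟨[0, 3], [[0, 1], [9, 3], [5], [6]]⟩,
    .spec 0 ⟨[0, 3], [[0, 1], [9], [5], [6]]⟩,
    .spec 0 ⟨[0, 4], [[0, 1], [9], [7], [8]]⟩,
    .spec 0 ⟨[0, 3], [[10, 9], [0, 2, 3], [5], [6]]⟩,
    .spec 0 ⟨[0, 3], [[0, 1], [10, 9, 3], [5], [6]]⟩,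
    .spec 0 ⟨[0, 3], [[0, 1], [10, 9], [5], [6]]⟩,
    .spec 0 ⟨[0, 4], [[0, 1], [10, 9], [7], [8]]⟩,
    .spec 0 ⟨[0, 4], [[10, 9], [0, 2, 4], [7], [8]]⟩,
    .spec 0 ⟨[0, 4], [[10, 9, 5], [0, 2, 4], [7], [8]]⟩,
    .spec 0 ⟨[0, 3], [[10, 9], [0, 2, 3], [5], [6]]⟩,
    .spec 0 ⟨[0, 3], [[10, 9, 7], [0, 2, 3], [5], [6]]⟩]⟩,
  ⟨⟨6, [(0, 2, 0), (1, 0, 0), (2, 1, 2), (2, 3, 1), (3, 4, 1), (3, 5, 3), (4, 1, 0), (4, 4, 0), (5, 0, 0), (5, 5, 0)]⟩, 0, [7], [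
    .spec 0 ⟨[0, 5], [[10, 1], [0, 3, 5], [8], [9]]⟩,
    .spec 0 ⟨[0, 5], [[0, 2, 1], [10, 5], [8], [9]]⟩,
    .spec 0 ⟨[0, 4], [[0, 3, 5, 8], [10], [6, 1], [7]]⟩,
    .spec 0 ⟨[0, 5], [[0, 2, 1], [10], [8], [9]]⟩,
    .spec 0 ⟨[0, 5], [[11, 10], [0, 3, 5], [8], [9]]⟩,
    .spec 0 ⟨[0, 5], [[11, 10, 1], [0, 3, 5], [8], [9]]⟩,
    .spec 0 ⟨[0, 5], [[0, 2, 1], [11, 10, 5], [8], [9]]⟩,
    .spec 0 ⟨[0, 4], [[0, 3, 5, 8], [11, 10], [6, 1], [7]]⟩,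
    .spec 0 ⟨[0, 5], [[0, 2, 1], [11, 10], [8], [9]]⟩,
    .spec 0 ⟨[0, 5], [[11, 10, 1], [0, 3, 5], [8], [9]]⟩,
    .spec 0 ⟨[0, 5], [[11, 10, 6, 1], [0, 3, 5], [8], [9]]⟩,
    .spec 0 ⟨[0, 4], [[11, 10], [0, 3, 4], [6, 1], [7]]⟩,
    .spec 0 ⟨[0, 4], [[11, 10, 8], [0, 3, 4], [6, 1], [7]]⟩]⟩,
  ⟨⟨6, [(0, 1, 0), (1, 2, 1), (1, 3, 2), (2, 4, 1), (2, 5, 3), (3, 0, 2), (4, 0, 0), (4, 4, 0), (5, 3, 0), (5, 5, 0)]⟩, 0, [7], [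
    .spec 0 ⟨[0, 4], [[0, 2, 5], [10, 3], [6], [7]]⟩,
    .spec 0 ⟨[0, 4], [[10, 5], [0, 1, 3], [6], [7]]⟩,
    .spec 0 ⟨[0, 4], [[0, 1, 4, 8, 5], [10], [6], [7]]⟩,
    .spec 0 ⟨[0, 5], [[0, 1, 3, 6], [10], [8, 5], [9]]⟩,
    .spec 0 ⟨[0, 4], [[0, 2, 5], [11, 10, 3], [6], [7]]⟩,
    .spec 0 ⟨[0, 4], [[11, 10, 5], [0, 1, 3], [6], [7]]⟩,
    .spec 0 ⟨[0, 4], [[0, 1, 4, 8, 5], [11, 10], [6], [7]]⟩,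
    .spec 0 ⟨[0, 5], [[0, 1, 3, 6], [11, 10], [8, 5], [9]]⟩,
    .spec 0 ⟨[0, 4], [[11, 10], [0, 1, 3], [6], [7]]⟩,
    .spec 0 ⟨[0, 5], [[11, 10], [0, 1, 4], [8, 5], [9]]⟩,
    .spec 0 ⟨[0, 5], [[11, 10, 6], [0, 1, 4], [8, 5], [9]]⟩,
    .spec 0 ⟨[0, 4], [[11, 10, 5], [0, 1, 3], [6], [7]]⟩,
    .spec 0 ⟨[0, 4], [[11, 10, 8, 5], [0, 1, 3], [6], [7]]⟩]⟩,
  ⟨⟨6, [(0, 3, 0), (1, 2, 0), (2, 0, 0), (2, 1, 2), (3, 4, 0), (3, 5, 3), (4, 1, 0), (4, 4, 0), (5, 0, 0), (5, 5, 0)]⟩, 0, [7], [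
    .spec 0 ⟨[0, 5], [[10, 1, 2], [0, 5], [8], [9]]⟩,
    .spec 0 ⟨[0, 2], [[0, 5, 8], [10], [2], [3, 1]]⟩,
    .spec 0 ⟨[0, 4], [[0, 5, 8], [10], [6, 1, 2], [7]]⟩,
    .spec 0 ⟨[0, 5], [[0, 4, 6, 1, 2], [10], [8], [9]]⟩,
    .spec 0 ⟨[0, 5], [[11, 10, 2], [0, 5], [8], [9]]⟩,
    .spec 0 ⟨[0, 5], [[11, 10], [0, 5], [8], [9]]⟩,
    .spec 0 ⟨[0, 5], [[11, 10, 1, 2], [0, 5], [8], [9]]⟩,
    .spec 0 ⟨[0, 4], [[0, 5, 8], [11, 10], [6, 1, 2], [7]]⟩,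
    .spec 0 ⟨[0, 5], [[0, 4, 6, 1, 2], [11, 10], [8], [9]]⟩,
    .spec 0 ⟨[0, 5], [[11, 10, 1, 2], [0, 5], [8], [9]]⟩,
    .spec 0 ⟨[0, 5], [[11, 10, 6, 1, 2], [0, 5], [8], [9]]⟩,
    .spec 0 ⟨[0, 4], [[11, 10], [0, 4], [6, 1, 2], [7]]⟩,
    .spec 0 ⟨[0, 4], [[11, 10, 8], [0, 4], [6, 1, 2], [7]]⟩]⟩,
  ⟨⟨6, [(0, 1, 0), (1, 0, 0), (1, 3, 0), (2, 4, 0), (2, 5, 1), (3, 1, 2), (3, 2, 1), (4, 0, 0), (4, 4, 0), (5, 0, 0), (5, 5, 0)]⟩, 0, [8], [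
    .spec 0 ⟨[0, 4], [[0, 1], [11, 3], [7], [8]]⟩,
    .spec 0 ⟨[0, 4], [[0, 1], [11, 6, 3], [7], [8]]⟩,
    .spec 0 ⟨[0, 4], [[0, 1], [11], [7], [8]]⟩,
    .spec 0 ⟨[0, 5], [[0, 1], [11], [9], [10]]⟩,
    .spec 0 ⟨[0, 4], [[12, 11], [0, 2, 6, 3], [7], [8]]⟩,
    .spec 0 ⟨[0, 4], [[0, 1], [12, 11, 6, 3], [7], [8]]⟩,
    .spec 0 ⟨[0, 4], [[0, 1], [12, 11], [7], [8]]⟩,
    .spec 0 ⟨[0, 5], [[0, 1], [12, 11], [9], [10]]⟩,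
    .spec 4 ⟨[3, 6, 5, 4], [[5], [11, 2], [10], [6, 4], [9, 12], [8]]⟩,
    .spec 0 ⟨[0, 4], [[0, 1], [12, 11, 3], [7], [8]]⟩,
    .spec 0 ⟨[0, 1], [[12, 11], [0], [1], [2, 5]]⟩,
    .spec 0 ⟨[0, 1], [[12, 11, 7], [0], [1], [2, 5]]⟩,
    .spec 0 ⟨[0, 1], [[12, 11], [0], [1], [2, 5]]⟩,
    .spec 0 ⟨[0, 1], [[12, 11, 9], [0], [1], [2, 5]]⟩]⟩,
  ⟨⟨7, [(0, 1, 0), (1, 2, 0), (2, 1, 0), (2, 4, 0), (3, 5, 0), (3, 6, 1), (4, 2, 2), (4, 3, 1), (5, 0, 0), (5, 5, 0), (6, 0, 0), (6, 6, 0)]⟩, 1, [9], [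
    .spec 0 ⟨[1, 2], [[12, 0], [1], [2], [3, 6]]⟩,
    .spec 0 ⟨[1, 5], [[1, 2], [12, 4], [8, 0], [9]]⟩,
    .spec 0 ⟨[1, 5], [[1, 2], [12, 7, 4], [8, 0], [9]]⟩,
    .spec 0 ⟨[1, 5], [[1, 2], [12], [8, 0], [9]]⟩,
    .spec 0 ⟨[1, 6], [[1, 2], [12], [10, 0], [11]]⟩,
    .spec 0 ⟨[1, 2], [[13, 12], [1], [2], [3, 6]]⟩,
    .spec 0 ⟨[1, 5], [[13, 12], [1, 3, 7, 4], [8, 0], [9]]⟩,
    .spec 0 ⟨[1, 5], [[1, 2], [13, 12, 7, 4], [8, 0], [9]]⟩,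
    .spec 0 ⟨[1, 5], [[1, 2], [13, 12], [8, 0], [9]]⟩,
    .spec 0 ⟨[1, 6], [[1, 2], [13, 12], [10, 0], [11]]⟩,
    .spec 4 ⟨[4, 7, 6, 5], [[6], [12, 3], [11], [7, 5], [10, 0, 13], [9]]⟩,
    .spec 0 ⟨[1, 5], [[1, 2], [13, 12, 4], [8, 0], [9]]⟩,
    .spec 0 ⟨[1, 2], [[13, 12, 0], [1], [2], [3, 6]]⟩,
    .spec 0 ⟨[1, 2], [[13, 12, 8, 0], [1], [2], [3, 6]]⟩,
    .spec 0 ⟨[1, 2], [[13, 12, 0], [1], [2], [3, 6]]⟩,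
    .spec 0 ⟨[1, 2], [[13, 12, 10, 0], [1], [2], [3, 6]]⟩]⟩,
  ⟨⟨7, [(0, 1, 0), (1, 2, 0), (2, 0, 0), (2, 4, 0), (3, 5, 0), (3, 6, 1), (4, 2, 2), (4, 3, 1), (5, 0, 0), (5, 5, 0), (6, 1, 0), (6, 6, 0)]⟩, 1, [9], [
    .spec 0 ⟨[1, 6], [[12, 0], [1, 3, 7, 5], [10], [11]]⟩,
    .spec 0 ⟨[1, 6], [[1, 2, 0], [12, 5], [10], [11]]⟩,
    .spec 0 ⟨[1, 6], [[1, 2, 0], [12, 7, 5], [10], [11]]⟩,
    .spec 0 ⟨[1, 5], [[1, 3, 7, 5, 10], [12], [8, 0], [9]]⟩,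
    .spec 0 ⟨[1, 6], [[1, 2, 0], [12], [10], [11]]⟩,
    .spec 0 ⟨[1, 6], [[13, 12], [1, 3, 7, 5], [10], [11]]⟩,
    .spec 0 ⟨[1, 6], [[13, 12, 0], [1, 3, 7, 5], [10], [11]]⟩,
    .spec 0 ⟨[1, 6], [[1, 2, 0], [13, 12, 7, 5], [10], [11]]⟩,
    .spec 0 ⟨[1, 5], [[1, 3, 7, 5, 10], [13, 12], [8, 0], [9]]⟩,
    .spec 0 ⟨[1, 6], [[1, 2, 0], [13, 12], [10], [11]]⟩,
    .spec 4 ⟨[4, 7, 6, 5], [[6], [12, 3], [11], [7, 5], [10, 13], [9]]⟩,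
    .spec 0 ⟨[1, 6], [[1, 2, 0], [13, 12, 5], [10], [11]]⟩,
    .spec 0 ⟨[1, 6], [[13, 12, 0], [1, 3, 7, 5], [10], [11]]⟩,
    .spec 0 ⟨[1, 6], [[13, 12, 8, 0], [1, 3, 7, 5], [10], [11]]⟩,
    .spec 0 ⟨[1, 2], [[13, 12], [1], [2, 0], [3, 6]]⟩,
    .spec 0 ⟨[1, 2], [[13, 12, 10], [1], [2, 0], [3, 6]]⟩]⟩,
  ⟨⟨7, [(0, 2, 0), (1, 3, 0), (2, 0, 0), (2, 1, 0), (3, 0, 0), (3, 5, 0), (4, 2, 0), (4, 6, 1), (5, 3, 2), (5, 4, 1), (6, 1, 0), (6, 6, 0)]⟩, 1, [11], [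
    .spec 0 ⟨[1, 6], [[12, 0, 3], [1, 5, 9, 7], [10], [11]]⟩,
    .spec 0 ⟨[1, 2], [[1, 5, 9, 7, 10], [12], [3], [2, 0]]⟩,
    .spec 0 ⟨[1, 6], [[1, 4, 0, 3], [12, 7], [10], [11]]⟩,
    .spec 0 ⟨[1, 6], [[1, 4, 0, 3], [12, 9, 7], [10], [11]]⟩,
    .spec 0 ⟨[1, 6], [[1, 4, 0, 3], [12], [10], [11]]⟩,
    .spec 0 ⟨[1, 6], [[13, 12, 3], [1, 5, 9, 7], [10], [11]]⟩,
    .spec 0 ⟨[1, 6], [[13, 12, 0, 3], [1, 5, 9, 7], [10], [11]]⟩,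
    .spec 0 ⟨[1, 6], [[13, 12], [1, 5, 9, 7], [10], [11]]⟩,
    .spec 0 ⟨[1, 6], [[13, 12, 0, 3], [1, 5, 9, 7], [10], [11]]⟩,
    .spec 0 ⟨[1, 6], [[1, 4, 0, 3], [13, 12, 9, 7], [10], [11]]⟩,
    .spec 0 ⟨[1, 2], [[1, 5, 9, 7, 10], [13, 12], [3], [2, 0]]⟩,
    .spec 0 ⟨[1, 6], [[1, 4, 0, 3], [13, 12], [10], [11]]⟩,
    .spec 4 ⟨[5, 7, 6, 0], [[8], [12, 5], [11], [9, 7], [10, 13], [0, 2]]⟩,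
    .spec 0 ⟨[1, 6], [[1, 4, 0, 3], [13, 12, 7], [10], [11]]⟩,
    .spec 0 ⟨[1, 3], [[13, 12], [1], [4, 0, 3], [5, 8]]⟩,
    .spec 0 ⟨[1, 3], [[13, 12, 10], [1], [4, 0, 3], [5, 8]]⟩]⟩,
  ⟨⟨7, [(0, 1, 0), (1, 2, 0), (2, 0, 0), (2, 4, 0), (3, 5, 0), (3, 6, 1), (4, 2, 2), (4, 3, 1), (5, 1, 0), (5, 5, 0), (6, 0, 0), (6, 6, 0)]⟩, 1, [9], [
    .spec 0 ⟨[1, 5], [[12, 0], [1, 3, 7, 4], [8], [9]]⟩,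
    .spec 0 ⟨[1, 5], [[1, 2, 0], [12, 4], [8], [9]]⟩,
    .spec 0 ⟨[1, 5], [[1, 2, 0], [12, 7, 4], [8], [9]]⟩,
    .spec 0 ⟨[1, 5], [[1, 2, 0], [12], [8], [9]]⟩,
    .spec 0 ⟨[1, 6], [[1, 3, 7, 4, 8], [12], [10, 0], [11]]⟩,
    .spec 0 ⟨[1, 5], [[13, 12], [1, 3, 7, 4], [8], [9]]⟩,
    .spec 0 ⟨[1, 5], [[13, 12, 0], [1, 3, 7, 4], [8], [9]]⟩,
    .spec 0 ⟨[1, 5], [[1, 2, 0], [13, 12, 7, 4], [8], [9]]⟩,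
    .spec 0 ⟨[1, 5], [[1, 2, 0], [13, 12], [8], [9]]⟩,
    .spec 0 ⟨[1, 6], [[1, 3, 7, 4, 8], [13, 12], [10, 0], [11]]⟩,
    .spec 4 ⟨[4, 7, 6, 5], [[6], [12, 3], [11], [7, 5], [10, 0, 13], [9]]⟩,
    .spec 0 ⟨[1, 5], [[1, 2, 0], [13, 12, 4], [8], [9]]⟩,
    .spec 0 ⟨[1, 2], [[13, 12], [1], [2, 0], [3, 6]]⟩,
    .spec 0 ⟨[1, 2], [[13, 12, 8], [1], [2, 0], [3, 6]]⟩,
    .spec 0 ⟨[1, 5], [[13, 12, 0], [1, 3, 7, 4], [8], [9]]⟩,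
    .spec 0 ⟨[1, 5], [[13, 12, 10, 0], [1, 3, 7, 4], [8], [9]]⟩]⟩,
  ⟨⟨7, [(0, 2, 0), (1, 3, 0), (2, 0, 0), (2, 1, 0), (3, 0, 0), (3, 5, 0), (4, 2, 1), (4, 6, 0), (5, 3, 2), (5, 4, 1), (6, 1, 0), (6, 6, 0)]⟩, 0, [11], [
    .spec 0 ⟨[0, 3], [[0, 2], [12, 1], [4], [5, 8]]⟩,
    .spec 0 ⟨[0, 3], [[0, 2], [12], [4], [5, 8]]⟩,
    .spec 0 ⟨[0, 6], [[0, 2], [12, 7], [10, 1, 4], [11]]⟩,
    .spec 0 ⟨[0, 6], [[0, 2], [12, 9, 7], [10, 1, 4], [11]]⟩,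
    .spec 0 ⟨[0, 6], [[0, 2], [12], [10, 1, 4], [11]]⟩,
    .spec 0 ⟨[0, 3], [[0, 2], [13, 12], [4], [5, 8]]⟩,
    .spec 0 ⟨[0, 3], [[13, 12], [0, 3, 1], [4], [5, 8]]⟩,
    .spec 0 ⟨[0, 3], [[0, 2], [13, 12, 1], [4], [5, 8]]⟩,
    .spec 0 ⟨[0, 2], [[13, 12], [0], [2], [3, 1, 5, 9, 6]]⟩,
    .spec 0 ⟨[0, 6], [[0, 2], [13, 12, 9, 7], [10, 1, 4], [11]]⟩,
    .spec 1 ⟨[5, 3, 7, 2, 6], [[8], [5], [12], [2, 13], [9, 6], [3, 1], [11]]⟩,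
    .spec 0 ⟨[0, 6], [[0, 2], [13, 12], [10, 1, 4], [11]]⟩,
    .spec 0 ⟨[0, 3], [[0, 2], [13, 12], [4], [5, 9, 7, 10, 1]]⟩,
    .spec 0 ⟨[0, 6], [[0, 2], [13, 12, 7], [10, 1, 4], [11]]⟩,
    .spec 0 ⟨[0, 3], [[0, 2], [13, 12, 1], [4], [5, 8]]⟩,
    .spec 0 ⟨[0, 3], [[0, 2], [13, 12, 10, 1], [4], [5, 8]]⟩]⟩,
  ⟨⟨6, [(0, 1, 0), (1, 3, 0), (2, 4, 0), (2, 5, 1), (3, 1, 2), (3, 2, 1), (4, 0, 0), (4, 4, 0), (5, 0, 0), (5, 5, 0)]⟩, 1, [7], [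
    .node 4 ⟨[0, 1, 2, 3, 4, 5], [[0], [10], [1], [2], [3], [4], [5], [6], [7], [8], [9]]⟩,
    .spec 0 ⟨[1, 4], [[1, 4], [10, 2], [6, 0], [7]]⟩,
    .spec 0 ⟨[1, 4], [[1, 4], [10], [6, 0], [7]]⟩,
    .spec 0 ⟨[1, 5], [[1, 4], [10], [8, 0], [9]]⟩,
    .node 5 ⟨[0, 6, 1, 2, 3, 4, 5], [[0], [10], [11], [1], [2], [3], [4], [5], [6], [7], [8], [9]]⟩,
    .spec 0 ⟨[1, 4], [[1, 4], [11, 10], [6, 0], [7]]⟩,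
    .spec 0 ⟨[1, 5], [[1, 4], [11, 10], [8, 0], [9]]⟩,
    .spec 0 ⟨[1, 4], [[11, 10], [1, 5, 2], [6, 0], [7]]⟩,
    .spec 0 ⟨[1, 4], [[1, 4], [11, 10, 2], [6, 0], [7]]⟩,
    .node 6 ⟨[6, 0, 1, 2, 3, 4, 5], [[10], [0], [11], [1], [2], [3], [4], [5], [6], [7], [8], [9]]⟩,
    .node 7 ⟨[6, 0, 4, 1, 2, 3, 5], [[10], [0], [7], [6], [11], [1], [2], [3], [4], [5], [8], [9]]⟩,
    .node 8 ⟨[6, 0, 1, 2, 3, 4, 5], [[10], [0], [11], [1], [2], [3], [4], [5], [6], [7], [8], [9]]⟩,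
    .node 9 ⟨[6, 0, 5, 1, 2, 3, 4], [[10], [0], [9], [8], [11], [1], [3], [2], [4], [5], [6], [7]]⟩]⟩,
  ⟨⟨6, [(0, 2, 0), (1, 3, 0), (2, 0, 0), (2, 1, 0), (3, 1, 2), (3, 4, 1), (4, 2, 1), (4, 5, 3), (5, 0, 0), (5, 5, 0)]⟩, 0, [9], [
    .spec 0 ⟨[0, 5], [[0, 2], [10, 1, 5, 7], [8], [9]]⟩,
    .spec 0 ⟨[0, 3], [[0, 2], [10], [5, 7, 8], [4, 1]]⟩,
    .spec 0 ⟨[0, 5], [[0, 2], [10, 7], [8], [9]]⟩,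
    .spec 0 ⟨[0, 5], [[0, 2], [10], [8], [9]]⟩,
    .spec 0 ⟨[0, 5], [[0, 2], [11, 10, 5, 7], [8], [9]]⟩,
    .spec 0 ⟨[0, 5], [[11, 10], [0, 3, 1, 5, 7], [8], [9]]⟩,
    .spec 0 ⟨[0, 5], [[0, 2], [11, 10, 1, 5, 7], [8], [9]]⟩,
    .spec 0 ⟨[0, 5], [[0, 2], [11, 10, 1, 5, 7], [8], [9]]⟩,
    .spec 0 ⟨[0, 5], [[0, 2], [11, 10, 7], [8], [9]]⟩,
    .spec 1 ⟨[3, 1, 6, 2, 5], [[4], [1], [10], [2, 11], [5, 6], [3], [9]]⟩,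
    .spec 0 ⟨[0, 5], [[0, 2], [11, 10], [8], [9]]⟩,
    .spec 0 ⟨[0, 2], [[11, 10], [0], [2], [3, 1, 5, 6]]⟩,
    .spec 0 ⟨[0, 2], [[11, 10, 8], [0], [2], [3, 1, 5, 6]]⟩]⟩,
  ⟨⟨5, [(0, 1, 0), (1, 0, 2), (1, 2, 1), (2, 3, 3), (2, 4, 1), (3, 3, 0), (4, 0, 0), (4, 4, 0)]⟩, 3, [7], [
    .node 0 ⟨[0, 1, 2, 4, 3], [[0], [1], [2], [4], [3], [6], [7], [8], [5]]⟩,
    .spec 0 ⟨[1, 3], [[1, 0], [2, 3], [8], [5]]⟩,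
    .spec 0 ⟨[2, 4], [[3, 8], [4], [6, 0, 2], [7]]⟩,
    .spec 0 ⟨[3, 4], [[5], [8], [6, 0, 2, 3], [7]]⟩,
    .node 1 ⟨[5, 0, 1, 2, 4, 3], [[8], [0], [1], [2], [4], [3], [6], [7], [9], [5]]⟩,
    .node 2 ⟨[0, 1, 2, 5, 4, 3], [[0], [2], [1], [4], [3], [8], [6], [7], [9], [5]]⟩,
    .node 3 ⟨[5, 0, 1, 2, 4, 3], [[8], [0], [2], [1], [4], [3], [6], [7], [9], [5]]⟩,
    .spec 10 ⟨[1, 0, 2, 4, 5], [[1], [0], [2], [4], [6], [7], [3], [8, 9]]⟩,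
    .spec 0 ⟨[3, 4], [[5], [9, 8], [6, 0, 2, 3], [7]]⟩,
    .node 10 ⟨[5, 0, 2, 1, 3, 4], [[8], [0], [3], [4], [1], [2], [9], [5], [6], [7]]⟩,
    .node 11 ⟨[5, 0, 4, 1, 2, 3], [[8], [0], [7], [6], [1], [2], [4], [3], [9], [5]]⟩]⟩]

theorem okS3R : okAll specsE1 nodesS3R = true := by decide +kernel

end BiP4

end

section

/-! # MP_d76268_co: certificate for the run S3b1 (generated) -/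

namespace BiP4

def nodesS3b1 : List Node := [
  ⟨⟨4, [(0, 1, 0), (1, 0, 2), (1, 3, 1), (2, 2, 0), (3, 0, 0), (3, 2, 3), (3, 3, 0)]⟩, 2, [6], [
    .spec 0 ⟨[2, 3], [[3], [7, 0, 2], [5], [6]]⟩,
    .spec 0 ⟨[1, 3], [[1, 0], [2], [5, 7], [6]]⟩,
    .spec 0 ⟨[2, 3], [[3], [7], [5], [4, 0, 2]]⟩,
    .spec 0 ⟨[2, 3], [[3], [8, 7, 2], [5], [6]]⟩,
    .spec 0 ⟨[2, 3], [[3], [8, 7, 0, 2], [5], [6]]⟩,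
    .spec 0 ⟨[2, 3], [[3], [8, 7], [5], [6]]⟩,
    .spec 0 ⟨[2, 3], [[3], [8, 7, 0, 2], [5], [6]]⟩,
    .spec 7 ⟨[1, 0, 3, 4], [[1], [0], [2], [4], [6], [5], [7, 8]]⟩,
    .spec 0 ⟨[2, 3], [[3], [8, 7], [5], [4, 0, 2]]⟩]⟩]

theorem okS3b1 : okAll specsE1 nodesS3b1 = true := by decide +kernel

end BiP4

end

section

/-! # MP_d76268_co: certificate for the run S3x1 (generated) -/

namespace BiP4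

def nodesS3x1 : List Node := [
  ⟨⟨4, [(0, 1, 0), (1, 0, 2), (1, 2, 1), (1, 3, 3), (2, 0, 0), (2, 2, 0), (3, 0, 0), (3, 3, 0)]⟩, 0, [5], [
    .spec 0 ⟨[0, 2], [[0, 1], [8], [4], [5]]⟩,
    .spec 0 ⟨[0, 3], [[0, 1], [8], [6], [7]]⟩,
    .spec 0 ⟨[0, 2], [[9, 8], [0, 2], [4], [5]]⟩,
    .spec 0 ⟨[0, 2], [[0, 1], [9, 8], [4], [5]]⟩,
    .spec 0 ⟨[0, 3], [[0, 1], [9, 8], [6], [7]]⟩,
    .spec 0 ⟨[0, 3], [[9, 8], [0, 3], [6], [7]]⟩,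
    .spec 0 ⟨[0, 3], [[9, 8, 4], [0, 3], [6], [7]]⟩,
    .spec 0 ⟨[0, 2], [[9, 8], [0, 2], [4], [5]]⟩,
    .spec 0 ⟨[0, 2], [[9, 8, 6], [0, 2], [4], [5]]⟩]⟩,
  ⟨⟨5, [(0, 2, 0), (1, 0, 0), (2, 1, 2), (2, 3, 1), (2, 4, 3), (3, 1, 0), (3, 3, 0), (4, 0, 0), (4, 4, 0)]⟩, 0, [6], [
    .spec 0 ⟨[0, 4], [[9, 1], [0, 4], [7], [8]]⟩,
    .spec 0 ⟨[0, 3], [[0, 4, 7], [9], [5, 1], [6]]⟩,
    .spec 0 ⟨[0, 4], [[0, 2, 1], [9], [7], [8]]⟩,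
    .spec 0 ⟨[0, 4], [[10, 9], [0, 4], [7], [8]]⟩,
    .spec 0 ⟨[0, 4], [[10, 9, 1], [0, 4], [7], [8]]⟩,
    .spec 0 ⟨[0, 3], [[0, 4, 7], [10, 9], [5, 1], [6]]⟩,
    .spec 0 ⟨[0, 4], [[0, 2, 1], [10, 9], [7], [8]]⟩,
    .spec 0 ⟨[0, 4], [[10, 9, 1], [0, 4], [7], [8]]⟩,
    .spec 0 ⟨[0, 4], [[10, 9, 5, 1], [0, 4], [7], [8]]⟩,
    .spec 0 ⟨[0, 3], [[10, 9], [0, 3], [5, 1], [6]]⟩,
    .spec 0 ⟨[0, 3], [[10, 9, 7], [0, 3], [5, 1], [6]]⟩]⟩,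
  ⟨⟨5, [(0, 1, 0), (1, 2, 2), (1, 3, 1), (1, 4, 3), (2, 0, 2), (3, 0, 0), (3, 3, 0), (4, 2, 0), (4, 4, 0)]⟩, 0, [6], [
    .spec 0 ⟨[0, 3], [[9, 4], [0, 2], [5], [6]]⟩,
    .spec 0 ⟨[0, 3], [[0, 1, 4], [9], [5], [6]]⟩,
    .spec 0 ⟨[0, 4], [[0, 2, 5], [9], [7, 4], [8]]⟩,
    .spec 0 ⟨[0, 3], [[10, 9, 4], [0, 2], [5], [6]]⟩,
    .spec 0 ⟨[0, 3], [[0, 1, 4], [10, 9], [5], [6]]⟩,
    .spec 0 ⟨[0, 4], [[0, 2, 5], [10, 9], [7, 4], [8]]⟩,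
    .spec 0 ⟨[0, 3], [[10, 9], [0, 2], [5], [6]]⟩,
    .spec 0 ⟨[0, 4], [[10, 9], [0, 3], [7, 4], [8]]⟩,
    .spec 0 ⟨[0, 4], [[10, 9, 5], [0, 3], [7, 4], [8]]⟩,
    .spec 0 ⟨[0, 3], [[10, 9, 4], [0, 2], [5], [6]]⟩,
    .spec 0 ⟨[0, 3], [[10, 9, 7, 4], [0, 2], [5], [6]]⟩]⟩,
  ⟨⟨5, [(0, 1, 0), (1, 0, 0), (1, 2, 0), (2, 1, 2), (2, 3, 0), (2, 4, 1), (3, 0, 0), (3, 3, 0), (4, 0, 0), (4, 4, 0)]⟩, 0, [7], [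
    .spec 0 ⟨[0, 3], [[0, 1], [10, 4], [6], [7]]⟩,
    .spec 0 ⟨[0, 3], [[0, 1], [10], [6], [7]]⟩,
    .spec 0 ⟨[0, 4], [[0, 1], [10], [8], [9]]⟩,
    .spec 0 ⟨[0, 3], [[11, 10], [0, 2, 4], [6], [7]]⟩,
    .spec 0 ⟨[0, 3], [[0, 1], [11, 10, 4], [6], [7]]⟩,
    .spec 4 ⟨[2, 5, 4, 3], [[3], [10, 2], [9], [5], [8, 11], [7]]⟩,
    .spec 0 ⟨[0, 3], [[0, 1], [11, 10], [6], [7]]⟩,
    .spec 0 ⟨[0, 4], [[0, 1], [11, 10], [8], [9]]⟩,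
    .spec 0 ⟨[0, 1], [[11, 10], [0], [1], [2, 3]]⟩,
    .spec 0 ⟨[0, 1], [[11, 10, 6], [0], [1], [2, 3]]⟩,
    .spec 0 ⟨[0, 1], [[11, 10], [0], [1], [2, 3]]⟩,
    .spec 0 ⟨[0, 1], [[11, 10, 8], [0], [1], [2, 3]]⟩]⟩,
  ⟨⟨6, [(0, 1, 0), (1, 2, 0), (2, 1, 0), (2, 3, 0), (3, 2, 2), (3, 4, 0), (3, 5, 1), (4, 0, 0), (4, 4, 0), (5, 0, 0), (5, 5, 0)]⟩, 1, [8], [
    .spec 0 ⟨[1, 2], [[11, 0], [1], [2], [3, 4]]⟩,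
    .spec 0 ⟨[1, 4], [[1, 2], [11, 5], [7, 0], [8]]⟩,
    .spec 0 ⟨[1, 4], [[1, 2], [11], [7, 0], [8]]⟩,
    .spec 0 ⟨[1, 5], [[1, 2], [11], [9, 0], [10]]⟩,
    .spec 0 ⟨[1, 2], [[12, 11], [1], [2], [3, 4]]⟩,
    .spec 0 ⟨[1, 4], [[12, 11], [1, 3, 5], [7, 0], [8]]⟩,
    .spec 0 ⟨[1, 4], [[1, 2], [12, 11, 5], [7, 0], [8]]⟩,
    .spec 4 ⟨[3, 6, 5, 4], [[4], [11, 3], [10], [6], [9, 0, 12], [8]]⟩,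
    .spec 0 ⟨[1, 4], [[1, 2], [12, 11], [7, 0], [8]]⟩,
    .spec 0 ⟨[1, 5], [[1, 2], [12, 11], [9, 0], [10]]⟩,
    .spec 0 ⟨[1, 2], [[12, 11, 0], [1], [2], [3, 4]]⟩,
    .spec 0 ⟨[1, 2], [[12, 11, 7, 0], [1], [2], [3, 4]]⟩,
    .spec 0 ⟨[1, 2], [[12, 11, 0], [1], [2], [3, 4]]⟩,
    .spec 0 ⟨[1, 2], [[12, 11, 9, 0], [1], [2], [3, 4]]⟩]⟩,
  ⟨⟨6, [(0, 1, 0), (1, 2, 0), (2, 0, 0), (2, 3, 0), (3, 2, 2), (3, 4, 0), (3, 5, 1), (4, 0, 0), (4, 4, 0), (5, 1, 0), (5, 5, 0)]⟩, 1, [8], [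
    .spec 0 ⟨[1, 5], [[11, 0], [1, 3, 6], [9], [10]]⟩,
    .spec 0 ⟨[1, 5], [[1, 2, 0], [11, 6], [9], [10]]⟩,
    .spec 0 ⟨[1, 4], [[1, 3, 6, 9], [11], [7, 0], [8]]⟩,
    .spec 0 ⟨[1, 5], [[1, 2, 0], [11], [9], [10]]⟩,
    .spec 0 ⟨[1, 5], [[12, 11], [1, 3, 6], [9], [10]]⟩,
    .spec 0 ⟨[1, 5], [[12, 11, 0], [1, 3, 6], [9], [10]]⟩,
    .spec 0 ⟨[1, 5], [[1, 2, 0], [12, 11, 6], [9], [10]]⟩,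
    .spec 4 ⟨[3, 6, 5, 4], [[4], [11, 3], [10], [6], [9, 12], [8]]⟩,
    .spec 0 ⟨[1, 4], [[1, 3, 6, 9], [12, 11], [7, 0], [8]]⟩,
    .spec 0 ⟨[1, 5], [[1, 2, 0], [12, 11], [9], [10]]⟩,
    .spec 0 ⟨[1, 5], [[12, 11, 0], [1, 3, 6], [9], [10]]⟩,
    .spec 0 ⟨[1, 5], [[12, 11, 7, 0], [1, 3, 6], [9], [10]]⟩,
    .spec 0 ⟨[1, 2], [[12, 11], [1], [2, 0], [3, 4]]⟩,
    .spec 0 ⟨[1, 2], [[12, 11, 9], [1], [2, 0], [3, 4]]⟩]⟩,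
  ⟨⟨6, [(0, 2, 0), (1, 3, 0), (2, 0, 0), (2, 1, 0), (3, 0, 0), (3, 4, 0), (4, 2, 0), (4, 3, 2), (4, 5, 1), (5, 1, 0), (5, 5, 0)]⟩, 1, [10], [
    .spec 0 ⟨[1, 5], [[11, 0, 3], [1, 5, 8], [9], [10]]⟩,
    .spec 0 ⟨[1, 2], [[1, 5, 8, 9], [11], [3], [2, 0]]⟩,
    .spec 0 ⟨[1, 5], [[1, 4, 0, 3], [11, 8], [9], [10]]⟩,
    .spec 0 ⟨[1, 5], [[1, 4, 0, 3], [11], [9], [10]]⟩,
    .spec 0 ⟨[1, 5], [[12, 11, 3], [1, 5, 8], [9], [10]]⟩,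
    .spec 0 ⟨[1, 5], [[12, 11, 0, 3], [1, 5, 8], [9], [10]]⟩,
    .spec 0 ⟨[1, 5], [[12, 11], [1, 5, 8], [9], [10]]⟩,
    .spec 0 ⟨[1, 5], [[12, 11, 0, 3], [1, 5, 8], [9], [10]]⟩,
    .spec 0 ⟨[1, 5], [[1, 4, 0, 3], [12, 11, 8], [9], [10]]⟩,
    .spec 0 ⟨[1, 2], [[1, 5, 8, 9], [12, 11], [3], [2, 0]]⟩,
    .spec 4 ⟨[4, 6, 5, 0], [[7], [11, 5], [10], [8], [9, 12], [0, 2]]⟩,
    .spec 0 ⟨[1, 5], [[1, 4, 0, 3], [12, 11], [9], [10]]⟩,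
    .spec 0 ⟨[1, 3], [[12, 11], [1], [4, 0, 3], [5, 7]]⟩,
    .spec 0 ⟨[1, 3], [[12, 11, 9], [1], [4, 0, 3], [5, 7]]⟩]⟩,
  ⟨⟨6, [(0, 1, 0), (1, 2, 0), (2, 0, 0), (2, 3, 0), (3, 2, 2), (3, 4, 0), (3, 5, 1), (4, 1, 0), (4, 4, 0), (5, 0, 0), (5, 5, 0)]⟩, 1, [8], [
    .spec 0 ⟨[1, 4], [[11, 0], [1, 3, 5], [7], [8]]⟩,
    .spec 0 ⟨[1, 4], [[1, 2, 0], [11, 5], [7], [8]]⟩,
    .spec 0 ⟨[1, 4], [[1, 2, 0], [11], [7], [8]]⟩,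
    .spec 0 ⟨[1, 5], [[1, 3, 5, 7], [11], [9, 0], [10]]⟩,
    .spec 0 ⟨[1, 4], [[12, 11], [1, 3, 5], [7], [8]]⟩,
    .spec 0 ⟨[1, 4], [[12, 11, 0], [1, 3, 5], [7], [8]]⟩,
    .spec 0 ⟨[1, 4], [[1, 2, 0], [12, 11, 5], [7], [8]]⟩,
    .spec 4 ⟨[3, 6, 5, 4], [[4], [11, 3], [10], [6], [9, 0, 12], [8]]⟩,
    .spec 0 ⟨[1, 4], [[1, 2, 0], [12, 11], [7], [8]]⟩,
    .spec 0 ⟨[1, 5], [[1, 3, 5, 7], [12, 11], [9, 0], [10]]⟩,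
    .spec 0 ⟨[1, 2], [[12, 11], [1], [2, 0], [3, 4]]⟩,
    .spec 0 ⟨[1, 2], [[12, 11, 7], [1], [2, 0], [3, 4]]⟩,
    .spec 0 ⟨[1, 4], [[12, 11, 0], [1, 3, 5], [7], [8]]⟩,
    .spec 0 ⟨[1, 4], [[12, 11, 9, 0], [1, 3, 5], [7], [8]]⟩]⟩,
  ⟨⟨6, [(0, 2, 0), (1, 3, 0), (2, 0, 0), (2, 1, 0), (3, 0, 0), (3, 4, 0), (4, 2, 1), (4, 3, 2), (4, 5, 0), (5, 1, 0), (5, 5, 0)]⟩, 0, [10], [
    .spec 0 ⟨[0, 3], [[0, 2], [11, 1], [4], [5, 7]]⟩,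
    .spec 0 ⟨[0, 3], [[0, 2], [11], [4], [5, 7]]⟩,
    .spec 0 ⟨[0, 5], [[0, 2], [11, 8], [9, 1, 4], [10]]⟩,
    .spec 0 ⟨[0, 5], [[0, 2], [11], [9, 1, 4], [10]]⟩,
    .spec 0 ⟨[0, 3], [[0, 2], [12, 11], [4], [5, 7]]⟩,
    .spec 0 ⟨[0, 3], [[12, 11], [0, 3, 1], [4], [5, 7]]⟩,
    .spec 0 ⟨[0, 3], [[0, 2], [12, 11, 1], [4], [5, 7]]⟩,
    .spec 0 ⟨[0, 2], [[12, 11], [0], [2], [3, 1, 5, 6]]⟩,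
    .spec 0 ⟨[0, 5], [[0, 2], [12, 11, 8], [9, 1, 4], [10]]⟩,
    .spec 1 ⟨[4, 3, 6, 2, 5], [[7], [5], [11], [2, 12], [6], [3, 1], [10]]⟩,
    .spec 0 ⟨[0, 3], [[0, 2], [12, 11], [4], [5, 8, 9, 1]]⟩,
    .spec 0 ⟨[0, 5], [[0, 2], [12, 11], [9, 1, 4], [10]]⟩,
    .spec 0 ⟨[0, 3], [[0, 2], [12, 11, 1], [4], [5, 7]]⟩,
    .spec 0 ⟨[0, 3], [[0, 2], [12, 11, 9, 1], [4], [5, 7]]⟩]⟩,
  ⟨⟨5, [(0, 1, 0), (1, 2, 0), (2, 1, 2), (2, 3, 0), (2, 4, 1), (3, 0, 0), (3, 3, 0), (4, 0, 0), (4, 4, 0)]⟩, 1, [6], [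
    .node 3 ⟨[0, 1, 2, 3, 4], [[0], [9], [1], [2], [3], [4], [5], [6], [7], [8]]⟩,
    .spec 0 ⟨[1, 3], [[1, 2], [9], [5, 0], [6]]⟩,
    .spec 0 ⟨[1, 4], [[1, 2], [9], [7, 0], [8]]⟩,
    .node 4 ⟨[0, 5, 1, 2, 3, 4], [[0], [9], [10], [1], [2], [3], [4], [5], [6], [7], [8]]⟩,
    .spec 0 ⟨[1, 3], [[10, 9], [1, 3], [5, 0], [6]]⟩,
    .spec 0 ⟨[1, 3], [[1, 2], [10, 9], [5, 0], [6]]⟩,
    .spec 0 ⟨[1, 4], [[1, 2], [10, 9], [7, 0], [8]]⟩,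
    .node 5 ⟨[5, 0, 1, 2, 3, 4], [[9], [0], [10], [1], [2], [3], [4], [5], [6], [7], [8]]⟩,
    .node 6 ⟨[5, 0, 3, 1, 2, 4], [[9], [0], [6], [5], [10], [1], [3], [2], [4], [7], [8]]⟩,
    .node 7 ⟨[5, 0, 1, 2, 3, 4], [[9], [0], [10], [1], [2], [3], [4], [5], [6], [7], [8]]⟩,
    .node 8 ⟨[5, 0, 4, 1, 2, 3], [[9], [0], [8], [7], [10], [1], [4], [2], [3], [5], [6]]⟩]⟩,
  ⟨⟨5, [(0, 2, 0), (1, 3, 0), (2, 0, 0), (2, 1, 0), (3, 1, 2), (3, 2, 1), (3, 4, 3), (4, 0, 0), (4, 4, 0)]⟩, 0, [8], [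
    .spec 0 ⟨[0, 4], [[0, 2], [9, 1, 6], [7], [8]]⟩,
    .spec 0 ⟨[0, 3], [[0, 2], [9], [6, 7], [4, 1]]⟩,
    .spec 0 ⟨[0, 4], [[0, 2], [9], [7], [8]]⟩,
    .spec 0 ⟨[0, 4], [[0, 2], [10, 9, 6], [7], [8]]⟩,
    .spec 0 ⟨[0, 4], [[10, 9], [0, 3, 1, 6], [7], [8]]⟩,
    .spec 0 ⟨[0, 4], [[0, 2], [10, 9, 1, 6], [7], [8]]⟩,
    .spec 0 ⟨[0, 4], [[0, 2], [10, 9, 1, 6], [7], [8]]⟩,
    .spec 1 ⟨[3, 1, 5, 2, 4], [[4], [1], [9], [2, 10], [5], [3], [8]]⟩,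
    .spec 0 ⟨[0, 4], [[0, 2], [10, 9], [7], [8]]⟩,
    .spec 0 ⟨[0, 2], [[10, 9], [0], [2], [3, 1, 5]]⟩,
    .spec 0 ⟨[0, 2], [[10, 9, 7], [0], [2], [3, 1, 5]]⟩]⟩,
  ⟨⟨4, [(0, 1, 0), (1, 0, 2), (1, 2, 3), (1, 3, 1), (2, 2, 0), (3, 0, 0), (3, 3, 0)]⟩, 2, [6], [
    .node 0 ⟨[0, 1, 3, 2], [[0], [1], [3], [2], [5], [6], [7], [4]]⟩,
    .spec 0 ⟨[1, 2], [[1, 0], [2], [7], [4]]⟩,
    .spec 0 ⟨[2, 3], [[4], [7], [5, 0, 2], [6]]⟩,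
    .node 1 ⟨[4, 0, 1, 3, 2], [[7], [0], [1], [3], [2], [5], [6], [8], [4]]⟩,
    .node 2 ⟨[0, 1, 4, 3, 2], [[0], [1], [3], [2], [7], [5], [6], [8], [4]]⟩,
    .spec 5 ⟨[1, 0, 3, 4], [[1], [0], [3], [5], [6], [2], [7, 8]]⟩,
    .spec 0 ⟨[2, 3], [[4], [8, 7], [5, 0, 2], [6]]⟩,
    .node 9 ⟨[4, 0, 1, 2, 3], [[7], [0], [1], [2], [3], [8], [4], [5], [6]]⟩,
    .node 10 ⟨[4, 0, 3, 1, 2], [[7], [0], [6], [5], [1], [3], [2], [8], [4]]⟩]⟩]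

theorem okS3x1 : okAll specsE1 nodesS3x1 = true := by decide +kernel

end BiP4

end

section

/-! # MP_d76268_co: certificate for the run S3y1 (generated) -/

namespace BiP4

def nodesS3y1 : List Node := [
  ⟨⟨4, [(0, 1, 0), (0, 2, 3), (1, 0, 2), (1, 3, 1), (2, 2, 0), (3, 0, 0), (3, 3, 0)]⟩, 2, [6], [
    .spec 0 ⟨[0, 2], [[0, 2], [1], [7], [4]]⟩,
    .spec 0 ⟨[2, 3], [[4], [7, 3], [5, 1], [6]]⟩,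
    .spec 0 ⟨[0, 2], [[0, 2], [1], [7, 5], [4]]⟩,
    .spec 0 ⟨[2, 3], [[4], [8, 7, 3], [5, 1], [6]]⟩,
    .spec 6 ⟨[1, 0, 3, 4], [[2], [0], [3], [5], [6], [1], [7, 8]]⟩,
    .spec 0 ⟨[0, 2], [[0, 3, 5], [1], [8, 7], [4]]⟩,
    .spec 0 ⟨[0, 2], [[0, 2], [1], [8, 7, 5], [4]]⟩,
    .spec 0 ⟨[0, 2], [[0, 2], [1], [8, 7], [4]]⟩,
    .spec 0 ⟨[0, 2], [[0, 2], [1], [8, 7, 5], [4]]⟩]⟩]

theorem okS3y1 : okAll specsE1 nodesS3y1 = true := by decide +kernel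

end BiP4

end
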