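import Pool.Agent.Work.MP_d76268_co.Stmts

/-! Bundle of small proof modules (one section per former module). -/

section

/-!
# MP_d76268_co: counting colourings
-/

namespace BiP4

namespace Col

/-- A self map along arcs has a directed cycle on every forward orbit. -/
theorem cyc_of_succ {V : Type} [Finite V] (E : V → V → Prop) (s : V → V) (hs : ∀ x, E x (s x))
    (C : Set V) (hC : ∀ x ∈ C, s x ∈ C) (x : V) (hx : x ∈ C) :
    ∃ (a : V) (l : List V), Cyc E a l ∧ ∀ y ∈ a :: l, y ∈ C := by
  have hit : ∀ n, s^[n] x ∈ C := by
    intro n
    induction n with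
    | zero => exact hx
    | succ n ih =>
      rw [Function.iterate_succ_apply']
      exact hC _ ih
  obtain ⟨i, j, hij, he⟩ := Finite.exists_ne_map_eq_of_infinite (fun n : ℕ => s^[n] x)
  wlog hlt : i < j generalizing i j
  · exact this j i hij.symm he.symm (by omega)
  obtain ⟨d, rfl⟩ : ∃ d, j = i + (d + 1) := ⟨j - i - 1, by omega⟩
  set y := s^[i] x with hy
  have hyC : y ∈ C := hit i
  have hper : Function.IsPeriodicPt s (d + 1) y := by
    show s^[d + 1] y = y
    have h1 : s^[i + (d + 1)] x = s^[d + 1] y := by
      rw [hy, ← Function.iterate_add_apply, add_comm]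
    rw [← h1]
    exact he.symm
  have hpos : 0 < Function.minimalPeriod s y := hper.minimalPeriod_pos (Nat.succ_pos d)
  obtain ⟨m, hm⟩ : ∃ m, Function.minimalPeriod s y = m + 1 :=
    ⟨Function.minimalPeriod s y - 1, by omega⟩
  have hitC : ∀ n, s^[n] y ∈ C := by
    intro n
    induction n with
    | zero => exact hyC
    | succ n ih =>
      rw [Function.iterate_succ_apply']
      exact hC _ ih
  have hlist : y :: (List.range m).map (fun k => s^[k + 1] y) =
      (List.range (m + 1)).map (fun k => s^[k] y) := by
    rw [List.range_succ_eq_map, List.map_cons, List.map_map]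
    rfl
  have hend : s^[m + 1] y = y := by
    rw [← hm]
    exact Function.iterate_minimalPeriod
  refine ⟨y, (List.range m).map (fun k => s^[k + 1] y), ⟨?_, ?_⟩, ?_⟩
  · unfold Seg
    have h2 : y :: ((List.range m).map (fun k => s^[k + 1] y) ++ [y]) =
        (List.range (m + 2)).map (fun k => s^[k] y) := by
      rw [List.range_succ, List.map_append, ← hlist, List.cons_append]
      simp [hend]
    rw [h2, List.isChain_map, List.isChain_range_succ]
    intro k _
    rw [Function.iterate_succ_apply']
    exact hs _
  · rw [hlist]
    refine List.Nodup.map_on ?_ List.nodup_range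
    intro a ha b hb hab
    rw [List.mem_range] at ha hb
    exact Function.iterate_injOn_Iio_minimalPeriod (by rw [hm]; exact ha) (by rw [hm]; exact hb) hab
  · intro z hz
    rw [hlist, List.mem_map] at hz
    obtain ⟨k, -, rfl⟩ := hz
    exact hitC k

theorem card_pi {V : Type} [Fintype V] [DecidableEq V] (q r : ℕ) (v : V) (F : Finset V)
    (hF : F.card = r) (hv : v ∉ F) (j : Fin q) :
    (Fintype.piFinset fun x : V => if x = v then ({j} : Finset (Fin q)) else
      if x ∈ F then Finset.univ.erase j else Finset.univ).card =
      (q - 1) ^ r * q ^ (Fintype.card V - 1 - r) := by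
  rw [Fintype.card_piFinset, ← Finset.mul_prod_erase Finset.univ _ (Finset.mem_univ v)]
  rw [if_pos rfl, Finset.card_singleton, one_mul]
  have h1 : ∏ x ∈ Finset.univ.erase v, (if x = v then ({j} : Finset (Fin q)) else
      if x ∈ F then Finset.univ.erase j else Finset.univ).card =
      ∏ x ∈ Finset.univ.erase v, (if x ∈ F then (q - 1) else q) := by
    refine Finset.prod_congr rfl fun x hx => ?_
    rw [if_neg (Finset.ne_of_mem_erase hx)]
    by_cases hxF : x ∈ F
    · rw [if_pos hxF, if_pos hxF, Finset.card_erase_of_mem (Finset.mem_univ j), Finset.card_univ,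
        Fintype.card_fin]
    · rw [if_neg hxF, if_neg hxF, Finset.card_univ, Fintype.card_fin]
  rw [h1, Finset.prod_ite, Finset.prod_const, Finset.prod_const]
  have h2 : (Finset.univ.erase v).filter (fun x => x ∈ F) = F := by
    ext x
    simp only [Finset.mem_filter, Finset.mem_erase, Finset.mem_univ, and_true]
    constructor
    · exact fun h => h.2
    · exact fun h => ⟨fun h' => hv (h' ▸ h), h⟩
  have h3 := Finset.card_filter_add_card_filter_not (s := Finset.univ.erase v) (fun x => x ∈ F)
  rw [h2, Finset.card_erase_of_mem (Finset.mem_univ v), Finset.card_univ] at h3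
  rw [h2, hF]
  congr 2
  omega

theorem card_bad {V : Type} [Fintype V] [DecidableEq V] (q r : ℕ) (v : V) (F : Finset V)
    (hF : F.card = r) (hv : v ∉ F) :
    ((Finset.univ : Finset (V → Fin q)).filter (fun c => ∀ x ∈ F, c x ≠ c v)).card ≤
      (q - 1) ^ r * q ^ (Fintype.card V - r) := by
  have hn : r + 1 ≤ Fintype.card V := by
    rw [← hF, ← Finset.card_insert_of_notMem hv]
    exact Finset.card_le_univ _
  have hsub : (Finset.univ : Finset (V → Fin q)).filter (fun c => ∀ x ∈ F, c x ≠ c v) ⊆
      (Finset.univ : Finset (Fin q)).biUnion fun j => Fintype.piFinset fun x : V =>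
        if x = v then ({j} : Finset (Fin q)) else
          if x ∈ F then Finset.univ.erase j else Finset.univ := by
    intro c hc
    rw [Finset.mem_filter] at hc
    rw [Finset.mem_biUnion]
    refine ⟨c v, Finset.mem_univ _, ?_⟩
    rw [Fintype.mem_piFinset]
    intro x
    by_cases hx : x = v
    · rw [if_pos hx, hx]
      exact Finset.mem_singleton_self _
    · rw [if_neg hx]
      by_cases hxF : x ∈ F
      · rw [if_pos hxF]
        exact Finset.mem_erase.2 ⟨hc.2 x hxF, Finset.mem_univ _⟩
      · rw [if_neg hxF]
        exact Finset.mem_univ _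
  refine (Finset.card_le_card hsub).trans (Finset.card_biUnion_le.trans ?_)
  rw [Finset.sum_congr rfl fun j _ => card_pi q r v F hF hv j, Finset.sum_const, Finset.card_univ,
    Fintype.card_fin, smul_eq_mul]
  have h4 : Fintype.card V - r = (Fintype.card V - 1 - r) + 1 := by omega
  rw [h4, pow_succ]
  exact le_of_eq (by ring)

theorem card_miss {V : Type} [Fintype V] [DecidableEq V] (q : ℕ) (j : Fin q) :
    ((Finset.univ : Finset (V → Fin q)).filter (fun c => ∀ x, c x ≠ j)).card ≤
      (q - 1) ^ Fintype.card V := by
  have hsub : (Finset.univ : Finset (V → Fin q)).filter (fun c => ∀ x, c x ≠ j) ⊆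
      Fintype.piFinset fun _ : V => Finset.univ.erase j := by
    intro c hc
    rw [Finset.mem_filter] at hc
    rw [Fintype.mem_piFinset]
    exact fun x => Finset.mem_erase.2 ⟨hc.2 x, Finset.mem_univ _⟩
  refine (Finset.card_le_card hsub).trans (le_of_eq ?_)
  rw [Fintype.card_piFinset, Finset.prod_const, Finset.card_erase_of_mem (Finset.mem_univ j),
    Finset.card_univ, Finset.card_univ, Fintype.card_fin]

end Col

open Col in
theorem colour : StmtColour := by
  intro V _ _ E r q hq hirr hout hineq
  -- exactly `r` out-neighbours
  have h1 : ∀ v, ∃ F : Finset V, F.card = r ∧ ∀ x ∈ F, E v x := by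
    intro v
    obtain ⟨F, hF, hE⟩ := hout v
    obtain ⟨F', hF', hc⟩ := Finset.exists_subset_card_eq hF
    exact ⟨F', hc, fun x hx => hE x (hF' hx)⟩
  choose F hF hFE using h1
  have hvF : ∀ v, v ∉ F v := fun v hv => hirr v (hFE v v hv)
  -- a good colouring
  obtain ⟨c, hc1, hc2⟩ : ∃ c : V → Fin q, (∀ v, ∃ x ∈ F v, c x = c v) ∧ ∀ j, ∃ x, c x = j := by
    by_contra hcon
    push Not at hcon
    have hsub : (Finset.univ : Finset (V → Fin q)) ⊆
        ((Finset.univ : Finset V).biUnion fun v =>
          (Finset.univ : Finset (V → Fin q)).filter (fun c => ∀ x ∈ F v, c x ≠ c v)) ∪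
        ((Finset.univ : Finset (Fin q)).biUnion fun j =>
          (Finset.univ : Finset (V → Fin q)).filter (fun c => ∀ x, c x ≠ j)) := by
      intro c _
      rw [Finset.mem_union, Finset.mem_biUnion, Finset.mem_biUnion]
      by_cases h2 : ∀ v, ∃ x ∈ F v, c x = c v
      · right
        obtain ⟨j, hj⟩ := hcon c h2
        exact ⟨j, Finset.mem_univ _, Finset.mem_filter.2 ⟨Finset.mem_univ _, hj⟩⟩
      · left
        push Not at h2
        obtain ⟨v, hv⟩ := h2
        exact ⟨v, Finset.mem_univ _, Finset.mem_filter.2 ⟨Finset.mem_univ _, hv⟩⟩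
    have h3 := (Finset.card_le_card hsub).trans (Finset.card_union_le _ _)
    rw [Finset.card_univ, Fintype.card_fun, Fintype.card_fin] at h3
    have h4 : ((Finset.univ : Finset V).biUnion fun v =>
        (Finset.univ : Finset (V → Fin q)).filter (fun c => ∀ x ∈ F v, c x ≠ c v)).card ≤
        Fintype.card V * ((q - 1) ^ r * q ^ (Fintype.card V - r)) := by
      refine Finset.card_biUnion_le.trans ?_
      refine (Finset.sum_le_sum fun v _ => card_bad q r v (F v) (hF v) (hvF v)).trans ?_
      rw [Finset.sum_const, Finset.card_univ, smul_eq_mul]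
    have h5 : ((Finset.univ : Finset (Fin q)).biUnion fun j =>
        (Finset.univ : Finset (V → Fin q)).filter (fun c => ∀ x, c x ≠ j)).card ≤
        q * (q - 1) ^ Fintype.card V := by
      refine Finset.card_biUnion_le.trans ?_
      refine (Finset.sum_le_sum fun j _ => card_miss q j).trans ?_
      rw [Finset.sum_const, Finset.card_univ, Fintype.card_fin, smul_eq_mul]
    rw [mul_assoc] at hineq
    omega
  -- the cycles
  choose s hsF hsc using hc1
  choose x hx using hc2
  have h6 : ∀ j, ∃ (a : V) (l : List V), Cyc E a l ∧ ∀ y ∈ a :: l, y ∈ {y | c y = j} := by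
    intro j
    refine cyc_of_succ E s (fun v => hFE v _ (hsF v)) {y | c y = j} (fun y hy => ?_) (x j) (hx j)
    show c (s y) = j
    rw [hsc y]
    exact hy
  choose a l hcyc hcol using h6
  refine ⟨a, l, hcyc, fun i j hij y hyi hyj => hij ?_⟩
  rw [← (show c y = i from hcol i y hyi), ← (show c y = j from hcol j y hyj)]

end BiP4

end

section

/-!
# MP_d76268_co: contraction of an arc without common in-neighbour (item CONTR)
-/

namespace BiP4

open Classical in
/-- interior of the lifted walk: insert `u` before `v` when the arc into `v` comes from `u` -/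
noncomputable def conI {V : Type} (E : V → V → Prop) (u v : V) :
    {x : V // x ≠ u} → List {x : V // x ≠ u} → {x : V // x ≠ u} → List V
  | x, [], b => if (b : V) = v ∧ E x u then [u] else []
  | x, y :: l, b =>
      (if (y : V) = v ∧ E x u then [u, (y : V)] else [(y : V)]) ++ conI E u v y l b

theorem conI_seg {V : Type} (E : V → V → Prop) (u v : V) (huv : E u v)
    (b : {x : V // x ≠ u}) : ∀ (l : List {x : V // x ≠ u}) (x : {x : V // x ≠ u}),
    Seg (fun (x y : {x : V // x ≠ u}) => E x y ∨ ((y : V) = v ∧ E x u)) x l b →
    Seg E (x : V) (conI E u v x l b) (b : V) := by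
  intro l
  induction l with
  | nil =>
    intro x h
    unfold Seg at h ⊢
    simp only [List.nil_append, List.isChain_cons_cons, List.isChain_singleton, and_true] at h
    by_cases hc : (b : V) = v ∧ E x u
    · simp only [conI, if_pos hc, List.cons_append, List.nil_append, List.isChain_cons_cons,
        List.isChain_singleton, and_true]
      exact ⟨hc.2, hc.1 ▸ huv⟩
    · simp only [conI, if_neg hc, List.nil_append, List.isChain_cons_cons,
        List.isChain_singleton, and_true]
      rcases h with h | h
      · exact h
      · exact absurd h hc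
  | cons y l ih =>
    intro x h
    unfold Seg at h
    rw [List.cons_append, List.isChain_cons_cons] at h
    have h2 := ih y h.2
    unfold Seg at h2 ⊢
    by_cases hc : (y : V) = v ∧ E x u
    · simp only [conI, if_pos hc, List.cons_append, List.nil_append, List.isChain_cons_cons]
      exact ⟨hc.2, hc.1 ▸ huv, h2⟩
    · simp only [conI, if_neg hc, List.cons_append, List.nil_append, List.isChain_cons_cons]
      rcases h.1 with h' | h'
      · exact ⟨h', h2⟩
      · exact absurd h' hc

theorem conI_mem {V : Type} (E : V → V → Prop) (u v : V)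
    (b : {x : V // x ≠ u}) : ∀ (l : List {x : V // x ≠ u}) (x : {x : V // x ≠ u}) (z : V),
    z ∈ conI E u v x l b → z ∈ l.map Subtype.val ∨ (z = u ∧ v ∈ (l ++ [b]).map Subtype.val) := by
  intro l
  induction l with
  | nil =>
    intro x z hz
    by_cases hc : (b : V) = v ∧ E x u
    · simp only [conI, if_pos hc, List.mem_singleton] at hz
      right
      exact ⟨hz, by simp [hc.1]⟩
    · simp [conI, if_neg hc] at hz
  | cons y l ih =>
    intro x z hz
    by_cases hc : (y : V) = v ∧ E x u
    · simp only [conI, if_pos hc, List.cons_append, List.nil_append, List.mem_cons] at hz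
      rcases hz with hz | hz | hz
      · right
        refine ⟨hz, ?_⟩
        rw [List.cons_append, List.map_cons, hc.1]
        exact List.mem_cons_self
      · left
        rw [List.map_cons, hz]
        exact List.mem_cons_self
      · rcases ih y z hz with h | h
        · left
          rw [List.map_cons]
          exact List.mem_cons_of_mem _ h
        · right
          refine ⟨h.1, ?_⟩
          rw [List.cons_append, List.map_cons]
          exact List.mem_cons_of_mem _ h.2
    · simp only [conI, if_neg hc, List.cons_append, List.nil_append, List.mem_cons] at hz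
      rcases hz with hz | hz
      · left
        rw [List.map_cons, hz]
        exact List.mem_cons_self
      · rcases ih y z hz with h | h
        · left
          rw [List.map_cons]
          exact List.mem_cons_of_mem _ h
        · right
          refine ⟨h.1, ?_⟩
          rw [List.cons_append, List.map_cons]
          exact List.mem_cons_of_mem _ h.2

theorem val_ne_mem {V : Type} (u : V) (l : List {x : V // x ≠ u}) : u ∉ l.map Subtype.val := by
  intro h
  rw [List.mem_map] at h
  obtain ⟨a, _, ha⟩ := h
  exact a.2 ha

theorem conI_nodup {V : Type} (E : V → V → Prop) (u v : V)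
    (b : {x : V // x ≠ u}) : ∀ (l : List {x : V // x ≠ u}) (x : {x : V // x ≠ u}),
    (l ++ [b]).Nodup → (conI E u v x l b).Nodup ∧ (b : V) ∉ conI E u v x l b := by
  intro l
  induction l with
  | nil =>
    intro x _
    by_cases hc : (b : V) = v ∧ E x u
    · simp only [conI, if_pos hc]
      refine ⟨List.nodup_singleton _, ?_⟩
      rw [List.mem_singleton]
      exact b.2
    · simp [conI, if_neg hc]
  | cons y l ih =>
    intro x h
    rw [List.cons_append, List.nodup_cons] at h
    obtain ⟨h1, h2⟩ := ih y h.2
    have hyb : (y : V) ∉ (l ++ [b]).map Subtype.val := by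
      intro h'
      rw [List.mem_map] at h'
      obtain ⟨a, ha, hay⟩ := h'
      exact h.1 (Subtype.ext hay ▸ ha)
    have hy : (y : V) ∉ conI E u v y l b := by
      intro h'
      rcases conI_mem E u v b l y _ h' with h' | h'
      · apply hyb
        rw [List.map_append]
        exact List.mem_append_left _ h'
      · exact y.2 h'.1
    have hby : (b : V) ≠ (y : V) := by
      intro h'
      apply hyb
      rw [List.map_append, ← h']
      simp
    by_cases hc : (y : V) = v ∧ E x u
    · simp only [conI, if_pos hc, List.cons_append, List.nil_append]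
      have hu : u ∉ conI E u v y l b := by
        intro h'
        rcases conI_mem E u v b l y _ h' with h' | h'
        · exact val_ne_mem u l h'
        · rw [← hc.1] at h'
          exact hyb h'.2
      refine ⟨?_, ?_⟩
      · rw [List.nodup_cons, List.nodup_cons]
        refine ⟨?_, hy, h1⟩
        rw [List.mem_cons]
        rintro (h' | h')
        · exact y.2 h'.symm
        · exact hu h'
      · rw [List.mem_cons, List.mem_cons]
        rintro (h' | h' | h')
        · exact b.2 h'
        · exact hby h'
        · exact h2 h'
    · simp only [conI, if_neg hc, List.cons_append, List.nil_append]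
      refine ⟨?_, ?_⟩
      · rw [List.nodup_cons]
        exact ⟨hy, h1⟩
      · rw [List.mem_cons]
        rintro (h' | h')
        · exact hby h'
        · exact h2 h'

theorem contract : StmtContract := by
  intro V _ _ E r k u v hirr hasym hout huv hcom
  have hvu : v ≠ u := fun h => hirr u (by rw [h] at huv; exact huv)
  refine ⟨{x : V // x ≠ u}, inferInstance, inferInstance,
    fun x y => E x y ∨ ((y : V) = v ∧ E x u), ⟨⟨v, hvu⟩⟩, ?_, ?_, ?_, ?_⟩
  · exact Fintype.card_subtype_lt (x := u) (by simp)
  · intro x hx
    rcases hx with hx | ⟨hx1, hx2⟩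
    · exact hirr _ hx
    · rw [hx1] at hx2
      exact hasym _ _ huv hx2
  · intro x
    obtain ⟨F, hF, hE⟩ := hout x
    by_cases hu : u ∈ F
    · have hv : v ∉ F := fun h => hcom _ (hE u hu) (hE v h)
      refine ⟨Finset.subtype (fun y => y ≠ u) (insert v (F.erase u)), ?_, ?_⟩
      · rw [Finset.card_subtype, Finset.filter_true_of_mem]
        · rw [Finset.card_insert_of_notMem (fun h => hv (Finset.mem_of_mem_erase h)),
            Finset.card_erase_of_mem hu]
          have : 0 < F.card := Finset.card_pos.mpr ⟨u, hu⟩
          omega
        · intro y hy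
          rw [Finset.mem_insert] at hy
          rcases hy with hy | hy
          · rw [hy]; exact hvu
          · exact Finset.ne_of_mem_erase hy
      · intro y hy
        rw [Finset.mem_subtype, Finset.mem_insert] at hy
        rcases hy with hy | hy
        · exact Or.inr ⟨hy, hE u hu⟩
        · exact Or.inl (hE _ (Finset.mem_of_mem_erase hy))
    · refine ⟨Finset.subtype (fun y => y ≠ u) F, ?_, ?_⟩
      · rw [Finset.card_subtype, Finset.filter_true_of_mem]
        · exact hF
        · intro y hy h
          exact hu (h ▸ hy)
      · intro y hy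
        rw [Finset.mem_subtype] at hy
        exact Or.inl (hE _ hy)
  · rintro ⟨a, l, hc, hd⟩
    have hper : ∀ i, (l i ++ [a i]).Nodup := by
      intro i
      have := (hc i).2
      rw [List.nodup_append_comm]
      exact this
    have hmem : ∀ i z, z ∈ (a i : V) :: conI E u v (a i) (l i) (a i) →
        z ∈ (a i :: l i).map Subtype.val ∨ (z = u ∧ v ∈ (a i :: l i).map Subtype.val) := by
      intro i z hz
      rw [List.mem_cons] at hz
      rcases hz with hz | hz
      · left
        rw [List.map_cons, hz]
        exact List.mem_cons_self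
      · rcases conI_mem E u v (a i) (l i) (a i) z hz with h | h
        · left
          rw [List.map_cons]
          exact List.mem_cons_of_mem _ h
        · right
          refine ⟨h.1, ?_⟩
          have h2 := h.2
          rw [List.map_append, List.mem_append] at h2
          rw [List.map_cons, List.mem_cons]
          rcases h2 with h2 | h2
          · exact Or.inr h2
          · left
            simpa using h2
    refine ⟨fun i => a i, fun i => conI E u v (a i) (l i) (a i), ?_, ?_⟩
    · intro i
      refine ⟨conI_seg E u v huv (a i) (l i) (a i) (hc i).1, ?_⟩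
      obtain ⟨h1, h2⟩ := conI_nodup E u v (a i) (l i) (a i) (hper i)
      exact List.nodup_cons.mpr ⟨h2, h1⟩
    · intro i j hij z hz1 hz2
      have hdis : ∀ w, w ∈ (a i :: l i).map Subtype.val → w ∉ (a j :: l j).map Subtype.val := by
        intro w h1 h2
        rw [List.mem_map] at h1 h2
        obtain ⟨w1, hw1, hw1'⟩ := h1
        obtain ⟨w2, hw2, hw2'⟩ := h2
        have : w1 = w2 := Subtype.ext (hw1'.trans hw2'.symm)
        rw [← this] at hw2
        exact hd i j hij hw1 hw2
      rcases hmem i z hz1 with h1 | h1 <;> rcases hmem j z hz2 with h2 | h2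
      · exact hdis z h1 h2
      · rw [h2.1] at h1
        exact val_ne_mem u _ h1
      · rw [h1.1] at h2
        exact val_ne_mem u _ h2
      · exact hdis v h1.2 h2.2

end BiP4

end
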