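import Pool.Agent.Work.MP_d76268_co.Stmts

/-! Bundle of small proof modules (one section per former module). -/

section

/-!
# FAN: an end-preserving fan extension from Menger's theorem
-/

namespace BiP4

namespace FanItem

/-- a walk contains a path with the same ends -/
lemma simplify {W : Type} {R : W → W → Prop} : ∀ (l : List W), l ≠ [] → l.IsChain R →
    ∃ m : List W, m ≠ [] ∧ m.Nodup ∧ m.IsChain R ∧ m.head? = l.head? ∧
      m.getLast? = l.getLast? ∧ ∀ x ∈ m, x ∈ l := by
  classical
  intro l
  induction l with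
  | nil =>
    intro h
    exact absurd rfl h
  | cons a m ih =>
    intro _ hc
    cases m with
    | nil => exact ⟨[a], by simp, by simp, by simp, rfl, rfl, by simp⟩
    | cons b m =>
      obtain ⟨hab, hc'⟩ := List.isChain_cons_cons.mp hc
      obtain ⟨m', h1, h2, h3, h4, h5, h6⟩ := ih (by simp) hc'
      have hl : (a :: b :: m).getLast? = (b :: m).getLast? := List.getLast?_cons_cons
      by_cases ha : a ∈ m'
      · obtain ⟨p, r, hpr⟩ := List.append_of_mem ha
        subst hpr
        refine ⟨a :: r, by simp, h2.of_append_right, h3.right_of_append, rfl, ?_, ?_⟩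
        · rw [hl, ← h5, List.getLast?_append]
          have : (a :: r).getLast? = some ((a :: r).getLast (by simp)) :=
            List.getLast?_eq_some_getLast _
          rw [this]
          rfl
        · intro x hx
          exact List.mem_cons_of_mem _ (h6 x (List.mem_append_right _ hx))
      · refine ⟨a :: m', by simp, List.nodup_cons.mpr ⟨ha, h2⟩, ?_, rfl, ?_, ?_⟩
        · rw [List.isChain_cons]
          refine ⟨?_, h3⟩
          intro y hy
          rw [h4] at hy
          have : b = y := by simpa using hy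
          rw [← this]
          exact hab
        · rw [hl, ← h5]
          cases m' with
          | nil => exact absurd rfl h1
          | cons c m' => exact List.getLast?_cons_cons
        · intro x hx
          rcases List.mem_cons.mp hx with rfl | hx
          · exact List.mem_cons_self
          · exact List.mem_cons_of_mem _ (h6 x hx)

/-- the auxiliary digraph with a new sink -/
def Ex {V : Type} (E : V → V → Prop) (v : V) (Tg W : Finset V) : Option V → Option V → Prop
  | some x, some y => E x y ∧ x ∉ Tg ∧ x ≠ v ∧ y ≠ v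
  | some h, none => h ∈ Tg ∧ h ∉ W
  | none, _ => False

/-- sources -/
def SA {V : Type} (E : V → V → Prop) (v : V) : Set (Option V) :=
  {a | ∃ x, a = some x ∧ E v x ∧ x ≠ v}

/-- sinks -/
def SB {V : Type} (W : Finset V) : Set (Option V) := {b | b = none ∨ ∃ w ∈ W, b = some w}

section

variable {V : Type} {E : V → V → Prop} {v : V} {Tg W : Finset V}

/-- there is a walk from `x` to the sinks that avoids `S` -/
def Gd (E : V → V → Prop) (v : V) (Tg W : Finset V) (S : Finset (Option V)) (x : V) : Prop :=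
  ∃ p : List (Option V), p.IsChain (Ex E v Tg W) ∧ p.head? = some (some x) ∧
    (∀ b ∈ p.getLast?, b ∈ SB W) ∧ ∀ y ∈ p, y ∉ S

lemma gd_tg {S : Finset (Option V)} (hS : none ∉ S) {x : V} (hx : x ∈ Tg) (hxS : some x ∉ S) :
    Gd E v Tg W S x := by
  by_cases hw : x ∈ W
  · refine ⟨[some x], by simp, rfl, ?_, ?_⟩
    · intro b hb
      have : some x = b := by simpa using hb
      exact Or.inr ⟨x, hw, this.symm⟩
    · intro y hy
      rw [List.mem_singleton.mp hy]
      exact hxS
  · refine ⟨[some x, none], ?_, rfl, ?_, ?_⟩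
    · rw [List.isChain_cons_cons]
      exact ⟨⟨hx, hw⟩, by simp⟩
    · intro b hb
      have : none = b := by simpa using hb
      exact Or.inl this.symm
    · intro y hy
      rcases List.mem_cons.mp hy with rfl | hy
      · exact hxS
      · rw [List.mem_singleton.mp hy]
        exact hS

lemma gd_cons {S : Finset (Option V)} {x y : V} (hE : E x y) (hx : x ∉ Tg) (hxv : x ≠ v)
    (hyv : y ≠ v) (hxS : some x ∉ S) (hy : Gd E v Tg W S y) : Gd E v Tg W S x := by
  obtain ⟨p, h1, h2, h3, h4⟩ := hy
  refine ⟨some x :: p, ?_, rfl, ?_, ?_⟩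
  · rw [List.isChain_cons]
    refine ⟨?_, h1⟩
    intro z hz
    rw [h2] at hz
    have : some y = z := by simpa using hz
    rw [← this]
    exact ⟨hE, hx, hxv, hyv⟩
  · cases p with
    | nil => simp at h2
    | cons c p =>
      rw [List.getLast?_cons_cons]
      exact h3
  · intro z hz
    rcases List.mem_cons.mp hz with rfl | hz
    · exact hxS
    · exact h4 z hz

lemma walk {S : Finset (Option V)} {Y : Finset V} (hS : none ∉ S) (hv : v ∉ Tg)
    (hY : ∀ x, x ≠ v → x ∉ Y → some x ∉ S) :
    ∀ (m : List V) (u : V), List.IsChain E (u :: m) → (∀ x ∈ m, x ∉ Y) →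
      (∀ s ∈ (u :: m).getLast?, s ∈ Tg) → (u = v ∨ u ∉ Y) →
      (Gd E v Tg W S u ∧ u ≠ v) ∨ ∃ x, E v x ∧ x ≠ v ∧ Gd E v Tg W S x := by
  intro m
  induction m with
  | nil =>
    intro u _ _ h3 h4
    have hu : u ∈ Tg := h3 u (by simp)
    have huv : u ≠ v := by
      rintro rfl
      exact hv hu
    exact Or.inl ⟨gd_tg hS hu (hY u huv (h4.resolve_left huv)), huv⟩
  | cons w m ih =>
    intro u h1 h2 h3 h4
    obtain ⟨huw, h1'⟩ := List.isChain_cons_cons.mp h1
    rw [List.getLast?_cons_cons] at h3
    rcases ih w h1' (fun x hx => h2 x (List.mem_cons_of_mem _ hx)) h3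
      (Or.inr (h2 w List.mem_cons_self)) with h5 | h5
    · by_cases huv : u = v
      · subst huv
        exact Or.inr ⟨w, huw, h5.2, h5.1⟩
      · have huS := hY u huv (h4.resolve_left huv)
        left
        refine ⟨?_, huv⟩
        by_cases hu : u ∈ Tg
        · exact gd_tg hS hu huS
        · exact gd_cons huw hu huv h5.2 huS h5.1
    · exact Or.inr h5

/-- the separators are large -/
lemma separator [DecidableEq V] {k : ℕ} {l : Fin k → List V} {t : Fin k → V} (hv : v ∉ Tg)
    (hfan : IsFan E v Tg k l t)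
    (hsep : ∀ Y : Finset V, v ∉ Y → Y.card ≤ k →
      ∃ (q : List V) (s : V), Seg E v q s ∧ s ∈ Tg ∧ s ∉ Y ∧ ∀ x ∈ q, x ∉ Y)
    (hW : ∀ i, t i ∈ W) (S : Finset (Option V))
    (hS : ∀ p, IsAB (Ex E v Tg W) (SA E v) (SB W) p → ∃ x ∈ p, x ∈ S) : k + 1 ≤ S.card := by
  by_contra hcard
  have hcard' : S.card ≤ k := by omega
  by_cases hn : none ∈ S
  · -- the given paths
    obtain ⟨g1, g2, g3, g4, g5, g6⟩ := hfan
    have htl : ∀ i j, t i ∉ l j := fun i j h => (g6 j _ h).1 (g3 i)
    have hAB : ∀ i, IsAB (Ex E v Tg W) (SA E v) (SB W) ((l i ++ [t i]).map some) := by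
      intro i
      have hne : ∀ x ∈ l i ++ [t i], x ≠ v := by
        intro x hx
        rcases List.mem_append.mp hx with hx | hx
        · exact (g6 i x hx).2
        · rw [List.mem_singleton.mp hx]
          intro h
          exact hv (h ▸ g3 i)
      have hchain : List.IsChain E (v :: (l i ++ [t i])) := g1 i
      rw [List.isChain_cons] at hchain
      refine ⟨by simp, ?_, ?_, ?_, ?_⟩
      · apply List.Nodup.map (Option.some_injective V)
        rw [List.nodup_append]
        refine ⟨g2 i, by simp, ?_⟩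
        intro a ha b hb hab
        rw [List.mem_singleton.mp hb] at hab
        exact htl i i (hab ▸ ha)
      · rw [List.isChain_map]
        have h1 : ∀ (m : List V), List.IsChain E (m ++ [t i]) → (∀ x ∈ m, x ∈ l i) →
            List.IsChain (fun a b => Ex E v Tg W (some a) (some b)) (m ++ [t i]) := by
          intro m
          induction m with
          | nil =>
            intro _ _
            simp
          | cons a m ih =>
            intro h1 h2
            rw [List.cons_append, List.isChain_cons] at h1 ⊢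
            refine ⟨?_, ih h1.2 (fun x hx => h2 x (List.mem_cons_of_mem _ hx))⟩
            intro b hb
            have hb' : b ∈ l i ++ [t i] := by
              have := List.mem_of_mem_head? hb
              rcases List.mem_append.mp this with h | h
              · exact List.mem_append_left _ (h2 b (List.mem_cons_of_mem _ h))
              · exact List.mem_append_right _ h
            have ha := g6 i a (h2 a List.mem_cons_self)
            exact ⟨h1.1 b hb, ha.1, ha.2, hne b hb'⟩
        exact h1 (l i) hchain.2 (fun x hx => hx)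
      · intro a ha
        rw [List.head?_map, Option.mem_def, Option.map_eq_some_iff] at ha
        obtain ⟨x, hx, rfl⟩ := ha
        exact ⟨x, rfl, hchain.1 x hx, hne x (List.mem_of_mem_head? hx)⟩
      · intro b hb
        rw [List.getLast?_map, Option.mem_def, Option.map_eq_some_iff] at hb
        obtain ⟨x, hx, rfl⟩ := hb
        have : t i = x := by simpa using hx
        exact Or.inr ⟨t i, hW i, by rw [this]⟩
    choose x hx hxS using fun i => hS _ (hAB i)
    have hdis : ∀ i j, i ≠ j → x i ≠ x j := by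
      intro i j hij heq
      have h1 := hx i
      have h2 := hx j
      rw [← heq] at h2
      rw [List.mem_map] at h1 h2
      obtain ⟨y, hy, hyx⟩ := h1
      obtain ⟨z, hz, hzx⟩ := h2
      have hyz : y = z := Option.some_injective V (hyx.trans hzx.symm)
      subst hyz
      rcases List.mem_append.mp hy with hy | hy <;> rcases List.mem_append.mp hz with hz | hz
      · exact g5 i j hij hy hz
      · rw [List.mem_singleton.mp hz] at hy
        exact htl j i hy
      · rw [List.mem_singleton.mp hy] at hz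
        exact htl i j hz
      · rw [List.mem_singleton.mp hy] at hz
        exact hij (g4 (List.mem_singleton.mp hz))
    have hinj : Function.Injective x := by
      intro i j h
      by_contra hij
      exact hdis i j hij h
    have hsub : Finset.univ.image x ⊆ S.erase none := by
      intro y hy
      obtain ⟨i, _, rfl⟩ := Finset.mem_image.mp hy
      rw [Finset.mem_erase]
      refine ⟨?_, hxS i⟩
      intro h
      have h1 := hx i
      rw [h, List.mem_map] at h1
      obtain ⟨y, _, hy⟩ := h1
      exact absurd hy (by simp)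
    have h1 := Finset.card_le_card hsub
    rw [Finset.card_image_of_injective _ hinj, Finset.card_univ, Fintype.card_fin,
      Finset.card_erase_of_mem hn] at h1
    have h2 : 0 < S.card := Finset.card_pos.mpr ⟨none, hn⟩
    omega
  · -- a walk avoiding the separator
    obtain ⟨q, s, h1, h2, h3, h4⟩ := hsep ((Finset.eraseNone S).erase v) (by simp) (by
      refine (Finset.card_erase_le).trans (le_trans ?_ hcard')
      have := Finset.card_eraseNone_le S
      exact this)
    have hY : ∀ x, x ≠ v → x ∉ (Finset.eraseNone S).erase v → some x ∉ S := by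
      intro x hx h h'
      apply h
      rw [Finset.mem_erase, Finset.mem_eraseNone]
      exact ⟨hx, h'⟩
    rcases walk (W := W) hn hv hY (q ++ [s]) v h1 (by
      intro x hx
      rcases List.mem_append.mp hx with hx | hx
      · exact h4 x hx
      · rw [List.mem_singleton.mp hx]
        exact h3) (by
      intro b hb
      have : s = b := by
        rw [← List.cons_append, List.getLast?_append] at hb
        simpa using hb
      rw [← this]
      exact h2) (Or.inl rfl) with h5 | ⟨x, hx, hxv, p, hp1, hp2, hp3, hp4⟩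
    · exact h5.2 rfl
    · have hp0 : p ≠ [] := by
        rintro rfl
        simp at hp2
      obtain ⟨m, m1, m2, m3, m4, m5, m6⟩ := simplify p hp0 hp1
      obtain ⟨y, hy, hyS⟩ := hS m ⟨m1, m2, m3, by
        intro a ha
        rw [m4, hp2] at ha
        have : some x = a := by simpa using ha
        exact ⟨x, this.symm, hx, hxv⟩, by
        intro b hb
        rw [m5] at hb
        exact hp3 b hb⟩
      exact hp4 y (m6 y hy) hyS

/-- reading a path of the auxiliary digraph -/
lemma read : ∀ (p : List (Option V)) (x : V), p.IsChain (Ex E v Tg W) → p.head? = some (some x) →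
    (∀ b ∈ p.getLast?, b ∈ SB W) → (∀ w ∈ W, w ∈ Tg) →
    ∃ (l : List V) (s : V), (l ++ [s]).head? = some x ∧ List.IsChain E (l ++ [s]) ∧ s ∈ Tg ∧
      (∀ y ∈ l, y ∉ Tg ∧ y ≠ v) ∧ ((l ++ [s]).map some) <+: p ∧
      ∀ w, p.getLast? = some (some w) → s = w := by
  intro p
  induction p with
  | nil =>
    intro x _ h
    simp at h
  | cons a p ih =>
    intro x h1 h2 h3 hW
    have ha : a = some x := by simpa using h2
    subst ha
    cases p with
    | nil =>
      have h4 := h3 (some x) (by simp)
      have h5 : x ∈ W := by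
        rcases h4 with h4 | ⟨w, hw, h4⟩
        · exact absurd h4 (by simp)
        · rw [Option.some_injective V h4]
          exact hw
      refine ⟨[], x, rfl, by simp, hW x h5, by simp, by simp, ?_⟩
      intro w hw
      simpa using hw
    | cons b p =>
      obtain ⟨hab, h1'⟩ := List.isChain_cons_cons.mp h1
      cases b with
      | none =>
        have hp : p = [] := by
          cases p with
          | nil => rfl
          | cons c p =>
            obtain ⟨hbc, _⟩ := List.isChain_cons_cons.mp h1'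
            exact hbc.elim
        subst hp
        have hab' : x ∈ Tg ∧ x ∉ W := hab
        refine ⟨[], x, rfl, by simp, hab'.1, by simp, ?_, ?_⟩
        · exact ⟨[none], rfl⟩
        · intro w hw
          simp at hw
      | some y =>
        have hab' : E x y ∧ x ∉ Tg ∧ x ≠ v ∧ y ≠ v := hab
        rw [List.getLast?_cons_cons] at h3
        obtain ⟨l, s, g1, g2, g3, g4, g5, g6⟩ := ih y h1' rfl h3 hW
        refine ⟨x :: l, s, rfl, ?_, g3, ?_, ?_, ?_⟩
        · rw [List.cons_append, List.isChain_cons]
          refine ⟨?_, g2⟩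
          intro z hz
          rw [g1] at hz
          have : y = z := by simpa using hz
          rw [← this]
          exact hab'.1
        · intro z hz
          rcases List.mem_cons.mp hz with rfl | hz
          · exact ⟨hab'.2.1, hab'.2.2.1⟩
          · exact g4 z hz
        · rw [List.cons_append, List.map_cons]
          exact List.cons_prefix_cons.mpr ⟨rfl, g5⟩
        · intro w hw
          rw [List.getLast?_cons_cons] at hw
          exact g6 w hw

end

end FanItem

theorem fan : StmtMenger → StmtFan := by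
  intro menger V _ _ E v Tg k l t hv hfan hsep
  have hinj : Function.Injective t := hfan.2.2.2.1
  have hW : ∀ i, t i ∈ Finset.univ.image t := fun i => Finset.mem_image_of_mem _ (Finset.mem_univ i)
  have hWT : ∀ w ∈ Finset.univ.image t, w ∈ Tg := by
    intro w hw
    obtain ⟨i, _, rfl⟩ := Finset.mem_image.mp hw
    exact hfan.2.2.1 i
  obtain ⟨P, hP, hdis⟩ := menger (Option V) (FanItem.Ex E v Tg (Finset.univ.image t))
    (FanItem.SA E v) (FanItem.SB (Finset.univ.image t)) (k + 1)
    (fun S hS => FanItem.separator hv hfan hsep hW S hS)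
  -- last vertices
  have hlast : ∀ i, ∃ b, (P i).getLast? = some b ∧ b ∈ P i := by
    intro i
    refine ⟨(P i).getLast (hP i).1, List.getLast?_eq_some_getLast _, List.getLast_mem _⟩
  choose L hL hLmem using hlast
  have hLinj : Function.Injective L := by
    intro i j h
    by_contra hij
    exact hdis i j hij (hLmem i) (h ▸ hLmem j)
  have hLB : Finset.univ.image L ⊆ insert none ((Finset.univ.image t).image some) := by
    intro b hb
    obtain ⟨i, _, rfl⟩ := Finset.mem_image.mp hb
    rcases (hP i).2.2.2.2 (L i) (hL i) with h | ⟨w, hw, h⟩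
    · rw [h]
      exact Finset.mem_insert_self _ _
    · rw [h]
      exact Finset.mem_insert_of_mem (Finset.mem_image_of_mem _ hw)
  have hLeq : Finset.univ.image L = insert none ((Finset.univ.image t).image some) := by
    apply Finset.eq_of_subset_of_card_le hLB
    rw [Finset.card_image_of_injective _ hLinj, Finset.card_univ, Fintype.card_fin]
    refine (Finset.card_insert_le _ _).trans ?_
    rw [Finset.card_image_of_injective _ (Option.some_injective V),
      Finset.card_image_of_injective _ hinj, Finset.card_univ, Fintype.card_fin]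
  -- reading the paths
  have hread : ∀ i, ∃ (l' : List V) (s : V), Seg E v l' s ∧ s ∈ Tg ∧
      (∀ y ∈ l', y ∉ Tg ∧ y ≠ v) ∧ ((l' ++ [s]).map some) <+: P i ∧
      ∀ w, (P i).getLast? = some (some w) → s = w := by
    intro i
    obtain ⟨h0, _, h2, h3, h4⟩ := hP i
    obtain ⟨a, ha⟩ : ∃ a, (P i).head? = some a := ⟨(P i).head h0, List.head?_eq_some_head _⟩
    obtain ⟨x, rfl, hx1, hx2⟩ := h3 a ha
    obtain ⟨l', s, g1, g2, g3, g4, g5, g6⟩ := FanItem.read (P i) x h2 ha h4 hWT
    refine ⟨l', s, ?_, g3, g4, g5, g6⟩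
    show List.IsChain E (v :: (l' ++ [s]))
    rw [List.isChain_cons]
    refine ⟨?_, g2⟩
    intro y hy
    rw [g1] at hy
    have : x = y := by simpa using hy
    rw [← this]
    exact hx1
  choose l' t' f1 f2 f3 f4 f5 using hread
  have hmem : ∀ i, ∀ x ∈ l' i ++ [t' i], some x ∈ P i := fun i x hx =>
    (f4 i).subset (List.mem_map_of_mem hx)
  refine ⟨l', t', ⟨f1, ?_, f2, ?_, ?_, f3⟩, ?_⟩
  · intro i
    have h1 : ((l' i ++ [t' i]).map some).Nodup := (hP i).2.1.sublist (f4 i).sublist
    exact (h1.of_map some).of_append_left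
  · intro i j h
    by_contra hij
    exact hdis i j hij (hmem i (t' i) (by simp)) (h ▸ hmem j (t' j) (by simp))
  · intro i j hij x hx hx'
    exact hdis i j hij (hmem i x (List.mem_append_left _ hx)) (hmem j x (List.mem_append_left _ hx'))
  · intro i
    have h1 : some (t i) ∈ Finset.univ.image L := by
      rw [hLeq]
      exact Finset.mem_insert_of_mem (Finset.mem_image_of_mem _ (hW i))
    obtain ⟨j, _, hj⟩ := Finset.mem_image.mp h1
    exact ⟨j, f5 j (t i) (by rw [hL j, hj])⟩

end BiP4

end

section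

/-!
# MP_d76268_co, item L1: rooted bioriented P3
-/

namespace BiP4.ItemL1

variable {V : Type}

lemma seg_nil {E : V → V → Prop} {a b : V} : Seg E a [] b ↔ E a b := by simp [Seg]

lemma seg_cons {E : V → V → Prop} {a b c : V} {l : List V} :
    Seg E a (c :: l) b ↔ E a c ∧ Seg E c l b := by simp [Seg]

lemma seg_append {E : V → V → Prop} {a b c : V} {l l' : List V} :
    Seg E a (l ++ c :: l') b ↔ Seg E a l c ∧ Seg E c l' b := by
  induction l generalizing a with
  | nil => simp [seg_nil, seg_cons]
  | cons d l ih => simp only [List.cons_append, seg_cons, ih, and_assoc]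

lemma seg_mono {E E' : V → V → Prop} {a b : V} {l : List V}
    (h : ∀ x z, x ∈ a :: l → z ∈ l ++ [b] → E x z → E' x z) (hs : Seg E a l b) :
    Seg E' a l b := by
  induction l generalizing a with
  | nil =>
    rw [seg_nil] at hs ⊢
    exact h a b (by simp) (by simp) hs
  | cons d l ih =>
    rw [seg_cons] at hs ⊢
    refine ⟨h a d (by simp) (by simp) hs.1, ih (fun x z hx hz hE => ?_) hs.2⟩
    exact h x z (by simp at hx ⊢; tauto) (by simp at hz ⊢; tauto) hE

/-- a walk contains a simple walk -/
lemma seg_simple {E : V → V → Prop} {a b : V} {l : List V} (hs : Seg E a l b) :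
    ∃ l', Seg E a l' b ∧ (∀ x ∈ l', x ∈ l) ∧ l'.Nodup ∧ a ∉ l' ∧ b ∉ l' := by
  classical
  induction l generalizing a with
  | nil => exact ⟨[], hs, by simp, by simp, by simp, by simp⟩
  | cons c l ih =>
    rw [seg_cons] at hs
    obtain ⟨l', h1, h2, h3, h4, h5⟩ := ih hs.2
    by_cases hac : a = c
    · subst hac
      exact ⟨l', h1, fun x hx => List.mem_cons_of_mem _ (h2 x hx), h3, h4, h5⟩
    · by_cases hal : a ∈ l'
      · obtain ⟨l1, l2, rfl⟩ := List.append_of_mem hal
        rw [seg_append] at h1
        rw [List.nodup_append] at h3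
        have h6 := List.nodup_cons.mp h3.2.1
        refine ⟨l2, h1.2, fun x hx => ?_, h6.2, h6.1, fun hb => h5 (by simp [hb])⟩
        exact List.mem_cons_of_mem _ (h2 x (by simp [hx]))
      · by_cases hbc : b = c
        · subst hbc
          exact ⟨[], seg_nil.mpr hs.1, by simp, by simp, by simp, by simp⟩
        · refine ⟨c :: l', seg_cons.mpr ⟨hs.1, h1⟩, ?_, List.nodup_cons.mpr ⟨h4, h3⟩, ?_, ?_⟩
          · intro x hx
            rcases List.mem_cons.mp hx with h | h
            · simp [h]
            · exact List.mem_cons_of_mem _ (h2 x h)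
          · simp only [List.mem_cons, not_or]
            exact ⟨hac, hal⟩
          · simp only [List.mem_cons, not_or]
            exact ⟨hbc, h5⟩

/-- a walk from outside `T` to `T` inside `M`, cut at the first vertex of `T` -/
lemma first_hit {E : V → V → Prop} {M T : Set V} {a b : V} (h : ReachIn E M a b) (hb : b ∈ T)
    (ha : a ∉ T) : ∃ p t', Seg E a p t' ∧ t' ∈ T ∧ (∀ x ∈ p, x ∈ M ∧ x ∉ T) ∧ t' ∈ M := by
  induction h using Relation.ReflTransGen.head_induction_on with
  | refl => exact absurd hb ha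
  | head h1 h2 ih =>
    rename_i a c
    by_cases hc : c ∈ T
    · exact ⟨[], c, seg_nil.mpr h1.2.2, hc, by simp, h1.2.1⟩
    · obtain ⟨p, t', h3, h4, h5, h6⟩ := ih hc
      refine ⟨c :: p, t', seg_cons.mpr ⟨h1.2.2, h3⟩, h4, ?_, h6⟩
      intro x hx
      rcases List.mem_cons.mp hx with h | h
      · subst h
        exact ⟨h1.2.1, hc⟩
      · exact h5 x h

lemma reach_seg {E : V → V → Prop} {S : Set V} {a b : V} (h : ReachIn E S a b) (hab : a ≠ b) :
    ∃ l, Seg E a l b ∧ (∀ x ∈ l, x ∈ S) ∧ b ∈ S := by
  obtain ⟨p, t', h1, h2, h3, h4⟩ := first_hit (T := {b}) h rfl hab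
  rw [Set.mem_singleton_iff] at h2
  subst h2
  exact ⟨p, h1, fun x hx => (h3 x hx).1, h4⟩

lemma reach_mem {E : V → V → Prop} {S : Set V} {a b : V} (h : ReachIn E S a b) (ha : a ∈ S) :
    b ∈ S := by
  induction h with
  | refl => exact ha
  | tail _ h2 _ => exact h2.2.1

/-- vertices reachable inside `S` are reachable inside the set of reachable vertices -/
lemma reach_self {E : V → V → Prop} {S : Set V} {a b : V} (h : ReachIn E S a b) :
    ReachIn E {x | ReachIn E S a x} a b := by
  induction h with
  | refl => exact Relation.ReflTransGen.refl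
  | tail h1 h2 ih => exact ih.tail ⟨h1, h1.tail h2, h2.2.2⟩

lemma reach_mono {E E' : V → V → Prop} {S S' : Set V} {a b : V} (h : ReachIn E S a b)
    (hs : ∀ x ∈ S, x ∈ S') (hE : ∀ x ∈ S, ∀ y ∈ S, E x y → E' x y) : ReachIn E' S' a b :=
  Relation.ReflTransGen.rec (motive := fun b _ => ReachIn E' S' a b) Relation.ReflTransGen.refl
    (fun _ h2 ih => ih.tail ⟨hs _ h2.1, hs _ h2.2.1, hE _ h2.1 _ h2.2.1 h2.2.2⟩) h

/-- a set that is left only through `y` -/
lemma leave {E : V → V → Prop} {M S : Set V} {y x s : V} {l : List V}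
    (hM : ∀ x ∈ M, ∀ z ∈ S, E x z → z ∈ M ∨ z = y) (hx : x ∈ M) (hs : s ∉ M) (hsS : s ∈ S)
    (hl : ∀ z ∈ l, z ∈ S) (h : Seg E x l s) : y ∈ l ++ [s] := by
  induction l generalizing x with
  | nil =>
    rw [seg_nil] at h
    rcases hM x hx s hsS h with h1 | h1
    · exact absurd h1 hs
    · simp [h1]
  | cons c l ih =>
    rw [seg_cons] at h
    rcases hM x hx c (hl c (by simp)) h.1 with h1 | h1
    · have := ih h1 (fun z hz => hl z (by simp [hz])) h.2
      simp at this ⊢
      tauto
    · simp [h1]

/-- the conclusion of L1 -/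
def Concl (E : V → V → Prop) (S : Set V) (s : V) : Prop :=
  ∃ (b : V) (l1 l2 l3 : List V), (∀ x ∈ b :: (l1 ++ l2 ++ l3), x ∈ S) ∧
    Seg E s l1 b ∧ Seg E b l2 s ∧ Seg E b l3 b ∧ (s :: b :: (l1 ++ l2 ++ l3)).Nodup

/-- the hypotheses of L1 -/
def Hyp (E : V → V → Prop) (S : Set V) (s : V) : Prop :=
  (∀ x ∈ S, ¬ E x x) ∧ s ∈ S ∧ (∃ x ∈ S, x ≠ s) ∧ StrongOn E S ∧ (∀ x ∈ S, x ≠ s → Out2 E S x)

/-- case `y = s`: contraction of the arc `s → t` -/
lemma caseA {E : V → V → Prop} {S : Set V} {s t : V} (hirr : ∀ x ∈ S, ¬ E x x) (hs : s ∈ S)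
    (ht : t ∈ S) (hst : s ≠ t) (hE : E s t) (hone : ∀ z, E s z → z = t)
    (hsrc : ∀ x ∈ S, ReachIn E S s x) (hsink : ∀ x ∈ S, ReachIn E S x s)
    (hout : ∀ x ∈ S, x ≠ s → Out2 E S x)
    (hcyc : ∀ l, Seg E t l t → ¬ ∀ x ∈ l, x ∈ S ∧ x ≠ s)
    (ih : ∀ (E1 : V → V → Prop) (S1 : Set V) (t1 : V), S1 ⊆ S → s ∉ S1 → Hyp E1 S1 t1 →
      Concl E1 S1 t1) : Concl E S s := by
  -- t reaches everything in S minus s
  have hC' : ∀ x, ReachIn E S s x → x ≠ s → ReachIn E (S \ {s}) t x := by
    intro x hx
    induction hx with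
    | refl => intro h; exact absurd rfl h
    | tail h1 h2 ih1 =>
      rename_i z x
      intro hxs
      by_cases hz : z = s
      · subst hz
        rw [hone x h2.2.2]
        exact Relation.ReflTransGen.refl
      · exact (ih1 hz).tail ⟨⟨h2.1, hz⟩, ⟨h2.2.1, hxs⟩, h2.2.2⟩
  have hC : ∀ x ∈ S, x ≠ s → ¬ E x t := by
    intro x hx hxs hxt
    by_cases h : t = x
    · subst h
      exact hirr _ hx hxt
    · obtain ⟨l, h1, h2, h3⟩ := reach_seg (hC' x (hsrc x hx) hxs) h
      refine hcyc (l ++ [x]) ?_ ?_
      · rw [show l ++ [x] = l ++ x :: [] from rfl, seg_append]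
        exact ⟨h1, seg_nil.mpr hxt⟩
      · intro z hz
        rcases List.mem_append.mp hz with h4 | h4
        · exact h2 z h4
        · rw [List.mem_singleton] at h4
          rw [h4]
          exact h3
  let S1 : Set V := S \ {s}
  let E1 : V → V → Prop := fun x z => x ≠ z ∧ (E x z ∨ (E x s ∧ z = t))
  have hts1 : t ∈ S1 := ⟨ht, fun h => hst h.symm⟩
  have hS1 : ∀ x ∈ S1, x ∈ S ∧ x ≠ s := fun x hx => hx
  have hEE1 : ∀ x ∈ S1, ∀ z, E x z → E1 x z := by
    intro x hx z hz
    refine ⟨?_, Or.inl hz⟩
    rintro rfl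
    exact hirr x hx.1 hz
  have hsink1 : ∀ x, ReachIn E S x s → x ≠ s → ReachIn E1 S1 x t := by
    intro x hx
    induction hx using Relation.ReflTransGen.head_induction_on with
    | refl => intro h; exact absurd rfl h
    | head h1 h2 ih1 =>
      rename_i x z
      intro hxs
      by_cases hz : z = s
      · by_cases hxt : x = t
        · rw [hxt]
          exact Relation.ReflTransGen.refl
        · refine Relation.ReflTransGen.single ⟨⟨h1.1, hxs⟩, hts1, hxt, Or.inr ⟨?_, rfl⟩⟩
          rw [← hz]
          exact h1.2.2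
      · exact (ih1 hz).head ⟨⟨h1.1, hxs⟩, ⟨h1.2.1, hz⟩, hEE1 x ⟨h1.1, hxs⟩ z h1.2.2⟩
  have hH : Hyp E1 S1 t := by
    refine ⟨fun x _ h => h.1 rfl, hts1, ?_, ?_, ?_⟩
    · obtain ⟨y, hy, z, hz, hyz, h1, h2⟩ := hout t ht (fun h => hst h.symm)
      by_cases hys : y = s
      · refine ⟨z, ⟨hz, fun h => hyz (hys.trans (Set.mem_singleton_iff.mp h).symm)⟩, ?_⟩
        rintro rfl
        exact hirr _ ht h2
      · refine ⟨y, ⟨hy, hys⟩, ?_⟩
        rintro rfl
        exact hirr _ ht h1
    · intro a ha b hb
      have h1 : ReachIn E1 S1 a t := hsink1 a (hsink a ha.1) ha.2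
      have h2 : ReachIn E1 S1 t b := reach_mono (hC' b (hsrc b hb.1) hb.2) (fun x hx => hx)
        (fun x hx y _ hxy => hEE1 x hx y hxy)
      exact h1.trans h2
    · intro x hx hxt
      obtain ⟨y, hy, z, hz, hyz, h1, h2⟩ := hout x hx.1 hx.2
      have hnt : ∀ w, E x w → w ≠ t := by
        rintro w hw rfl
        exact hC x hx.1 hx.2 hw
      by_cases hys : y = s
      · have hzs : z ≠ s := fun h => hyz (hys.trans h.symm)
        refine ⟨t, hts1, z, ⟨hz, hzs⟩, fun h => hnt z h2 h.symm, ⟨hxt, Or.inr ⟨?_, rfl⟩⟩,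
          hEE1 x hx z h2⟩
        rw [← hys]
        exact h1
      · by_cases hzs : z = s
        · refine ⟨t, hts1, y, ⟨hy, hys⟩, fun h => hnt y h1 h.symm, ⟨hxt, Or.inr ⟨?_, rfl⟩⟩,
            hEE1 x hx y h1⟩
          rw [← hzs]
          exact h2
        · exact ⟨y, ⟨hy, hys⟩, z, ⟨hz, hzs⟩, hyz, hEE1 x hx y h1, hEE1 x hx z h2⟩
  obtain ⟨b, l1, l2, l3, hmem, q1, q2, q3, hnd⟩ := ih E1 S1 t (fun x hx => hx.1)
    (fun h => h.2 rfl) hH
  have hmem' : ∀ x ∈ b :: (l1 ++ l2 ++ l3), x ∈ S ∧ x ≠ s := hmem
  have hbt : ∀ x ∈ b :: (l1 ++ l2 ++ l3), x ≠ t := by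
    rintro x hx rfl
    exact (List.nodup_cons.mp hnd).1 hx
  have conv : ∀ x z, z ≠ t → E1 x z → E x z := by
    intro x z hz h
    rcases h.2 with h1 | h1
    · exact h1
    · exact absurd h1.2 hz
  refine ⟨b, t :: l1, l2, l3, ?_, ?_, ?_, ?_, ?_⟩
  · intro x hx
    by_cases hxt : x = t
    · rw [hxt]
      exact ht
    · refine (hmem' x ?_).1
      simp only [List.cons_append, List.mem_cons, List.mem_append] at hx ⊢
      tauto
  · rw [seg_cons]
    refine ⟨hE, seg_mono (fun x z _ hz h => conv x z (hbt z ?_) h) q1⟩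
    simp only [List.mem_cons, List.mem_append, List.not_mem_nil, or_false] at hz ⊢
    tauto
  · -- replace the last arc
    rcases List.eq_nil_or_concat l2 with h | ⟨l2', w, h⟩
    · subst h
      rw [seg_nil] at q2 ⊢
      rcases q2.2 with h1 | h1
      · exact absurd h1 (hC b (hmem' b (by simp)).1 (hmem' b (by simp)).2)
      · exact h1.1
    · rw [List.concat_eq_append] at h
      subst h
      rw [show l2' ++ [w] = l2' ++ w :: [] from rfl, seg_append, seg_nil] at q2 ⊢
      constructor
      · refine seg_mono (fun x z _ hz h => conv x z (hbt z ?_) h) q2.1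
        simp only [List.mem_cons, List.mem_append, List.not_mem_nil, or_false] at hz ⊢
        tauto
      · have hw := hmem' w (by simp)
        rcases q2.2.2 with h1 | h1
        · exact absurd h1 (hC w hw.1 hw.2)
        · exact h1.1
  · refine seg_mono (fun x z _ hz h => conv x z (hbt z ?_) h) q3
    simp only [List.mem_cons, List.mem_append, List.not_mem_nil, or_false] at hz ⊢
    tauto
  · rw [List.nodup_cons]
    constructor
    · intro h
      have : s = t ∨ s ∈ b :: (l1 ++ l2 ++ l3) := by
        simp only [List.cons_append, List.mem_cons, List.mem_append] at h ⊢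
        tauto
      rcases this with h1 | h1
      · exact hst h1
      · exact (hmem' s h1).2 rfl
    · have hp : (b :: (t :: l1 ++ l2 ++ l3)).Perm (t :: b :: (l1 ++ l2 ++ l3)) := by
        simp only [List.cons_append]
        exact List.Perm.swap _ _ _
      exact hp.nodup_iff.mpr hnd

/-- case `y` different from `s` and `t` -/
lemma caseB [Fintype V] (hterm : StmtTerminal) {E : V → V → Prop} {S : Set V} {s t y : V}
    (hirr : ∀ x ∈ S, ¬ E x x) (hs : s ∈ S)
    (ht : t ∈ S) (hst : s ≠ t) (hE : E s t)
    (hsink : ∀ x ∈ S, ReachIn E S x s)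
    (hout : ∀ x ∈ S, x ≠ s → Out2 E S x) (hyt : y ≠ t) (hys : y ≠ s)
    (hpath : ∀ l, Seg E t l s → (∀ x ∈ l, x ∈ S) → y ∈ l ++ [s])
    (hcyc : ∀ l, Seg E t l t → (∀ x ∈ l, x ∈ S ∧ x ≠ s) → y ∈ l)
    (ih : ∀ (E1 : V → V → Prop) (S1 : Set V) (t1 : V), S1 ⊆ S → s ∉ S1 → Hyp E1 S1 t1 →
      Concl E1 S1 t1) : Concl E S s := by
  -- y is in S
  have hyS : y ∈ S := by
    obtain ⟨l, h1, h2, h3⟩ := reach_seg (hsink t ht) hst.symm
    rcases List.mem_append.mp (hpath l h1 h2) with h4 | h4
    · exact h2 y h4
    · rw [List.mem_singleton] at h4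
      exact absurd h4 hys
  let M : Set V := {x | ReachIn E (S \ {y}) t x}
  have htSy : t ∈ S \ {y} := ⟨ht, fun h => hyt (Set.mem_singleton_iff.mp h).symm⟩
  have htM : t ∈ M := Relation.ReflTransGen.refl
  have hMS : ∀ x ∈ M, x ∈ S ∧ x ≠ y := fun x hx => reach_mem (S := S \ {y}) hx htSy
  have hyM : y ∉ M := fun h => (hMS y h).2 rfl
  have hMt : ∀ x ∈ M, ReachIn E M t x := fun x hx => reach_self hx
  have hsM : s ∉ M := by
    intro h
    obtain ⟨l, h1, h2, h3⟩ := reach_seg h hst.symm
    rcases List.mem_append.mp (hpath l h1 (fun x hx => (h2 x hx).1)) with h4 | h4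
    · exact (h2 y h4).2 rfl
    · rw [List.mem_singleton] at h4
      exact hys h4
  have hMcl : ∀ x ∈ M, ∀ z ∈ S, E x z → z ∈ M ∨ z = y := by
    intro x hx z hz hxz
    by_cases hzy : z = y
    · exact Or.inr hzy
    · exact Or.inl (Relation.ReflTransGen.tail hx ⟨hMS x hx, ⟨hz, hzy⟩, hxz⟩)
  have hnot : ∀ x ∈ M, ¬ E x t := by
    intro x hx hxt
    have htx : t ≠ x := by
      rintro rfl
      exact hirr _ ht hxt
    obtain ⟨l, h1, h2, h3⟩ := reach_seg (hMt x hx) htx
    have hlx : ∀ z ∈ l ++ [x], z ∈ M := by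
      intro z hz
      rcases List.mem_append.mp hz with h4 | h4
      · exact h2 z h4
      · rw [List.mem_singleton] at h4
        rw [h4]
        exact h3
    have h5 := hcyc (l ++ [x]) (by
      rw [show l ++ [x] = l ++ x :: [] from rfl, seg_append]
      exact ⟨h1, seg_nil.mpr hxt⟩) (fun z hz => ⟨(hMS z (hlx z hz)).1, by
        rintro rfl
        exact hsM (hlx _ hz)⟩)
    exact hyM (hlx y h5)
  have hne : (M \ {t}).Nonempty := by
    obtain ⟨u, hu, v, hv, huv, h1, h2⟩ := hout t ht (fun h => hst h.symm)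
    by_cases huy : u = y
    · have hvy : v ≠ y := fun h => huv (huy.trans h.symm)
      refine ⟨v, (hMcl t htM v hv h2).resolve_right hvy, ?_⟩
      rintro rfl
      exact hirr _ ht h2
    · refine ⟨u, (hMcl t htM u hu h1).resolve_right huy, ?_⟩
      rintro rfl
      exact hirr _ ht h1
  obtain ⟨T, hTM, ⟨x0, hx0⟩, hTs, hTc⟩ := hterm V E (M \ {t}) hne
  have hTM' : ∀ x ∈ T, x ∈ M ∧ x ≠ t := fun x hx => hTM hx
  have hTS : ∀ x ∈ T, x ∈ S := fun x hx => (hMS x (hTM' x hx).1).1
  have hsT : s ∉ T := fun h => hsM (hTM' s h).1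
  have hyT : y ∉ T := fun h => hyM (hTM' y h).1
  have hTcl : ∀ x ∈ T, ∀ z ∈ S, E x z → z ∈ T ∨ z = y := by
    intro x hx z hz hxz
    rcases hMcl x (hTM' x hx).1 z hz hxz with h | h
    · left
      refine hTc x hx z ⟨h, ?_⟩ hxz
      rintro rfl
      exact hnot x (hTM' x hx).1 hxz
    · exact Or.inr h
  -- path from t to T
  obtain ⟨p0, t', hp1, ht', hp2, -⟩ := first_hit (T := T) (hMt x0 (hTM' x0 hx0).1) hx0
    (fun h => (hTM' t h).2 rfl)
  obtain ⟨p, hp3, hp4, hp5, hp6, hp7⟩ := seg_simple hp1
  have hpM : ∀ x ∈ p, x ∈ M ∧ x ∉ T := fun x hx => hp2 x (hp4 x hx)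
  -- path from y to s
  obtain ⟨r0, hr1, hr2, -⟩ := reach_seg (hsink y hyS) hys
  obtain ⟨r, hr3, hr4, hr5, hr6, hr7⟩ := seg_simple hr1
  have hrS : ∀ x ∈ r, x ∈ S := fun x hx => hr2 x (hr4 x hx)
  have hrM : ∀ x ∈ r, x ∉ M := by
    intro x hx hxM
    obtain ⟨r1, r2, rfl⟩ := List.append_of_mem hx
    rw [seg_append] at hr3
    have := leave hMcl hxM hsM hs (fun z hz => hrS z (by simp [hz])) hr3.2
    rcases List.mem_append.mp this with h | h
    · exact hr6 (by simp [h])
    · rw [List.mem_singleton] at h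
      exact hys h
  -- some x in T has an arc to y
  obtain ⟨x1, hx1, hx1y⟩ : ∃ x ∈ T, E x y := by
    by_contra hcon
    push Not at hcon
    have : ∀ x, ReachIn E S x s → x ∈ T → s ∈ T := by
      intro x hx
      induction hx using Relation.ReflTransGen.head_induction_on with
      | refl => exact id
      | head h1 h2 ih1 =>
        intro hxT
        rcases hTcl _ hxT _ h1.2.1 h1.2.2 with h | h
        · exact ih1 h
        · rw [h] at h1
          exact absurd h1.2.2 (hcon _ hxT)
    exact hsT (this x0 (hsink x0 (hTS x0 hx0)) hx0)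
  let S3 : Set V := insert y T
  let E3 : V → V → Prop := fun x z => (x ∈ T ∧ (z ∈ T ∨ z = y) ∧ E x z) ∨ (x = y ∧ z = t')
  have hyS3 : y ∈ S3 := Set.mem_insert _ _
  have hTS3 : ∀ x ∈ T, x ∈ S3 := fun x hx => Set.mem_insert_of_mem _ hx
  have hH : Hyp E3 S3 y := by
    refine ⟨?_, hyS3, ⟨t', hTS3 t' ht', fun h => hyT (h ▸ ht')⟩, ?_, ?_⟩
    · rintro x hx (h | h)
      · exact hirr x (hTS x h.1) h.2.2
      · exact hyT (by rw [← h.1, h.2]; exact ht')
    · have hto : ∀ a ∈ S3, ReachIn E3 S3 a y := by
        intro a ha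
        rcases Set.mem_insert_iff.mp ha with h | h
        · rw [h]
          exact Relation.ReflTransGen.refl
        · have h1 : ReachIn E3 S3 a x1 := reach_mono (hTs a h x1 hx1) hTS3
            (fun u hu v hv huv => Or.inl ⟨hu, Or.inl hv, huv⟩)
          exact h1.tail ⟨hTS3 x1 hx1, hyS3, Or.inl ⟨hx1, Or.inr rfl, hx1y⟩⟩
      have hfrom : ∀ b ∈ S3, ReachIn E3 S3 y b := by
        intro b hb
        rcases Set.mem_insert_iff.mp hb with h | h
        · rw [h]
          exact Relation.ReflTransGen.refl
        · have h1 : ReachIn E3 S3 t' b := reach_mono (hTs t' ht' b h) hTS3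
            (fun u hu v hv huv => Or.inl ⟨hu, Or.inl hv, huv⟩)
          exact h1.head ⟨hyS3, hTS3 t' ht', Or.inr ⟨rfl, rfl⟩⟩
      intro a ha b hb
      exact (hto a ha).trans (hfrom b hb)
    · intro x hx hxy
      have hxT : x ∈ T := (Set.mem_insert_iff.mp hx).resolve_left hxy
      have hxs : x ≠ s := fun h => hsT (h ▸ hxT)
      obtain ⟨u, hu, v, hv, huv, h1, h2⟩ := hout x (hTS x hxT) hxs
      have mem3 : ∀ w, w ∈ T ∨ w = y → w ∈ S3 := by
        rintro w (h | h)
        · exact hTS3 w h
        · rw [h]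
          exact hyS3
      have hu' := hTcl x hxT u hu h1
      have hv' := hTcl x hxT v hv h2
      exact ⟨u, mem3 u hu', v, mem3 v hv', huv, Or.inl ⟨hxT, hu', h1⟩, Or.inl ⟨hxT, hv', h2⟩⟩
  obtain ⟨b, l1, l2, l3, hmem, q1, q2, q3, hnd⟩ := ih E3 S3 y (by
    intro x hx
    rcases Set.mem_insert_iff.mp hx with h | h
    · rw [h]
      exact hyS
    · exact hTS x h) (by
    intro h
    rcases Set.mem_insert_iff.mp h with h | h
    · exact hys h.symm
    · exact hsT h) hH
  have hT : ∀ x ∈ b :: (l1 ++ l2 ++ l3), x ∈ T := by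
    intro x hx
    rcases Set.mem_insert_iff.mp (hmem x hx) with h | h
    · rw [h] at hx
      exact absurd hx (List.nodup_cons.mp hnd).1
    · exact h
  have conv : ∀ x z, x ∈ T → E3 x z → E x z := by
    rintro x z hx (h | h)
    · exact h.2.2
    · exact absurd (h.1 ▸ hx) hyT
  have hb1 : b ∈ T := hT b (by simp)
  have hl1 : ∀ x ∈ l1, x ∈ T := fun x hx => hT x (by simp [hx])
  have hl2 : ∀ x ∈ l2, x ∈ T := fun x hx => hT x (by simp [hx])
  have hl3 : ∀ x ∈ l3, x ∈ T := fun x hx => hT x (by simp [hx])
  -- the first part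
  have hfirst : Seg E t (p ++ l1) b := by
    cases l1 with
    | nil =>
      rw [seg_nil] at q1
      have hbt' : b = t' := by
        rcases q1 with h | h
        · exact absurd h.1 hyT
        · exact h.2
      rw [List.append_nil, hbt']
      exact hp3
    | cons c l1 =>
      rw [seg_cons] at q1
      have hct' : c = t' := by
        rcases q1.1 with h | h
        · exact absurd h.1 hyT
        · exact h.2
      rw [seg_append]
      rw [hct'] at q1 ⊢
      refine ⟨hp3, seg_mono (fun x z hx _ h => conv x z ?_ h) q1.2⟩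
      rcases List.mem_cons.mp hx with h | h
      · rw [h]
        exact ht'
      · exact hl1 x (by simp [h])
  refine ⟨b, t :: (p ++ l1), l2 ++ y :: r, l3, ?_, ?_, ?_, ?_, ?_⟩
  · intro x hx
    have : x = t ∨ x ∈ p ∨ x = y ∨ x ∈ r ∨ x ∈ b :: (l1 ++ l2 ++ l3) := by
      simp only [List.cons_append, List.mem_cons, List.mem_append] at hx ⊢
      tauto
    rcases this with h | h | h | h | h
    · rw [h]; exact ht
    · exact (hMS x (hpM x h).1).1
    · rw [h]; exact hyS
    · exact hrS x h
    · exact hTS x (hT x h)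
  · rw [seg_cons]
    exact ⟨hE, hfirst⟩
  · rw [seg_append]
    refine ⟨seg_mono (fun x z hx _ h => conv x z ?_ h) q2, hr3⟩
    rcases List.mem_cons.mp hx with h | h
    · rw [h]; exact hb1
    · exact hl2 x h
  · refine seg_mono (fun x z hx _ h => conv x z ?_ h) q3
    rcases List.mem_cons.mp hx with h | h
    · rw [h]; exact hb1
    · exact hl3 x h
  · have hperm : (s :: b :: (t :: (p ++ l1) ++ (l2 ++ y :: r) ++ l3)).Perm
        (s :: t :: y :: ((p ++ r) ++ (b :: (l1 ++ l2 ++ l3)))) := by
      classical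
      rw [List.perm_iff_count]
      intro a
      simp only [List.count_cons, List.count_append, List.cons_append]
      omega
    rw [hperm.nodup_iff]
    have hTp : ∀ x ∈ b :: (l1 ++ l2 ++ l3), x ∈ M := fun x hx => (hTM' x (hT x hx)).1
    rw [List.nodup_cons, List.nodup_cons, List.nodup_cons]
    refine ⟨?_, ?_, ?_, ?_⟩
    · intro h
      rcases List.mem_cons.mp h with h | h
      · exact hst h
      rcases List.mem_cons.mp h with h | h
      · exact hys h.symm
      rcases List.mem_append.mp h with h | h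
      · rcases List.mem_append.mp h with h | h
        · exact hsM (hpM s h).1
        · exact hr7 h
      · exact hsM (hTp s h)
    · intro h
      rcases List.mem_cons.mp h with h | h
      · exact hyt h.symm
      rcases List.mem_append.mp h with h | h
      · rcases List.mem_append.mp h with h | h
        · exact hp6 h
        · exact hrM t h htM
      · exact (hTM' t (hT t h)).2 rfl
    · intro h
      rcases List.mem_append.mp h with h | h
      · rcases List.mem_append.mp h with h | h
        · exact hyM (hpM y h).1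
        · exact hr6 h
      · exact hyM (hTp y h)
    · rw [List.nodup_append]
      refine ⟨?_, (List.nodup_cons.mp hnd).2, ?_⟩
      · rw [List.nodup_append]
        refine ⟨hp5, hr5, ?_⟩
        rintro x hx z hz rfl
        exact hrM x hz (hpM x hx).1
      · rintro x hx z hz rfl
        rcases List.mem_append.mp hx with h | h
        · exact (hpM x h).2 (hT x hz)
        · exact hrM x h (hTp x hz)

lemma main [Fintype V] [DecidableEq V] (htwo : StmtTwoPath) (hterm : StmtTerminal) : ∀ (n : ℕ)
    (E : V → V → Prop) (S : Set V) (s : V), S.ncard ≤ n → Hyp E S s → Concl E S s := by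
  intro n
  induction n with
  | zero =>
    intro E S s hn hH
    exfalso
    have h1 : S.ncard = 0 := Nat.le_zero.mp hn
    rw [Set.ncard_eq_zero (Set.toFinite S)] at h1
    have := hH.2.1
    rw [h1] at this
    exact this
  | succ n ihn =>
    rintro E S s hn ⟨hirr, hs, ⟨x, hx, hxs⟩, hstr, hout⟩
    -- choice of t
    obtain ⟨t, ht, hst, hE⟩ : ∃ t ∈ S, s ≠ t ∧ E s t := by
      rcases Relation.ReflTransGen.cases_head (hstr s hs x hx) with h | ⟨t, h1, -⟩
      · exact absurd h.symm hxs
      · refine ⟨t, h1.2.1, ?_, h1.2.2⟩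
        rintro rfl
        exact hirr _ hs h1.2.2
    let E' : V → V → Prop := fun x y => E x y ∧ (x = s → y = t)
    let S' : Set V := {x | ReachIn E' S s x}
    have hS'S : ∀ x ∈ S', x ∈ S := fun x hx => reach_mem hx hs
    have hsS' : s ∈ S' := Relation.ReflTransGen.refl
    have hcl : ∀ x ∈ S', ∀ y ∈ S, E' x y → y ∈ S' := fun x hx y hy hxy =>
      Relation.ReflTransGen.tail hx ⟨hS'S x hx, hy, hxy⟩
    have hE'st : E' s t := ⟨hE, fun _ => rfl⟩
    have htS' : t ∈ S' := hcl s hsS' t ht hE'st
    have hirr' : ∀ x ∈ S', ¬ E' x x := fun x hx h => hirr x (hS'S x hx) h.1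
    have hout' : ∀ x ∈ S', x ≠ s → Out2 E' S' x := by
      intro x hx hxs
      obtain ⟨y, hy, z, hz, hyz, h1, h2⟩ := hout x (hS'S x hx) hxs
      have h1' : E' x y := ⟨h1, fun h => absurd h hxs⟩
      have h2' : E' x z := ⟨h2, fun h => absurd h hxs⟩
      exact ⟨y, hcl x hx y hy h1', z, hcl x hx z hz h2', hyz, h1', h2'⟩
    have hsrc : ∀ x ∈ S', ReachIn E' S' s x := fun x hx => reach_self hx
    have hsink0 : ∀ x, ReachIn E S x s → x ∈ S' → ReachIn E' S' x s := by
      intro x hx
      induction hx using Relation.ReflTransGen.head_induction_on with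
      | refl => intro _; exact Relation.ReflTransGen.refl
      | head h1 h2 ih1 =>
        rename_i x z
        intro hxS'
        by_cases hxs : x = s
        · rw [hxs]
          exact Relation.ReflTransGen.refl
        · have h1' : E' x z := ⟨h1.2.2, fun h => absurd h hxs⟩
          have hz := hcl x hxS' z h1.2.1 h1'
          exact (ih1 hz).head ⟨hxS', hz, h1'⟩
    have hsink : ∀ x ∈ S', ReachIn E' S' x s := fun x hx => hsink0 x (hstr x (hS'S x hx) s hs) hx
    have hback : Concl E' S' s → Concl E S s := by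
      rintro ⟨b, l1, l2, l3, h1, h2, h3, h4, h5⟩
      exact ⟨b, l1, l2, l3, fun x hx => hS'S x (h1 x hx), seg_mono (fun _ _ _ _ h => h.1) h2,
        seg_mono (fun _ _ _ _ h => h.1) h3, seg_mono (fun _ _ _ _ h => h.1) h4, h5⟩
    have ih : ∀ (E1 : V → V → Prop) (S1 : Set V) (t1 : V), S1 ⊆ S' → s ∉ S1 → Hyp E1 S1 t1 →
        Concl E1 S1 t1 := by
      intro E1 S1 t1 hsub hsn hH
      refine ihn E1 S1 t1 ?_ hH
      have : S1.ncard < S.ncard := Set.ncard_lt_ncard
        ⟨fun x hx => hS'S x (hsub hx), fun h => hsn (h hs)⟩ (Set.toFinite S)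
      omega
    apply hback
    rcases htwo V E' S' s t hirr' hsS' htS' hst (by
      obtain ⟨l, h1, h2, -⟩ := reach_seg (hsink t htS') hst.symm
      exact ⟨l, h1, h2⟩) with ⟨l2, l3, h1, h2, h3, h4⟩ | ⟨y, hyt, h1, h2⟩
    · refine ⟨t, [], l2, l3, ?_, seg_nil.mpr hE'st, h1, h2, ?_⟩
      · intro x hx
        rcases List.mem_cons.mp hx with h | h
        · rw [h]; exact htS'
        · exact h4 x (by simpa using h)
      · simpa using h3
    · by_cases hys : y = s
      · refine caseA hirr' hsS' htS' hst hE'st (fun z hz => hz.2 rfl) hsrc hsink hout' ?_ ih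
        intro l hl hcon
        have := h2 l hl hcon
        rw [hys] at this
        exact (hcon s this).2 rfl
      · exact caseB hterm hirr' hsS' htS' hst hE'st hsink hout' hyt hys h1 h2 ih

end BiP4.ItemL1

namespace BiP4

/-- Rooted bioriented `P3`. -/
theorem l1 : StmtTwoPath → StmtTerminal → StmtL1 := by
  intro htwo hterm V _ _ E S s hirr hs hx hstr hout
  exact ItemL1.main htwo hterm S.ncard E S s le_rfl ⟨hirr, hs, hx, hstr, hout⟩

end BiP4

end
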