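import Pool.Agent.Work.MP_d76268_co.Stmts
import Pool.Agent.Work.MP_d76268_co.Assembly

/-! Bundle of small proof modules (one section per former module). -/

section

/-!
# MP_d76268_co: no separation by two vertices
-/

namespace BiP4

namespace NoSepItem

lemma seg_nil {V : Type} {E : V → V → Prop} {a b : V} (h : E a b) : Seg E a [] b := by
  simpa [Seg] using h

lemma seg_snoc {V : Type} {E : V → V → Prop} {a b c : V} {l : List V} (h : Seg E a l b)
    (h' : E b c) : Seg E a (l ++ [b]) c := by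
  unfold Seg at h ⊢
  have h1 : a :: (l ++ [b] ++ [c]) = (a :: (l ++ [b])) ++ [c] := by simp
  rw [h1, List.isChain_append]
  refine ⟨h, List.isChain_singleton c, ?_⟩
  intro x hx y hy
  have h2 : (a :: (l ++ [b])).getLast? = some b := by
    rw [← List.cons_append, List.getLast?_concat]
  rw [h2] at hx
  simp only [Option.mem_def, Option.some.injEq] at hx
  simp only [List.head?_cons, Option.mem_def, Option.some.injEq] at hy
  subst hx
  subst hy
  exact h'

lemma reach_seg {V : Type} {E : V → V → Prop} {S : Set V} {a b : V} (h : ReachIn E S a b) :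
    b = a ∨ ∃ q : List V, Seg E a q b ∧ (∀ x ∈ q, x ∈ S) ∧ b ∈ S := by
  induction h with
  | refl => exact Or.inl rfl
  | tail _ hbc ih =>
    right
    obtain ⟨hb, hc, hE⟩ := hbc
    rcases ih with rfl | ⟨q, hq, hqS, -⟩
    · exact ⟨[], seg_nil hE, by simp, hc⟩
    · refine ⟨q ++ [_], seg_snoc hq hE, ?_, hc⟩
      intro x hx
      rcases List.mem_append.mp hx with hx | hx
      · exact hqS x hx
      · rw [List.mem_singleton.mp hx]
        exact hb

end NoSepItem

open NoSepItem in
theorem noSep : StmtL2 → StmtTerminal → StmtNoSep := by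
  intro hL2 hT V _ _ E hloop hstr hout hemb v Tg Y a l hcyc htg hv hvY hY
  by_contra hcon
  apply hemb
  set R : Set V := {x | ReachIn E {y | y ∉ Y} v x} with hR
  have hvR : v ∈ R := Relation.ReflTransGen.refl
  have hRY : ∀ x ∈ R, x ∉ Y := by
    intro x hx
    rcases reach_seg hx with h | ⟨q, -, -, h⟩
    · rw [h]
      exact hvY
    · exact h
  have hRT : ∀ x ∈ R, x ∉ Tg := by
    intro x hx hxT
    rcases reach_seg hx with h | ⟨q, hq, hqS, h⟩
    · rw [h] at hxT
      exact hv hxT
    · exact hcon ⟨q, x, hq, hxT, h, hqS⟩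
  have hRstep : ∀ x ∈ R, ∀ y, E x y → y ∉ Y → y ∈ R := by
    intro x hx y hxy hy
    exact Relation.ReflTransGen.tail hx ⟨hRY x hx, hy, hxy⟩
  obtain ⟨Q, hQR, hQne, hQs, hQc⟩ := hT V E R ⟨v, hvR⟩
  refine hL2 V E hloop hstr ?_ Q hQne hQs ?_ a l hcyc ?_
  · intro x
    obtain ⟨F, hF, hFE⟩ := hout x
    obtain ⟨y, hy, z, hz, hyz⟩ := Finset.one_lt_card.mp (show 1 < F.card by omega)
    exact ⟨y, Set.mem_univ _, z, Set.mem_univ _, hyz, hFE y hy, hFE z hz⟩
  · intro x hx
    obtain ⟨F, hF, hFE⟩ := hout x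
    have h1 : 1 < (F \ Y).card := by
      have := Finset.le_card_sdiff Y F
      omega
    obtain ⟨y, hy, z, hz, hyz⟩ := Finset.one_lt_card.mp h1
    rw [Finset.mem_sdiff] at hy hz
    have hxR := hQR hx
    exact ⟨y, hQc x hx y (hRstep x hxR y (hFE y hy.1) hy.2) (hFE y hy.1), z,
      hQc x hx z (hRstep x hxR z (hFE z hz.1) hz.2) (hFE z hz.1), hyz, hFE y hy.1, hFE z hz.1⟩
  · intro x hx hxQ
    exact hRT x (hQR hxQ) (htg x hx)

end BiP4

end

section

/-!
# MP_d76268_co: restriction along a certified map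
-/

namespace BiP4

namespace Restrict

theorem nodupB_iff (l : List ℕ) : nodupB l = true ↔ l.Nodup := by
  induction l with
  | nil => simp [nodupB]
  | cons a l ih =>
    simp only [nodupB, List.nodup_cons, Bool.and_eq_true, ih, Bool.not_eq_true',
      List.elem_eq_mem, decide_eq_false_iff_not]

theorem sum_map_getD {α : Type} (d : α) (g : α → ℕ) (L : List α) :
    (L.map g).sum = ∑ k ∈ Finset.range L.length, g (L.getD k d) := by
  induction L with
  | nil => simp
  | cons a L ih =>
    rw [List.map_cons, List.sum_cons, List.length_cons, Finset.sum_range_succ', ih]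
    simp [add_comm]

theorem sum_filter_getD {α : Type} (d : α) (p : α → Bool) (f : α → ℕ) (L : List α) :
    ((L.filter p).map f).sum =
      ∑ k ∈ (Finset.range L.length).filter (fun k => p (L.getD k d) = true), f (L.getD k d) := by
  have h1 : ((L.filter p).map f).sum = (L.map (fun x => if p x = true then f x else 0)).sum := by
    induction L with
    | nil => simp
    | cons a L ih =>
      by_cases h : p a = true
      · rw [List.filter_cons_of_pos h]
        simp [h, ih]
      · rw [List.filter_cons_of_neg h]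
        simp [h, ih]
  rw [h1, sum_map_getD d, Finset.sum_filter]

/-- the list of image arcs of the arc `k` -/
def im (c : PMap) (k : ℕ) : List ℕ := c.am.getD k []

theorem zip_getD (Q : Pat) (c : PMap) (h : c.am.length = Q.m) (k : ℕ) (hk : k < Q.m) :
    (zipped Q c).getD k ((0, 0, 0), []) = (Q.arcs.getD k (0, 0, 0), im c k) := by
  have h1 : k < Q.arcs.length := hk
  have h2 : k < c.am.length := by rw [h]; exact hk
  have h3 : k < (zipped Q c).length := by
    simp [zipped, h1, h2]
  rw [im, List.getD_eq_getElem _ _ h3, List.getD_eq_getElem _ _ h1, List.getD_eq_getElem _ _ h2]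
  simp [zipped]

theorem zip_mem (Q : Pat) (c : PMap) (h : c.am.length = Q.m) (k : ℕ) (hk : k < Q.m) :
    ((Q.src k, Q.dst k, Q.lab k), im c k) ∈ zipped Q c := by
  have h3 : k < (zipped Q c).length := by
    have h2 : k < c.am.length := by rw [h]; exact hk
    have h1 : k < Q.arcs.length := hk
    simp [zipped, h1, h2]
  have h4 := zip_getD Q c h k hk
  rw [List.getD_eq_getElem _ _ h3] at h4
  have h5 : ((Q.src k, Q.dst k, Q.lab k), im c k) = (Q.arcs.getD k (0, 0, 0), im c k) := rfl
  rw [h5, ← h4]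
  exact List.getElem_mem _

theorem cntQ_eq (Q : Pat) (c : PMap) (h : c.am.length = Q.m) (l : ℕ) :
    cntQ Q c l = ∑ k ∈ (Finset.range Q.m).filter (fun k => Q.lab k = l), (im c k).length := by
  unfold cntQ
  rw [sum_filter_getD ((0, 0, 0), [])]
  have hl : (zipped Q c).length = Q.m := by
    have : Q.arcs.length = Q.m := rfl
    simp [zipped, h, this]
  rw [hl]
  refine Finset.sum_congr ?_ ?_
  · refine Finset.filter_congr fun k hk => ?_
    rw [zip_getD Q c h k (Finset.mem_range.1 hk)]
    simp [Pat.lab]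
  · intro k hk
    rw [zip_getD Q c h k (Finset.mem_range.1 (Finset.mem_filter.1 hk).1)]

theorem cntP_eq (P : Pat) (l : ℕ) :
    cntP P l = ((Finset.range P.m).filter (fun k => P.lab k = l)).card := by
  have h := sum_filter_getD (0, 0, 0) (fun x : ℕ × ℕ × ℕ => x.2.2 == l) (fun _ => 1) P.arcs
  have h2 : cntP P l = ((P.arcs.filter (fun x => x.2.2 == l)).map (fun _ => 1)).sum := by
    unfold cntP
    simp
  rw [h2, h, Finset.card_eq_sum_ones]
  refine Finset.sum_congr ?_ fun _ _ => rfl
  refine Finset.filter_congr fun k _ => ?_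
  simp [Pat.lab]

/-- unpacked certificate -/
structure Ok (Q P : Pat) (lt : ℕ) (c : PMap) : Prop where
  lvm : c.vm.length = Q.n
  lam : c.am.length = Q.m
  vmlt : ∀ i < Q.n, c.vm.getD i 0 < P.n
  walk : ∀ k < Q.m, walkB P (c.vm.getD (Q.src k) 0) (c.vm.getD (Q.dst k) 0) (im c k) = true
  inlt : ∀ k < Q.m, ∀ y ∈ inner P (im c k), y < P.n
  ndv : c.vm.Nodup
  ndin : ∀ k < Q.m, (inner P (im c k)).Nodup
  ndvi : ∀ k < Q.m, ∀ i < Q.n, c.vm.getD i 0 ∉ inner P (im c k)
  disin : ∀ k < Q.m, ∀ k' < Q.m, k ≠ k' → List.Disjoint (inner P (im c k)) (inner P (im c k'))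
  ndam : ∀ k < Q.m, (im c k).Nodup
  disam : ∀ k < Q.m, ∀ k' < Q.m, k ≠ k' → List.Disjoint (im c k) (im c k')
  labs : ∀ k < Q.m, Q.lab k ≠ 0 → ∀ j ∈ im c k, P.lab j = Q.lab k
  cnteq : ∀ k < Q.m, Q.lab k ≠ 0 → Q.lab k ≠ lt → cntQ Q c (Q.lab k) = cntP P (Q.lab k)
  cntlt : lt ≠ 0 → cntQ Q c lt < cntP P lt
  ends : ∀ k < Q.m, Q.src k < Q.n ∧ Q.dst k < Q.n

theorem getD_mem {α : Type} (L : List α) (d : α) (k : ℕ) (hk : k < L.length) :
    L.getD k d ∈ L := by
  rw [List.getD_eq_getElem _ _ hk]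
  exact List.getElem_mem _

theorem nodup_flatten {L : List (List ℕ)} (h : L.flatten.Nodup) :
    (∀ k < L.length, (L.getD k []).Nodup) ∧
    ∀ k < L.length, ∀ k' < L.length, k ≠ k' → List.Disjoint (L.getD k []) (L.getD k' []) := by
  rw [List.nodup_flatten] at h
  refine ⟨fun k hk => h.1 _ (getD_mem L [] k hk), ?_⟩
  intro k hk k' hk' hne
  rw [List.getD_eq_getElem _ _ hk, List.getD_eq_getElem _ _ hk']
  rcases lt_or_gt_of_ne hne with h1 | h1
  · exact (List.pairwise_iff_getElem.1 h.2) k k' hk hk' h1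
  · exact ((List.pairwise_iff_getElem.1 h.2) k' k hk' hk h1).symm

theorem okMap_ok {Q P : Pat} {lt : ℕ} {c : PMap} (h : okMap Q P lt c = true) : Ok Q P lt c := by
  unfold okMap at h
  simp only [Bool.and_eq_true, beq_iff_eq, List.all_eq_true, decide_eq_true_eq, Bool.or_eq_true,
    List.any_eq_true, nodupB_iff] at h
  obtain ⟨⟨⟨⟨⟨⟨⟨⟨⟨⟨h1, h2⟩, h3⟩, h4⟩, h5⟩, h6⟩, h7⟩, h8⟩, h9⟩, h10⟩, h11⟩ := h
  rw [List.nodup_append] at h6
  obtain ⟨h6a, h6b, h6c⟩ := h6
  obtain ⟨f1, f2⟩ := nodup_flatten h6b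
  obtain ⟨g1, g2⟩ := nodup_flatten h7
  have hin : ∀ k < Q.m, (c.am.map (inner P)).getD k [] = inner P (im c k) := by
    intro k hk
    have hk2 : k < c.am.length := by rw [h2]; exact hk
    have hk3 : k < (c.am.map (inner P)).length := by rw [List.length_map]; exact hk2
    rw [List.getD_eq_getElem _ _ hk3, List.getElem_map, im, List.getD_eq_getElem _ _ hk2]
  have hlen : ∀ k < Q.m, k < (c.am.map (inner P)).length := by
    intro k hk
    rw [List.length_map, h2]
    exact hk
  have hlen2 : ∀ k < Q.m, k < c.am.length := by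
    intro k hk
    rw [h2]
    exact hk
  have harc : ∀ k < Q.m, (Q.src k, Q.dst k, Q.lab k) ∈ Q.arcs := by
    intro k hk
    exact getD_mem Q.arcs (0, 0, 0) k hk
  refine ⟨h1, h2, ?_, ?_, ?_, h6a, ?_, ?_, ?_, ?_, ?_, ?_, ?_, ?_, ?_⟩
  · intro i hi
    exact h3 _ (getD_mem c.vm 0 i (by rw [h1]; exact hi))
  · intro k hk
    exact h4 _ (zip_mem Q c h2 k hk)
  · intro k hk y hy
    exact h5 _ (zip_mem Q c h2 k hk) y hy
  · intro k hk
    rw [← hin k hk]
    exact f1 k (hlen k hk)
  · intro k hk i hi hmem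
    refine h6c _ (getD_mem c.vm 0 i (by rw [h1]; exact hi)) _ ?_ rfl
    rw [List.mem_flatten]
    refine ⟨inner P (im c k), ?_, hmem⟩
    rw [← hin k hk]
    exact getD_mem _ _ _ (hlen k hk)
  · intro k hk k' hk' hne
    rw [← hin k hk, ← hin k' hk']
    exact f2 k (hlen k hk) k' (hlen k' hk') hne
  · intro k hk
    exact g1 k (hlen2 k hk)
  · intro k hk k' hk' hne
    exact g2 k (hlen2 k hk) k' (hlen2 k' hk') hne
  · intro k hk hl j hj
    rcases h8 _ (zip_mem Q c h2 k hk) with h | h
    · exact absurd h hl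
    · exact h j hj
  · intro k hk hl hlt
    rcases h9 _ (harc k hk) with h | h
    · exact absurd h hl
    · rw [if_neg hlt] at h
      simpa using h
  · intro hlt
    rcases h10 with h | ⟨a, ha, hal⟩
    · exact absurd h hlt
    · rcases h9 a ha with h | h
      · rw [hal] at h
        exact absurd h hlt
      · rw [if_pos hal, hal] at h
        simpa using h
  · intro k hk
    exact h11 _ (harc k hk)

theorem im_ne_nil {Q P : Pat} {lt : ℕ} {c : PMap} (o : Ok Q P lt c) {k : ℕ} (hk : k < Q.m) :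
    im c k ≠ [] := by
  intro h
  have := o.walk k hk
  rw [h] at this
  simp [walkB] at this

/-- the restricted embedding -/
def rest (hw : StmtWalk) {V : Type} {E : V → V → Prop} {Q P : Pat} {lt : ℕ} {c : PMap}
    (o : Ok Q P lt c) (hP : P.Wf) (φ : Emb E P) : Emb E Q where
  β := fun i => φ.β (c.vm.getD i 0)
  π := fun k => catP φ (im c k)
  inj := by
    intro i hi j hj h
    have h1 := φ.inj _ (o.vmlt i hi) _ (o.vmlt j hj) h
    have hi' : i < c.vm.length := by rw [o.lvm]; exact hi
    have hj' : j < c.vm.length := by rw [o.lvm]; exact hj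
    rw [List.getD_eq_getElem _ _ hi', List.getD_eq_getElem _ _ hj'] at h1
    exact (List.Nodup.getElem_inj_iff o.ndv).1 h1
  seg := fun k hk => (hw V E P φ _ _ _ (o.walk k hk)).1
  nodup := fun k hk => (hw V E P φ _ _ _ (o.walk k hk)).2.2.2.1 hP (o.ndam k hk) (o.ndin k hk)
  disj := by
    intro k hk k' hk' hne x hx hx'
    obtain ⟨-, w2, -, -, w5, -, -⟩ := hw V E P φ _ _ _ (o.walk k hk)
    obtain ⟨-, v2, -, -, v5, -, -⟩ := hw V E P φ _ _ _ (o.walk k' hk')
    rcases w2 x hx with ⟨j, hj, hxj⟩ | ⟨y, hy, hxy⟩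
    · rcases v2 x hx' with ⟨j', hj', hxj'⟩ | ⟨y', hy', hxy'⟩
      · have hjj : j ≠ j' := by
          rintro rfl
          exact o.disam k hk k' hk' hne hj hj'
        exact φ.disj j (w5 j hj) j' (v5 j' hj') hjj hxj hxj'
      · rw [hxy'] at hxj
        exact φ.avoid j (w5 j hj) y' (o.inlt k' hk' y' hy') hxj
    · rcases v2 x hx' with ⟨j', hj', hxj'⟩ | ⟨y', hy', hxy'⟩
      · rw [hxy] at hxj'
        exact φ.avoid j' (v5 j' hj') y (o.inlt k hk y hy) hxj'
      · rw [hxy] at hxy'
        have h1 := φ.inj y (o.inlt k hk y hy) y' (o.inlt k' hk' y' hy') hxy'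
        subst h1
        exact o.disin k hk k' hk' hne hy hy'
  avoid := by
    intro k hk i hi hx
    obtain ⟨-, w2, -, -, w5, -, -⟩ := hw V E P φ _ _ _ (o.walk k hk)
    rcases w2 _ hx with ⟨j, hj, hxj⟩ | ⟨y, hy, hxy⟩
    · exact φ.avoid j (w5 j hj) _ (o.vmlt i hi) hxj
    · have h1 := φ.inj _ (o.vmlt i hi) y (o.inlt k hk y hy) hxy
      rw [← h1] at hy
      exact o.ndvi k hk i hi hy
  npar := by
    intro k hk k' hk' hne hs hd
    by_contra hcon
    push Not at hcon
    obtain ⟨e1, e2⟩ := hcon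
    have hone : ∀ k < Q.m, catP φ (im c k) = [] → ∃ j, im c k = [j] ∧ φ.π j = [] := by
      intro k hk he
      cases h : im c k with
      | nil => exact absurd h (im_ne_nil o hk)
      | cons j l =>
        cases l with
        | nil =>
          rw [h] at he
          exact ⟨j, rfl, he⟩
        | cons j' l =>
          rw [h] at he
          simp [catP] at he
    obtain ⟨j, hj, hjp⟩ := hone k hk e1
    obtain ⟨j', hj', hjp'⟩ := hone k' hk' e2
    have w := o.walk k hk
    have w' := o.walk k' hk'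
    rw [hj] at w
    rw [hj'] at w'
    simp only [walkB, Bool.and_eq_true, decide_eq_true_eq, beq_iff_eq] at w w'
    have hjj : j ≠ j' := by
      rintro rfl
      refine o.disam k hk k' hk' hne (a := j) ?_ ?_
      · rw [hj]
        simp
      · rw [hj']
        simp
    rcases φ.npar j w.1.1 j' w'.1.1 hjj (by rw [w.1.2, w'.1.2, hs]) (by rw [w.2, w'.2, hd])
      with h | h
    · exact h hjp
    · exact h hjp'

/-- all image arcs of the arcs with label `l` -/
def J (Q : Pat) (c : PMap) (l : ℕ) : Finset ℕ :=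
  ((Finset.range Q.m).filter (fun k => Q.lab k = l)).biUnion fun k => (im c k).toFinset

theorem sum_J {Q P : Pat} {lt : ℕ} {c : PMap} (o : Ok Q P lt c) (l : ℕ) (g : ℕ → ℕ) :
    ∑ j ∈ J Q c l, g j =
      ∑ k ∈ (Finset.range Q.m).filter (fun k => Q.lab k = l), ((im c k).map g).sum := by
  unfold J
  rw [Finset.sum_biUnion]
  · refine Finset.sum_congr rfl fun k hk => ?_
    exact List.sum_toFinset g (o.ndam k (Finset.mem_range.1 (Finset.mem_filter.1 hk).1))
  · intro k hk k' hk' hne
    have h1 := Finset.mem_range.1 (Finset.mem_filter.1 (Finset.mem_coe.1 hk)).1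
    have h2 := Finset.mem_range.1 (Finset.mem_filter.1 (Finset.mem_coe.1 hk')).1
    have := o.disam k h1 k' h2 hne
    rw [Function.onFun, Finset.disjoint_left]
    intro a ha ha'
    exact this (List.mem_toFinset.1 ha) (List.mem_toFinset.1 ha')

theorem card_J {Q P : Pat} {lt : ℕ} {c : PMap} (o : Ok Q P lt c) (l : ℕ) :
    (J Q c l).card = cntQ Q c l := by
  rw [cntQ_eq Q c o.lam, Finset.card_eq_sum_ones, sum_J o]
  refine Finset.sum_congr rfl fun k _ => ?_
  simp

theorem len_rest (hw : StmtWalk) {V : Type} {E : V → V → Prop} {Q P : Pat} {lt : ℕ} {c : PMap}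
    (o : Ok Q P lt c) (hP : P.Wf) (φ : Emb E P) (l : ℕ) :
    (rest hw o hP φ).len l = ∑ j ∈ J Q c l, ((φ.π j).length + 1) := by
  rw [sum_J o]
  unfold Emb.len
  refine Finset.sum_congr rfl fun k hk => ?_
  have hk' := Finset.mem_range.1 (Finset.mem_filter.1 hk).1
  exact (hw V E P φ _ _ _ (o.walk k hk')).2.2.1

theorem J_sub (hw : StmtWalk) {V : Type} {E : V → V → Prop} {Q P : Pat} {lt : ℕ} {c : PMap}
    (o : Ok Q P lt c) (φ : Emb E P) (l : ℕ) (hl : l ≠ 0) :
    J Q c l ⊆ (Finset.range P.m).filter (fun k => P.lab k = l) := by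
  intro j hj
  unfold J at hj
  rw [Finset.mem_biUnion] at hj
  obtain ⟨k, hk, hjk⟩ := hj
  rw [Finset.mem_filter, Finset.mem_range] at hk
  rw [List.mem_toFinset] at hjk
  rw [Finset.mem_filter, Finset.mem_range]
  refine ⟨(hw V E P φ _ _ _ (o.walk k hk.1)).2.2.2.2.1 j hjk, ?_⟩
  rw [o.labs k hk.1 (by rw [hk.2]; exact hl) j hjk, hk.2]

end Restrict

open Restrict in
/-- Restriction of an embedding along a certified topological embedding of patterns. -/
theorem restrict : StmtWalk → StmtRestrict := by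
  intro hw V E Q P lt c hc hP φ
  have o := okMap_ok hc
  refine ⟨rest hw o hP φ, ?_, ?_⟩
  · intro k hk hl hlt
    rw [len_rest hw o hP φ]
    have hsub := J_sub hw o φ (Q.lab k) hl
    have heq := Finset.eq_of_subset_of_card_le hsub (by
      rw [card_J o, o.cnteq k hk hl hlt, cntP_eq])
    rw [heq]
    rfl
  · intro hlt
    rw [len_rest hw o hP φ]
    have hsub := J_sub hw o φ lt hlt
    have hcard : (J Q c lt).card < ((Finset.range P.m).filter (fun k => P.lab k = lt)).card := by
      rw [card_J o, ← cntP_eq]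
      exact o.cntlt hlt
    obtain ⟨j, hj, hj'⟩ := Finset.exists_mem_notMem_of_card_lt_card hcard
    exact Finset.sum_lt_sum_of_subset hsub hj hj' (Nat.succ_pos _) fun _ _ _ => Nat.zero_le _

end BiP4

end

section

/-!
# MP_d76268_co: soundness of the certificates
-/

namespace BiP4

theorem Sound_lt {P : Pat} {k : ℕ} (hk : k < P.m) :
    P.arcs.getD k (0, 0, 0) = P.arcs[k]'hk := by
  rw [List.getD_eq_getElem?_getD, List.getElem?_eq_getElem hk]
  rfl

theorem Sound_okMap_len {Q P : Pat} {lt : ℕ} {c : PMap} (h : okMap Q P lt c = true) :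
    c.am.length = Q.m := by
  simp only [okMap, Bool.and_eq_true, beq_iff_eq] at h
  exact h.1.1.1.1.1.1.1.1.1.2

/-- Labels of the arcs of `Q` occur in `P`. -/
theorem Sound_occ {Q P : Pat} {lt : ℕ} {c : PMap} (h : okMap Q P lt c = true) {k : ℕ}
    (hk : k < Q.m) (hl : Q.lab k ≠ 0) : ∃ k' < P.m, P.lab k' = Q.lab k := by
  have hlen := Sound_okMap_len h
  simp only [okMap, Bool.and_eq_true] at h
  obtain ⟨⟨⟨⟨⟨⟨⟨⟨⟨⟨-, -⟩, -⟩, hw⟩, -⟩, -⟩, -⟩, hlab⟩, -⟩, -⟩, -⟩ := h
  have hk2 : k < c.am.length := by rw [hlen]; exact hk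
  have hmem : (Q.arcs[k]'hk, c.am[k]'hk2) ∈ zipped Q c := by
    unfold zipped
    have : k < (Q.arcs.zip c.am).length := by
      rw [List.length_zip]
      exact lt_min hk hk2
    have h2 := List.getElem_mem this
    rwa [List.getElem_zip] at h2
  rw [List.all_eq_true] at hw hlab
  have h1 := hw _ hmem
  have h2 := hlab _ hmem
  simp only [Bool.or_eq_true, beq_iff_eq, List.all_eq_true] at h2
  have hQ : Q.lab k = (Q.arcs[k]'hk).2.2 := by
    unfold Pat.lab
    rw [Sound_lt hk]
  rw [hQ] at hl ⊢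
  rcases h2 with h2 | h2
  · exact absurd h2 hl
  · match hc : c.am[k]'hk2 with
    | [] =>
      rw [hc] at h1
      simp [walkB] at h1
    | [a] =>
      rw [hc] at h1 h2
      simp only [walkB, Bool.and_eq_true, decide_eq_true_eq, beq_iff_eq] at h1
      exact ⟨a, h1.1.1, h2 a (by simp)⟩
    | a :: b :: l =>
      rw [hc] at h1 h2
      simp only [walkB, Bool.and_eq_true, decide_eq_true_eq, beq_iff_eq] at h1
      exact ⟨a, h1.1.1, h2 a (by simp)⟩

theorem Sound_occ_lt {Q P : Pat} {lt : ℕ} {c : PMap} (h : okMap Q P lt c = true) (hl : lt ≠ 0) :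
    ∃ k' < P.m, P.lab k' = lt := by
  have h' := h
  simp only [okMap, Bool.and_eq_true] at h
  obtain ⟨⟨-, h1⟩, -⟩ := h
  simp only [Bool.or_eq_true, beq_iff_eq, List.any_eq_true] at h1
  rcases h1 with h1 | ⟨a, ha, h1⟩
  · exact absurd h1 hl
  · obtain ⟨k, hk, rfl⟩ := List.getElem_of_mem ha
    have hQ : Q.lab k = lt := by
      unfold Pat.lab
      rw [Sound_lt (show k < Q.m from hk)]
      exact h1
    obtain ⟨k', hk', h2⟩ := Sound_occ h' (show k < Q.m from hk) (by rw [hQ]; exact hl)
    exact ⟨k', hk', h2.trans hQ⟩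

/-- In terms of membership. -/
theorem Sound_lab_mem {P : Pat} {l : ℕ} :
    (∃ k < P.m, P.lab k = l) ↔ ∃ a ∈ P.arcs, a.2.2 = l := by
  constructor
  · rintro ⟨k, hk, rfl⟩
    refine ⟨P.arcs[k]'hk, List.getElem_mem hk, ?_⟩
    unfold Pat.lab
    rw [Sound_lt hk]
  · rintro ⟨a, ha, rfl⟩
    obtain ⟨k, hk, rfl⟩ := List.getElem_of_mem ha
    refine ⟨k, hk, ?_⟩
    unfold Pat.lab
    rw [Sound_lt (show k < P.m from hk)]
    rfl

theorem Sound_child_cases {P C : Pat} {v : ℕ} (hC : C ∈ children P v) :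
    (∃ h < P.n, C = childV P v h) ∨ ∃ k < P.m, C = childE P v k := by
  unfold children at hC
  rw [List.mem_append, List.mem_map, List.mem_map] at hC
  rcases hC with ⟨h, hh, rfl⟩ | ⟨k, hk, rfl⟩
  · rw [List.mem_filter, List.mem_range] at hh
    exact Or.inl ⟨h, hh.1, rfl⟩
  · rw [List.mem_filter, List.mem_range] at hk
    exact Or.inr ⟨k, hk.1, rfl⟩

/-- Nonzero labels of a child occur in the pattern. -/
theorem Sound_child_occ {P C : Pat} {v : ℕ} (hC : C ∈ children P v) {l : ℕ} (hl : l ≠ 0)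
    (h : ∃ k < C.m, C.lab k = l) : ∃ k < P.m, P.lab k = l := by
  rw [Sound_lab_mem] at h
  obtain ⟨a, ha, rfl⟩ := h
  rcases Sound_child_cases hC with ⟨w, -, rfl⟩ | ⟨k, hk, rfl⟩
  · simp only [childV, List.mem_append, List.mem_singleton] at ha
    rcases ha with ha | rfl
    · exact Sound_lab_mem.2 ⟨a, ha, rfl⟩
    · exact absurd rfl hl
  · simp only [childE, List.mem_append, List.mem_cons, List.not_mem_nil, or_false] at ha
    rcases ha with ha | rfl | rfl
    · rcases List.mem_or_eq_of_mem_set ha with ha | rfl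
      · exact Sound_lab_mem.2 ⟨a, ha, rfl⟩
      · exact ⟨k, hk, rfl⟩
    · exact ⟨k, hk, rfl⟩
    · exact absurd rfl hl

theorem Sound_wf_iff {P : Pat} : P.Wf ↔ ∀ a ∈ P.arcs, a.1 < P.n ∧ a.2.1 < P.n := by
  constructor
  · intro h a ha
    obtain ⟨k, hk, rfl⟩ := List.getElem_of_mem ha
    have h1 := h k hk
    unfold Pat.src Pat.dst at h1
    rw [Sound_lt (show k < P.m from hk)] at h1
    exact h1
  · intro h k hk
    unfold Pat.src Pat.dst
    rw [Sound_lt hk]
    exact h _ (List.getElem_mem hk)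

theorem Sound_child_wf {P C : Pat} {v : ℕ} (hP : P.Wf) (hv : v < P.n) (hC : C ∈ children P v) :
    C.Wf := by
  have hP' := Sound_wf_iff.1 hP
  rw [Sound_wf_iff]
  intro a ha
  rcases Sound_child_cases hC with ⟨w, hw, rfl⟩ | ⟨k, hk, rfl⟩
  · simp only [childV, List.mem_append, List.mem_singleton] at ha ⊢
    rcases ha with ha | rfl
    · exact hP' a ha
    · exact ⟨hv, hw⟩
  · have hk' := hP k hk
    simp only [childE, List.mem_append, List.mem_cons, List.not_mem_nil, or_false] at ha ⊢
    rcases ha with ha | rfl | rfl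
    · rcases List.mem_or_eq_of_mem_set ha with ha | rfl
      · have := hP' a ha
        omega
      · exact ⟨by have := hk'.1; simp only; omega, by simp⟩
    · exact ⟨by simp, by have := hk'.2; simp only; omega⟩
    · exact ⟨by simp only; omega, by simp⟩

theorem Sound_all_get (specs : List Spec) (nodes : List Node) : ∀ (l : List Node) (i : ℕ),
    okAllAux specs nodes i l = true → ∀ (j : ℕ) (hj : j < l.length),
      okNode specs nodes (i + j) l[j] = true := by
  intro l
  induction l with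
  | nil => intro i _ j hj; simp at hj
  | cons nd l ih =>
    intro i h j hj
    simp only [okAllAux, Bool.and_eq_true] at h
    cases j with
    | zero => exact h.1
    | succ j =>
      have := ih (i + 1) h.2 j (by simpa using hj)
      rw [show i + (j + 1) = i + 1 + j by omega]
      exact this

theorem Sound_ents (specs : List Spec) (nodes : List Node) (i : ℕ) : ∀ (Cs : List Pat)
    (es : List Ent), okEnts specs nodes i Cs es = true → ∀ C ∈ Cs, ∃ e,
      okEnt specs nodes i C e = true := by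
  intro Cs
  induction Cs with
  | nil => intro es _ C hC; simp at hC
  | cons C0 Cs ih =>
    intro es h C hC
    cases es with
    | nil => simp [okEnts] at h
    | cons e es =>
      simp only [okEnts, Bool.and_eq_true] at h
      rcases List.mem_cons.1 hC with rfl | hC
      · exact ⟨e, h.1⟩
      · exact ih es h.2 C hC

/-- Transfer of a forbidden configuration along a certified map. -/
theorem Sound_transfer (hr : StmtRestrict) {V : Type} {E : V → V → Prop} {m : ℕ → ℕ}
    {P C : Pat} {v : ℕ} (hP : P.Wf) (hv : v < P.n) (hC : C ∈ children P v) (φ : Emb E P)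
    (hφ : ∀ k < P.m, P.lab k ≠ 0 → φ.len (P.lab k) = m (P.lab k)) (ψ : Emb E C)
    (hψ : ∀ l, l ≠ 0 → ψ.len l = φ.len l) (s : Spec) (hs : s.Holds E m) (c : PMap)
    (hok : okMap s.P C s.lt c = true) : False := by
  obtain ⟨χ, h1, h2⟩ := hr V E s.P C s.lt c hok (Sound_child_wf hP hv hC) ψ
  have key : ∀ l, l ≠ 0 → (∃ k < C.m, C.lab k = l) → φ.len l = m l := by
    intro l hl ho
    obtain ⟨k, hk, rfl⟩ := Sound_child_occ hC hl ho
    exact hφ k hk hl
  refine hs χ (fun k hk h0 h3 => ?_) (fun h0 => ?_)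
  · rw [h1 k hk h0 h3, hψ _ h0]
    exact key _ h0 (Sound_occ hok hk h0)
  · have h4 := h2 h0
    rw [hψ _ h0, key _ h0 (Sound_occ_lt hok h0)] at h4
    exact h4

theorem sound : StmtRestrict → StmtStep → StmtSound := by
  intro hr hst V _ _ E m hloop hns specs nodes hok hspecs
  have hall := Sound_all_get specs nodes nodes 0 hok
  have main : ∀ (i : ℕ) (hi : i < nodes.length), Spec.Holds E m ⟨(nodes[i]).P, 0⟩ := by
    intro i
    induction i using Nat.strong_induction_on with
    | _ i ih =>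
      intro hi
      have h0 := hall i hi
      rw [Nat.zero_add] at h0
      generalize nodes[i] = nd at h0 ⊢
      intro φ hφ _
      simp only [okNode, Bool.and_eq_true, decide_eq_true_eq] at h0
      obtain ⟨⟨⟨⟨⟨hv, hout⟩, hokout⟩, hcyc⟩, hwf⟩, hents⟩ := h0
      have hP : nd.P.Wf := by
        rw [Sound_wf_iff]
        intro a ha
        rw [List.all_eq_true] at hwf
        have := hwf a ha
        simpa using this
      have hφ' : ∀ k < nd.P.m, nd.P.lab k ≠ 0 → φ.len (nd.P.lab k) = m (nd.P.lab k) :=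
        fun k hk hl => hφ k hk hl hl
      obtain ⟨C, hC, ψ, hψ⟩ := hst V E hloop hns nd.P nd.v nd.cyc hP hv hout hokout hcyc φ
      obtain ⟨e, he⟩ := Sound_ents specs nodes i _ _ hents C hC
      cases e with
      | spec j c =>
        simp only [okEnt] at he
        cases hs : specs[j]? with
        | none => rw [hs] at he; simp at he
        | some s =>
          rw [hs] at he
          exact Sound_transfer hr hP hv hC φ hφ' ψ hψ s (hspecs s (List.mem_of_getElem? hs)) c he
      | node j c =>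
        simp only [okEnt, Bool.and_eq_true, decide_eq_true_eq] at he
        obtain ⟨hj, he⟩ := he
        have hj' : j < nodes.length := hj.trans hi
        rw [List.getElem?_eq_getElem hj'] at he
        exact Sound_transfer hr hP hv hC φ hφ' ψ hψ ⟨(nodes[j]).P, 0⟩ (ih j hj hj') c he
  intro nd hnd
  obtain ⟨i, hi, rfl⟩ := List.getElem_of_mem hnd
  exact main i hi

end BiP4

end

section

/-!
# MP_d76268_co: one move of the game
-/

namespace BiP4

namespace StepAux

universe u

variable {V : Type u} {E : V → V → Prop}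

theorem seg_snoc {a t b : V} {l : List V} (h : Seg E a l t) (hb : E t b) :
    Seg E a (l ++ [t]) b := by
  unfold Seg at *
  rw [← List.cons_append]
  refine List.isChain_append.2 ⟨h, List.isChain_singleton b, ?_⟩
  intro x hx y hy
  rw [← List.cons_append, List.getLast?_concat] at hx
  simp only [Option.mem_def, Option.some.injEq, List.head?_cons] at hx hy
  rw [← hx, ← hy]
  exact hb

theorem seg_cut {a h b : V} {p s : List V} (hs : Seg E a (p ++ h :: s) b) :
    Seg E a p h ∧ Seg E h s b := by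
  unfold Seg at *
  have e : a :: (p ++ h :: s ++ [b]) = (a :: p) ++ h :: (s ++ [b]) := by simp
  rw [e] at hs
  have := List.isChain_split.1 hs
  exact ⟨this.1, this.2⟩

theorem seg_snoc_inv {a t b : V} {l : List V} (h : Seg E a (l ++ [t]) b) :
    Seg E a l t ∧ E t b := by
  have h1 := seg_cut (h := t) (p := l) (s := []) h
  refine ⟨h1.1, ?_⟩
  have h2 := h1.2
  unfold Seg at h2
  simpa using h2

/-! ### the ear lands on a branch vertex -/

theorem childV_m (P : Pat) (v i : ℕ) : (childV P v i).m = P.m + 1 := by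
  unfold childV Pat.m
  simp

theorem childV_getD_lt {P : Pat} {v i k : ℕ} (hk : k < P.m) :
    (childV P v i).arcs.getD k (0, 0, 0) = P.arcs.getD k (0, 0, 0) :=
  List.getD_append _ _ _ _ hk

theorem childV_getD_m (P : Pat) (v i : ℕ) :
    (childV P v i).arcs.getD P.m (0, 0, 0) = (v, i, 0) := by
  unfold childV Pat.m
  rw [List.getD_append_right _ _ _ _ le_rfl]
  simp

theorem len_eq {P : Pat} (φ : Emb E P) (l : ℕ) :
    φ.len l = ∑ k ∈ Finset.range P.m, if P.lab k = l then (φ.π k).length + 1 else 0 := by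
  unfold Emb.len
  rw [Finset.sum_filter]

theorem exists_childV {P : Pat} (φ : Emb E P) {v i : ℕ} {L : List V}
    (hs : Seg E (φ.β v) L (φ.β i)) (hn : L.Nodup)
    (hd : ∀ k < P.m, List.Disjoint L (φ.π k)) (ha : ∀ j < P.n, φ.β j ∉ L)
    (hp : ∀ k < P.m, P.src k = v → P.dst k ≠ i) :
    ∃ ψ : Emb E (childV P v i), ∀ l, l ≠ 0 → ψ.len l = φ.len l := by
  have hm := childV_m P v i
  have hsrc : ∀ k < P.m, (childV P v i).src k = P.src k := fun k hk => by
    unfold Pat.src; rw [childV_getD_lt hk]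
  have hdst : ∀ k < P.m, (childV P v i).dst k = P.dst k := fun k hk => by
    unfold Pat.dst; rw [childV_getD_lt hk]
  have hlab : ∀ k < P.m, (childV P v i).lab k = P.lab k := fun k hk => by
    unfold Pat.lab; rw [childV_getD_lt hk]
  have hsrc' : (childV P v i).src P.m = v := by
    unfold Pat.src; rw [childV_getD_m]
  have hdst' : (childV P v i).dst P.m = i := by
    unfold Pat.dst; rw [childV_getD_m]
  have hlab' : (childV P v i).lab P.m = 0 := by
    unfold Pat.lab; rw [childV_getD_m]
  have hcase : ∀ k < (childV P v i).m, k < P.m ∨ k = P.m := by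
    intro k hk
    rw [hm] at hk
    omega
  refine ⟨{
    β := φ.β
    π := fun k => if k = P.m then L else φ.π k
    inj := φ.inj
    seg := ?_
    nodup := ?_
    disj := ?_
    avoid := ?_
    npar := ?_ }, ?_⟩
  · intro k hk
    rcases hcase k hk with h | h
    · rw [if_neg h.ne, hsrc k h, hdst k h]
      exact φ.seg k h
    · subst h
      rw [if_pos rfl, hsrc', hdst']
      exact hs
  · intro k hk
    rcases hcase k hk with h | h
    · rw [if_neg h.ne]
      exact φ.nodup k h
    · rw [if_pos h]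
      exact hn
  · intro k hk k' hk' hkk
    rcases hcase k hk with h | h <;> rcases hcase k' hk' with h' | h'
    · rw [if_neg h.ne, if_neg h'.ne]
      exact φ.disj k h k' h' hkk
    · rw [if_neg h.ne, if_pos h']
      exact (hd k h).symm
    · rw [if_pos h, if_neg h'.ne]
      exact hd k' h'
    · exact absurd (h.trans h'.symm) hkk
  · intro k hk j hj
    rcases hcase k hk with h | h
    · rw [if_neg h.ne]
      exact φ.avoid k h j hj
    · rw [if_pos h]
      exact ha j hj
  · intro k hk k' hk' hkk h1 h2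
    rcases hcase k hk with h | h <;> rcases hcase k' hk' with h' | h'
    · rw [if_neg h.ne, if_neg h'.ne]
      rw [hsrc k h, hsrc k' h'] at h1
      rw [hdst k h, hdst k' h'] at h2
      exact φ.npar k h k' h' hkk h1 h2
    · subst h'
      rw [hsrc k h, hsrc'] at h1
      rw [hdst k h, hdst'] at h2
      exact absurd h2 (hp k h h1)
    · subst h
      rw [hsrc k' h', hsrc'] at h1
      rw [hdst k' h', hdst'] at h2
      exact absurd h2.symm (hp k' h' h1.symm)
    · exact absurd (h.trans h'.symm) hkk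
  · intro l hl
    have hr : Finset.range (childV P v i).m = Finset.range (P.m + 1) := by rw [hm]
    rw [len_eq, len_eq, hr, Finset.sum_range_succ, hlab', if_neg hl.symm, add_zero]
    refine Finset.sum_congr rfl fun k hk => ?_
    have hk' := Finset.mem_range.1 hk
    rw [hlab k hk']
    show (if P.lab k = l then (if k = P.m then L else φ.π k).length + 1 else 0) = _
    rw [if_neg hk'.ne]

/-! ### the ear lands inside an arc -/

theorem childE_m (P : Pat) (v i : ℕ) : (childE P v i).m = P.m + 2 := by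
  unfold childE Pat.m
  simp

theorem childE_getD_lt {P : Pat} {v i k : ℕ} (hk : k < P.m) :
    (childE P v i).arcs.getD k (0, 0, 0) =
      if k = i then (P.src i, P.n, P.lab i) else P.arcs.getD k (0, 0, 0) := by
  unfold childE
  unfold Pat.m at hk
  rw [List.getD_append _ _ _ _ (by rw [List.length_set]; exact hk)]
  rw [List.getD_eq_getElem _ _ (by rw [List.length_set]; exact hk), List.getElem_set]
  by_cases h : i = k
  · rw [if_pos h, if_pos h.symm]
  · rw [if_neg h, if_neg (Ne.symm h), List.getD_eq_getElem _ _ hk]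

theorem childE_getD_m (P : Pat) (v i : ℕ) :
    (childE P v i).arcs.getD P.m (0, 0, 0) = (P.n, P.dst i, P.lab i) := by
  unfold childE
  have : P.m = (P.arcs.set i (P.src i, P.n, P.lab i)).length := by
    rw [List.length_set]
    rfl
  rw [List.getD_append_right _ _ _ _ (by rw [← this]), ← this]
  simp

theorem childE_getD_m1 (P : Pat) (v i : ℕ) :
    (childE P v i).arcs.getD (P.m + 1) (0, 0, 0) = (v, P.n, 0) := by
  unfold childE
  have : P.m = (P.arcs.set i (P.src i, P.n, P.lab i)).length := by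
    rw [List.length_set]
    rfl
  rw [List.getD_append_right _ _ _ _ (by rw [← this]; omega), ← this]
  simp

theorem exists_childE {P : Pat} (φ : Emb E P) (hW : P.Wf) {v i : ℕ} (hv : v < P.n)
    (hi : i < P.m) (hiv : P.src i ≠ v) {L p s : List V} {h : V} (hpi : φ.π i = p ++ h :: s)
    (hs : Seg E (φ.β v) L h) (hn : L.Nodup)
    (hd : ∀ k < P.m, List.Disjoint L (φ.π k)) (ha : ∀ j < P.n, φ.β j ∉ L) :
    ∃ ψ : Emb E (childE P v i), ∀ l, l ≠ 0 → ψ.len l = φ.len l := by
  have hm := childE_m P v i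
  have hsrc : ∀ k < P.m, (childE P v i).src k = P.src k := fun k hk => by
    unfold Pat.src
    rw [childE_getD_lt hk]
    split_ifs with h1
    · subst h1; rfl
    · rfl
  have hdst : ∀ k < P.m, (childE P v i).dst k = if k = i then P.n else P.dst k := fun k hk => by
    unfold Pat.dst
    rw [childE_getD_lt hk]
    split_ifs with h1
    · rfl
    · rfl
  have hlab : ∀ k < P.m, (childE P v i).lab k = P.lab k := fun k hk => by
    unfold Pat.lab
    rw [childE_getD_lt hk]
    split_ifs with h1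
    · subst h1; rfl
    · rfl
  have hsrc1 : (childE P v i).src P.m = P.n := by
    unfold Pat.src; rw [childE_getD_m]
  have hdst1 : (childE P v i).dst P.m = P.dst i := by
    unfold Pat.dst; rw [childE_getD_m]; rfl
  have hlab1 : (childE P v i).lab P.m = P.lab i := by
    unfold Pat.lab; rw [childE_getD_m]; rfl
  have hsrc2 : (childE P v i).src (P.m + 1) = v := by
    unfold Pat.src; rw [childE_getD_m1]
  have hdst2 : (childE P v i).dst (P.m + 1) = P.n := by
    unfold Pat.dst; rw [childE_getD_m1]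
  have hlab2 : (childE P v i).lab (P.m + 1) = 0 := by
    unfold Pat.lab; rw [childE_getD_m1]
  have hcase : ∀ k < (childE P v i).m, (k < P.m ∧ k ≠ i) ∨ k = i ∨ k = P.m ∨ k = P.m + 1 := by
    intro k hk
    rw [hm] at hk
    omega
  set β' : ℕ → V := fun j => if j = P.n then h else φ.β j with hβ'
  set π' : ℕ → List V := fun k => if k = P.m + 1 then L else if k = P.m then s else
    if k = i then p else φ.π k with hπ'
  have hβ1 : ∀ j < P.n, β' j = φ.β j := fun j hj => if_neg hj.ne
  have hβ2 : β' P.n = h := if_pos rfl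
  have hπ0 : ∀ k, π' k = if k = P.m + 1 then L else if k = P.m then s else
    if k = i then p else φ.π k := fun k => rfl
  have hπ1 : ∀ k < P.m, k ≠ i → π' k = φ.π k := by
    intro k hk hki
    rw [hπ0, if_neg (by omega), if_neg hk.ne, if_neg hki]
  have hπ2 : π' i = p := by
    rw [hπ0, if_neg (by omega), if_neg hi.ne, if_pos rfl]
  have hπ3 : π' P.m = s := by
    rw [hπ0, if_neg (by omega), if_pos rfl]
  have hπ4 : π' (P.m + 1) = L := if_pos rfl
  have hseg := φ.seg i hi
  rw [hpi] at hseg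
  have hnd := φ.nodup i hi
  rw [hpi] at hnd
  have hnd' := List.nodup_append.1 hnd
  have hnd2 := List.nodup_cons.1 hnd'.2.1
  have hmemh : h ∈ φ.π i := by rw [hpi]; simp
  have hmemp : ∀ x ∈ p, x ∈ φ.π i := fun x hx => by rw [hpi]; simp [hx]
  have hmems : ∀ x ∈ s, x ∈ φ.π i := fun x hx => by rw [hpi]; simp [hx]
  have hps : List.Disjoint p s := fun x hx hx' =>
    hnd'.2.2 x hx x (List.mem_cons_of_mem _ hx') rfl
  have hhp : h ∉ p := fun hx => hnd'.2.2 h hx h List.mem_cons_self rfl
  have hhβ : ∀ j < P.n, φ.β j ≠ h := fun j hj e => φ.avoid i hi j hj (e ▸ hmemh)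
  have hhL : h ∉ L := fun hx => hd i hi hx hmemh
  -- all vertices of the new paths except `L` are old
  have hsub : ∀ k < P.m, k ≠ i → List.Disjoint (φ.π k) (φ.π i) := fun k hk hki =>
    φ.disj k hk i hi hki
  have havoid : ∀ k < P.m + 2, ∀ j < P.n + 1, β' j ∉ π' k := by
    intro k hk j hj
    have hj' : j < P.n ∨ j = P.n := by omega
    rcases hcase k (by rw [hm]; exact hk) with h1 | h1 | h1 | h1
    · rw [hπ1 k h1.1 h1.2]
      rcases hj' with h2 | h2
      · rw [hβ1 j h2]
        exact φ.avoid k h1.1 j h2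
      · rw [h2, hβ2]
        exact fun hx => hsub k h1.1 h1.2 hx hmemh
    · rw [h1, hπ2]
      rcases hj' with h2 | h2
      · rw [hβ1 j h2]
        exact fun hx => φ.avoid i hi j h2 (hmemp _ hx)
      · rw [h2, hβ2]
        exact hhp
    · rw [h1, hπ3]
      rcases hj' with h2 | h2
      · rw [hβ1 j h2]
        exact fun hx => φ.avoid i hi j h2 (hmems _ hx)
      · rw [h2, hβ2]
        exact hnd2.1
    · rw [h1, hπ4]
      rcases hj' with h2 | h2
      · rw [hβ1 j h2]
        exact ha j h2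
      · rw [h2, hβ2]
        exact hhL
  have hdisj : ∀ k < P.m + 2, ∀ k' < P.m + 2, k ≠ k' → List.Disjoint (π' k) (π' k') := by
    have key : ∀ k < P.m + 2, ∀ k' < P.m + 2, k < k' → List.Disjoint (π' k) (π' k') := by
      intro k hk k' hk' hkk
      rcases hcase k (by rw [hm]; exact hk) with h1 | h1 | h1 | h1 <;>
      rcases hcase k' (by rw [hm]; exact hk') with h2 | h2 | h2 | h2
      · rw [hπ1 k h1.1 h1.2, hπ1 k' h2.1 h2.2]
        exact φ.disj k h1.1 k' h2.1 hkk.ne
      · rw [hπ1 k h1.1 h1.2, h2, hπ2]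
        exact fun x hx hx' => hsub k h1.1 h1.2 hx (hmemp x hx')
      · rw [hπ1 k h1.1 h1.2, h2, hπ3]
        exact fun x hx hx' => hsub k h1.1 h1.2 hx (hmems x hx')
      · rw [hπ1 k h1.1 h1.2, h2, hπ4]
        exact (hd k h1.1).symm
      · rw [h1, hπ2, hπ1 k' h2.1 h2.2]
        exact fun x hx hx' => hsub k' h2.1 h2.2 hx' (hmemp x hx)
      · omega
      · rw [h1, h2, hπ2, hπ3]
        exact hps
      · rw [h1, h2, hπ2, hπ4]
        exact fun x hx hx' => hd i hi hx' (hmemp x hx)
      · omega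
      · omega
      · omega
      · rw [h1, h2, hπ3, hπ4]
        exact fun x hx hx' => hd i hi hx' (hmems x hx)
      · omega
      · omega
      · omega
      · omega
    intro k hk k' hk' hkk
    rcases lt_or_gt_of_ne hkk with h1 | h1
    · exact key k hk k' hk' h1
    · exact (key k' hk' k hk h1).symm
  refine ⟨{
    β := β'
    π := π'
    inj := ?_
    seg := ?_
    nodup := ?_
    disj := ?_
    avoid := ?_
    npar := ?_ }, ?_⟩
  · intro j hj j' hj' e
    have hj1 : j < P.n + 1 := hj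
    have hj2 : j' < P.n + 1 := hj'
    rcases (by omega : j < P.n ∨ j = P.n) with h1 | h1 <;>
    rcases (by omega : j' < P.n ∨ j' = P.n) with h2 | h2
    · rw [hβ1 j h1, hβ1 j' h2] at e
      exact φ.inj j h1 j' h2 e
    · rw [hβ1 j h1, h2, hβ2] at e
      exact absurd e (hhβ j h1)
    · rw [hβ1 j' h2, h1, hβ2] at e
      exact absurd e.symm (hhβ j' h2)
    · rw [h1, h2]
  · intro k hk
    rcases hcase k hk with h1 | h1 | h1 | h1
    · rw [hπ1 k h1.1 h1.2, hsrc k h1.1, hdst k h1.1, if_neg h1.2, hβ1 _ (hW k h1.1).1,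
        hβ1 _ (hW k h1.1).2]
      exact φ.seg k h1.1
    · rw [h1, hπ2, hsrc i hi, hdst i hi, if_pos rfl, hβ1 _ (hW i hi).1, hβ2]
      exact (seg_cut hseg).1
    · rw [h1, hπ3, hsrc1, hdst1, hβ2, hβ1 _ (hW i hi).2]
      exact (seg_cut hseg).2
    · rw [h1, hπ4, hsrc2, hdst2, hβ2, hβ1 _ hv]
      exact hs
  · intro k hk
    rcases hcase k hk with h1 | h1 | h1 | h1
    · rw [hπ1 k h1.1 h1.2]
      exact φ.nodup k h1.1
    · rw [h1, hπ2]
      exact hnd'.1
    · rw [h1, hπ3]
      exact hnd2.2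
    · rw [h1, hπ4]
      exact hn
  · rw [hm]
    exact hdisj
  · rw [hm]
    exact havoid
  · intro k hk k' hk' hkk e1 e2
    rcases hcase k hk with h1 | h1 | h1 | h1 <;>
    rcases hcase k' hk' with h2 | h2 | h2 | h2
    · rw [hπ1 k h1.1 h1.2, hπ1 k' h2.1 h2.2]
      rw [hsrc k h1.1, hsrc k' h2.1] at e1
      rw [hdst k h1.1, hdst k' h2.1, if_neg h1.2, if_neg h2.2] at e2
      exact φ.npar k h1.1 k' h2.1 hkk e1 e2
    · rw [h2, hdst k h1.1, hdst i hi, if_neg h1.2, if_pos rfl] at e2
      exact absurd e2 (hW k h1.1).2.ne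
    · rw [h2, hsrc k h1.1, hsrc1] at e1
      exact absurd e1 (hW k h1.1).1.ne
    · rw [h2, hdst k h1.1, hdst2, if_neg h1.2] at e2
      exact absurd e2 (hW k h1.1).2.ne
    · rw [h1, hdst k' h2.1, hdst i hi, if_neg h2.2, if_pos rfl] at e2
      exact absurd e2.symm (hW k' h2.1).2.ne
    · exact absurd (h1.trans h2.symm) hkk
    · rw [h1, h2, hsrc i hi, hsrc1] at e1
      exact absurd e1 (hW i hi).1.ne
    · rw [h1, h2, hsrc i hi, hsrc2] at e1
      exact absurd e1 hiv
    · rw [h1, hsrc k' h2.1, hsrc1] at e1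
      exact absurd e1.symm (hW k' h2.1).1.ne
    · rw [h1, h2, hsrc i hi, hsrc1] at e1
      exact absurd e1.symm (hW i hi).1.ne
    · exact absurd (h1.trans h2.symm) hkk
    · rw [h1, h2, hsrc1, hsrc2] at e1
      exact absurd e1.symm hv.ne
    · rw [h1, hdst k' h2.1, hdst2, if_neg h2.2] at e2
      exact absurd e2.symm (hW k' h2.1).2.ne
    · rw [h1, h2, hsrc i hi, hsrc2] at e1
      exact absurd e1.symm hiv
    · rw [h1, h2, hsrc1, hsrc2] at e1
      exact absurd e1 hv.ne
    · exact absurd (h1.trans h2.symm) hkk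
  · intro l hl
    have hr : Finset.range (childE P v i).m = Finset.range (P.m + 2) := by rw [hm]
    rw [len_eq, len_eq, hr, Finset.sum_range_succ, Finset.sum_range_succ, hlab1, hlab2,
      if_neg hl.symm, add_zero]
    have e1 : ∀ (f g : ℕ → ℕ), (∀ k < P.m, k ≠ i → f k = g k) →
        ∑ k ∈ Finset.range P.m, f k + g i = ∑ k ∈ Finset.range P.m, g k + f i := by
      intro f g hfg
      rw [← Finset.add_sum_erase _ f (Finset.mem_range.2 hi),
        ← Finset.add_sum_erase _ g (Finset.mem_range.2 hi)]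
      have : ∑ k ∈ (Finset.range P.m).erase i, f k = ∑ k ∈ (Finset.range P.m).erase i, g k := by
        refine Finset.sum_congr rfl fun k hk => ?_
        rw [Finset.mem_erase, Finset.mem_range] at hk
        exact hfg k hk.2 hk.1
      rw [this]
      omega
    have e2 : ∑ k ∈ Finset.range P.m,
        (if (childE P v i).lab k = l then (π' k).length + 1 else 0) +
          (if P.lab i = l then (φ.π i).length + 1 else 0) =
        ∑ k ∈ Finset.range P.m, (if P.lab k = l then (φ.π k).length + 1 else 0) +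
          (if (childE P v i).lab i = l then (π' i).length + 1 else 0) :=
      e1 (fun k => if (childE P v i).lab k = l then (π' k).length + 1 else 0)
        (fun k => if P.lab k = l then (φ.π k).length + 1 else 0) (by
        intro k hk hki
        show (if (childE P v i).lab k = l then (π' k).length + 1 else 0) =
          (if P.lab k = l then (φ.π k).length + 1 else 0)
        rw [hlab k hk, hπ1 k hk hki])
    rw [hlab i hi, hπ2, hpi] at e2
    show ∑ k ∈ Finset.range P.m,
        (if (childE P v i).lab k = l then (π' k).length + 1 else 0) +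
          (if P.lab i = l then (π' P.m).length + 1 else 0) = _
    rw [hπ3]
    by_cases h1 : P.lab i = l
    · rw [if_pos h1, if_pos h1] at e2
      rw [if_pos h1]
      simp only [List.length_append, List.length_cons] at e2
      omega
    · rw [if_neg h1, if_neg h1] at e2
      rw [if_neg h1]
      exact e2

/-! ### Boolean tests -/

theorem nodupB_iff : ∀ l : List ℕ, nodupB l = true ↔ l.Nodup
  | [] => by simp [nodupB]
  | a :: l => by
    rw [nodupB, Bool.and_eq_true, nodupB_iff l, List.nodup_cons]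
    simp

theorem map_src {P : Pat} : ∀ (w : List ℕ) (a b : ℕ), walkB P a b w = true →
    w.map P.src = a :: inner P w
  | [], a, b, h => by simp [walkB] at h
  | [k], a, b, h => by
    simp only [walkB, Bool.and_eq_true, beq_iff_eq] at h
    simp [inner, h.1.2]
  | k :: k' :: l, a, b, h => by
    simp only [walkB, Bool.and_eq_true, beq_iff_eq] at h
    rw [List.map_cons, map_src (k' :: l) _ _ h.2, h.1.2]
    rfl

theorem card_filter_getD {α : Type} (d : α) (p : α → Bool) (l : List α) :
    ((Finset.range l.length).filter (fun k => p (l.getD k d) = true)).card =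
      (l.filter p).length := by
  induction l using List.reverseRecOn with
  | nil => simp
  | append_singleton l a ih =>
    rw [Finset.card_filter] at ih ⊢
    rw [List.length_append, List.length_singleton, Finset.sum_range_succ,
      List.getD_append_right _ _ _ _ le_rfl, List.filter_append, List.length_append, ← ih]
    congr 1
    · refine Finset.sum_congr rfl fun k hk => ?_
      rw [List.getD_append _ _ _ _ (Finset.mem_range.1 hk)]
    · simp only [Nat.sub_self, List.getD_cons_zero]
      by_cases h : p a = true <;> simp [h]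

theorem card_out (P : Pat) (v : ℕ) :
    ((Finset.range P.m).filter (fun k => P.src k = v)).card = outdeg P v := by
  unfold outdeg
  rw [← card_filter_getD (0, 0, 0)]
  congr 1
  ext k
  simp only [Finset.mem_filter, Finset.mem_range, beq_iff_eq]
  rfl

theorem getD_mem {P : Pat} {k : ℕ} (hk : k < P.m) : P.arcs.getD k (0, 0, 0) ∈ P.arcs := by
  rw [List.getD_eq_getElem _ _ hk]
  exact List.getElem_mem _

theorem lab_out {P : Pat} {v k : ℕ} (h : okOut P v = true) (hk : k < P.m) (hs : P.src k = v) :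
    P.lab k = 0 := by
  unfold okOut at h
  rw [Bool.and_eq_true] at h
  have h1 := List.all_eq_true.1 h.1 (P.arcs.getD k (0, 0, 0))
    (List.mem_filter.2 ⟨getD_mem hk, beq_iff_eq.2 hs⟩)
  exact beq_iff_eq.1 h1

theorem dst_out {P : Pat} {v : ℕ} (h : okOut P v = true) : ∀ k < P.m, ∀ k' < P.m,
    P.src k = v → P.src k' = v → P.dst k = P.dst k' → k = k' := by
  unfold okOut at h
  rw [Bool.and_eq_true] at h
  have h1 := (nodupB_iff _).1 h.2
  unfold List.Nodup at h1
  rw [List.pairwise_map, List.pairwise_filter, List.pairwise_iff_getElem] at h1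
  have key : ∀ k < P.m, ∀ k' < P.m, k < k' → P.src k = v → P.src k' = v →
      P.dst k ≠ P.dst k' := by
    intro k hk k' hk' hlt hs hs'
    have h2 := h1 k k' hk hk' hlt
    unfold Pat.src at hs hs'
    unfold Pat.dst
    rw [List.getD_eq_getElem _ _ hk] at hs ⊢
    rw [List.getD_eq_getElem _ _ hk'] at hs' ⊢
    exact h2 (by simpa using hs) (by simpa using hs')
  intro k hk k' hk' hs hs' hd
  by_contra hne
  rcases lt_or_gt_of_ne hne with hlt | hlt
  · exact key k hk k' hk' hlt hs hs' hd
  · exact key k' hk' k hk hlt hs' hs hd.symm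

/-- the cycle of the pattern gives a cycle of the digraph -/
theorem cyc_of_okCyc {V : Type} {E : V → V → Prop} (hw : StmtWalk) {P : Pat} (hW : P.Wf)
    {v : ℕ} {cyc : List ℕ} (hc : okCyc P v cyc = true) (φ : Emb E P) :
    ∃ (a : V) (l : List V), Cyc E a l ∧ ∀ x ∈ a :: l, (∃ i < P.n, i ≠ v ∧ x = φ.β i) ∨
      ∃ k < P.m, P.src k ≠ v ∧ x ∈ φ.π k := by
  match cyc, hc with
  | [], hc => simp [okCyc] at hc
  | k :: w, hc =>
    simp only [okCyc, Bool.and_eq_true, Bool.not_eq_true'] at hc
    obtain ⟨⟨h1, h2⟩, h3⟩ := hc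
    rw [nodupB_iff] at h2
    have h3' : v ∉ P.src k :: inner P (k :: w) := by
      intro hm
      rw [List.elem_eq_true_of_mem hm] at h3
      exact Bool.noConfusion h3
    obtain ⟨w1, w2, -, w3, w4, w5, w6⟩ := hw V E P φ (k :: w) (P.src k) (P.src k) h1
    have hms := map_src _ _ _ h1
    have hwn : (k :: w).Nodup := by
      apply List.Nodup.of_map P.src
      rw [hms]
      exact h2
    have hin : ∀ y ∈ inner P (k :: w), y < P.n := by
      intro y hy
      obtain ⟨k', hk', rfl⟩ := w5 y hy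
      exact (hW k' (w4 k' hk')).2
    have hk : k < P.m := w4 k List.mem_cons_self
    have hsrc : ∀ k' ∈ k :: w, P.src k' ≠ v := by
      intro k' hk' he
      apply h3'
      rw [← hms, ← he]
      exact List.mem_map_of_mem hk'
    refine ⟨φ.β (P.src k), catP φ (k :: w), ⟨w1, List.nodup_cons.2 ⟨?_, w3 hW hwn ?_⟩⟩, ?_⟩
    · intro hx
      rcases w2 _ hx with ⟨k', hk', hx'⟩ | ⟨y, hy, hx'⟩
      · exact φ.avoid k' (w4 k' hk') _ (hW k hk).1 hx'
      · have := φ.inj _ (hW k hk).1 _ (hin y hy) hx'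
        exact (List.nodup_cons.1 h2).1 (this ▸ hy)
    · exact (List.nodup_cons.1 h2).2
    · intro x hx
      rcases List.mem_cons.1 hx with hx | hx
      · exact Or.inl ⟨P.src k, (hW k hk).1, fun he => h3' (he ▸ List.mem_cons_self), hx⟩
      · rcases w2 _ hx with ⟨k', hk', hx'⟩ | ⟨y, hy, hx'⟩
        · exact Or.inr ⟨k', w4 k' hk', hsrc k' hk', hx'⟩
        · exact Or.inl ⟨y, hin y hy, fun he => h3' (he ▸ List.mem_cons_of_mem _ hy), hx'⟩

/-- rerouting the paths which leave `v`, with one more path -/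
theorem reroute {V : Type} [Fintype V] [DecidableEq V] {E : V → V → Prop} (hw : StmtWalk)
    (hfan : StmtFan) (hirr : ∀ x, ¬ E x x) (hsep : NoSep E 2) {P : Pat} {v : ℕ} {cyc : List ℕ}
    (hW : P.Wf) (hv : v < P.n) (ho2 : outdeg P v ≤ 2) (ho : okOut P v = true)
    (hc : okCyc P v cyc = true) (φ : Emb E P) :
    ∃ (ψ : Emb E P) (L : List V) (h : V), (∀ k < P.m, P.src k ≠ v → ψ.π k = φ.π k) ∧
      Seg E (ψ.β v) L h ∧ L.Nodup ∧ (∀ k < P.m, List.Disjoint L (ψ.π k)) ∧
      (∀ j < P.n, ψ.β j ∉ L) ∧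
      ((∃ i < P.n, i ≠ v ∧ h = ψ.β i ∧ ∀ k < P.m, P.src k = v → P.dst k ≠ i) ∨
        ∃ k < P.m, P.src k ≠ v ∧ h ∈ ψ.π k) := by
  classical
  obtain ⟨ca, cl, hcyc, hcmem⟩ := cyc_of_okCyc hw hW hc φ
  set O : Finset ℕ := (Finset.range P.m).filter (fun k => P.src k = v) with hOdef
  have hO : ∀ k, k ∈ O ↔ k < P.m ∧ P.src k = v := by
    intro k
    rw [hOdef, Finset.mem_filter, Finset.mem_range]
  have hOc : O.card ≤ 2 := by
    rw [hOdef, card_out]
    exact ho2
  have hex : ∀ k, ∃ (l : List V) (t : V), k ∈ O → Seg E (φ.β v) l t ∧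
      ((P.dst k ≠ v ∧ t = φ.β (P.dst k) ∧ φ.π k = l) ∨
        (P.dst k = v ∧ φ.π k = l ++ [t] ∧ E t (φ.β v))) := by
    intro k
    by_cases hk : k ∈ O
    · have hk' := (hO k).1 hk
      have hs := φ.seg k hk'.1
      rw [hk'.2] at hs
      by_cases hd : P.dst k = v
      · rw [hd] at hs
        rcases List.eq_nil_or_concat (φ.π k) with h | ⟨l, t, h⟩
        · rw [h] at hs
          unfold Seg at hs
          simp only [List.nil_append, List.isChain_cons_cons, List.isChain_singleton,
            and_true] at hs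
          exact absurd hs (hirr _)
        · rw [List.concat_eq_append] at h
          rw [h] at hs
          have h2 := seg_snoc_inv hs
          exact ⟨l, t, fun _ => ⟨h2.1, Or.inr ⟨hd, h, h2.2⟩⟩⟩
      · exact ⟨φ.π k, φ.β (P.dst k), fun _ => ⟨hs, Or.inl ⟨hd, rfl, rfl⟩⟩⟩
    · exact ⟨[], φ.β v, fun h => absurd h hk⟩
  choose lk tk hlt using hex
  have hlsub : ∀ k ∈ O, ∀ x ∈ lk k, x ∈ φ.π k := by
    intro k hk x hx
    rcases (hlt k hk).2 with ⟨-, -, h⟩ | ⟨-, h, -⟩
    · rw [h]; exact hx
    · rw [h]; exact List.mem_append_left _ hx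
  have htloop : ∀ k ∈ O, P.dst k = v → tk k ∈ φ.π k := by
    intro k hk hd
    rcases (hlt k hk).2 with ⟨h, -, -⟩ | ⟨-, h, -⟩
    · exact absurd hd h
    · rw [h]; simp
  have htnon : ∀ k ∈ O, P.dst k ≠ v → tk k = φ.β (P.dst k) := by
    intro k hk hd
    rcases (hlt k hk).2 with ⟨-, h, -⟩ | ⟨h, -, -⟩
    · exact h
    · exact absurd h hd
  set Tg : Finset V := Finset.univ.filter (fun x => (∃ i < P.n, i ≠ v ∧ x = φ.β i) ∨
    (∃ k < P.m, P.src k ≠ v ∧ x ∈ φ.π k) ∨ (∃ k ∈ O, P.dst k = v ∧ x = tk k)) with hTgdef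
  have hTg : ∀ x, x ∈ Tg ↔ (∃ i < P.n, i ≠ v ∧ x = φ.β i) ∨
      (∃ k < P.m, P.src k ≠ v ∧ x ∈ φ.π k) ∨ (∃ k ∈ O, P.dst k = v ∧ x = tk k) := by
    intro x
    rw [hTgdef, Finset.mem_filter]
    exact and_iff_right (Finset.mem_univ x)
  have hvTg : φ.β v ∉ Tg := by
    rw [hTg]
    rintro (⟨i, hi, hiv, h⟩ | ⟨k, hk, -, h⟩ | ⟨k, hk, hd, h⟩)
    · exact hiv (φ.inj v hv i hi h).symm
    · exact φ.avoid k hk v hv h
    · exact φ.avoid k ((hO k).1 hk).1 v hv (h ▸ htloop k hk hd)
  have htTg : ∀ k ∈ O, tk k ∈ Tg := by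
    intro k hk
    rw [hTg]
    by_cases hd : P.dst k = v
    · exact Or.inr (Or.inr ⟨k, hk, hd, rfl⟩)
    · exact Or.inl ⟨P.dst k, (hW k ((hO k).1 hk).1).2, hd, htnon k hk hd⟩
  have htinj : ∀ k ∈ O, ∀ k' ∈ O, tk k = tk k' → k = k' := by
    intro k hk k' hk' he
    have h1 := (hO k).1 hk
    have h2 := (hO k').1 hk'
    by_cases hd : P.dst k = v <;> by_cases hd' : P.dst k' = v
    · exact dst_out ho k h1.1 k' h2.1 h1.2 h2.2 (hd.trans hd'.symm)
    · rw [htnon k' hk' hd'] at he
      exact absurd (he ▸ htloop k hk hd) (φ.avoid k h1.1 _ (hW k' h2.1).2)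
    · rw [htnon k hk hd] at he
      exact absurd (he ▸ htloop k' hk' hd') (φ.avoid k' h2.1 _ (hW k h1.1).2)
    · rw [htnon k hk hd, htnon k' hk' hd'] at he
      exact dst_out ho k h1.1 k' h2.1 h1.2 h2.2
        (φ.inj _ (hW k h1.1).2 _ (hW k' h2.1).2 he)
  have hlnd : ∀ k ∈ O, (lk k).Nodup := by
    intro k hk
    have h0 := φ.nodup k ((hO k).1 hk).1
    rcases (hlt k hk).2 with ⟨-, -, h⟩ | ⟨-, h, -⟩
    · rw [← h]; exact h0
    · rw [h] at h0
      exact (List.nodup_append.1 h0).1
  have hltn : ∀ k ∈ O, tk k ∉ lk k := by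
    intro k hk hx
    have h0 := φ.nodup k ((hO k).1 hk).1
    rcases (hlt k hk).2 with ⟨-, h1, h⟩ | ⟨-, h, -⟩
    · rw [h1, ← h] at hx
      exact φ.avoid k ((hO k).1 hk).1 _ (hW k ((hO k).1 hk).1).2 hx
    · rw [h] at h0
      exact (List.nodup_append.1 h0).2.2 _ hx _ (List.mem_singleton.2 rfl) rfl
  have hlTg : ∀ k ∈ O, ∀ x ∈ lk k, x ∉ Tg ∧ x ≠ φ.β v := by
    intro k hk x hx
    have h1 := (hO k).1 hk
    have hx' := hlsub k hk x hx
    refine ⟨?_, fun h => φ.avoid k h1.1 v hv (h ▸ hx')⟩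
    rw [hTg]
    rintro (⟨i, hi, hiv, h⟩ | ⟨k', hk', hs, h⟩ | ⟨k', hk', hd, h⟩)
    · exact φ.avoid k h1.1 i hi (h ▸ hx')
    · have hne : k ≠ k' := fun e => hs (e ▸ h1.2)
      exact φ.disj k h1.1 k' hk' hne hx' h
    · by_cases hne : k = k'
      · subst hne
        exact hltn k hk (h ▸ hx)
      · exact φ.disj k h1.1 k' ((hO k').1 hk').1 hne hx' (h ▸ htloop k' hk' hd)
  have fan : IsFan E (φ.β v) Tg O.card (fun i => lk (O.equivFin.symm i))
      (fun i => tk (O.equivFin.symm i)) := by
    refine ⟨fun i => (hlt _ (O.equivFin.symm i).2).1, fun i => hlnd _ (O.equivFin.symm i).2,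
      fun i => htTg _ (O.equivFin.symm i).2, ?_, ?_, fun i => hlTg _ (O.equivFin.symm i).2⟩
    · intro i j hij
      have := htinj _ (O.equivFin.symm i).2 _ (O.equivFin.symm j).2 hij
      exact O.equivFin.symm.injective (Subtype.ext this)
    · intro i j hij x hx hx'
      have hne : ((O.equivFin.symm i : O) : ℕ) ≠ (O.equivFin.symm j : O) := fun e =>
        hij (O.equivFin.symm.injective (Subtype.ext e))
      exact φ.disj _ ((hO _).1 (O.equivFin.symm i).2).1 _ ((hO _).1 (O.equivFin.symm j).2).1 hne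
        (hlsub _ (O.equivFin.symm i).2 x hx) (hlsub _ (O.equivFin.symm j).2 x hx')
  obtain ⟨l', t', hf, hcov⟩ := hfan V E (φ.β v) Tg O.card _ _ hvTg fan (fun Y hY hYc =>
    hsep (φ.β v) Tg Y ca cl hcyc (fun x hx => by
      rw [hTg]
      rcases hcmem x hx with h | h
      · exact Or.inl h
      · exact Or.inr (Or.inl h)) hvTg hY (hYc.trans hOc))
  obtain ⟨hf1, hf2, hf3, hf4, hf5, hf6⟩ := hf
  have hJex : ∀ k, ∃ j : Fin (O.card + 1), k ∈ O → t' j = tk k := by
    intro k
    by_cases hk : k ∈ O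
    · obtain ⟨j, hj⟩ := hcov (O.equivFin ⟨k, hk⟩)
      refine ⟨j, fun _ => ?_⟩
      rw [hj]
      simp
    · exact ⟨0, fun h => absurd h hk⟩
  choose J hJ using hJex
  obtain ⟨j0, hj0⟩ : ∃ j0 : Fin (O.card + 1), ∀ k ∈ O, J k ≠ j0 := by
    by_contra hcon
    push Not at hcon
    have h1 : (Finset.univ : Finset (Fin (O.card + 1))) ⊆ O.image J := by
      intro j _
      obtain ⟨k, hk, hkj⟩ := hcon j
      exact Finset.mem_image.2 ⟨k, hk, hkj⟩
    have h2 := Finset.card_le_card h1
    rw [Finset.card_univ, Fintype.card_fin] at h2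
    have h3 : (O.image J).card ≤ O.card := Finset.card_image_le
    omega
  have hJinj : ∀ k ∈ O, ∀ k' ∈ O, J k = J k' → k = k' := by
    intro k hk k' hk' he
    apply htinj k hk k' hk'
    rw [← hJ k hk, ← hJ k' hk', he]
  -- the new paths
  set N : ℕ → List V := fun k => if P.src k = v then
    (if P.dst k = v then l' (J k) ++ [tk k] else l' (J k)) else φ.π k with hN
  have hN1 : ∀ k, P.src k ≠ v → N k = φ.π k := fun k h => if_neg h
  have hN2 : ∀ k, P.src k = v → P.dst k = v → N k = l' (J k) ++ [tk k] := by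
    intro k h h'
    rw [hN]
    show (if P.src k = v then _ else _) = _
    rw [if_pos h, if_pos h']
  have hN3 : ∀ k, P.src k = v → P.dst k ≠ v → N k = l' (J k) := by
    intro k h h'
    rw [hN]
    show (if P.src k = v then _ else _) = _
    rw [if_pos h, if_neg h']
  have hNmem : ∀ k < P.m, P.src k = v → ∀ x ∈ N k, x ∈ l' (J k) ∨ (P.dst k = v ∧ x = tk k) := by
    intro k _ hs x hx
    by_cases hd : P.dst k = v
    · rw [hN2 k hs hd] at hx
      rcases List.mem_append.1 hx with h | h
      · exact Or.inl h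
      · exact Or.inr ⟨hd, List.mem_singleton.1 h⟩
    · rw [hN3 k hs hd] at hx
      exact Or.inl hx
  have hdisj : ∀ k < P.m, ∀ k' < P.m, k ≠ k' → List.Disjoint (N k) (N k') := by
    intro k hk k' hk' hkk x hx hx'
    by_cases hs : P.src k = v <;> by_cases hs' : P.src k' = v
    · have hkO : k ∈ O := (hO k).2 ⟨hk, hs⟩
      have hkO' : k' ∈ O := (hO k').2 ⟨hk', hs'⟩
      rcases hNmem k hk hs x hx with h | ⟨h, e⟩ <;> rcases hNmem k' hk' hs' x hx' with h' | ⟨h', e'⟩
      · exact hf5 _ _ (fun e => hkk (hJinj k hkO k' hkO' e)) h h'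
      · exact (hf6 _ x h).1 (e' ▸ htTg k' hkO')
      · exact (hf6 _ x h').1 (e ▸ htTg k hkO)
      · exact hkk (htinj k hkO k' hkO' (e.symm.trans e'))
    · have hkO : k ∈ O := (hO k).2 ⟨hk, hs⟩
      rw [hN1 k' hs'] at hx'
      rcases hNmem k hk hs x hx with h | ⟨h, e⟩
      · exact (hf6 _ x h).1 ((hTg x).2 (Or.inr (Or.inl ⟨k', hk', hs', hx'⟩)))
      · exact φ.disj k hk k' hk' hkk (e ▸ htloop k hkO h) hx'
    · have hkO' : k' ∈ O := (hO k').2 ⟨hk', hs'⟩
      rw [hN1 k hs] at hx
      rcases hNmem k' hk' hs' x hx' with h | ⟨h, e⟩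
      · exact (hf6 _ x h).1 ((hTg x).2 (Or.inr (Or.inl ⟨k, hk, hs, hx⟩)))
      · exact φ.disj k hk k' hk' hkk hx (e ▸ htloop k' hkO' h)
    · rw [hN1 k hs] at hx
      rw [hN1 k' hs'] at hx'
      exact φ.disj k hk k' hk' hkk hx hx'
  refine ⟨{
    β := φ.β
    π := N
    inj := φ.inj
    seg := ?_
    nodup := ?_
    disj := hdisj
    avoid := ?_
    npar := ?_ }, l' j0, t' j0, ?_, ?_, hf2 j0, ?_, ?_, ?_⟩
  · intro k hk
    by_cases hs : P.src k = v
    · have hkO : k ∈ O := (hO k).2 ⟨hk, hs⟩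
      have h1 := hf1 (J k)
      rw [hJ k hkO] at h1
      by_cases hd : P.dst k = v
      · rw [hN2 k hs hd, hs, hd]
        rcases (hlt k hkO).2 with ⟨h, -, -⟩ | ⟨-, -, h⟩
        · exact absurd hd h
        · exact seg_snoc h1 h
      · rw [hN3 k hs hd, hs, ← htnon k hkO hd]
        exact h1
    · rw [hN1 k hs]
      exact φ.seg k hk
  · intro k hk
    by_cases hs : P.src k = v
    · have hkO : k ∈ O := (hO k).2 ⟨hk, hs⟩
      by_cases hd : P.dst k = v
      · rw [hN2 k hs hd, List.nodup_append]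
        refine ⟨hf2 _, List.nodup_singleton _, ?_⟩
        intro x hx y hy e
        rw [List.mem_singleton.1 hy] at e
        exact (hf6 _ x hx).1 (e ▸ htTg k hkO)
      · rw [hN3 k hs hd]
        exact hf2 _
    · rw [hN1 k hs]
      exact φ.nodup k hk
  · intro k hk i hi hx
    by_cases hs : P.src k = v
    · have hkO : k ∈ O := (hO k).2 ⟨hk, hs⟩
      rcases hNmem k hk hs _ hx with h | ⟨h, e⟩
      · by_cases hiv : i = v
        · subst hiv
          exact (hf6 _ _ h).2 rfl
        · exact (hf6 _ _ h).1 ((hTg _).2 (Or.inl ⟨i, hi, hiv, rfl⟩))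
      · exact φ.avoid k hk i hi (e ▸ htloop k hkO h)
    · rw [hN1 k hs] at hx
      exact φ.avoid k hk i hi hx
  · intro k hk k' hk' hkk hs hd
    by_cases hs1 : P.src k = v
    · exact absurd (dst_out ho k hk k' hk' hs1 (hs ▸ hs1) hd) hkk
    · have hs2 : P.src k' ≠ v := hs ▸ hs1
      rw [hN1 k hs1, hN1 k' hs2]
      exact φ.npar k hk k' hk' hkk hs hd
  · intro k _ hs
    exact hN1 k hs
  · exact hf1 j0
  · intro k hk x hx hx'
    by_cases hs : P.src k = v
    · have hkO : k ∈ O := (hO k).2 ⟨hk, hs⟩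
      rcases hNmem k hk hs x hx' with h | ⟨h, e⟩
      · exact hf5 _ _ (hj0 k hkO) h hx
      · exact (hf6 _ x hx).1 (e ▸ htTg k hkO)
    · have hx2 : x ∈ φ.π k := by
        rw [← hN1 k hs]
        exact hx'
      exact (hf6 _ x hx).1 ((hTg x).2 (Or.inr (Or.inl ⟨k, hk, hs, hx2⟩)))
  · intro i hi hx
    by_cases hiv : i = v
    · subst hiv
      exact (hf6 _ _ hx).2 rfl
    · exact (hf6 _ _ hx).1 ((hTg _).2 (Or.inl ⟨i, hi, hiv, rfl⟩))
  · have hne : ∀ k ∈ O, t' j0 ≠ tk k := by
      intro k hk he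
      rw [← hJ k hk] at he
      exact hj0 k hk (hf4 he).symm
    rcases (hTg _).1 (hf3 j0) with ⟨i, hi, hiv, h⟩ | ⟨k, hk, hs, h⟩ | ⟨k, hk, hd, h⟩
    · refine Or.inl ⟨i, hi, hiv, h, fun k hk hs hd => ?_⟩
      have hkO : k ∈ O := (hO k).2 ⟨hk, hs⟩
      apply hne k hkO
      rw [htnon k hkO (hd ▸ hiv), hd]
      exact h
    · refine Or.inr ⟨k, hk, hs, ?_⟩
      show t' j0 ∈ N k
      rw [hN1 k hs]
      exact h
    · exact absurd h (hne k hk)

end StepAux

open StepAux in
/-- One move of the game. -/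
theorem step : StmtWalk → StmtFan → StmtStep := by
  intro hw hfan V _ _ E hirr hsep P v cyc hW hv ho2 ho hc φ
  obtain ⟨ψ, L, h, h1, h2, h3, h4, h5, h6⟩ := reroute hw hfan hirr hsep hW hv ho2 ho hc φ
  have hlen : ∀ l, l ≠ 0 → ψ.len l = φ.len l := by
    intro l hl
    rw [len_eq, len_eq]
    refine Finset.sum_congr rfl fun k hk => ?_
    have hk' := Finset.mem_range.1 hk
    by_cases hs : P.src k = v
    · rw [lab_out ho hk' hs, if_neg hl.symm, if_neg hl.symm]
    · rw [h1 k hk' hs]
  rcases h6 with ⟨i, hi, hiv, rfl, hd⟩ | ⟨k, hk, hs, hx⟩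
  · obtain ⟨χ, hχ⟩ := exists_childV ψ h2 h3 h4 h5 hd
    refine ⟨childV P v i, ?_, χ, fun l hl => (hχ l hl).trans (hlen l hl)⟩
    unfold children
    refine List.mem_append_left _ (List.mem_map.2 ⟨i, List.mem_filter.2
      ⟨List.mem_range.2 hi, ?_⟩, rfl⟩)
    rw [Bool.and_eq_true]
    refine ⟨by simpa using hiv, ?_⟩
    rw [Bool.not_eq_true']
    by_contra hcon
    rw [Bool.not_eq_false] at hcon
    have hmem : (v, i, 0) ∈ P.arcs := List.mem_of_elem_eq_true hcon
    obtain ⟨k, hk, hke⟩ := List.getElem_of_mem hmem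
    have e1 : P.arcs.getD k (0, 0, 0) = (v, i, 0) := by
      rw [List.getD_eq_getElem _ _ hk, hke]
    refine hd k hk ?_ ?_
    · unfold Pat.src; rw [e1]
    · unfold Pat.dst; rw [e1]
  · obtain ⟨p, s, hps⟩ := List.append_of_mem hx
    obtain ⟨χ, hχ⟩ := exists_childE ψ hW hv hk hs hps h2 h3 h4 h5
    refine ⟨childE P v k, ?_, χ, fun l hl => (hχ l hl).trans (hlen l hl)⟩
    unfold children
    refine List.mem_append_right _ (List.mem_map.2 ⟨k, List.mem_filter.2
      ⟨List.mem_range.2 hk, ?_⟩, rfl⟩)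
    unfold free
    simpa using hs

end BiP4

end

section

/-!
# MP_d76268_co: terminal strong component
-/

namespace BiP4

theorem terminal_mem {V : Type} {E : V → V → Prop} {R : Set V} {x y : V} (hx : x ∈ R)
    (h : ReachIn E R x y) : y ∈ R := by
  unfold ReachIn at h
  induction h with
  | refl => exact hx
  | tail _ h _ => exact h.2.1

theorem terminal_stay {V : Type} {E : V → V → Prop} {R Q : Set V}
    (hcl : ∀ x ∈ Q, ∀ y ∈ R, E x y → y ∈ Q) {a b : V} (ha : a ∈ Q)
    (h : ReachIn E R a b) : ReachIn E Q a b ∧ b ∈ Q := by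
  unfold ReachIn at h ⊢
  induction h with
  | refl => exact ⟨Relation.ReflTransGen.refl, ha⟩
  | tail _ h ih =>
    obtain ⟨i1, i2⟩ := ih
    have h3 := hcl _ i2 _ h.2.1 h.2.2
    exact ⟨i1.tail ⟨i2, h3, h.2.2⟩, h3⟩

theorem terminal : StmtTerminal := by
  classical
  intro V _ E R hR
  obtain ⟨x, hxR, hmin⟩ : ∃ x ∈ R, ∀ y ∈ R,
      {z | ReachIn E R x z}.ncard ≤ {z | ReachIn E R y z}.ncard := by
    obtain ⟨x, hx, h⟩ := (Set.toFinite R).exists_minimalFor
      (fun x => {z | ReachIn E R x z}.ncard) R hR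
    refine ⟨x, hx, fun y hy => ?_⟩
    by_contra hlt
    push Not at hlt
    exact absurd (h hy hlt.le) (by
      push Not
      exact hlt)
  have hcl : ∀ y ∈ {z | ReachIn E R x z}, ∀ z ∈ R, E y z → z ∈ {z | ReachIn E R x z} := by
    intro y hy z hz hE
    exact Relation.ReflTransGen.tail hy ⟨terminal_mem hxR hy, hz, hE⟩
  refine ⟨{z | ReachIn E R x z}, fun y hy => terminal_mem hxR hy,
    ⟨x, Relation.ReflTransGen.refl⟩, ?_, hcl⟩
  intro a ha b hb
  have haR : a ∈ R := terminal_mem hxR ha
  have hsub : {z | ReachIn E R a z} ⊆ {z | ReachIn E R x z} :=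
    fun z hz => Relation.ReflTransGen.trans ha hz
  have heq : {z | ReachIn E R a z} = {z | ReachIn E R x z} :=
    Set.eq_of_subset_of_ncard_le hsub (hmin a haR) (Set.toFinite _)
  have hb' : ReachIn E R a b := by
    have : b ∈ {z | ReachIn E R a z} := by
      rw [heq]
      exact hb
    exact this
  exact (terminal_stay hcl ha hb').1

end BiP4

end

section

/-!
# MP_d76268_co: three disjoint cycles (assembly)
-/

namespace BiP4

namespace ThreeAux

theorem cyc_mono {V : Type} {E E' : V → V → Prop} (h : ∀ x y, E x y → E' x y) {a : V}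
    {l : List V} (hc : Cyc E a l) : Cyc E' a l :=
  ⟨List.IsChain.imp (fun x y hxy => h x y hxy) hc.1, hc.2⟩

theorem hasCyc_mono {V : Type} {E E' : V → V → Prop} (h : ∀ x y, E x y → E' x y) {k : ℕ}
    (hc : HasCyc E k) : HasCyc E' k := by
  obtain ⟨a, l, h1, h2⟩ := hc
  exact ⟨a, l, fun i => cyc_mono h (h1 i), h2⟩

theorem outGe_mono {V : Type} {E : V → V → Prop} {r r' : ℕ} (h : r' ≤ r) {v : V}
    (ho : OutGe E r v) : OutGe E r' v := by
  obtain ⟨F, h1, h2⟩ := ho
  exact ⟨F, h.trans h1, h2⟩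

/-- Finite nonempty loopless digraphs with all out-degrees at least `r` have `k` disjoint
cycles. -/
def Claim (k r : ℕ) : Prop := ∀ (V : Type) [Fintype V] [DecidableEq V] (E : V → V → Prop),
  Nonempty V → (∀ x, ¬ E x x) → (∀ v, OutGe E r v) → HasCyc E k

theorem claim_mono {k r r' : ℕ} (h : r' ≤ r) (hc : Claim k r') : Claim k r := by
  intro V _ _ E hne hirr hout
  exact hc V E hne hirr fun v => outGe_mono h (hout v)

theorem claim_one (hL : StmtColour) {r : ℕ} (hr : 1 ≤ r) : Claim 1 r := by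
  intro V _ _ E hne hirr hout
  refine hL V E r 1 le_rfl hirr hout ?_
  have hn : 1 ≤ Fintype.card V := Fintype.card_pos
  have h1 : (1 - 1) ^ r = 0 := zero_pow (by omega)
  have h2 : (1 - 1) ^ Fintype.card V = 0 := zero_pow (by omega)
  rw [h1, h2]
  simp

theorem claim_step (hC : StmtContract) (hD : StmtDigon) (hS : StmtSource) (hB : StmtBound)
    (hL : StmtColour) (k r : ℕ) (hr : 1 ≤ r) (h1 : Claim k r)
    (num : ∀ n, r + 2 ≤ n → n ≤ 4 * k * (r + 2) ^ 2 →
      n * k ^ (r + 2) * (k + 1) ^ (n - (r + 2)) + (k + 1) * k ^ n < (k + 1) ^ n) :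
    Claim (k + 1) (r + 2) := by
  have main : ∀ N : ℕ, ∀ (V : Type) (iF : Fintype V) (iD : DecidableEq V) (E : V → V → Prop),
      Fintype.card V < N → Nonempty V → (∀ x, ¬ E x x) → (∀ v, OutGe E (r + 2) v) →
      HasCyc E (k + 1) := by
    intro N
    induction N with
    | zero => intro V iF iD E h; exact absurd h (Nat.not_lt_zero _)
    | succ N ih =>
      intro V iF iD E hcard hne hirr hout
      by_cases hdig : ∃ u v, E u v ∧ E v u
      · obtain ⟨u, v, huv, hvu⟩ := hdig
        obtain ⟨V', iF', iD', E', hne', -, hirr', hout', himp⟩ :=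
          hD V E r k u v hr hirr hout huv hvu
        exact himp (h1 V' E' hne' hirr' hout')
      · -- choose exactly `r + 2` out-neighbours
        have hG : ∀ x, ∃ G : Finset V, G.card = r + 2 ∧ ∀ y ∈ G, E x y := by
          intro x
          obtain ⟨F, hF1, hF2⟩ := hout x
          obtain ⟨G, hGF, hGc⟩ := Finset.exists_subset_card_eq hF1
          exact ⟨G, hGc, fun y hy => hF2 y (hGF hy)⟩
        choose G hGc hGE using hG
        let E0 : V → V → Prop := fun x y => y ∈ G x
        have hE0 : ∀ x y, E0 x y → E x y := fun x y h => hGE x y h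
        have hirr0 : ∀ x, ¬ E0 x x := fun x h => hirr x (hE0 x x h)
        have hanti0 : ∀ x y, E0 x y → ¬ E0 y x := fun x y h h' =>
          hdig ⟨x, y, hE0 x y h, hE0 y x h'⟩
        have hout0 : ∀ x, OutGe E0 (r + 2) x := fun x => ⟨G x, (hGc x).ge, fun y hy => hy⟩
        refine hasCyc_mono hE0 ?_
        by_cases hsrc : ∃ u, ∀ w, ¬ E0 w u
        · obtain ⟨u, hu⟩ := hsrc
          obtain ⟨V', iF', iD', E', hne', hlt, hirr', hout', himp⟩ :=
            hS V E0 (r + 2) (k + 1) u (by omega) hirr0 hout0 hu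
          exact himp (ih V' iF' iD' E' (by omega) hne' hirr' hout')
        · push Not at hsrc
          by_cases hcon : ∃ u v, E0 u v ∧ ∀ w, E0 w u → ¬ E0 w v
          · obtain ⟨u, v, huv, hw⟩ := hcon
            obtain ⟨V', iF', iD', E', hne', hlt, hirr', hout', himp⟩ :=
              hC V E0 (r + 2) (k + 1) u v hirr0 hanti0 hout0 huv hw
            exact himp (ih V' iF' iD' E' (by omega) hne' hirr' hout')
          · push Not at hcon
            by_contra hno
            have hdec : DecidableRel E0 := fun x y => inferInstanceAs (Decidable (y ∈ G x))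
            have hb : Fintype.card V ≤ 4 * k * (r + 2) ^ 2 := by
              refine hB V E0 (r + 2) k (by omega) hirr0 (fun x => ?_) hsrc
                (fun u v h => hcon u v h) hno
              have : Finset.univ.filter (fun y => E0 x y) = G x := by
                ext y
                simp [E0]
              rw [this, hGc]
            have hge : r + 2 ≤ Fintype.card V := by
              obtain ⟨x⟩ := hne
              rw [← hGc x]
              exact Finset.card_le_univ _
            refine hno (hL V E0 (r + 2) (k + 1) (by omega) hirr0 hout0 ?_)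
            have := num (Fintype.card V) hge hb
            simpa using this
  intro V iF iD E hne hirr hout
  exact main (Fintype.card V + 1) V iF iD E (Nat.lt_succ_self _) hne hirr hout

end ThreeAux

open ThreeAux

theorem three (hC : StmtContract) (hD : StmtDigon) (hS : StmtSource) (hB : StmtBound)
    (hL : StmtColour) : StmtThree := by
  have c1 : Claim 1 14 := claim_one hL (by norm_num)
  have c2 : Claim 2 16 := by
    refine claim_step hC hD hS hB hL 1 14 (by norm_num) c1 fun n hn hn' => ?_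
    obtain ⟨m, rfl⟩ := Nat.exists_eq_add_of_le hn
    have e1 : 14 + 2 + m - (14 + 2) = m := by omega
    have h2 : 1 ≤ 2 ^ m := Nat.one_le_two_pow
    have h3 : (14 + 2 + m) ≤ 1024 := by simpa using hn'
    rw [e1, one_pow, one_pow, mul_one, mul_one, one_add_one_eq_two, pow_add]
    calc (14 + 2 + m) * 2 ^ m + 2 ≤ 1024 * 2 ^ m + 2 * 2 ^ m := by
          apply add_le_add (Nat.mul_le_mul_right _ h3)
          omega
      _ = 1026 * 2 ^ m := by ring
      _ < 2 ^ (14 + 2) * 2 ^ m := by
          apply Nat.mul_lt_mul_of_pos_right (by norm_num) (by positivity)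
  have c2' : Claim 2 30 := claim_mono (by norm_num) c2
  have c3 : Claim 3 32 := by
    refine claim_step hC hD hS hB hL 2 30 (by norm_num) c2' fun n hn hn' => ?_
    obtain ⟨m, rfl⟩ := Nat.exists_eq_add_of_le hn
    have e1 : 30 + 2 + m - (30 + 2) = m := by omega
    have h3 : (30 + 2 + m) ≤ 8192 := by simpa using hn'
    have h4 : 2 ^ m ≤ 3 ^ m := Nat.pow_le_pow_left (by norm_num) m
    have e2 : (2 + 1 : ℕ) = 3 := rfl
    rw [e1, e2, pow_add 2 (30 + 2) m, pow_add 3 (30 + 2) m]
    calc (30 + 2 + m) * 2 ^ (30 + 2) * 3 ^ m + 3 * (2 ^ (30 + 2) * 2 ^ m)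
        ≤ 8192 * 2 ^ (30 + 2) * 3 ^ m + 3 * (2 ^ (30 + 2) * 3 ^ m) := by
          apply add_le_add
          · exact Nat.mul_le_mul_right _ (Nat.mul_le_mul_right _ h3)
          · exact Nat.mul_le_mul_left _ (Nat.mul_le_mul_left _ h4)
      _ = (8195 * 2 ^ (30 + 2)) * 3 ^ m := by ring
      _ < 3 ^ (30 + 2) * 3 ^ m := by
          apply Nat.mul_lt_mul_of_pos_right (by norm_num) (by positivity)
  intro V _ _ E hne hirr hout
  exact c3 V E hne hirr hout

end BiP4

end

section

/-!
# Two paths or one separating vertex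
-/

namespace BiP4

namespace TwoPath

universe u

section

variable {V : Type u} {E : V → V → Prop}

theorem seg_suffix {a c b : V} {u v : List V} (h : Seg E a (u ++ c :: v) b) : Seg E c v b := by
  unfold Seg at *
  have e : a :: ((u ++ c :: v) ++ [b]) = (a :: u) ++ (c :: (v ++ [b])) := by simp
  rw [e] at h
  exact (List.isChain_append.mp h).2.1

theorem seg_cons {a c b : V} {l : List V} : Seg E a (c :: l) b ↔ E a c ∧ Seg E c l b := by
  unfold Seg
  rw [List.cons_append, List.isChain_cons_cons]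

theorem seg_nil {a b : V} : Seg E a [] b ↔ E a b := by
  unfold Seg
  simp

/-- every walk contains a simple one -/
theorem simple (l : List V) : ∀ (a b : V), Seg E a l b →
    ∃ m : List V, Seg E a m b ∧ m.Nodup ∧ a ∉ m ∧ b ∉ m ∧ ∀ x ∈ m, x ∈ l := by
  classical
  induction l with
  | nil =>
    intro a b h
    exact ⟨[], h, List.nodup_nil, by simp, by simp, by simp⟩
  | cons c l ih =>
    intro a b h
    obtain ⟨h1, h2⟩ := seg_cons.mp h
    obtain ⟨m, hm, hn, hc, hb, hs⟩ := ih c b h2
    by_cases hac : a = c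
    · subst hac
      exact ⟨m, hm, hn, hc, hb, fun x hx => List.mem_cons_of_mem _ (hs x hx)⟩
    by_cases ham : a ∈ m
    · obtain ⟨u, v, rfl⟩ := List.append_of_mem ham
      have hn2 := (List.nodup_append.mp hn).2.1
      rw [List.nodup_cons] at hn2
      refine ⟨v, seg_suffix hm, hn2.2, hn2.1, fun hbv => hb (by simp [hbv]), fun x hx => ?_⟩
      exact List.mem_cons_of_mem _ (hs x (by simp [hx]))
    by_cases hcb : c = b
    · subst hcb
      exact ⟨[], seg_nil.mpr h1, List.nodup_nil, by simp, by simp, by simp⟩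
    · refine ⟨c :: m, seg_cons.mpr ⟨h1, hm⟩, List.nodup_cons.mpr ⟨hc, hn⟩, ?_, ?_, ?_⟩
      · simp [hac, ham]
      · simp [hb, Ne.symm hcb]
      · intro x hx
        rcases List.mem_cons.mp hx with rfl | hx
        · exact List.mem_cons_self
        · exact List.mem_cons_of_mem _ (hs x hx)

/-- the auxiliary digraph -/
def Es (E : V → V → Prop) (S : Set V) (s t : V) : Option V → Option V → Prop
  | some x, some y => x ∈ S ∧ y ∈ S ∧ x ≠ t ∧ y ≠ t ∧ x ≠ s ∧ E x y
  | some x, none => x ∈ S ∧ x ≠ s ∧ x ≠ t ∧ E x t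
  | none, _ => False

variable {S : Set V} {s t : V}

theorem chain_s (hs : s ∈ S) (hst : s ≠ t) (m : List V) :
    (∀ x ∈ m, x ∈ S ∧ x ≠ t ∧ x ≠ s) → (m ++ [s]).IsChain E →
    ((m ++ [s]).map some).IsChain (Es E S s t) := by
  induction m with
  | nil =>
    intro _ _
    simp
  | cons x m ih =>
    intro h hc
    have hx := h x List.mem_cons_self
    have hm := fun y hy => h y (List.mem_cons_of_mem x hy)
    cases m with
    | nil =>
      simp only [List.cons_append, List.nil_append, List.isChain_cons_cons] at hc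
      simp only [List.cons_append, List.nil_append, List.map_cons, List.map_nil,
        List.isChain_cons_cons]
      exact ⟨⟨hx.1, hs, hx.2.1, hst, hx.2.2, hc.1⟩, by simp⟩
    | cons y m =>
      simp only [List.cons_append, List.isChain_cons_cons] at hc
      have hy := hm y List.mem_cons_self
      have h1 := ih hm (by simpa using hc.2)
      simp only [List.cons_append, List.map_cons, List.isChain_cons_cons] at h1 ⊢
      exact ⟨⟨hx.1, hy.1, hx.2.1, hy.2.1, hx.2.2, hc.1⟩, h1⟩

theorem chain_t (m : List V) :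
    (∀ x ∈ m, x ∈ S ∧ x ≠ t ∧ x ≠ s) → (m ++ [t]).IsChain E →
    (m.map some ++ [none]).IsChain (Es E S s t) := by
  induction m with
  | nil =>
    intro _ _
    simp
  | cons x m ih =>
    intro h hc
    have hx := h x List.mem_cons_self
    have hm := fun y hy => h y (List.mem_cons_of_mem x hy)
    cases m with
    | nil =>
      simp only [List.cons_append, List.nil_append, List.isChain_cons_cons] at hc
      simp only [List.cons_append, List.nil_append, List.map_cons, List.map_nil,
        List.isChain_cons_cons]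
      exact ⟨⟨hx.1, hx.2.2, hx.2.1, hc.1⟩, by simp⟩
    | cons y m =>
      simp only [List.cons_append, List.isChain_cons_cons] at hc
      have hy := hm y List.mem_cons_self
      have h1 := ih hm (by simpa using hc.2)
      simp only [List.cons_append, List.map_cons, List.isChain_cons_cons] at h1 ⊢
      exact ⟨⟨hx.1, hy.1, hx.2.1, hy.2.1, hx.2.2, hc.1⟩, h1⟩

theorem conv_s (p : List (Option V)) : p.IsChain (Es E S s t) → p.getLast? = some (some s) →
    ∃ l : List V, p = (l ++ [s]).map some ∧ (l ++ [s]).IsChain E ∧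
      ∀ x ∈ l, x ∈ S ∧ x ≠ t ∧ x ≠ s := by
  induction p with
  | nil =>
    intro _ h
    simp at h
  | cons o p ih =>
    intro hc hl
    cases p with
    | nil =>
      simp only [List.getLast?_singleton, Option.some.injEq] at hl
      subst hl
      exact ⟨[], by simp, by simp, by simp⟩
    | cons o' p =>
      rw [List.isChain_cons_cons] at hc
      obtain ⟨l, hp, hlc, hls⟩ := ih hc.2 (by
        rw [List.getLast?_cons_cons] at hl
        exact hl)
      cases o with
      | none => exact absurd hc.1 (by simp [Es])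
      | some x =>
        have hcx := hc.1
        cases l with
        | nil =>
          simp only [List.nil_append, List.map_cons, List.map_nil, List.cons.injEq] at hp
          obtain ⟨rfl, rfl⟩ := hp
          simp only [Es] at hcx
          refine ⟨[x], by simp, by simpa using hcx.2.2.2.2.2, ?_⟩
          intro z hz
          rw [List.mem_singleton] at hz
          subst hz
          exact ⟨hcx.1, hcx.2.2.1, hcx.2.2.2.2.1⟩
        | cons y l =>
          simp only [List.cons_append, List.map_cons, List.cons.injEq] at hp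
          obtain ⟨rfl, hp⟩ := hp
          simp only [Es] at hcx
          refine ⟨x :: y :: l, ?_, ?_, ?_⟩
          · rw [hp]
            simp
          · simp only [List.cons_append, List.isChain_cons_cons] at hlc ⊢
            exact ⟨hcx.2.2.2.2.2, hlc⟩
          · intro z hz
            rcases List.mem_cons.mp hz with rfl | hz
            · exact ⟨hcx.1, hcx.2.2.1, hcx.2.2.2.2.1⟩
            · exact hls z hz

theorem conv_t (p : List (Option V)) : p.IsChain (Es E S s t) → p.getLast? = some none →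
    ∃ l : List V, p = l.map some ++ [none] ∧ (l ++ [t]).IsChain E ∧
      ∀ x ∈ l, x ∈ S ∧ x ≠ t ∧ x ≠ s := by
  induction p with
  | nil =>
    intro _ h
    simp at h
  | cons o p ih =>
    intro hc hl
    cases p with
    | nil =>
      simp only [List.getLast?_singleton, Option.some.injEq] at hl
      subst hl
      exact ⟨[], by simp, by simp, by simp⟩
    | cons o' p =>
      rw [List.isChain_cons_cons] at hc
      obtain ⟨l, hp, hlc, hls⟩ := ih hc.2 (by
        rw [List.getLast?_cons_cons] at hl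
        exact hl)
      cases o with
      | none => exact absurd hc.1 (by simp [Es])
      | some x =>
        have hcx := hc.1
        cases l with
        | nil =>
          simp only [List.nil_append, List.map_nil, List.cons.injEq] at hp
          obtain ⟨rfl, rfl⟩ := hp
          simp only [Es] at hcx
          refine ⟨[x], by simp, by simpa using hcx.2.2.2, ?_⟩
          intro z hz
          rw [List.mem_singleton] at hz
          subst hz
          exact ⟨hcx.1, hcx.2.2.1, hcx.2.1⟩
        | cons y l =>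
          simp only [List.cons_append, List.map_cons, List.cons.injEq] at hp
          obtain ⟨rfl, hp⟩ := hp
          simp only [Es] at hcx
          refine ⟨x :: y :: l, ?_, ?_, ?_⟩
          · rw [hp]
            simp
          · simp only [List.cons_append, List.isChain_cons_cons] at hlc ⊢
            exact ⟨hcx.2.2.2.2.2, hlc⟩
          · intro z hz
            rcases List.mem_cons.mp hz with rfl | hz
            · exact ⟨hcx.1, hcx.2.2.1, hcx.2.2.2.2.1⟩
            · exact hls z hz

/-- starting vertices -/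
def As (E : V → V → Prop) (S : Set V) (t : V) : Set (Option V) :=
  {o | ∃ x, o = some x ∧ x ∈ S ∧ x ≠ t ∧ E t x}

/-- final vertices -/
def Bs (s : V) : Set (Option V) := {o | o = some s ∨ o = none}

theorem isAB_s (hs : s ∈ S) (hst : s ≠ t) {m : List V} (hm : Seg E t m s) (hn : m.Nodup)
    (hsm : s ∉ m) (hS : ∀ x ∈ m, x ∈ S ∧ x ≠ t) :
    IsAB (Es E S s t) (As E S t) (Bs s) ((m ++ [s]).map some) := by
  refine ⟨by simp, ?_, ?_, ?_, ?_⟩
  · rw [List.nodup_map_iff (Option.some_injective V), List.nodup_append]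
    refine ⟨hn, by simp, ?_⟩
    intro a ha b hb hab
    rw [List.mem_singleton] at hb
    subst hb hab
    exact hsm ha
  · apply chain_s hs hst m
    · intro x hx
      exact ⟨(hS x hx).1, (hS x hx).2, fun h => hsm (h ▸ hx)⟩
    · unfold Seg at hm
      exact hm.of_cons
  · intro a ha
    cases m with
    | nil =>
      simp only [List.nil_append, List.map_cons, List.map_nil, List.head?_cons,
        Option.mem_def, Option.some.injEq] at ha
      exact ⟨s, ha.symm, hs, hst, seg_nil.mp hm⟩
    | cons x m =>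
      simp only [List.cons_append, List.map_cons, List.head?_cons,
        Option.mem_def, Option.some.injEq] at ha
      have hx := hS x List.mem_cons_self
      exact ⟨x, ha.symm, hx.1, hx.2, (seg_cons.mp hm).1⟩
  · intro b hb
    rw [List.map_append, List.map_cons, List.map_nil, List.getLast?_append] at hb
    simp at hb
    exact Or.inl hb.symm

theorem isAB_t (hirr : ¬ E t t) {m : List V} (hm : Seg E t m t) (hn : m.Nodup)
    (hsm : s ∉ m) (hS : ∀ x ∈ m, x ∈ S ∧ x ≠ t) :
    IsAB (Es E S s t) (As E S t) (Bs s) (m.map some ++ [none]) := by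
  refine ⟨by simp, ?_, ?_, ?_, ?_⟩
  · rw [List.nodup_append, List.nodup_map_iff (Option.some_injective V)]
    refine ⟨hn, by simp, ?_⟩
    intro a ha b hb hab
    rw [List.mem_singleton] at hb
    subst hb hab
    simp at ha
  · apply chain_t m
    · intro x hx
      exact ⟨(hS x hx).1, (hS x hx).2, fun h => hsm (h ▸ hx)⟩
    · unfold Seg at hm
      exact hm.of_cons
  · intro a ha
    cases m with
    | nil => exact absurd (seg_nil.mp hm) hirr
    | cons x m =>
      simp only [List.cons_append, List.map_cons, List.head?_cons,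
        Option.mem_def, Option.some.injEq] at ha
      have hx := hS x List.mem_cons_self
      exact ⟨x, ha.symm, hx.1, hx.2, (seg_cons.mp hm).1⟩
  · intro b hb
    rw [List.getLast?_append] at hb
    simp at hb
    exact Or.inr hb.symm

theorem getLast_mem {W : Type u} {l : List W} {b : W} (h : l.getLast? = some b) : b ∈ l :=
  List.mem_of_getLast? h

/-- two disjoint paths -/
theorem two (hst : s ≠ t) {p q : List (Option V)}
    (hp : IsAB (Es E S s t) (As E S t) (Bs s) p) (hq : IsAB (Es E S s t) (As E S t) (Bs s) q)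
    (hps : p.getLast? = some (some s)) (hqt : q.getLast? = some none)
    (hd : List.Disjoint p q) :
    ∃ l2 l3, Seg E t l2 s ∧ Seg E t l3 t ∧ (s :: t :: (l2 ++ l3)).Nodup ∧
    ∀ x ∈ l2 ++ l3, x ∈ S := by
  obtain ⟨l2, e2, c2, h2⟩ := conv_s p hp.2.2.1 hps
  obtain ⟨l3, e3, c3, h3⟩ := conv_t q hq.2.2.1 hqt
  have n2 : l2.Nodup := by
    have := hp.2.1
    rw [e2, List.nodup_map_iff (Option.some_injective V)] at this
    exact (List.nodup_append.mp this).1
  have n3 : l3.Nodup := by
    have := hq.2.1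
    rw [e3, List.nodup_append, List.nodup_map_iff (Option.some_injective V)] at this
    exact this.1
  have d23 : List.Disjoint l2 l3 := by
    intro x hx2 hx3
    apply hd (a := some x)
    · rw [e2]
      simp [hx2]
    · rw [e3]
      simp [hx3]
  refine ⟨l2, l3, ?_, ?_, ?_, ?_⟩
  · unfold Seg
    cases l2 with
    | nil =>
      have := hp.2.2.2.1 (some s) (by rw [e2]; simp)
      obtain ⟨x, hx, -, -, hE⟩ := this
      rw [Option.some.injEq] at hx
      subst hx
      simpa using hE
    | cons y l2 =>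
      have := hp.2.2.2.1 (some y) (by rw [e2]; simp)
      obtain ⟨x, hx, -, -, hE⟩ := this
      rw [Option.some.injEq] at hx
      subst hx
      simp only [List.cons_append, List.isChain_cons_cons] at c2 ⊢
      exact ⟨hE, c2⟩
  · unfold Seg
    cases l3 with
    | nil =>
      have := hq.2.2.2.1 none (by rw [e3]; simp)
      obtain ⟨x, hx, -⟩ := this
      simp at hx
    | cons y l3 =>
      have := hq.2.2.2.1 (some y) (by rw [e3]; simp)
      obtain ⟨x, hx, -, -, hE⟩ := this
      rw [Option.some.injEq] at hx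
      subst hx
      simp only [List.cons_append, List.isChain_cons_cons] at c3 ⊢
      exact ⟨hE, c3⟩
  · rw [List.nodup_cons, List.nodup_cons]
    refine ⟨?_, ?_, List.nodup_append.mpr ⟨n2, n3, ?_⟩⟩
    · intro h
      rcases List.mem_cons.mp h with h | h
      · exact hst h
      · rcases List.mem_append.mp h with h | h
        · exact (h2 s h).2.2 rfl
        · exact (h3 s h).2.2 rfl
    · intro h
      rcases List.mem_append.mp h with h | h
      · exact (h2 t h).2.1 rfl
      · exact (h3 t h).2.1 rfl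
    · intro a ha b hb hab
      subst hab
      exact d23 ha hb
  · intro x hx
    rcases List.mem_append.mp hx with h | h
    · exact (h2 x h).1
    · exact (h3 x h).1

theorem last_cases {p : List (Option V)} (hp : IsAB (Es E S s t) (As E S t) (Bs s) p) :
    p.getLast? = some (some s) ∨ p.getLast? = some none := by
  obtain ⟨hne, -, -, -, hl⟩ := hp
  have h1 : p.getLast? = some (p.getLast hne) := List.getLast?_eq_some_getLast hne
  have h2 := hl (p.getLast hne) h1
  rcases h2 with h2 | h2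
  · left
    rw [h1, h2]
  · right
    rw [h1, h2]

end

end TwoPath

open TwoPath in
/-- Two paths or one separating vertex. -/
theorem twoPath : StmtMenger → StmtTwoPath := by
  intro hM V _ _ E S s t hirr hs ht hst hwalk
  by_cases hsep : ∀ S' : Finset (Option V),
      (∀ l, IsAB (Es E S s t) (As E S t) (Bs s) l → ∃ x ∈ l, x ∈ S') → 2 ≤ S'.card
  · left
    obtain ⟨P, hP, hd⟩ := hM (Option V) (Es E S s t) (As E S t) (Bs s) 2 hsep
    have d01 := hd 0 1 (by simp)
    rcases last_cases (hP 0) with h0 | h0 <;> rcases last_cases (hP 1) with h1 | h1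
    · exact absurd (getLast_mem h1) (d01 (getLast_mem h0))
    · exact two hst (hP 0) (hP 1) h0 h1 d01
    · exact two hst (hP 1) (hP 0) h1 h0 d01.symm
    · exact absurd (getLast_mem h1) (d01 (getLast_mem h0))
  · right
    push Not at hsep
    obtain ⟨S', hS', hcard⟩ := hsep
    have key : ∀ l, Seg E t l s → (∀ x ∈ l, x ∈ S) → ∃ m : List V, (∀ x ∈ m, x ∈ l) ∧ t ∉ m ∧
        ∃ o ∈ S', ∃ y ∈ m ++ [s], o = some y := by
      intro l hl hlS
      obtain ⟨m, hm, hn, htm, hsm, hml⟩ := simple l t s hl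
      have h1 := isAB_s hs hst hm hn hsm (fun x hx => ⟨hlS x (hml x hx), fun h => htm (h ▸ hx)⟩)
      obtain ⟨o, ho, hoS⟩ := hS' _ h1
      rw [List.mem_map] at ho
      obtain ⟨y, hy, rfl⟩ := ho
      exact ⟨m, hml, htm, some y, hoS, y, hy, rfl⟩
    obtain ⟨l0, hl0, hl0S⟩ := hwalk
    obtain ⟨m0, hm0, htm0, o, hoS, y, hy, rfl⟩ := key l0 hl0 hl0S
    have huniq : ∀ o ∈ S', o = some y := by
      intro o ho
      have : S'.card ≤ 1 := by omega
      exact Finset.card_le_one.mp this o ho _ hoS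
    refine ⟨y, ?_, ?_, ?_⟩
    · rintro rfl
      rcases List.mem_append.mp hy with h | h
      · exact htm0 h
      · rw [List.mem_singleton] at h
        exact hst h.symm
    · intro l hl hlS
      obtain ⟨m, hm, -, o, ho, z, hz, rfl⟩ := key l hl hlS
      have := huniq _ ho
      rw [Option.some.injEq] at this
      subst this
      rcases List.mem_append.mp hz with h | h
      · exact List.mem_append_left _ (hm z h)
      · exact List.mem_append_right _ h
    · intro l hl hlS
      obtain ⟨m, hm, hn, htm, -, hml⟩ := simple l t t hl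
      have h1 := isAB_t (S := S) (s := s) (hirr t ht) hm hn (fun h => (hlS s (hml s h)).2 rfl)
        (fun x hx => ⟨(hlS x (hml x hx)).1, fun h => htm (h ▸ hx)⟩)
      obtain ⟨o, ho, hoS⟩ := hS' _ h1
      have h2 := huniq o hoS
      subst h2
      rcases List.mem_append.mp ho with h | h
      · rw [List.mem_map] at h
        obtain ⟨z, hz, hzy⟩ := h
        rw [Option.some.injEq] at hzy
        subst hzy
        exact hml z hz
      · simp at h

end BiP4

end

section

/-!
# WALK: concatenation of the paths of an embedding along a walk of the pattern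
-/

namespace BiP4

lemma Walk.seg_append {V : Type} {E : V → V → Prop} {a b c : V} {l l' : List V}
    (h : Seg E a l b) (h' : Seg E b l' c) : Seg E a (l ++ b :: l') c := by
  unfold Seg at *
  have h1 : List.IsChain E ((a :: l) ++ [b]) := h
  have h2 : List.IsChain E ([b] ++ (l' ++ [c])) := h'
  have h3 := h1.append_overlap h2 (by simp)
  simpa using h3

lemma Walk.walkB_src {P : Pat} {a b : ℕ} {k : ℕ} {l : List ℕ} (h : walkB P a b (k :: l) = true) :
    k < P.m ∧ P.src k = a := by
  cases l with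
  | nil =>
    simp only [walkB, Bool.and_eq_true, decide_eq_true_eq, beq_iff_eq] at h
    exact ⟨h.1.1, h.1.2⟩
  | cons k' l =>
    simp only [walkB, Bool.and_eq_true, decide_eq_true_eq, beq_iff_eq] at h
    exact ⟨h.1.1, h.1.2⟩

theorem walk : StmtWalk := by
  intro V E P φ w
  induction w with
  | nil => intro a b h; simp [walkB] at h
  | cons k l ih =>
    intro a b h
    cases l with
    | nil =>
      simp only [walkB, Bool.and_eq_true, decide_eq_true_eq, beq_iff_eq] at h
      obtain ⟨⟨hk, hs⟩, hd⟩ := h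
      refine ⟨?_, ?_, ?_, ?_, ?_, ?_, ?_⟩
      · have := φ.seg k hk
        rw [hs, hd] at this
        exact this
      · intro x hx
        exact Or.inl ⟨k, by simp, hx⟩
      · simp [catP]
      · intro _ _ _
        exact φ.nodup k hk
      · simpa using hk
      · simp [inner]
      · simp [inner]
    | cons k' l =>
      simp only [walkB, Bool.and_eq_true, decide_eq_true_eq, beq_iff_eq] at h
      obtain ⟨⟨hk, hs⟩, hw⟩ := h
      obtain ⟨i1, i2, i3, i4, i5, i6, i7⟩ := ih (P.dst k) b hw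
      refine ⟨?_, ?_, ?_, ?_, ?_, ?_, ?_⟩
      · have h1 := φ.seg k hk
        rw [hs] at h1
        exact Walk.seg_append h1 i1
      · intro x hx
        have hx' : x ∈ φ.π k ++ φ.β (P.dst k) :: catP φ (k' :: l) := hx
        rw [List.mem_append, List.mem_cons] at hx'
        rcases hx' with hx' | hx' | hx'
        · exact Or.inl ⟨k, by simp, hx'⟩
        · exact Or.inr ⟨P.dst k, by simp [inner], hx'⟩
        · rcases i2 x hx' with ⟨j, hj, hxj⟩ | ⟨y, hy, hxy⟩
          · exact Or.inl ⟨j, List.mem_cons_of_mem _ hj, hxj⟩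
          · exact Or.inr ⟨y, by simp only [inner]; exact List.mem_cons_of_mem _ hy, hxy⟩
      · have e : catP φ (k :: k' :: l) = φ.π k ++ φ.β (P.dst k) :: catP φ (k' :: l) := rfl
        rw [e, List.map_cons, List.sum_cons, ← i3]
        simp only [List.length_append, List.length_cons]
        omega
      · intro hW hnd hin
        have e : catP φ (k :: k' :: l) = φ.π k ++ φ.β (P.dst k) :: catP φ (k' :: l) := rfl
        have ein : inner P (k :: k' :: l) = P.dst k :: inner P (k' :: l) := rfl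
        rw [ein, List.nodup_cons] at hin
        rw [List.nodup_cons] at hnd
        have hdk : P.dst k < P.n := (hW k hk).2
        rw [e, List.nodup_append]
        refine ⟨φ.nodup k hk, ?_, ?_⟩
        · rw [List.nodup_cons]
          refine ⟨?_, i4 hW hnd.2 hin.2⟩
          intro hx
          rcases i2 _ hx with ⟨j, hj, hxj⟩ | ⟨y, hy, hxy⟩
          · exact φ.avoid j (i5 j hj) _ hdk hxj
          · obtain ⟨j, hj, hyj⟩ := i6 y hy
            have hyn : y < P.n := by rw [hyj]; exact (hW j (i5 j hj)).2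
            have := φ.inj _ hdk _ hyn hxy
            rw [this] at hin
            exact hin.1 hy
        · intro x hx y hy hxy
          subst hxy
          rw [List.mem_cons] at hy
          rcases hy with hy | hy
          · rw [hy] at hx
            exact φ.avoid k hk _ hdk hx
          · rcases i2 _ hy with ⟨j, hj, hxj⟩ | ⟨z, hz, hxz⟩
            · have hkj : k ≠ j := fun h => hnd.1 (h ▸ hj)
              exact φ.disj k hk j (i5 j hj) hkj hx hxj
            · obtain ⟨j, hj, hzj⟩ := i6 z hz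
              have hzn : z < P.n := by rw [hzj]; exact (hW j (i5 j hj)).2
              rw [hxz] at hx
              exact φ.avoid k hk _ hzn hx
      · intro j hj
        rw [List.mem_cons] at hj
        rcases hj with rfl | hj
        · exact hk
        · exact i5 j hj
      · intro y hy
        have hy' : y ∈ P.dst k :: inner P (k' :: l) := hy
        rw [List.mem_cons] at hy'
        rcases hy' with rfl | hy'
        · exact ⟨k, by simp, rfl⟩
        · obtain ⟨j, hj, hyj⟩ := i6 y hy'
          exact ⟨j, List.mem_cons_of_mem _ hj, hyj⟩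
      · intro y hy
        have hy' : y ∈ P.dst k :: inner P (k' :: l) := hy
        rw [List.mem_cons] at hy'
        rcases hy' with rfl | hy'
        · exact ⟨k', by simp, (Walk.walkB_src hw).2.symm⟩
        · obtain ⟨j, hj, hyj⟩ := i7 y hy'
          exact ⟨j, List.mem_cons_of_mem _ hj, hyj⟩

end BiP4

end

section

/-!
# MP_d76268_co: the theorem for strong digraphs
-/

namespace BiP4

set_option linter.unusedSectionVars false

section

variable {V : Type} [Fintype V] [DecidableEq V] {E : V → V → Prop}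

/-- a configuration that occurs nowhere -/
theorem holds_of_not {m : ℕ → ℕ} {P : Pat} {lt : ℕ} (h : ¬ Nonempty (Emb E P)) :
    Spec.Holds E m ⟨P, lt⟩ := fun φ _ _ => h ⟨φ⟩

/-- minimal length of the label 1 -/
theorem holds_lt1 {m : ℕ → ℕ} {P : Pat} (h : ∀ φ : Emb E P, m 1 ≤ φ.len 1) :
    Spec.Holds E m ⟨P, 1⟩ := by
  intro φ _ h2
  have := h2 one_ne_zero
  have h3 := h φ
  simp only at this
  omega

/-- minimal length of the label `lt` among the embeddings with exact length of the label 1 -/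
theorem holds_lt_1 {m : ℕ → ℕ} {P : Pat} {lt : ℕ} (hlt : lt ≠ 0) (k1 : ℕ) (hk1 : k1 < P.m)
    (hl1 : P.lab k1 = 1) (hne : (1 : ℕ) ≠ lt)
    (h : ∀ φ : Emb E P, φ.len 1 = m 1 → m lt ≤ φ.len lt) : Spec.Holds E m ⟨P, lt⟩ := by
  intro φ h1 h2
  have e1 := h1 k1 hk1 (by simp only [hl1]; decide) (by simp only [hl1]; exact hne)
  simp only [hl1] at e1
  have h3 := h φ e1
  have h4 := h2 hlt
  simp only at h4
  omega

/-- minimal length of the label `lt` among the embeddings with exact labels 1 and 2 -/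
theorem holds_lt_12 {m : ℕ → ℕ} {P : Pat} {lt : ℕ} (hlt : lt ≠ 0) (k1 k2 : ℕ) (hk1 : k1 < P.m)
    (hl1 : P.lab k1 = 1) (hne1 : (1 : ℕ) ≠ lt) (hk2 : k2 < P.m)
    (hl2 : P.lab k2 = 2) (hne2 : (2 : ℕ) ≠ lt)
    (h : ∀ φ : Emb E P, φ.len 1 = m 1 → φ.len 2 = m 2 → m lt ≤ φ.len lt) :
    Spec.Holds E m ⟨P, lt⟩ := by
  intro φ h1 h2
  have e1 := h1 k1 hk1 (by simp only [hl1]; decide) (by simp only [hl1]; exact hne1)
  simp only [hl1] at e1
  have e2 := h1 k2 hk2 (by simp only [hl2]; decide) (by simp only [hl2]; exact hne2)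
  simp only [hl2] at e2
  have h3 := h φ e1 e2
  have h4 := h2 hlt
  simp only at h4
  omega

/-- minimal length of the label `lt` among the embeddings with exact labels 1, 2 and 3 -/
theorem holds_lt_123 {m : ℕ → ℕ} {P : Pat} {lt : ℕ} (hlt : lt ≠ 0) (k1 k2 k3 : ℕ)
    (hk1 : k1 < P.m) (hl1 : P.lab k1 = 1) (hne1 : (1 : ℕ) ≠ lt) (hk2 : k2 < P.m)
    (hl2 : P.lab k2 = 2) (hne2 : (2 : ℕ) ≠ lt) (hk3 : k3 < P.m) (hl3 : P.lab k3 = 3)
    (hne3 : (3 : ℕ) ≠ lt)
    (h : ∀ φ : Emb E P, φ.len 1 = m 1 → φ.len 2 = m 2 → φ.len 3 = m 3 → m lt ≤ φ.len lt) :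
    Spec.Holds E m ⟨P, lt⟩ := by
  intro φ h1 h2
  have e1 := h1 k1 hk1 (by simp only [hl1]; decide) (by simp only [hl1]; exact hne1)
  simp only [hl1] at e1
  have e2 := h1 k2 hk2 (by simp only [hl2]; decide) (by simp only [hl2]; exact hne2)
  simp only [hl2] at e2
  have e3 := h1 k3 hk3 (by simp only [hl3]; decide) (by simp only [hl3]; exact hne3)
  simp only [hl3] at e3
  have h3 := h φ e1 e2 e3
  have h4 := h2 hlt
  simp only at h4
  omega

/-- exact label 1, label 0 -/
theorem holds_0_1 {m : ℕ → ℕ} {P : Pat} (k1 : ℕ) (hk1 : k1 < P.m)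
    (hl1 : P.lab k1 = 1) (h : ¬ ∃ φ : Emb E P, φ.len 1 = m 1) : Spec.Holds E m ⟨P, 0⟩ := by
  intro φ h1 _
  have e1 := h1 k1 hk1 (by simp only [hl1]; decide) (by simp only [hl1]; decide)
  simp only [hl1] at e1
  exact h ⟨φ, e1⟩

theorem holds_0_12 {m : ℕ → ℕ} {P : Pat} (k1 k2 : ℕ) (hk1 : k1 < P.m)
    (hl1 : P.lab k1 = 1) (hk2 : k2 < P.m) (hl2 : P.lab k2 = 2)
    (h : ¬ ∃ φ : Emb E P, φ.len 1 = m 1 ∧ φ.len 2 = m 2) : Spec.Holds E m ⟨P, 0⟩ := by
  intro φ h1 _
  have e1 := h1 k1 hk1 (by simp only [hl1]; decide) (by simp only [hl1]; decide)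
  simp only [hl1] at e1
  have e2 := h1 k2 hk2 (by simp only [hl2]; decide) (by simp only [hl2]; decide)
  simp only [hl2] at e2
  exact h ⟨φ, e1, e2⟩

/-- existence of a weak structure -/
theorem weak_exists (hS : StmtSound) (hR : StmtRestrict) (hE : ∀ x, ¬ E x x)
    (hN : NoSep E 2) (hP4 : ¬ Nonempty (Emb E patP4)) (htri : Nonempty (Emb E patTRIu)) :
    Nonempty (Emb E patW1u) ∨ Nonempty (Emb E patW2u) ∨ Nonempty (Emb E patSu) := by
  by_contra hno
  rw [not_or, not_or] at hno
  obtain ⟨hW1, hW2, hSu⟩ := hno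
  obtain ⟨φ0⟩ := htri
  obtain ⟨φ1, _⟩ := relabel (P' := patTRI) (by decide) φ0
  obtain ⟨φ, -, hφ⟩ := exists_min_of (α := Emb E patTRI) (fun _ => True) (fun φ => φ.len 1)
    ⟨φ1, trivial⟩
  -- the second structure
  have hTP : ∃ χ : Emb E patTRIPu, χ.len 1 = φ.len 1 := by
    by_contra hTP
    refine run_false hS hR (fun _ => φ.len 1) hE hN specsA nodesA patTRI
      ⟨[0, 1, 2], [[0], [1], [2], [3]]⟩ okA (by decide) (by decide +kernel) ?_ φ ?_
    · intro s hs
      simp only [specsA, List.mem_cons, List.not_mem_nil, or_false] at hs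
      rcases hs with rfl | rfl | rfl | rfl | rfl | rfl
      · exact holds_of_not hP4
      · exact holds_of_not hW1
      · exact holds_of_not hW2
      · exact holds_of_not hSu
      · exact holds_lt1 (fun ψ => hφ ψ trivial)
      · exact holds_0_1 2 (by decide) (by decide) hTP
    · intro k hk h0
      have : ∀ k < patTRI.m, patTRI.lab k ≠ 0 → patTRI.lab k = 1 := by decide
      rw [this k hk h0]
  obtain ⟨χ0, hχ0⟩ := hTP
  obtain ⟨χ1, hχ1⟩ := relabel (P' := patTRIP) (by decide) χ0
  have hχ11 : χ1.len 1 = φ.len 1 := (hχ1 1 (by decide)).trans hχ0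
  obtain ⟨χ, hχe, hχ⟩ := exists_min_of (α := Emb E patTRIP) (fun χ => χ.len 1 = φ.len 1)
    (fun χ => χ.len 4) ⟨χ1, hχ11⟩
  refine run_false hS hR (fun l => if l = 1 then φ.len 1 else χ.len 4) hE hN specsB nodesB
    patTRIP ⟨[0, 1, 2], [[0], [1], [2], [3], [4]]⟩ okB (by decide) (by decide +kernel) ?_ χ ?_
  · intro s hs
    simp only [specsB, List.mem_cons, List.not_mem_nil, or_false] at hs
    rcases hs with rfl | rfl | rfl | rfl | rfl | rfl
    · exact holds_of_not hP4
    · exact holds_of_not hW1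
    · exact holds_of_not hW2
    · exact holds_of_not hSu
    · exact holds_lt1 (fun ψ => hφ ψ trivial)
    · exact holds_lt_1 (by decide) 2 (by decide) (by decide) (by decide)
        (fun ψ h1 => hχ ψ h1)
  · intro k hk h0
    have : ∀ k < patTRIP.m, patTRIP.lab k ≠ 0 → patTRIP.lab k = 1 ∨ patTRIP.lab k = 4 := by
      decide
    rcases this k hk h0 with h | h
    · rw [h]; exact hχe
    · rw [h]; rfl

/-- Case 1 -/
theorem case1 (hS : StmtSound) (hR : StmtRestrict) (hX : StmtExit) (hE : ∀ x, ¬ E x x)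
    (hN : NoSep E 2) (hst : StrongOn E Set.univ) (hP4 : ¬ Nonempty (Emb E patP4)) (m1 : ℕ)
    (hm1 : ∀ φ : Emb E patW1, m1 ≤ φ.len 1) (hm2 : ∀ φ : Emb E patW2, m1 ≤ φ.len 1)
    (hm3 : ∀ φ : Emb E patS, m1 ≤ φ.len 1) (φ0 : Emb E patS) (hφ0 : φ0.len 1 = m1) :
    False := by
  obtain ⟨φ1, hφ1⟩ := relabel (P' := patS2) (by decide) φ0
  have hφ11 : φ1.len 1 = m1 := (hφ1 1 (by decide)).trans hφ0
  obtain ⟨φ, hφe, hφ⟩ := exists_min_of (α := Emb E patS2) (fun χ => χ.len 1 = m1)
    (fun χ => χ.len 2) ⟨φ1, hφ11⟩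
  obtain ⟨P1, hP1, ψ1, hψ1, hψ2⟩ := emb_S3 hR hX hst φ
  obtain ⟨⟨P, ψ⟩, ⟨hP, hψa, hψb⟩, hmin⟩ := exists_min_of (α := Σ P : Pat, Emb E P)
    (fun χ => χ.1 ∈ s3 ∧ χ.2.len 1 = m1 ∧ χ.2.len 2 = φ.len 2)
    (fun χ => χ.2.len 3) ⟨⟨P1, ψ1⟩, hP1, hψ1.trans hφe, hψ2⟩
  simp only at hP hψa hψb hmin
  let m : ℕ → ℕ := fun l => if l = 1 then m1 else if l = 2 then φ.len 2 else ψ.len 3
  have hm3' : ∀ Q ∈ s3, ∀ χ : Emb E Q, χ.len 1 = m 1 → χ.len 2 = m 2 → m 3 ≤ χ.len 3 := by
    intro Q hQ χ h1 h2
    exact hmin ⟨Q, χ⟩ ⟨hQ, h1, h2⟩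
  have hspec : ∀ s ∈ specsE1, s.Holds E m := by
    intro s hs
    simp only [specsE1, List.mem_cons, List.not_mem_nil, or_false] at hs
    rcases hs with rfl | rfl | rfl | rfl | rfl | rfl | rfl | rfl | rfl | rfl | rfl | rfl | rfl
    · exact holds_of_not hP4
    · exact holds_lt1 hm1
    · exact holds_lt1 hm2
    · exact holds_lt1 hm3
    · exact holds_lt_1 (by decide) 3 (by decide) (by decide) (by decide)
        (fun χ h1 => hφ χ h1)
    · exact holds_lt_12 (by decide) 2 0 (by decide) (by decide) (by decide) (by decide)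
        (by decide) (by decide) (hm3' patS3x1 (by decide))
    · exact holds_lt_12 (by decide) 2 0 (by decide) (by decide) (by decide) (by decide)
        (by decide) (by decide) (hm3' patS3y1 (by decide))
    · exact holds_lt_12 (by decide) 2 0 (by decide) (by decide) (by decide) (by decide)
        (by decide) (by decide) (hm3' patS3b1 (by decide))
    · exact holds_lt_12 (by decide) 3 0 (by decide) (by decide) (by decide) (by decide)
        (by decide) (by decide) (hm3' patS3I (by decide))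
    · exact holds_lt_12 (by decide) 3 0 (by decide) (by decide) (by decide) (by decide)
        (by decide) (by decide) (hm3' patS3J (by decide))
    · exact holds_lt_12 (by decide) 2 0 (by decide) (by decide) (by decide) (by decide)
        (by decide) (by decide) (hm3' patS3R (by decide))
    · exact holds_lt_12 (by decide) 2 0 (by decide) (by decide) (by decide) (by decide)
        (by decide) (by decide) (hm3' patS3P (by decide))
    · exact holds_lt_12 (by decide) 2 0 (by decide) (by decide) (by decide) (by decide)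
        (by decide) (by decide) (hm3' patS3L (by decide))
  have hex : ∀ k < P.m, P.lab k ≠ 0 → ψ.len (P.lab k) = m (P.lab k) := by
    intro k hk h0
    have hlabs : ∀ Q ∈ s3, ∀ k < Q.m, Q.lab k ≠ 0 → Q.lab k = 1 ∨ Q.lab k = 2 ∨ Q.lab k = 3 := by
      decide
    rcases hlabs P hP k hk h0 with h | h | h
    · rw [h]; exact hψa
    · rw [h]; exact hψb
    · rw [h]; rfl
  simp only [s3, List.mem_cons, List.not_mem_nil, or_false] at hP
  rcases hP with rfl | rfl | rfl | rfl | rfl | rfl | rfl | rfl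
  · exact run_false hS hR m hE hN specsE1 nodesS3x1 patS3x1
      ⟨[1, 0, 3, 2], [[1], [0], [5], [2], [6], [3], [4]]⟩ okS3x1 (by decide)
      (by decide +kernel) hspec ψ hex
  · exact run_false hS hR m hE hN specsE1 nodesS3y1 patS3y1
      ⟨[1, 0, 3, 2], [[1], [5], [0], [2], [6], [3], [4]]⟩ okS3y1 (by decide)
      (by decide +kernel) hspec ψ hex
  · exact run_false hS hR m hE hN specsE1 nodesS3b1 patS3b1
      ⟨[1, 0, 3, 2], [[1], [0], [2], [6], [3], [5], [4]]⟩ okS3b1 (by decide)
      (by decide +kernel) hspec ψ hex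
  · exact run_false hS hR m hE hN specsE1 nodesS3I patS3I
      ⟨[2, 0, 1, 4, 3], [[2], [0], [3], [1], [6], [7], [4], [5]]⟩ okS3I (by decide)
      (by decide +kernel) hspec ψ hex
  · exact run_false hS hR m hE hN specsE1 nodesS3J patS3J
      ⟨[1, 2, 0, 4, 3], [[1], [2], [6], [0], [3], [7], [4], [5]]⟩ okS3J (by decide)
      (by decide +kernel) hspec ψ hex
  · exact run_false hS hR m hE hN specsE1 nodesS3R patS3R
      ⟨[1, 0, 2, 4, 3], [[1], [0], [2], [6], [3], [7], [4], [5]]⟩ okS3R (by decide)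
      (by decide +kernel) hspec ψ hex
  · exact run_false hS hR m hE hN specsE1 nodesS3P patS3P
      ⟨[1, 3, 0, 4, 2], [[1], [4], [6], [0], [2], [7], [3], [5]]⟩ okS3P (by decide)
      (by decide +kernel) hspec ψ hex
  · exact run_false hS hR m hE hN specsE1 nodesS3L patS3L
      ⟨[1, 2, 3, 0, 4], [[1], [3], [4], [5], [6], [0], [2], [7]]⟩ okS3L (by decide)
      (by decide +kernel) hspec ψ hex

/-- Case 2 -/
theorem case2 (hS : StmtSound) (hR : StmtRestrict) (hE : ∀ x, ¬ E x x)
    (hN : NoSep E 2) (hP4 : ¬ Nonempty (Emb E patP4)) (m1 : ℕ)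
    (hm1 : ∀ φ : Emb E patW1, m1 ≤ φ.len 1) (hm2 : ∀ φ : Emb E patW2, m1 ≤ φ.len 1)
    (hm3 : ∀ φ : Emb E patS, m1 ≤ φ.len 1) (hnoS : ¬ ∃ φ : Emb E patS, φ.len 1 = m1)
    (hW : (∃ φ : Emb E patW1, φ.len 1 = m1) ∨ (∃ φ : Emb E patW2, φ.len 1 = m1)) :
    False := by
  -- structure with the path J
  have hJ : (∃ φ : Emb E patWJ1u, φ.len 1 = m1) ∨ (∃ φ : Emb E patWJ2u, φ.len 1 = m1) := by
    by_contra hJ
    rw [not_or] at hJ
    obtain ⟨hJ1, hJ2⟩ := hJ
    have hspec : ∀ s ∈ specsC, s.Holds E (fun _ => m1) := by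
      intro s hs
      simp only [specsC, List.mem_cons, List.not_mem_nil, or_false] at hs
      rcases hs with rfl | rfl | rfl | rfl | rfl | rfl | rfl
      · exact holds_of_not hP4
      · exact holds_lt1 hm1
      · exact holds_lt1 hm2
      · exact holds_lt1 hm3
      · exact holds_0_1 3 (by decide) (by decide) hnoS
      · exact holds_0_1 4 (by decide) (by decide) hJ1
      · exact holds_0_1 3 (by decide) (by decide) hJ2
    rcases hW with ⟨φ, hφ⟩ | ⟨φ, hφ⟩
    · refine run_false hS hR (fun _ => m1) hE hN specsC nodesC1 patW1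
        ⟨[0, 1, 2, 3, 4], [[0], [1], [2], [3], [4], [5], [6]]⟩ okC1 (by decide)
        (by decide +kernel) hspec φ ?_
      intro k hk h0
      have : ∀ k < patW1.m, patW1.lab k ≠ 0 → patW1.lab k = 1 := by decide
      rw [this k hk h0]; exact hφ
    · refine run_false hS hR (fun _ => m1) hE hN specsC nodesC2 patW2
        ⟨[0, 1, 2, 3], [[0], [1], [2], [3], [4], [5]]⟩ okC2 (by decide)
        (by decide +kernel) hspec φ ?_
      intro k hk h0
      have : ∀ k < patW2.m, patW2.lab k ≠ 0 → patW2.lab k = 1 := by decide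
      rw [this k hk h0]; exact hφ
  -- label 2
  have hJ' : ∃ χ : Σ P : Pat, Emb E P, (χ.1 = patWJ1a ∨ χ.1 = patWJ2a) ∧ χ.2.len 1 = m1 := by
    rcases hJ with ⟨φ, hφ⟩ | ⟨φ, hφ⟩
    · obtain ⟨ψ, hψ⟩ := relabel (P' := patWJ1a) (by decide) φ
      exact ⟨⟨patWJ1a, ψ⟩, Or.inl rfl, (hψ 1 (by decide)).trans hφ⟩
    · obtain ⟨ψ, hψ⟩ := relabel (P' := patWJ2a) (by decide) φ
      exact ⟨⟨patWJ2a, ψ⟩, Or.inr rfl, (hψ 1 (by decide)).trans hφ⟩
  obtain ⟨⟨P, ψ⟩, ⟨hP, hψ1⟩, hmin⟩ := exists_min_of (α := Σ P : Pat, Emb E P)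
    (fun χ => (χ.1 = patWJ1a ∨ χ.1 = patWJ2a) ∧ χ.2.len 1 = m1) (fun χ => χ.2.len 2) hJ'
  simp only at hP hψ1 hmin
  obtain ⟨m2, hm2e⟩ : ∃ m2, ψ.len 2 = m2 := ⟨_, rfl⟩
  have hmin1 : ∀ φ : Emb E patWJ1a, φ.len 1 = m1 → m2 ≤ φ.len 2 := fun φ h =>
    hm2e ▸ hmin ⟨patWJ1a, φ⟩ ⟨Or.inl rfl, h⟩
  have hmin2 : ∀ φ : Emb E patWJ2a, φ.len 1 = m1 → m2 ≤ φ.len 2 := fun φ h =>
    hm2e ▸ hmin ⟨patWJ2a, φ⟩ ⟨Or.inr rfl, h⟩
  by_cases h2a : ∃ φ : Emb E patWJ2a, φ.len 1 = m1 ∧ φ.len 2 = m2
  · -- Case 2a
    obtain ⟨φ0, h01, h02⟩ := h2a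
    obtain ⟨φ1, hφ1⟩ := relabel (P' := patWJ2b) (by decide) φ0
    obtain ⟨φ, ⟨hφa, hφb⟩, hφ⟩ := exists_min_of (α := Emb E patWJ2b)
      (fun χ => χ.len 1 = m1 ∧ χ.len 2 = m2) (fun χ => χ.len 4)
      ⟨φ1, (hφ1 1 (by decide)).trans h01, (hφ1 2 (by decide)).trans h02⟩
    refine run_false hS hR (fun l => if l = 1 then m1 else if l = 2 then m2 else φ.len 4)
      hE hN specsD nodesD patWJ2b ⟨[0, 1, 2, 3], [[0], [1], [2], [3], [4], [5], [6]]⟩ okD
      (by decide) (by decide +kernel) ?_ φ ?_
    · intro s hs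
      simp only [specsD, List.mem_cons, List.not_mem_nil, or_false] at hs
      rcases hs with rfl | rfl | rfl | rfl | rfl | rfl | rfl | rfl
      · exact holds_of_not hP4
      · exact holds_lt1 hm1
      · exact holds_lt1 hm2
      · exact holds_lt1 hm3
      · exact holds_0_1 3 (by decide) (by decide) hnoS
      · exact holds_lt_1 (by decide) 4 (by decide) (by decide) (by decide) hmin1
      · exact holds_lt_1 (by decide) 3 (by decide) (by decide) (by decide) hmin2
      · exact holds_lt_12 (by decide) 3 1 (by decide) (by decide) (by decide) (by decide)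
          (by decide) (by decide) (fun χ h1 h2 => hφ χ ⟨h1, h2⟩)
    · intro k hk h0
      have : ∀ k < patWJ2b.m, patWJ2b.lab k ≠ 0 →
          patWJ2b.lab k = 1 ∨ patWJ2b.lab k = 2 ∨ patWJ2b.lab k = 4 := by decide
      rcases this k hk h0 with h | h | h
      · rw [h]; exact hφa
      · rw [h]; exact hφb
      · rw [h]; rfl
  · -- Case 2b
    have hex1 : ∃ φ : Emb E patWJ1a, φ.len 1 = m1 ∧ φ.len 2 = m2 := by
      rcases hP with rfl | rfl
      · exact ⟨ψ, hψ1, hm2e⟩
      · exact absurd ⟨ψ, hψ1, hm2e⟩ h2a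
    obtain ⟨φ0, h01, h02⟩ := hex1
    obtain ⟨φ1, hφ1⟩ := relabel (P' := patWJ1b) (by decide) φ0
    obtain ⟨φ, ⟨hφa, hφb⟩, hφ⟩ := exists_min_of (α := Emb E patWJ1b)
      (fun χ => χ.len 1 = m1 ∧ χ.len 2 = m2) (fun χ => χ.len 3)
      ⟨φ1, (hφ1 1 (by decide)).trans h01, (hφ1 2 (by decide)).trans h02⟩
    obtain ⟨χ1, hχ1⟩ := relabel (P' := patWJ1c) (by decide) φ
    obtain ⟨χ, ⟨hχa, hχb, hχc⟩, hχ⟩ := exists_min_of (α := Emb E patWJ1c)
      (fun χ => χ.len 1 = m1 ∧ χ.len 2 = m2 ∧ χ.len 3 = φ.len 3) (fun χ => χ.len 4)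
      ⟨χ1, (hχ1 1 (by decide)).trans hφa, (hχ1 2 (by decide)).trans hφb,
        hχ1 3 (by decide)⟩
    refine run_false hS hR (fun l => if l = 1 then m1 else if l = 2 then m2 else
      if l = 3 then φ.len 3 else χ.len 4) hE hN specsE2 nodesE2 patWJ1c
      ⟨[1, 3, 0, 2, 4], [[1], [5], [3], [0], [4], [2], [6], [7]]⟩ okE2
      (by decide) (by decide +kernel) ?_ χ ?_
    · intro s hs
      simp only [specsE2, List.mem_cons, List.not_mem_nil, or_false] at hs
      rcases hs with rfl | rfl | rfl | rfl | rfl | rfl | rfl | rfl | rfl | rfl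
      · exact holds_of_not hP4
      · exact holds_lt1 hm1
      · exact holds_lt1 hm2
      · exact holds_lt1 hm3
      · exact holds_0_1 3 (by decide) (by decide) hnoS
      · exact holds_lt_1 (by decide) 4 (by decide) (by decide) (by decide) hmin1
      · exact holds_lt_1 (by decide) 3 (by decide) (by decide) (by decide) hmin2
      · exact holds_0_12 3 1 (by decide) (by decide) (by decide) (by decide) h2a
      · exact holds_lt_12 (by decide) 4 2 (by decide) (by decide) (by decide) (by decide)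
          (by decide) (by decide) (fun χ h1 h2 => hφ χ ⟨h1, h2⟩)
      · exact holds_lt_123 (by decide) 4 2 0 (by decide) (by decide) (by decide) (by decide)
          (by decide) (by decide) (by decide) (by decide) (by decide)
          (fun ξ h1 h2 h3 => hχ ξ ⟨h1, h2, h3⟩)
    · intro k hk h0
      have : ∀ k < patWJ1c.m, patWJ1c.lab k ≠ 0 → patWJ1c.lab k = 1 ∨ patWJ1c.lab k = 2 ∨
          patWJ1c.lab k = 3 ∨ patWJ1c.lab k = 4 := by decide
      rcases this k hk h0 with h | h | h | h
      · rw [h]; exact hχa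
      · rw [h]; exact hχb
      · rw [h]; exact hχc
      · rw [h]; rfl

end

theorem strong (hS : StmtSound) (hR : StmtRestrict) (hX : StmtExit) (hNS : StmtNoSep)
    (hT : StmtThree) : StmtStrong := by
  intro V _ _ E hne hE hst hout
  by_contra hP4
  have hN : NoSep E 2 := hNS V E hE hst (fun v => by
    obtain ⟨F, h1, h2⟩ := hout v
    exact ⟨F, by omega, h2⟩) hP4
  have htri : Nonempty (Emb E patTRIu) := by
    obtain ⟨φ⟩ := emb_CCC (hT V E hne hE hout)
    exact emb_TRIu hR hX hst φ
  have hweak := weak_exists hS hR hE hN hP4 htri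
  have hw : ∃ χ : Σ P : Pat, Emb E P, (χ.1 = patW1 ∨ χ.1 = patW2 ∨ χ.1 = patS) := by
    rcases hweak with hφ | hφ | hφ
    · obtain ⟨φ⟩ := hφ
      obtain ⟨ψ, _⟩ := relabel (P' := patW1) (by decide) φ
      exact ⟨⟨patW1, ψ⟩, Or.inl rfl⟩
    · obtain ⟨φ⟩ := hφ
      obtain ⟨ψ, _⟩ := relabel (P' := patW2) (by decide) φ
      exact ⟨⟨patW2, ψ⟩, Or.inr (Or.inl rfl)⟩
    · obtain ⟨φ⟩ := hφ
      obtain ⟨ψ, _⟩ := relabel (P' := patS) (by decide) φ
      exact ⟨⟨patS, ψ⟩, Or.inr (Or.inr rfl)⟩
  obtain ⟨⟨P, ψ⟩, hP, hmin⟩ := exists_min_of (α := Σ P : Pat, Emb E P)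
    (fun χ => χ.1 = patW1 ∨ χ.1 = patW2 ∨ χ.1 = patS) (fun χ => χ.2.len 1) hw
  simp only at hP hmin
  obtain ⟨m1, hm1⟩ : ∃ m1, ψ.len 1 = m1 := ⟨_, rfl⟩
  rw [hm1] at hmin
  have ha : ∀ φ : Emb E patW1, m1 ≤ φ.len 1 := fun φ => hmin ⟨patW1, φ⟩ (Or.inl rfl)
  have hb : ∀ φ : Emb E patW2, m1 ≤ φ.len 1 := fun φ => hmin ⟨patW2, φ⟩ (Or.inr (Or.inl rfl))
  have hc : ∀ φ : Emb E patS, m1 ≤ φ.len 1 := fun φ => hmin ⟨patS, φ⟩ (Or.inr (Or.inr rfl))
  by_cases hSex : ∃ φ : Emb E patS, φ.len 1 = m1
  · obtain ⟨φ, hφ⟩ := hSex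
    exact case1 hS hR hX hE hN hst hP4 m1 ha hb hc φ hφ
  · refine case2 hS hR hE hN hP4 m1 ha hb hc hSex ?_
    rcases hP with rfl | rfl | rfl
    · exact Or.inl ⟨ψ, hm1⟩
    · exact Or.inr ⟨ψ, hm1⟩
    · exact absurd ⟨ψ, hm1⟩ hSex

end BiP4

end
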